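import Mathlib

/-!
# MP_5b01b8_co (TW), module Av: averaging operators

`av S E n t x` is the probability of the event `E` if, starting from the sequence `x`, the
coordinates `t, t + 1, ..., t + n - 1` are chosen one after the other, the coordinate `i`
uniformly in the set `S i (present sequence)`.
-/

set_option autoImplicit false

namespace Pool.Agent.OrdTW

open Finset

open Classical in
/-- averaging operator -/
noncomputable def av (S : ℕ → (ℕ → ℕ) → Finset ℕ) (E : Set (ℕ → ℕ)) : ℕ → ℕ → (ℕ → ℕ) → ℝ
  | 0, _, x => if x ∈ E then 1 else 0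
  | n + 1, t, x => (∑ y ∈ S t x, av S E n (t + 1) (Function.update x t y)) / (S t x).card

/-- the first `t` coordinates of `x` are allowed -/
def IsCh (S : ℕ → (ℕ → ℕ) → Finset ℕ) (t : ℕ) (x : ℕ → ℕ) : Prop := ∀ i < t, x i ∈ S i x

/-- `S` has memory `M` : the set `S t x` depends only on the coordinates `t - M, ..., t - 1` -/
def Mem (S : ℕ → (ℕ → ℕ) → Finset ℕ) (M : ℕ) : Prop :=
  ∀ t x x', (∀ i < t, t ≤ i + M → x i = x' i) → S t x = S t x'

variable {S : ℕ → (ℕ → ℕ) → Finset ℕ}

theorem av_nonneg (E : Set (ℕ → ℕ)) (n t : ℕ) (x : ℕ → ℕ) : 0 ≤ av S E n t x := by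
  induction n generalizing t x with
  | zero =>
    unfold av
    split_ifs <;> norm_num
  | succ n ih =>
    unfold av
    exact div_nonneg (sum_nonneg fun y _ => ih _ _) (Nat.cast_nonneg _)

theorem av_le_one (E : Set (ℕ → ℕ)) (n t : ℕ) (x : ℕ → ℕ) : av S E n t x ≤ 1 := by
  induction n generalizing t x with
  | zero =>
    unfold av
    split_ifs <;> norm_num
  | succ n ih =>
    unfold av
    refine div_le_one_of_le₀ ?_ (Nat.cast_nonneg _)
    calc ∑ y ∈ S t x, av S E n (t + 1) (Function.update x t y)
        ≤ ∑ y ∈ S t x, (1 : ℝ) := sum_le_sum fun y _ => ih _ _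
      _ = (S t x).card := by rw [sum_const, nsmul_eq_mul, mul_one]

theorem av_mono {E E' : Set (ℕ → ℕ)} (h : E ⊆ E') (n t : ℕ) (x : ℕ → ℕ) :
    av S E n t x ≤ av S E' n t x := by
  induction n generalizing t x with
  | zero =>
    unfold av
    by_cases hx : x ∈ E
    · rw [if_pos hx, if_pos (h hx)]
    · rw [if_neg hx]
      split_ifs <;> norm_num
  | succ n ih =>
    unfold av
    exact div_le_div_of_nonneg_right (sum_le_sum fun y _ => ih _ _) (Nat.cast_nonneg _)

theorem av_union (E E' : Set (ℕ → ℕ)) (n t : ℕ) (x : ℕ → ℕ) :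
    av S (E ∪ E') n t x ≤ av S E n t x + av S E' n t x := by
  induction n generalizing t x with
  | zero =>
    unfold av
    by_cases h1 : x ∈ E
    · rw [if_pos h1, if_pos (Set.mem_union_left _ h1)]
      split_ifs <;> norm_num
    · by_cases h2 : x ∈ E'
      · rw [if_pos h2, if_pos (Set.mem_union_right _ h2), if_neg h1]
        norm_num
      · rw [if_neg h1, if_neg h2, if_neg (fun h : x ∈ E ∪ E' => h.elim h1 h2)]
        norm_num
  | succ n ih =>
    unfold av
    rw [← add_div, ← sum_add_distrib]
    exact div_le_div_of_nonneg_right (sum_le_sum fun y _ => ih _ _) (Nat.cast_nonneg _)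

/-- disjoint events: induction on `n`, exchange the sums -/
theorem sum_av_le_one {ι : Type} (I : Finset ι) (F : ι → Set (ℕ → ℕ))
    (hF : ∀ i ∈ I, ∀ j ∈ I, i ≠ j → Disjoint (F i) (F j)) (n t : ℕ) (x : ℕ → ℕ) :
    ∑ i ∈ I, av S (F i) n t x ≤ 1 := by
  induction n generalizing t x with
  | zero =>
    unfold av
    by_cases h : ∃ i ∈ I, x ∈ F i
    · obtain ⟨i, hi, hx⟩ := h
      rw [sum_eq_single i]
      · rw [if_pos hx]
      · intro j hj hji
        exact if_neg fun hxj => Set.disjoint_left.1 (hF j hj i hi hji) hxj hx
      · exact fun h => absurd hi h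
    · rw [sum_eq_zero]
      · norm_num
      · intro i hi
        exact if_neg fun hx => h ⟨i, hi, hx⟩
  | succ n ih =>
    unfold av
    rw [← sum_div, sum_comm]
    refine div_le_one_of_le₀ ?_ (Nat.cast_nonneg _)
    calc ∑ y ∈ S t x, ∑ i ∈ I, av S (F i) n (t + 1) (Function.update x t y)
        ≤ ∑ y ∈ S t x, (1 : ℝ) := sum_le_sum fun y _ => ih _ _
      _ = (S t x).card := by rw [sum_const, nsmul_eq_mul, mul_one]

/-- the coordinates below `t` are not changed -/
theorem av_restrict (E : Set (ℕ → ℕ)) (n t : ℕ) (x : ℕ → ℕ) :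
    av S E n t x = av S (E ∩ {z | ∀ i < t, z i = x i}) n t x := by
  induction n generalizing t x E with
  | zero =>
    unfold av
    have : x ∈ E ∩ {z | ∀ i < t, z i = x i} ↔ x ∈ E :=
      ⟨fun h => h.1, fun h => ⟨h, fun _ _ => rfl⟩⟩
    by_cases hx : x ∈ E
    · rw [if_pos hx, if_pos (this.2 hx)]
    · rw [if_neg hx, if_neg (fun h => hx (this.1 h))]
  | succ n ih =>
    unfold av
    congr 1
    refine sum_congr rfl fun y _ => ?_
    rw [ih E (t + 1) (Function.update x t y),
      ih (E ∩ {z | ∀ i < t, z i = x i}) (t + 1) (Function.update x t y)]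
    congr 1
    ext z
    constructor
    · rintro ⟨h1, h2⟩
      refine ⟨⟨h1, fun i hi => ?_⟩, h2⟩
      have h3 := h2 i (by omega)
      rwa [Function.update_of_ne (by omega)] at h3
    · rintro ⟨⟨h1, -⟩, h2⟩
      exact ⟨h1, h2⟩

/-- events which are independent of the coordinate `u`, and sets `S i` which are independent of
the coordinate `u` from `t` on -/
theorem av_indep {E : Set (ℕ → ℕ)} {u : ℕ} (hE : ∀ x y, Function.update x u y ∈ E ↔ x ∈ E)
    {n t : ℕ} (hut : u < t) (hS : ∀ i, t ≤ i → ∀ x y, S i (Function.update x u y) = S i x)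
    (x : ℕ → ℕ) (y : ℕ) : av S E n t (Function.update x u y) = av S E n t x := by
  induction n generalizing t x with
  | zero =>
    unfold av
    by_cases hx : x ∈ E
    · rw [if_pos hx, if_pos ((hE x y).2 hx)]
    · rw [if_neg hx, if_neg (fun h => hx ((hE x y).1 h))]
  | succ n ih =>
    unfold av
    rw [hS t (le_refl _)]
    congr 1
    refine sum_congr rfl fun z _ => ?_
    rw [Function.update_comm (by omega : u ≠ t)]
    exact ih (by omega) (fun i hi => hS i (by omega)) _

theorem IsCh.update {M : ℕ} (hM : Mem S M) {t : ℕ} {x : ℕ → ℕ} (hx : IsCh S t x) {y : ℕ}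
    (hy : y ∈ S t x) : IsCh S (t + 1) (Function.update x t y) := by
  intro i hi
  rcases Nat.lt_succ_iff_lt_or_eq.1 hi with h | h
  · rw [Function.update_of_ne h.ne]
    have h1 : S i (Function.update x t y) = S i x :=
      hM i _ _ fun k hk _ => Function.update_of_ne (by omega) _ _
    rw [h1]
    exact hx i h
  · rw [h, Function.update_self]
    have h1 : S t (Function.update x t y) = S t x :=
      hM t _ _ fun k hk _ => Function.update_of_ne (by omega) _ _
    rw [h1]
    exact hy

/-- the average over allowed sequences is at most the supremum -/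
theorem av_le_of_forall {M : ℕ} (hM : Mem S M) {E : Set (ℕ → ℕ)} {ε : ℝ} (hε : 0 ≤ ε) {n m : ℕ}
    {t : ℕ} {x : ℕ → ℕ} (hx : IsCh S t x)
    (h : ∀ x', (∀ i < t, x' i = x i) → IsCh S (t + n) x' → av S E m (t + n) x' ≤ ε) :
    av S E (n + m) t x ≤ ε := by
  induction n generalizing t x with
  | zero =>
    rw [Nat.zero_add]
    exact h x (fun _ _ => rfl) hx
  | succ n ih =>
    have hnm : n + 1 + m = n + m + 1 := by omega
    rw [hnm]
    unfold av
    have h1 : ∑ y ∈ S t x, av S E (n + m) (t + 1) (Function.update x t y) ≤
        (S t x).card * ε := by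
      calc ∑ y ∈ S t x, av S E (n + m) (t + 1) (Function.update x t y)
          ≤ ∑ y ∈ S t x, ε := by
            refine sum_le_sum fun y hy => ih (hx.update hM hy) fun x' hx' hc => ?_
            have h2 : t + 1 + n = t + (n + 1) := by omega
            rw [h2] at hc ⊢
            refine h x' (fun i hi => ?_) hc
            rw [hx' i (by omega), Function.update_of_ne (by omega)]
        _ = (S t x).card * ε := by rw [sum_const, nsmul_eq_mul]
    rcases Nat.eq_zero_or_pos (S t x).card with h0 | h0
    · rw [h0, Nat.cast_zero, div_zero]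
      exact hε
    · rw [div_le_iff₀ (by exact_mod_cast h0), mul_comm ε]
      exact h1

/-- the whole space has probability one if the sets `S i x` are not empty for allowed `x` -/
theorem av_allowed {M : ℕ} (hM : Mem S M) {n t : ℕ} {x : ℕ → ℕ} (hx : IsCh S t x)
    (h : ∀ i x', t ≤ i → i < t + n → IsCh S i x' → (S i x').Nonempty) :
    av S {z | IsCh S (t + n) z} n t x = 1 := by
  induction n generalizing t x with
  | zero =>
    unfold av
    exact if_pos hx
  | succ n ih =>
    unfold av
    have h0 : (0 : ℝ) < (S t x).card := by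
      exact_mod_cast card_pos.2 (h t x (le_refl _) (by omega) hx)
    rw [div_eq_one_iff_eq h0.ne']
    have h1 : ∀ y ∈ S t x, av S {z | IsCh S (t + (n + 1)) z} n (t + 1)
        (Function.update x t y) = 1 := by
      intro y hy
      have h2 : t + (n + 1) = t + 1 + n := by omega
      rw [h2]
      exact ih (hx.update hM hy) fun i x' hi1 hi2 hc => h i x' (by omega) (by omega) hc
    rw [sum_congr rfl h1, sum_const, nsmul_eq_mul, mul_one]

/-- comparison: in the steps `i < u` the sets `S i x` are replaced by the larger sets `V i`.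
Here `u ≤ t + m`, every step before `u` costs a factor `L` -/
theorem av_compare {V : ℕ → Finset ℕ} {M m : ℕ} {L : ℝ} (hM : Mem S M) (hL : 1 ≤ L)
    (hSV : ∀ i x, S i x ⊆ V i) {E : Set (ℕ → ℕ)} {n t u : ℕ} (hu : u ≤ t + m)
    (hc : ∀ i x, i < t + n → IsCh S i x → ((V i).card : ℝ) ≤ L * (S i x).card)
    {x : ℕ → ℕ} (hx : IsCh S t x) :
    av S E n t x ≤ L ^ m * av (fun i z => if i < u then V i else S i z) E n t x := by
  induction n generalizing t m x with
  | zero =>
    unfold av
    have h1 : (1 : ℝ) ≤ L ^ m := one_le_pow₀ hL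
    split_ifs
    · linarith
    · linarith
  | succ n ih =>
    have hc' : ∀ i x, i < t + 1 + n → IsCh S i x → ((V i).card : ℝ) ≤ L * (S i x).card :=
      fun i x hi hx => hc i x (by omega) hx
    rcases lt_or_ge t u with htu | htu
    · obtain ⟨k, rfl⟩ : ∃ k, m = k + 1 := ⟨m - 1, by omega⟩
      have hLk : (0 : ℝ) ≤ L ^ k := pow_nonneg (by linarith) _
      have h1 : ∀ y ∈ S t x, av S E n (t + 1) (Function.update x t y) ≤
          L ^ k * av (fun i z => if i < u then V i else S i z) E n (t + 1)
            (Function.update x t y) :=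
        fun y hy => ih (by omega) hc' (hx.update hM hy)
      have h2 : av S E (n + 1) t x = (∑ y ∈ S t x, av S E n (t + 1)
        (Function.update x t y)) / (S t x).card := rfl
      have h3 : av (fun i z => if i < u then V i else S i z) E (n + 1) t x =
          (∑ y ∈ V t, av (fun i z => if i < u then V i else S i z) E n (t + 1)
            (Function.update x t y)) / (V t).card := by
        have h4 : (if t < u then V t else S t x) = V t := if_pos htu
        change (∑ y ∈ (if t < u then V t else S t x),
          av (fun i z => if i < u then V i else S i z) E n (t + 1)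
            (Function.update x t y)) / ((if t < u then V t else S t x).card : ℝ) = _
        rw [h4]
      rw [h2, h3]
      obtain ⟨A, hA⟩ : ∃ A : ℝ, A = ∑ y ∈ V t,
        av (fun i z => if i < u then V i else S i z) E n (t + 1)
            (Function.update x t y) := ⟨_, rfl⟩
      rw [← hA]
      have hA0 : 0 ≤ A := by
        rw [hA]
        exact sum_nonneg fun y _ => av_nonneg _ _ _ _
      have h5 : ∑ y ∈ S t x, av S E n (t + 1) (Function.update x t y) ≤ L ^ k * A := by
        calc ∑ y ∈ S t x, av S E n (t + 1) (Function.update x t y)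
            ≤ ∑ y ∈ S t x, L ^ k * av (fun i z => if i < u then V i else S i z) E n (t + 1)
              (Function.update x t y) := sum_le_sum h1
          _ = L ^ k * ∑ y ∈ S t x, av (fun i z => if i < u then V i else S i z) E n (t + 1)
              (Function.update x t y) := by rw [mul_sum]
          _ ≤ L ^ k * A := by
              refine mul_le_mul_of_nonneg_left ?_ hLk
              rw [hA]
              exact sum_le_sum_of_subset_of_nonneg (hSV t x) fun y _ _ => av_nonneg _ _ _ _
      have hcard := hc t x (by omega) hx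
      rcases Nat.eq_zero_or_pos (S t x).card with h0 | h0
      · rw [h0, Nat.cast_zero, div_zero]
        exact mul_nonneg (pow_nonneg (by linarith) _) (div_nonneg hA0 (Nat.cast_nonneg _))
      · have h0' : (0 : ℝ) < (S t x).card := by exact_mod_cast h0
        have hV0 : (0 : ℝ) < (V t).card := by
          exact_mod_cast lt_of_lt_of_le h0 (card_le_card (hSV t x))
        rw [div_le_iff₀ h0']
        refine h5.trans ?_
        have h6 : L ^ (k + 1) * (A / (V t).card) * (S t x).card =
            L ^ k * A * (L * (S t x).card / (V t).card) := by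
          rw [pow_succ]
          ring
        rw [h6]
        refine le_mul_of_one_le_right (mul_nonneg hLk hA0) ?_
        rw [one_le_div hV0]
        exact hcard
    · have h2 : av S E (n + 1) t x = (∑ y ∈ S t x, av S E n (t + 1)
        (Function.update x t y)) / (S t x).card := rfl
      have h3 : av (fun i z => if i < u then V i else S i z) E (n + 1) t x =
          (∑ y ∈ S t x, av (fun i z => if i < u then V i else S i z) E n (t + 1)
            (Function.update x t y)) / (S t x).card := by
        have h4 : (if t < u then V t else S t x) = S t x := if_neg (not_lt.2 htu)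
        change (∑ y ∈ (if t < u then V t else S t x),
          av (fun i z => if i < u then V i else S i z) E n (t + 1)
            (Function.update x t y)) / ((if t < u then V t else S t x).card : ℝ) = _
        rw [h4]
      rw [h2, h3, ← mul_div_assoc, mul_sum]
      exact div_le_div_of_nonneg_right
        (sum_le_sum fun y hy => ih (by omega) hc' (hx.update hM hy)) (Nat.cast_nonneg _)

end Pool.Agent.OrdTW
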