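import Mathlib
import Pool.Agent.Lib.MP_5b01b8_co_TW.Av

/-!
# MP_5b01b8_co (TW), module Anti: antichains are rare
-/

set_option autoImplicit false

namespace Pool.Agent.OrdTW

open Finset

/-- `E` contains no two sequences which agree below `t` and are strictly increasing in all the
coordinates from `t` to `H - 1` -/
def AC (H t : ℕ) (E : Set (ℕ → ℕ)) : Prop :=
  ∀ z ∈ E, ∀ z' ∈ E, (∀ i < t, z i = z' i) → ¬ ∀ i, t ≤ i → i < H → z i < z' i

private def AU (t v : ℕ) (E : Set (ℕ → ℕ)) : Set (ℕ → ℕ) :=
  {w | ∃ u < v, Function.update w t u ∈ E}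

private def AF (t v : ℕ) (E : Set (ℕ → ℕ)) : Set (ℕ → ℕ) :=
  {w | w ∉ AU t v E ∧ Function.update w t v ∈ E}

private def AE (t v : ℕ) (E : Set (ℕ → ℕ)) : Set (ℕ → ℕ) :=
  {z | z ∈ E ∧ z t = v ∧ z ∈ AU t v E}

private theorem mem_AF_update (t v : ℕ) (E : Set (ℕ → ℕ)) (x : ℕ → ℕ) (y : ℕ) :
    Function.update x t y ∈ AF t v E ↔ x ∈ AF t v E := by
  simp only [AF, AU, Set.mem_ofPred_eq, Function.update_idem]

private theorem disj_AF (t : ℕ) (E : Set (ℕ → ℕ)) {v v' : ℕ} (h : v ≠ v') :
    Disjoint (AF t v E) (AF t v' E) := by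
  rw [Set.disjoint_left]
  intro w hw hw'
  rcases lt_or_gt_of_ne h with h1 | h1
  · exact hw'.1 ⟨v, h1, hw.2⟩
  · exact hw.1 ⟨v', h1, hw'.2⟩

private theorem ac_AE {H t v : ℕ} {E : Set (ℕ → ℕ)} (hE : AC H t E) :
    AC H (t + 1) (AE t v E) := by
  intro z hz z' hz' h h1
  obtain ⟨u, hu, hu'⟩ := hz.2.2
  refine hE _ hu' z' hz'.1 ?_ ?_
  · intro i hi
    rw [Function.update_of_ne (by omega)]
    exact h i (by omega)
  · intro i hi hi'
    by_cases h2 : i = t
    · subst h2
      rw [Function.update_self, hz'.2.1]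
      exact hu
    · rw [Function.update_of_ne h2]
      exact h1 i (by omega) hi'

private theorem av_split (S : ℕ → (ℕ → ℕ) → Finset ℕ) (t v : ℕ) (E : Set (ℕ → ℕ)) (n : ℕ)
    (x : ℕ → ℕ) :
    av S E n (t + 1) (Function.update x t v) ≤
      av S (AF t v E) n (t + 1) (Function.update x t v) +
        av S (AE t v E) n (t + 1) (Function.update x t v) := by
  rw [av_restrict E]
  refine (av_mono ?_ _ _ _).trans (av_union _ _ _ _ _)
  rintro z ⟨hz, hz'⟩
  have h1 : z t = v := by
    have h2 := hz' t (Nat.lt_succ_self t)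
    rwa [Function.update_self] at h2
  by_cases h2 : z ∈ AU t v E
  · exact Or.inr ⟨hz, h1, h2⟩
  · refine Or.inl ⟨h2, ?_⟩
    rw [← h1, Function.update_eq_self]
    exact hz

/-- Antichains are rare.  Proof by induction on `n`.  If `n = 0`, then `t = H` and `E` is empty
(take `z' = z`).  Let `n > 0`.  For `v` in `V t` let `U v` be the set of all `w` such that
`update w t u ∈ E` for some `u < v` in `V t`, let `F v` be the set of all `w ∉ U v` with
`update w t v ∈ E`, and `E' v = {z ∈ E | z t = v, z ∈ U v}`.  An element `z` of `E` with `z t = v`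
lies in `F v` or in `E' v`, hence (`av_restrict`, `av_mono`, `av_union`, with `x' = update x t v`)
`av S E n (t+1) x' ≤ av S (F v) n (t+1) x' + av S (E' v) n (t+1) x'`.

`E' v` satisfies `AC H (t+1)` : let `z, z'` be in `E' v` with `z i = z' i` for `i ≤ t` and
`z i < z' i` for `t < i < H`; there is `u < v` with `update z t u ∈ E`, and `update z t u`, `z'`
contradict `AC H t E`.  So by induction the second term is at most `L ^ M * ∑ i > t, 1 / D i`.

The event `F v` is independent of the coordinate `t`.  By `av_compare` (with `u = t + 1 + M`,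
`m = M`) the first term is at most `L ^ M * av S' (F v) n (t+1) x'` where `S' i z = V i` for
`i < t + 1 + M` and `S' i z = S i z` otherwise; since `S` has memory `M`, `S' i` is independent of
the coordinate `t` for all `i ≥ t + 1`, hence by `av_indep` `x'` can be replaced by `x`.  The
events `F v` are pairwise disjoint (if `v < v'` and `w ∈ F v` then `w ∈ U v'`), so by
`sum_av_le_one` the sum over `v ∈ S t x` of the first terms is at most `L ^ M`, and the average at
most `L ^ M / D t`. -/
theorem antichain {S : ℕ → (ℕ → ℕ) → Finset ℕ} {V : ℕ → Finset ℕ} {D : ℕ → ℝ} {L : ℝ} {M H : ℕ}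
    (hM : Mem S M) (hL : 1 ≤ L) (hSV : ∀ i x, S i x ⊆ V i) (hD : ∀ i < H, 0 < D i)
    (hSD : ∀ i < H, ∀ x, IsCh S i x → D i ≤ (S i x).card)
    (hVD : ∀ i < H, ((V i).card : ℝ) ≤ L * D i) :
    ∀ (n t : ℕ) (x : ℕ → ℕ) (E : Set (ℕ → ℕ)), t + n = H → IsCh S t x → AC H t E →
      av S E n t x ≤ L ^ M * ∑ i ∈ Ico t H, 1 / D i := by
  intro n
  induction n with
  | zero =>
    intro t x E ht hx hE
    have hH : t = H := by omega
    subst hH
    have h1 : x ∉ E := fun h => hE x h x h (fun _ _ => rfl) (fun i h2 h3 => by omega)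
    simp [av, h1]
  | succ n ih =>
    intro t x E ht hx hE
    have htH : t < H := by omega
    have hL0 : (0 : ℝ) ≤ L ^ M := by positivity
    have hDt := hD t htH
    have hcard := hSD t htH x hx
    have hc0 : (0 : ℝ) < (S t x).card := lt_of_lt_of_le hDt hcard
    set S' : ℕ → (ℕ → ℕ) → Finset ℕ := fun i z => if i < t + 1 + M then V i else S i z with hS'
    have hS'i : ∀ i, t + 1 ≤ i → ∀ z y, S' i (Function.update z t y) = S' i z := by
      intro i hi z y
      by_cases h : i < t + 1 + M
      · simp only [hS', if_pos h]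
      · simp only [hS', if_neg h]
        refine hM i _ _ fun j hj hj' => ?_
        rw [Function.update_of_ne (by omega)]
    have hcomp : ∀ i z, i < t + 1 + n → IsCh S i z → ((V i).card : ℝ) ≤ L * (S i z).card := by
      intro i z hi hz
      refine (hVD i (by omega)).trans ?_
      exact mul_le_mul_of_nonneg_left (hSD i (by omega) z hz) (by linarith)
    have h1 : ∀ v ∈ S t x, av S E n (t + 1) (Function.update x t v) ≤
        L ^ M * av S' (AF t v E) n (t + 1) x + L ^ M * ∑ i ∈ Ico (t + 1) H, 1 / D i := by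
      intro v hv
      have hx' : IsCh S (t + 1) (Function.update x t v) := hx.update hM hv
      have h2 := av_split S t v E n x
      have h3 := ih (t + 1) (Function.update x t v) (AE t v E) (by omega) hx' (ac_AE hE)
      have h4 := av_compare (m := M) (u := t + 1 + M) (n := n) hM hL hSV (E := AF t v E) le_rfl
        hcomp hx'
      have h5 := av_indep (S := S') (E := AF t v E) (u := t) (mem_AF_update t v E) (n := n)
        (t := t + 1) (Nat.lt_succ_self t) hS'i x v
      rw [← hS', h5] at h4
      linarith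
    have h6 : ∑ v ∈ S t x, av S' (AF t v E) n (t + 1) x ≤ 1 :=
      sum_av_le_one (S t x) (fun v => AF t v E) (fun i _ j _ hij => disj_AF t E hij) n (t + 1) x
    have h7 : av S E (n + 1) t x =
        (∑ y ∈ S t x, av S E n (t + 1) (Function.update x t y)) / (S t x).card := rfl
    have h8 := Finset.sum_le_sum h1
    rw [Finset.sum_add_distrib, ← Finset.mul_sum, Finset.sum_const, nsmul_eq_mul] at h8
    have h9 : ∑ i ∈ Ico t H, 1 / D i = 1 / D t + ∑ i ∈ Ico (t + 1) H, 1 / D i :=
      Finset.sum_eq_sum_Ico_succ_bot htH _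
    have h10 : L ^ M / (S t x).card ≤ L ^ M * (1 / D t) := by
      rw [mul_one_div]
      exact div_le_div_of_nonneg_left hL0 hDt hcard
    have h11 : L ^ M * ∑ v ∈ S t x, av S' (AF t v E) n (t + 1) x ≤ L ^ M := by
      calc L ^ M * ∑ v ∈ S t x, av S' (AF t v E) n (t + 1) x ≤ L ^ M * 1 :=
            mul_le_mul_of_nonneg_left h6 hL0
        _ = L ^ M := mul_one _
    rw [h7, h9, mul_add, div_le_iff₀ hc0]
    have h12 : L ^ M ≤ L ^ M * (1 / D t) * (S t x).card := by
      rwa [div_le_iff₀ hc0] at h10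
    nlinarith

end Pool.Agent.OrdTW
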