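import Mathlib

/-!
# MP_5b01b8_co (TW): bounded degree and bounded treewidth give linear ordered Ramsey numbers

Shared definitions.  Text: /team-store/MP_5b01b8_TW.md (helper25).
-/

set_option autoImplicit false

namespace Pool.Agent.OrdTW

/-- `G` has a tree decomposition of width at most `w` -/
def HasTreeDecomposition {V : Type} (G : SimpleGraph V) (w : ℕ) : Prop :=
  ∃ (m : ℕ) (T : SimpleGraph (Fin m)) (bag : Fin m → Finset V), T.IsTree ∧
    (∀ t, (bag t).card ≤ w + 1) ∧ (∀ v, ∃ t, v ∈ bag t) ∧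
    (∀ u v, G.Adj u v → ∃ t, u ∈ bag t ∧ v ∈ bag t) ∧
    ∀ v, (T.induce {t | v ∈ bag t}).Preconnected

/-- a rooted tree decomposition: nodes `0, ..., M - 1`, root `0`, parents `par t < t`; `top v` is
the node nearest to the root which contains `v` -/
structure Rooted {V : Type} (G : SimpleGraph V) (w M : ℕ) (par : ℕ → ℕ) (bag : ℕ → Finset V)
    (top : V → ℕ) : Prop where
  par_lt : ∀ t, 0 < t → par t < t
  card_le : ∀ t < M, (bag t).card ≤ w + 1
  top_lt : ∀ v, top v < M
  mem_top : ∀ v, v ∈ bag (top v)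
  up : ∀ v t, t < M → v ∈ bag t → t ≠ top v → 0 < t ∧ v ∈ bag (par t)
  edge : ∀ u v, G.Adj u v → ∃ t < M, u ∈ bag t ∧ v ∈ bag t

/-- a layout of `G` in a `B`-ary tree of depth `h` : the vertex `v` sits at the node number
`nod v < B ^ lev v` of level `lev v`, in the slot `slot v < a` -/
structure Layout {V : Type} (G : SimpleGraph V) (a B h : ℕ) (lev nod slot : V → ℕ) : Prop where
  lev_le : ∀ v, lev v ≤ h
  nod_lt : ∀ v, nod v < B ^ lev v
  slot_lt : ∀ v, slot v < a
  inj : ∀ u v, lev u = lev v → nod u = nod v → slot u = slot v → u = v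
  edge : ∀ u v, G.Adj u v → (lev u = lev v ∧ nod u = nod v) ∨
    (lev v = lev u + 1 ∧ nod v / B = nod u) ∨ (lev u = lev v + 1 ∧ nod u / B = nod v)

/-- the occupied nodes of the level `l` : those with a vertex of `P` in them or below them -/
def occ {V : Type} (P : Finset V) (B : ℕ) (lev nod : V → ℕ) (l : ℕ) : Finset ℕ :=
  (P.filter fun v => l ≤ lev v).image fun v => nod v / B ^ (lev v - l)

section host

variable {r : ℕ}

open Classical in
/-- the neighbours of `x` of colour `a` in `Z` -/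
noncomputable def nb (χ : ℕ → ℕ → Fin r) (a : Fin r) (x : ℕ) (Z : Finset ℕ) : Finset ℕ :=
  Z.filter fun y => χ x y = a

open Classical in
/-- the elements of `V` with few neighbours of colour `a` in `Z` -/
noncomputable def few (χ : ℕ → ℕ → Fin r) (a : Fin r) (d : ℝ) (V Z : Finset ℕ) : Finset ℕ :=
  V.filter fun x => ((nb χ a x Z).card : ℝ) < d * Z.card

/-- one-sided density of the colour `a` from `V` to `W` : for every subset `Z` of `W` of proportion
at least `ζ` the proportion of the `x` in `V` with less than `d |Z|` neighbours of colour `a` in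
`Z` is at most `ρ` -/
def OD (χ : ℕ → ℕ → Fin r) (a : Fin r) (ρ ζ d : ℝ) (V W : Finset ℕ) : Prop :=
  ∀ Z ⊆ W, ζ * W.card ≤ Z.card → ((few χ a d V Z).card : ℝ) ≤ ρ * V.card

/-- the proportion of exceptional vertices which goes with the density `d` -/
noncomputable def rho (T : ℕ) (d : ℝ) : ℝ := (d ^ T / (2 * T)) ^ T / (2 * T)

/-- the condition `OD` with the parameters which go with `d` and an extra factor `κ` in the
proportion of the exceptional vertices -/
def OT (T : ℕ) (χ : ℕ → ℕ → Fin r) (a : Fin r) (κ d : ℝ) (V W : Finset ℕ) : Prop :=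
  OD χ a (rho T d * κ) (d ^ (T - 1)) d V W

/-- `T` cyclic classes, levels `t < L`, the class of the level `t` is `t % T`; the windows `W t`;
windows of one class are ordered from left to right; from each window to the next `T - 1` ones
the colour `φ` of the pair of the classes is one-sided dense -/
structure Chain (χ : ℕ → ℕ → Fin r) (T L : ℕ) (W : ℕ → Finset ℕ) (φ : ℕ → ℕ → Fin r)
    (dd : ℕ → ℝ) : Prop where
  order : ∀ s t, s < t → t < L → s % T = t % T → ∀ x ∈ W s, ∀ y ∈ W t, x < y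
  anti : ∀ s t, s ≤ t → t < L → dd t ≤ dd s
  pos : ∀ t < L, 0 < dd t ∧ dd t ≤ 1
  od : ∀ s t, s < t → t < s + T → t < L → OT T χ (φ (s % T) (t % T)) 1 (dd t) (W s) (W t)

/-- the number of alive colours -/
def ka (T : ℕ) (A : ℕ → ℕ → Finset (Fin r)) : ℕ :=
  ∑ i ∈ Finset.range T, ∑ j ∈ Finset.range T, if i = j then 0 else (A i j).card

open Classical in
/-- the pairs in `X × Y` whose colour is not alive -/
noncomputable def badp (χ : ℕ → ℕ → Fin r) (A : Finset (Fin r)) (X Y : Finset ℕ) :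
    Finset (ℕ × ℕ) :=
  (X ×ˢ Y).filter fun z => χ z.1 z.2 ∉ A

/-- the density of the dead colours is at most `η` -/
def BadLE (χ : ℕ → ℕ → Fin r) (A : Finset (Fin r)) (η : ℝ) (X Y : Finset ℕ) : Prop :=
  ((badp χ A X Y).card : ℝ) ≤ η * X.card * Y.card

/-- the main statement of the induction with its constants, for at most `k` alive colours -/
def RkC (r T k : ℕ) (η κ D : ℝ) (C : ℕ) : Prop :=
  ∀ (χ : ℕ → ℕ → Fin r) (X : ℕ → Finset ℕ) (A : ℕ → ℕ → Finset (Fin r)) (K H : ℕ),
    (∀ x y, χ x y = χ y x) → (∀ i j, A i j = A j i) → ka T A ≤ k → 1 ≤ K →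
    (∀ i < T, ∀ j < T, i ≠ j → BadLE χ (A i j) η (X i) (X j)) →
    (∀ i < T, C * K * 2 ^ (H / T) ≤ (X i).card) →
    ∃ (W : ℕ → Finset ℕ) (φ : ℕ → ℕ → Fin r) (dd : ℕ → ℝ), Chain χ T H W φ dd ∧
      (∀ t < H, D ≤ dd t) ∧ (∀ i j, φ i j = φ j i) ∧
      (∀ i < T, ∀ j < T, i ≠ j → φ i j ∈ A i j) ∧ (∀ t < H, W t ⊆ X (t % T)) ∧
      (∀ t < H, K * 2 ^ (t / T) ≤ (W t).card) ∧
      (∀ t < H, H ≤ t + T → κ * (X (t % T)).card ≤ (W t).card)

/-- the main statement of the induction, for at most `k` alive colours -/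
def Rk (r T k : ℕ) : Prop :=
  ∃ (η κ D : ℝ) (C : ℕ), 0 < η ∧ η < 1 ∧ 0 < κ ∧ κ ≤ 1 ∧ 0 < D ∧ D ≤ 1 ∧ 1 ≤ C ∧
    RkC r T k η κ D C

end host

end Pool.Agent.OrdTW
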