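import Mathlib

/-!
# MP_5b01b8_co (TW), module Mark: marking the nodes of a weighted rooted tree
-/

set_option autoImplicit false

namespace Pool.Agent.OrdTW

open Finset

/-- `Mk` is a set of marked nodes of the rooted tree `0, ..., M - 1` with parents `par`; `cr t` is
the root of the component of the unmarked node `t` -/
structure Marking (M : ℕ) (par : ℕ → ℕ) (Mk : Finset ℕ) (cr : ℕ → ℕ) : Prop where
  sub : ∀ t ∈ Mk, t < M
  cr_le : ∀ t < M, t ∉ Mk → cr t ≤ t
  cr_not : ∀ t < M, t ∉ Mk → cr t ∉ Mk
  cr_par : ∀ t < M, t ∉ Mk → t ≠ 0 → par t ∉ Mk → cr t = cr (par t)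
  cr_root : ∀ t < M, t ∉ Mk → (t = 0 ∨ par t ∈ Mk) → cr t = t

/-- the marked nodes hanging below the component with root `c` -/
def hang (par : ℕ → ℕ) (Mk : Finset ℕ) (cr : ℕ → ℕ) (c : ℕ) : Finset ℕ :=
  Mk.filter fun m => m ≠ 0 ∧ par m ∉ Mk ∧ cr (par m) = c

private lemma filt_ins (M : ℕ) (Mk : Finset ℕ) (cr : ℕ → ℕ) (c : ℕ) :
    (range (M + 1 + 1)).filter (fun t => t ∉ insert (M + 1) Mk ∧ cr t = c) =
      (range (M + 1)).filter (fun t => t ∉ Mk ∧ cr t = c) := by
  ext t
  simp only [mem_filter, mem_range, mem_insert, not_or]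
  constructor
  · rintro ⟨h1, ⟨h2, h3⟩, h4⟩
    exact ⟨by omega, h3, h4⟩
  · rintro ⟨h1, h3, h4⟩
    exact ⟨by omega, ⟨by omega, h3⟩, h4⟩

private lemma hang_ins (par : ℕ → ℕ) (hpar : ∀ t, 0 < t → par t < t) (M : ℕ) (Mk : Finset ℕ)
    (hMk : ∀ t ∈ Mk, t < M + 1) (cr : ℕ → ℕ) (c : ℕ) :
    (hang par (insert (M + 1) Mk) cr c).card = (hang par Mk cr c).card +
      if par (M + 1) ∉ Mk ∧ cr (par (M + 1)) = c then 1 else 0 := by
  have hp : par (M + 1) < M + 1 := hpar _ (Nat.succ_pos _)
  have h1 : Mk.filter (fun m => m ≠ 0 ∧ par m ∉ insert (M + 1) Mk ∧ cr (par m) = c) =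
      hang par Mk cr c := by
    unfold hang
    refine Finset.filter_congr fun m hm => ?_
    constructor
    · rintro ⟨h1, h2, h3⟩
      exact ⟨h1, fun h => h2 (mem_insert_of_mem h), h3⟩
    · rintro ⟨h1, h2, h3⟩
      refine ⟨h1, fun h => ?_, h3⟩
      rcases mem_insert.mp h with h | h
      · have h5 := hpar m (Nat.pos_of_ne_zero h1)
        have h6 := hMk m hm
        omega
      · exact h2 h
  have h2 : (M + 1 ≠ 0 ∧ par (M + 1) ∉ insert (M + 1) Mk ∧ cr (par (M + 1)) = c) ↔
      (par (M + 1) ∉ Mk ∧ cr (par (M + 1)) = c) := by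
    constructor
    · rintro ⟨_, h2, h3⟩
      exact ⟨fun h => h2 (mem_insert_of_mem h), h3⟩
    · rintro ⟨h2, h3⟩
      refine ⟨by omega, fun h => ?_, h3⟩
      rcases mem_insert.mp h with h | h
      · omega
      · exact h2 h
  have h3 : hang par (insert (M + 1) Mk) cr c =
      if M + 1 ≠ 0 ∧ par (M + 1) ∉ insert (M + 1) Mk ∧ cr (par (M + 1)) = c then
        insert (M + 1) (hang par Mk cr c) else hang par Mk cr c := by
    have h4 : hang par (insert (M + 1) Mk) cr c = (insert (M + 1) Mk).filter
      (fun m => m ≠ 0 ∧ par m ∉ insert (M + 1) Mk ∧ cr (par m) = c) := rfl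
    rw [h4, Finset.filter_insert, h1]
  rw [h3]
  by_cases h5 : par (M + 1) ∉ Mk ∧ cr (par (M + 1)) = c
  · rw [if_pos (h2.mpr h5), if_pos h5, card_insert_of_notMem]
    intro h6
    have h7 := hMk _ (mem_filter.mp h6).1
    omega
  · rw [if_neg fun h => h5 (h2.mp h), if_neg h5, add_zero]

private lemma sum_filt (S : Finset ℕ) (f : ℕ → ℕ) (p a : ℕ) :
    ∑ t ∈ S, (f t + if t = p then a else 0) = ∑ t ∈ S, f t + if p ∈ S then a else 0 := by
  rw [sum_add_distrib, sum_ite_eq']

private lemma sum_filtR (S : Finset ℕ) (f : ℕ → ℝ) (p : ℕ) (a : ℝ) :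
    ∑ t ∈ S, (f t + if t = p then a else 0) = ∑ t ∈ S, f t + if p ∈ S then a else 0 := by
  rw [sum_add_distrib, sum_ite_eq']

private lemma base_case (par : ℕ → ℕ) (wt : ℕ → ℝ) (h : ℕ → ℕ) (hwt : ∀ t, 0 ≤ wt t) :
      ∃ (Mk : Finset ℕ) (cr : ℕ → ℕ), Marking (0 + 1) par Mk cr ∧
        (∀ c, ∑ t ∈ (range (0 + 1)).filter (fun t => t ∉ Mk ∧ cr t = c), wt t < 1) ∧
        (∀ c, ∑ t ∈ (range (0 + 1)).filter (fun t => t ∉ Mk ∧ cr t = c), h t +
          (hang par Mk cr c).card ≤ 1) ∧
        (Mk.card : ℝ) ≤ 2 * ∑ t ∈ range (0 + 1), wt t + ∑ t ∈ range (0 + 1), (h t : ℝ) := by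
  by_cases hA : 1 ≤ wt 0 ∨ 2 ≤ h 0
  · have hf : ∀ c, (range (0 + 1)).filter (fun t => t ∉ ({0} : Finset ℕ) ∧ id t = c) = ∅ := by
      intro c
      ext t
      simp only [mem_filter, mem_range, mem_singleton, notMem_empty, iff_false]
      rintro ⟨h1, h2, _⟩
      omega
    have hh : ∀ c, hang par ({0} : Finset ℕ) id c = ∅ := by
      intro c
      unfold hang
      ext t
      simp only [mem_filter, mem_singleton, notMem_empty, iff_false]
      rintro ⟨h1, h2, _⟩
      omega
    have hn : ∀ t < 0 + 1, t ∉ ({0} : Finset ℕ) → False := by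
      intro t h1 h2
      rw [mem_singleton] at h2
      omega
    refine ⟨{0}, id, ⟨?_, ?_, ?_, ?_, ?_⟩, ?_, ?_, ?_⟩
    · intro t ht
      rw [mem_singleton] at ht
      omega
    · intro t h1 h2
      exact (hn t h1 h2).elim
    · intro t h1 h2
      exact (hn t h1 h2).elim
    · intro t h1 h2
      exact (hn t h1 h2).elim
    · intro t h1 h2
      exact (hn t h1 h2).elim
    · intro c
      rw [hf c, sum_empty]
      exact one_pos
    · intro c
      rw [hf c, sum_empty, hh c, card_empty]
      omega
    · rw [card_singleton]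
      simp only [zero_add, range_one, sum_singleton]
      rcases hA with hA | hA
      · push_cast
        have := hwt 0
        have h3 : (0 : ℝ) ≤ h 0 := Nat.cast_nonneg _
        linarith
      · have h3 : (2 : ℝ) ≤ h 0 := by exact_mod_cast hA
        push_cast
        have := hwt 0
        linarith
  · push Not at hA
    have hh : ∀ c, hang par (∅ : Finset ℕ) id c = ∅ := by
      intro c
      unfold hang
      rw [filter_empty]
    refine ⟨∅, id, ⟨?_, ?_, ?_, ?_, ?_⟩, ?_, ?_, ?_⟩
    · intro t ht
      simp at ht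
    · intro t _ _
      exact le_rfl
    · intro t _ _
      simp
    · intro t h1 _ h2
      omega
    · intro t _ _ _
      rfl
    · intro c
      refine lt_of_le_of_lt (sum_le_sum_of_subset_of_nonneg (filter_subset _ _)
        fun t _ _ => hwt t) ?_
      simpa using hA.1
    · intro c
      rw [hh c, card_empty, add_zero]
      refine (sum_le_sum_of_subset (filter_subset _ _)).trans ?_
      simp only [zero_add, range_one, sum_singleton]
      omega
    · rw [card_empty]
      have h3 : (0 : ℝ) ≤ h 0 := Nat.cast_nonneg _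
      simp only [zero_add, range_one, sum_singleton]
      have := hwt 0
      push_cast
      linarith

/-- General form, with `h t` marked nodes already hanging at the node `t`.  Induction on `M`.
Last node `t = M` (a leaf), `p = par M` (for `M = 0` there is only the node `0` : mark it if
`1 ≤ wt 0` or `2 ≤ h 0`).
Case `1 ≤ wt M` or `2 ≤ h M` : mark `M`; use the induction hypothesis for the first `M` nodes with
`h` increased by one at `p`; then `|Mk|` grows by one and `2 * wt M + h M ≥ 2` pays for the mark
and for the increase of `h`.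
Otherwise `M` is not marked; use the induction hypothesis with `wt` and `h` increased at `p` by
`wt M` and `h M`; `cr M = cr p` if `p` is not marked, and `cr M = M` if `p` is marked. -/
theorem exists_marking_aux (par : ℕ → ℕ) (hpar : ∀ t, 0 < t → par t < t) :
    ∀ (M : ℕ) (wt : ℕ → ℝ) (h : ℕ → ℕ), (∀ t, 0 ≤ wt t) →
      ∃ (Mk : Finset ℕ) (cr : ℕ → ℕ), Marking (M + 1) par Mk cr ∧
        (∀ c, ∑ t ∈ (range (M + 1)).filter (fun t => t ∉ Mk ∧ cr t = c), wt t < 1) ∧
        (∀ c, ∑ t ∈ (range (M + 1)).filter (fun t => t ∉ Mk ∧ cr t = c), h t +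
          (hang par Mk cr c).card ≤ 1) ∧
        (Mk.card : ℝ) ≤ 2 * ∑ t ∈ range (M + 1), wt t + ∑ t ∈ range (M + 1), (h t : ℝ) := by
  intro M
  induction M with
  | zero =>
    intro wt h hwt
    exact base_case par wt h hwt
  | succ M ih =>
    intro wt h hwt
    have hp : par (M + 1) < M + 1 := hpar _ (Nat.succ_pos _)
    have hpm : par (M + 1) ∈ range (M + 1) := mem_range.mpr hp
    by_cases hA : 1 ≤ wt (M + 1) ∨ 2 ≤ h (M + 1)
    · obtain ⟨Mk, cr, hMk, hb, hc, hd⟩ :=
        ih wt (fun t => h t + if t = par (M + 1) then 1 else 0) hwt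
      have hLn : M + 1 ∉ Mk := fun hh => absurd (hMk.sub _ hh) (lt_irrefl _)
      have hlt : ∀ t < M + 1 + 1, t ∉ insert (M + 1) Mk → t < M + 1 ∧ t ∉ Mk := by
        intro t h1 h2
        rw [mem_insert, not_or] at h2
        exact ⟨by omega, h2.2⟩
      refine ⟨insert (M + 1) Mk, cr, ⟨?_, ?_, ?_, ?_, ?_⟩, ?_, ?_, ?_⟩
      · intro t ht
        rcases mem_insert.mp ht with ht | ht
        · omega
        · have := hMk.sub t ht
          omega
      · intro t h1 h2
        exact hMk.cr_le t (hlt t h1 h2).1 (hlt t h1 h2).2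
      · intro t h1 h2
        have h3 := hMk.cr_not t (hlt t h1 h2).1 (hlt t h1 h2).2
        have h4 := hMk.cr_le t (hlt t h1 h2).1 (hlt t h1 h2).2
        have h5 := (hlt t h1 h2).1
        rw [mem_insert, not_or]
        exact ⟨by omega, h3⟩
      · intro t h1 h2 h3 h4
        exact hMk.cr_par t (hlt t h1 h2).1 (hlt t h1 h2).2 h3
          fun h => h4 (mem_insert_of_mem h)
      · intro t h1 h2 h3
        refine hMk.cr_root t (hlt t h1 h2).1 (hlt t h1 h2).2 ?_
        rcases h3 with h3 | h3
        · exact Or.inl h3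
        · rcases mem_insert.mp h3 with h3 | h3
          · by_cases h0 : t = 0
            · exact Or.inl h0
            · have h5 := hpar t (Nat.pos_of_ne_zero h0)
              have h6 := (hlt t h1 h2).1
              omega
          · exact Or.inr h3
      · intro c
        rw [filt_ins]
        exact hb c
      · intro c
        rw [filt_ins, hang_ins par hpar M Mk hMk.sub cr c]
        have h1 := hc c
        rw [sum_filt] at h1
        have h2 : (par (M + 1) ∈ (range (M + 1)).filter (fun t => t ∉ Mk ∧ cr t = c)) ↔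
            (par (M + 1) ∉ Mk ∧ cr (par (M + 1)) = c) := by
          rw [mem_filter]
          exact ⟨fun h => h.2, fun h => ⟨hpm, h⟩⟩
        simp only [h2] at h1
        omega
      · rw [card_insert_of_notMem hLn, sum_range_succ _ (M + 1), sum_range_succ _ (M + 1)]
        have h1 : ∑ t ∈ range (M + 1), ((h t + if t = par (M + 1) then 1 else 0 : ℕ) : ℝ) =
            ∑ t ∈ range (M + 1), (h t : ℝ) + 1 := by
          rw [← Nat.cast_sum, sum_filt, if_pos hpm]
          push_cast
          rfl
        rw [h1] at hd
        have h2 : (2 : ℝ) ≤ 2 * wt (M + 1) + h (M + 1) := by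
          rcases hA with hA | hA
          · have h3 : (0 : ℝ) ≤ h (M + 1) := Nat.cast_nonneg _
            linarith
          · have h3 : (2 : ℝ) ≤ h (M + 1) := by exact_mod_cast hA
            have := hwt (M + 1)
            linarith
        push_cast
        linarith
    · push Not at hA
      obtain ⟨Mk, cr, hMk, hb, hc, hd⟩ :=
        ih (fun t => wt t + if t = par (M + 1) then wt (M + 1) else 0)
          (fun t => h t + if t = par (M + 1) then h (M + 1) else 0)
          (fun t => by
            have := hwt t
            have := hwt (M + 1)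
            split_ifs <;> linarith)
      have hLn : M + 1 ∉ Mk := fun hh => absurd (hMk.sub _ hh) (lt_irrefl _)
      obtain ⟨cr', hcr', hcL⟩ : ∃ cr' : ℕ → ℕ, (∀ t < M + 1, cr' t = cr t) ∧
          cr' (M + 1) = if par (M + 1) ∈ Mk then M + 1 else cr (par (M + 1)) := by
        refine ⟨fun t => if t < M + 1 then cr t else
          if par (M + 1) ∈ Mk then M + 1 else cr (par (M + 1)), ?_, ?_⟩
        · intro t ht
          simp [ht]
        · simp
      have hpl : ∀ t < M + 1 + 1, t ≠ 0 → par t < M + 1 := by
        intro t h1 h2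
        have := hpar t (Nat.pos_of_ne_zero h2)
        omega
      have hhang : ∀ c, hang par Mk cr' c = hang par Mk cr c := by
        intro c
        unfold hang
        refine filter_congr fun m hm => ?_
        have h1 := hMk.sub m hm
        by_cases h2 : m = 0
        · simp [h2]
        · rw [hcr' _ (hpl m (by omega) h2)]
      have hfilt : ∀ c, (range (M + 1 + 1)).filter (fun t => t ∉ Mk ∧ cr' t = c) =
          if cr' (M + 1) = c then
            insert (M + 1) ((range (M + 1)).filter (fun t => t ∉ Mk ∧ cr t = c))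
          else (range (M + 1)).filter (fun t => t ∉ Mk ∧ cr t = c) := by
        intro c
        have h1 : (range (M + 1)).filter (fun t => t ∉ Mk ∧ cr' t = c) =
            (range (M + 1)).filter (fun t => t ∉ Mk ∧ cr t = c) := by
          refine filter_congr fun t ht => ?_
          rw [hcr' t (mem_range.mp ht)]
        rw [range_add_one (n := M + 1), filter_insert, h1]
        by_cases h2 : cr' (M + 1) = c
        · rw [if_pos h2, if_pos ⟨hLn, h2⟩]
        · rw [if_neg h2, if_neg fun h => h2 h.2]
      have hnm : ∀ c, M + 1 ∉ (range (M + 1)).filter (fun t => t ∉ Mk ∧ cr t = c) := by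
        intro c h1
        have := mem_range.mp (mem_filter.mp h1).1
        omega
      have hempty : par (M + 1) ∈ Mk →
          (range (M + 1)).filter (fun t => t ∉ Mk ∧ cr t = M + 1) = ∅ := by
        intro _
        ext t
        simp only [mem_filter, mem_range, notMem_empty, iff_false]
        rintro ⟨h1, h2, h3⟩
        have := hMk.cr_le t h1 h2
        omega
      refine ⟨Mk, cr', ⟨?_, ?_, ?_, ?_, ?_⟩, ?_, ?_, ?_⟩
      · intro t ht
        have := hMk.sub t ht
        omega
      · intro t h1 h2
        by_cases h3 : t = M + 1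
        · subst h3
          rw [hcL]
          split_ifs with h4
          · exact le_rfl
          · exact (hMk.cr_le _ hp h4).trans hp.le
        · rw [hcr' t (by omega)]
          exact hMk.cr_le t (by omega) h2
      · intro t h1 h2
        by_cases h3 : t = M + 1
        · subst h3
          rw [hcL]
          split_ifs with h4
          · exact h2
          · exact hMk.cr_not _ hp h4
        · rw [hcr' t (by omega)]
          exact hMk.cr_not t (by omega) h2
      · intro t h1 h2 h3 h4
        by_cases h5 : t = M + 1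
        · subst h5
          rw [hcL, if_neg h4, hcr' _ hp]
        · rw [hcr' t (by omega), hcr' _ (hpl t h1 h3)]
          exact hMk.cr_par t (by omega) h2 h3 h4
      · intro t h1 h2 h3
        by_cases h5 : t = M + 1
        · subst h5
          rcases h3 with h3 | h3
          · omega
          · rw [hcL, if_pos h3]
        · rw [hcr' t (by omega)]
          exact hMk.cr_root t (by omega) h2 h3
      · intro c
        rw [hfilt]
        have h1 := hb c
        rw [sum_filtR] at h1
        have h2 : (par (M + 1) ∈ (range (M + 1)).filter (fun t => t ∉ Mk ∧ cr t = c)) ↔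
            (par (M + 1) ∉ Mk ∧ cr (par (M + 1)) = c) := by
          rw [mem_filter]
          exact ⟨fun h => h.2, fun h => ⟨hpm, h⟩⟩
        simp only [h2] at h1
        by_cases h3 : par (M + 1) ∈ Mk
        · rw [if_neg fun h => h.1 h3, add_zero] at h1
          rw [if_pos h3] at hcL
          by_cases h4 : cr' (M + 1) = c
          · rw [if_pos h4, ← h4, hcL, hempty h3]
            simpa using hA.1
          · rw [if_neg h4]
            exact h1
        · rw [if_neg h3] at hcL
          by_cases h4 : cr' (M + 1) = c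
          · rw [if_pos ⟨h3, by rw [← hcL]; exact h4⟩] at h1
            rw [if_pos h4, sum_insert (hnm c)]
            linarith
          · rw [if_neg fun h => h4 (by rw [hcL]; exact h.2), add_zero] at h1
            rw [if_neg h4]
            exact h1
      · intro c
        rw [hfilt, hhang]
        have h1 := hc c
        rw [sum_filt] at h1
        have h2 : (par (M + 1) ∈ (range (M + 1)).filter (fun t => t ∉ Mk ∧ cr t = c)) ↔
            (par (M + 1) ∉ Mk ∧ cr (par (M + 1)) = c) := by
          rw [mem_filter]
          exact ⟨fun h => h.2, fun h => ⟨hpm, h⟩⟩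
        simp only [h2] at h1
        by_cases h3 : par (M + 1) ∈ Mk
        · rw [if_neg fun h => h.1 h3, add_zero] at h1
          rw [if_pos h3] at hcL
          by_cases h4 : cr' (M + 1) = c
          · have h5 : hang par Mk cr (M + 1) = ∅ := by
              unfold hang
              ext m
              simp only [mem_filter, notMem_empty, iff_false]
              rintro ⟨h5, h6, h7, h8⟩
              have h9 := hMk.sub m h5
              have h10 := hMk.cr_le (par m) (hpl m (by omega) h6) h7
              have h11 := hpl m (by omega) h6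
              omega
            rw [if_pos h4, ← h4, hcL, hempty h3, h5]
            simp only [insert_empty_eq, sum_singleton, card_empty, add_zero]
            omega
          · rw [if_neg h4]
            exact h1
        · rw [if_neg h3] at hcL
          by_cases h4 : cr' (M + 1) = c
          · rw [if_pos ⟨h3, by rw [← hcL]; exact h4⟩] at h1
            rw [if_pos h4, sum_insert (hnm c)]
            omega
          · rw [if_neg fun h => h4 (by rw [hcL]; exact h.2), add_zero] at h1
            rw [if_neg h4]
            exact h1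
      · rw [sum_range_succ _ (M + 1), sum_range_succ _ (M + 1)]
        have h1 : ∑ t ∈ range (M + 1),
            ((h t + if t = par (M + 1) then h (M + 1) else 0 : ℕ) : ℝ) =
            ∑ t ∈ range (M + 1), (h t : ℝ) + h (M + 1) := by
          rw [← Nat.cast_sum, sum_filt, if_pos hpm]
          push_cast
          rfl
        rw [h1, sum_filtR, if_pos hpm] at hd
        linarith

/-- few marked nodes, light components with at most one marked node hanging below -/
theorem exists_marking (par : ℕ → ℕ) (hpar : ∀ t, 0 < t → par t < t) {M : ℕ} (hM : 0 < M)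
    (wt : ℕ → ℝ) (hwt : ∀ t, 0 ≤ wt t) :
    ∃ (Mk : Finset ℕ) (cr : ℕ → ℕ), Marking M par Mk cr ∧
      (∀ c, ∑ t ∈ (range M).filter (fun t => t ∉ Mk ∧ cr t = c), wt t < 1) ∧
      (∀ c, (hang par Mk cr c).card ≤ 1) ∧ (Mk.card : ℝ) ≤ 2 * ∑ t ∈ range M, wt t := by
  obtain ⟨K, rfl⟩ : ∃ K, M = K + 1 := ⟨M - 1, by omega⟩
  obtain ⟨Mk, cr, hMk, hb, hc, hd⟩ := exists_marking_aux par hpar K wt (fun _ => 0) hwt
  refine ⟨Mk, cr, hMk, hb, fun c => ?_, ?_⟩
  · have := hc c
    omega
  · simpa using hd

end Pool.Agent.OrdTW
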