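import Mathlib
import Pool.Agent.Lib.MP_5b01b8_co_TW.Defs
import Pool.Agent.Lib.MP_5b01b8_co_TW.Mark

/-!
# MP_5b01b8_co (TW), module Comp: components and marked nodes
-/

set_option autoImplicit false

namespace Pool.Agent.OrdTW

open Finset

variable {V : Type} [DecidableEq V]

/-- In a component of unmarked nodes: if `v` lies in no bag of a marked node, then all the nodes
whose bag contains `v` are in the component of `top v`.  Induction on `t` (`Rooted.up`,
`Marking.cr_par`). -/
theorem comp_eq {G : SimpleGraph V} {w M : ℕ} {par : ℕ → ℕ} {bag : ℕ → Finset V} {top : V → ℕ}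
    (hG : Rooted G w M par bag top) {Mk : Finset ℕ} {cr : ℕ → ℕ} (hM : Marking M par Mk cr)
    {v : V} (hv : ∀ m ∈ Mk, v ∉ bag m) {t : ℕ} (ht : t < M) (hvt : v ∈ bag t) :
    t ∉ Mk ∧ top v ∉ Mk ∧ cr t = cr (top v) := by
  have key : ∀ n t : ℕ, t ≤ n → t < M → v ∈ bag t → cr t = cr (top v) := by
    intro n
    induction n with
    | zero =>
      intro t htn ht hvt
      by_cases h : t = top v
      · rw [h]
      · have h1 := hG.up v t ht hvt h
        omega
    | succ n ih =>
      intro t htn ht hvt
      by_cases h : t = top v
      · rw [h]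
      · obtain ⟨h0, h1⟩ := hG.up v t ht hvt h
        have h2 := hG.par_lt t h0
        rw [hM.cr_par t ht (fun hh => hv t hh hvt) (by omega) (fun hh => hv _ hh h1)]
        exact ih (par t) (by omega) (by omega) h1
  exact ⟨fun hh => hv t hh hvt, fun hh => hv _ hh (hG.mem_top v), key t t le_rfl ht hvt⟩

/-- If `x` is in the bag of an unmarked node `t` and in the bag of some marked node, then `x` is
in the bag of the parent of the root of the component of `t` (which is marked), or in the bag of a
marked node hanging below the component.  Proof: let `m` be a marked node with `x ∈ bag m`.  If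
`top x` is not in the component of `t` then go up from `t` (`Rooted.up`) : the path leaves the
component at its root `c ≠ 0`, and `x ∈ bag (par c)`.  If `top x` is in the component, then go up
from `m` to `top x` : the first node of the path which is in the component has the previous node
marked (by `cr_par` an unmarked node whose parent is in the component is in the component), and
this marked node hangs below the component. -/
theorem adj_marks {G : SimpleGraph V} {w M : ℕ} {par : ℕ → ℕ} {bag : ℕ → Finset V} {top : V → ℕ}
    (hG : Rooted G w M par bag top) {Mk : Finset ℕ} {cr : ℕ → ℕ} (hM : Marking M par Mk cr)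
    {x : V} {m : ℕ} (hm : m ∈ Mk) (hxm : x ∈ bag m) {t : ℕ} (ht : t < M) (htM : t ∉ Mk)
    (hxt : x ∈ bag t) :
    (cr t ≠ 0 ∧ par (cr t) ∈ Mk ∧ x ∈ bag (par (cr t))) ∨
      ∃ m' ∈ hang par Mk cr (cr t), x ∈ bag m' := by
  have keyA : ∀ n t : ℕ, t ≤ n → t < M → t ∉ Mk → x ∈ bag t →
      (top x ∉ Mk ∧ cr (top x) = cr t) ∨
        (cr t ≠ 0 ∧ par (cr t) ∈ Mk ∧ x ∈ bag (par (cr t))) := by
    intro n
    induction n with
    | zero =>
      intro t htn ht htM hxt
      by_cases h : t = top x
      · left
        rw [← h]
        exact ⟨htM, rfl⟩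
      · have h1 := hG.up x t ht hxt h
        omega
    | succ n ih =>
      intro t htn ht htM hxt
      by_cases h : t = top x
      · left
        rw [← h]
        exact ⟨htM, rfl⟩
      · obtain ⟨h0, h1⟩ := hG.up x t ht hxt h
        have h2 := hG.par_lt t h0
        by_cases h3 : par t ∈ Mk
        · right
          rw [hM.cr_root t ht htM (Or.inr h3)]
          exact ⟨by omega, h3, h1⟩
        · rw [hM.cr_par t ht htM (by omega) h3]
          exact ih (par t) (by omega) (by omega) h3 h1
  rcases keyA t t le_rfl ht htM hxt with h | h
  swap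
  · exact Or.inl h
  right
  obtain ⟨hx1, hx2⟩ := h
  have keyB : ∀ n s : ℕ, s ≤ n → s < M → x ∈ bag s → (s ∈ Mk ∨ cr s ≠ cr t) →
      ∃ m' ∈ hang par Mk cr (cr t), x ∈ bag m' := by
    intro n
    induction n with
    | zero =>
      intro s hsn hs hxs hc
      by_cases h : s = top x
      · rw [h] at hc
        rcases hc with hc | hc
        · exact absurd hc hx1
        · exact absurd hx2 hc
      · have h1 := hG.up x s hs hxs h
        omega
    | succ n ih =>
      intro s hsn hs hxs hc
      by_cases h : s = top x
      · rw [h] at hc
        rcases hc with hc | hc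
        · exact absurd hc hx1
        · exact absurd hx2 hc
      · obtain ⟨h0, h1⟩ := hG.up x s hs hxs h
        have h2 := hG.par_lt s h0
        by_cases h3 : par s ∉ Mk ∧ cr (par s) = cr t
        · obtain ⟨h3, h4⟩ := h3
          have hsM : s ∈ Mk := by
            by_contra hsM
            rcases hc with hc | hc
            · exact hsM hc
            · exact hc ((hM.cr_par s hs hsM (by omega) h3).trans h4)
          refine ⟨s, ?_, hxs⟩
          rw [hang, mem_filter]
          exact ⟨hsM, by omega, h3, h4⟩
        · refine ih (par s) (by omega) (by omega) h1 ?_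
          by_cases h5 : par s ∈ Mk
          · exact Or.inl h5
          · exact Or.inr fun h6 => h3 ⟨h5, h6⟩
  exact keyB m m le_rfl (hM.sub m hm) hxm (Or.inl hm)

end Pool.Agent.OrdTW
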