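import Mathlib

/-!
# MP_5b01b8_co (TW), module Cost: levels and costs
-/

set_option autoImplicit false

namespace Pool.Agent.OrdTW

open Finset

/-- the level of the chain for the fine level `f` : period `f / (2 a)`, class `q (f % (2 a))` -/
def tau (T a : ℕ) (q : ℕ → ℕ) (f : ℕ) : ℕ := T * (f / (2 * a)) + q (f % (2 * a))

theorem tau_strictMono {T a : ℕ} (ha : 1 ≤ a) {q : ℕ → ℕ} (hq : ∀ i < 2 * a, q i < T)
    (hmono : ∀ i j, i < j → j < 2 * a → q i < q j) : StrictMono (tau T a q) := by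
  intro f f' hff
  unfold tau
  have hpos : 0 < 2 * a := by omega
  have h1 := Nat.div_add_mod f (2 * a)
  have h2 := Nat.div_add_mod f' (2 * a)
  have m1 := Nat.mod_lt f hpos
  have m2 := Nat.mod_lt f' hpos
  rcases (Nat.div_le_div_right (c := 2 * a) hff.le).lt_or_eq with h | h
  · have h3 : T * (f / (2 * a)) + T ≤ T * (f' / (2 * a)) := by
      calc T * (f / (2 * a)) + T = T * (f / (2 * a) + 1) := by ring
        _ ≤ _ := Nat.mul_le_mul_left _ h
    have h4 := hq _ m1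
    omega
  · rw [h] at h1 ⊢
    have h5 : f % (2 * a) < f' % (2 * a) := by omega
    have h6 := hmono _ _ h5 m2
    omega

/-- `f < f' < f + 2 a` implies that the levels differ by less than `T` -/
theorem tau_near {T a : ℕ} (ha : 1 ≤ a) {q : ℕ → ℕ} (hq : ∀ i < 2 * a, q i < T)
    (hmono : ∀ i j, i < j → j < 2 * a → q i < q j) {f f' : ℕ} (h1 : f < f')
    (h2 : f' < f + 2 * a) : tau T a q f' < tau T a q f + T := by
  unfold tau
  have hpos : 0 < 2 * a := by omega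
  have e1 := Nat.div_add_mod f (2 * a)
  have e2 := Nat.div_add_mod f' (2 * a)
  have m1 := Nat.mod_lt f hpos
  have m2 := Nat.mod_lt f' hpos
  have h3 : f' / (2 * a) ≤ f / (2 * a) + 1 := by
    rw [← Nat.add_div_right _ hpos]
    exact Nat.div_le_div_right h2.le
  rcases (Nat.div_le_div_right (c := 2 * a) h1.le).lt_or_eq with h | h
  · have h4 : f' / (2 * a) = f / (2 * a) + 1 := by omega
    rw [h4] at e2 ⊢
    have h5 : 2 * a * (f / (2 * a) + 1) = 2 * a * (f / (2 * a)) + 2 * a := by ring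
    have h6 : f' % (2 * a) < f % (2 * a) := by omega
    have h7 := hmono _ _ h6 m1
    have h8 : T * (f / (2 * a) + 1) = T * (f / (2 * a)) + T := by ring
    omega
  · rw [← h]
    have h4 := hq _ m2
    omega

private theorem geo {T p : ℕ} (hT : 1 ≤ T) : ∀ m, p ≤ m →
    ∑ t ∈ Ico (T * p) (T * m), 1 / (2 : ℝ) ^ (t / T) = T * (2 / 2 ^ p - 2 / 2 ^ m) := by
  intro m hm
  induction m, hm using Nat.le_induction with
  | base => simp
  | succ m hm ih =>
    rw [← sum_Ico_consecutive _ (Nat.mul_le_mul_left T hm) (Nat.mul_le_mul_left T m.le_succ), ih]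
    have h : ∑ t ∈ Ico (T * m) (T * (m + 1)), 1 / (2 : ℝ) ^ (t / T) = T * (1 / 2 ^ m) := by
      have h1 : ∀ t ∈ Ico (T * m) (T * (m + 1)), 1 / (2 : ℝ) ^ (t / T) = 1 / 2 ^ m := by
        intro t ht
        rw [mem_Ico] at ht
        have h2 : t / T = m := Nat.div_eq_of_lt_le (by rw [mul_comm]; exact ht.1)
          (by rw [mul_comm]; exact ht.2)
        rw [h2]
      rw [sum_congr rfl h1, sum_const, Nat.card_Ico, nsmul_eq_mul]
      have h3 : T * (m + 1) - T * m = T := by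
        rw [mul_add, mul_one]
        omega
      rw [h3]
    rw [h, pow_succ]
    field_simp
    ring

private theorem geo_le {T p m : ℕ} (hT : 1 ≤ T) :
    ∑ t ∈ Ico (T * p) (T * m), 1 / (2 : ℝ) ^ (t / T) ≤ 2 * T / 2 ^ p := by
  rcases Nat.lt_or_ge m p with h | h
  · rw [Ico_eq_empty_of_le (Nat.mul_le_mul_left T h.le), sum_empty]
    positivity
  · rw [geo hT m h]
    have h1 : (0 : ℝ) ≤ T * (2 / 2 ^ m) := by positivity
    have h2 : (2 * T / 2 ^ p : ℝ) = T * (2 / 2 ^ p) := by ring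
    rw [h2, mul_sub]
    linarith

/-- The cost of the steps.  `D t = δ * |W t| ≥ δ * K * 2 ^ (t / T)`, `L = 1 / δ`, `M = T - 1`,
`H = T * m`, `m = h / 2 + 1`.  `∑ t ∈ Ico j H, 1 / D t ≤ T * ∑ s ≥ j / T, 1 / (δ * K * 2 ^ s)
≤ 2 * T / (δ * K * 2 ^ (j / T))`, and for `j = tau T a q (a * i)` we have `j / T = i / 2`.  So the
total cost is at most
`(1 / δ) ^ (T - 1) * 2 * T / (δ * K) * ∑ i ≤ h, |occ i| / 2 ^ (i / 2)
  ≤ (1 / δ) ^ T * 2 * T / K * E / 2 ^ (h / 2)`, less than `1` for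
`K > (1 / δ) ^ T * 2 * T * E / 2 ^ (h / 2)`. -/
theorem cost_lt {T a h K : ℕ} {δ E : ℝ} (hT : 2 ≤ T) (ha : 1 ≤ a) {q : ℕ → ℕ}
    (hq : ∀ i < 2 * a, q i < T) (hδ : 0 < δ) (hδ1 : δ ≤ 1) (hK : 1 ≤ K) {W : ℕ → Finset ℕ}
    (hW : ∀ t < T * (h / 2 + 1), K * 2 ^ (t / T) ≤ (W t).card) (N : ℕ → ℝ) (hN : ∀ i, 0 ≤ N i)
    (hE : ∑ i ∈ range (h + 1), N i / 2 ^ (i / 2) ≤ E / 2 ^ (h / 2))
    (hKE : (1 / δ) ^ T * (2 * T) * E < K * 2 ^ (h / 2)) :
    ∑ i ∈ range (h + 1), N i * ((1 / δ) ^ (T - 1) *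
      ∑ t ∈ Ico (tau T a q (a * i)) (T * (h / 2 + 1)), 1 / (δ * ((W t).card : ℝ))) < 1 := by
  have hK0 : (0 : ℝ) < K := by exact_mod_cast hK
  have hterm : ∀ i ∈ range (h + 1), N i * ((1 / δ) ^ (T - 1) *
      ∑ t ∈ Ico (tau T a q (a * i)) (T * (h / 2 + 1)), 1 / (δ * ((W t).card : ℝ))) ≤
      ((1 / δ) ^ T * (2 * T) / K) * (N i / 2 ^ (i / 2)) := by
    intro i _
    have h1 : T * (i / 2) ≤ tau T a q (a * i) := by
      unfold tau
      rw [mul_comm 2 a, Nat.mul_div_mul_left _ _ (by omega)]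
      omega
    have h2 : ∑ t ∈ Ico (tau T a q (a * i)) (T * (h / 2 + 1)), 1 / (δ * ((W t).card : ℝ)) ≤
        ∑ t ∈ Ico (T * (i / 2)) (T * (h / 2 + 1)), 1 / (δ * K) * (1 / (2 : ℝ) ^ (t / T)) := by
      refine (sum_le_sum fun t ht => ?_).trans
        (sum_le_sum_of_subset_of_nonneg (Ico_subset_Ico_left h1) fun t _ _ => by positivity)
      have h3 : ((K * 2 ^ (t / T) : ℕ) : ℝ) ≤ ((W t).card : ℝ) := by
        exact_mod_cast hW t (mem_Ico.1 ht).2
      push_cast at h3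
      have h4 : (0 : ℝ) < 2 ^ (t / T) := by positivity
      calc 1 / (δ * ((W t).card : ℝ)) ≤ 1 / (δ * (K * 2 ^ (t / T))) :=
            one_div_le_one_div_of_le (by positivity) (mul_le_mul_of_nonneg_left h3 hδ.le)
        _ = _ := by
            field_simp
    rw [← mul_sum] at h2
    have h5 := geo_le (T := T) (p := i / 2) (m := h / 2 + 1) (by omega)
    have h6 : 1 / (δ * K) * ∑ t ∈ Ico (T * (i / 2)) (T * (h / 2 + 1)), (1 / (2 : ℝ) ^ (t / T)) ≤
        1 / (δ * K) * (2 * T / 2 ^ (i / 2)) :=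
      mul_le_mul_of_nonneg_left h5 (by positivity)
    have h7 : (1 / δ) ^ T = (1 / δ) ^ (T - 1) * (1 / δ) := by
      rw [← pow_succ]
      congr 1
      omega
    calc N i * ((1 / δ) ^ (T - 1) *
        ∑ t ∈ Ico (tau T a q (a * i)) (T * (h / 2 + 1)), 1 / (δ * ((W t).card : ℝ)))
        ≤ N i * ((1 / δ) ^ (T - 1) * (1 / (δ * K) * (2 * T / 2 ^ (i / 2)))) :=
          mul_le_mul_of_nonneg_left
            (mul_le_mul_of_nonneg_left (h2.trans h6) (by positivity)) (hN i)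
      _ = _ := by
          rw [h7]
          field_simp
  refine (sum_le_sum hterm).trans_lt ?_
  rw [← mul_sum]
  have h8 : (0 : ℝ) ≤ (1 / δ) ^ T * (2 * T) / K := by positivity
  refine (mul_le_mul_of_nonneg_left hE h8).trans_lt ?_
  have h9 : (0 : ℝ) < K * 2 ^ (h / 2) := by positivity
  have h10 : (1 / δ) ^ T * (2 * T) / K * (E / 2 ^ (h / 2)) =
      ((1 / δ) ^ T * (2 * T) * E) / (K * 2 ^ (h / 2)) := by
    field_simp
  rw [h10, div_lt_one h9]
  exact hKE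

end Pool.Agent.OrdTW
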