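import Mathlib

/-!
# MP_5b01b8_co (TW), module Pack: packing
-/

set_option autoImplicit false

namespace Pool.Agent.OrdTW

open Finset

private theorem pack_sum (wt : ℕ → ℝ) (g : ℕ → ℕ) {I : Finset ℕ} {a : ℕ} (ha : a ∉ I)
    (b0 b : ℕ) : ∑ k ∈ (insert a I).filter (fun k => Function.update g a b0 k = b), wt k =
      (if b0 = b then wt a else 0) + ∑ k ∈ I.filter (fun k => g k = b), wt k := by
  rw [Finset.sum_filter, Finset.sum_insert ha, Finset.sum_filter, Function.update_self]
  congr 1
  refine Finset.sum_congr rfl fun k hk => ?_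
  rw [Function.update_of_ne (ne_of_mem_of_not_mem hk ha)]

private theorem pack_aux (wt : ℕ → ℝ) (τ : ℕ → ℕ) (I : Finset ℕ) (h0 : ∀ i ∈ I, 0 ≤ wt i)
    (h1 : ∀ i ∈ I, wt i < 1) :
    ∃ (g : ℕ → ℕ) (c : ℕ), (∀ i ∈ I, g i < c) ∧ (∀ i ∈ I, ∀ j ∈ I, g i = g j → τ i = τ j) ∧
      (∀ b, ∑ i ∈ I.filter (fun i => g i = b), wt i < 2) ∧ (∀ b < c, ∃ i ∈ I, g i = b) ∧
      ∀ i ∈ I, ∀ j ∈ I, τ i = τ j → ∑ k ∈ I.filter (fun k => g k = g i), wt k < 1 →
        ∑ k ∈ I.filter (fun k => g k = g j), wt k < 1 → g i = g j := by
  induction I using Finset.induction_on with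
  | empty => exact ⟨id, 0, by simp, by simp, by simp, by simp, by simp⟩
  | insert a I ha ih =>
    obtain ⟨g, c, k1, k2, k3, k4, k5⟩ := ih (fun i hi => h0 i (Finset.mem_insert_of_mem hi))
      (fun i hi => h1 i (Finset.mem_insert_of_mem hi))
    have ha0 := h0 a (Finset.mem_insert_self _ _)
    have ha1 := h1 a (Finset.mem_insert_self _ _)
    have hne : ∀ {i : ℕ}, i ∈ I → i ≠ a := fun hi => ne_of_mem_of_not_mem hi ha
    by_cases hA : ∃ i ∈ I, τ i = τ a ∧ ∑ k ∈ I.filter (fun k => g k = g i), wt k < 1
    · obtain ⟨i0, hi0, ht, hw⟩ := hA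
      have hup : ∀ {i : ℕ}, i ∈ I → Function.update g a (g i0) i = g i :=
        fun hi => Function.update_of_ne (hne hi) _ _
      have hle : ∀ b, ∑ k ∈ I.filter (fun k => g k = b), wt k ≤
          ∑ k ∈ (insert a I).filter (fun k => Function.update g a (g i0) k = b), wt k := by
        intro b
        rw [pack_sum wt g ha]
        have : 0 ≤ if g i0 = b then wt a else 0 := by
          split_ifs
          · exact ha0
          · exact le_rfl
        linarith
      refine ⟨Function.update g a (g i0), c, ?_, ?_, ?_, ?_, ?_⟩
      · intro i hi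
        rcases Finset.mem_insert.1 hi with rfl | hi2
        · rw [Function.update_self]
          exact k1 _ hi0
        · rw [hup hi2]
          exact k1 _ hi2
      · intro i hi j hj
        rcases Finset.mem_insert.1 hi with rfl | hi2
        · rcases Finset.mem_insert.1 hj with rfl | hj2
          · exact fun _ => rfl
          · rw [Function.update_self, hup hj2]
            intro h
            rw [← ht]
            exact k2 _ hi0 _ hj2 h
        · rcases Finset.mem_insert.1 hj with rfl | hj2
          · rw [Function.update_self, hup hi2]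
            intro h
            rw [← ht]
            exact k2 _ hi2 _ hi0 h
          · rw [hup hi2, hup hj2]
            exact k2 _ hi2 _ hj2
      · intro b
        rw [pack_sum wt g ha]
        split_ifs with hb
        · rw [← hb]
          linarith
        · rw [zero_add]
          exact k3 b
      · intro b hb
        obtain ⟨i, hi, hi'⟩ := k4 b hb
        exact ⟨i, Finset.mem_insert_of_mem hi, by rw [hup hi, hi']⟩
      · intro i hi j hj hτ hwi hwj
        have hwi' := lt_of_le_of_lt (hle _) hwi
        have hwj' := lt_of_le_of_lt (hle _) hwj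
        rcases Finset.mem_insert.1 hi with rfl | hi2
        · rcases Finset.mem_insert.1 hj with rfl | hj2
          · rfl
          · rw [hup hj2] at hwj' ⊢
            rw [Function.update_self]
            exact k5 _ hi0 _ hj2 (ht.trans hτ) hw hwj'
        · rcases Finset.mem_insert.1 hj with rfl | hj2
          · rw [hup hi2] at hwi' ⊢
            rw [Function.update_self]
            exact k5 _ hi2 _ hi0 (hτ.trans ht.symm) hwi' hw
          · rw [hup hi2] at hwi' ⊢
            rw [hup hj2] at hwj' ⊢
            exact k5 _ hi2 _ hj2 hτ hwi' hwj'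
    · push Not at hA
      have hup : ∀ {i : ℕ}, i ∈ I → Function.update g a c i = g i :=
        fun hi => Function.update_of_ne (hne hi) _ _
      have hsum : ∀ {i : ℕ}, i ∈ I →
          ∑ k ∈ (insert a I).filter (fun k => Function.update g a c k = g i), wt k =
            ∑ k ∈ I.filter (fun k => g k = g i), wt k := by
        intro i hi
        rw [pack_sum wt g ha, if_neg (k1 i hi).ne', zero_add]
      refine ⟨Function.update g a c, c + 1, ?_, ?_, ?_, ?_, ?_⟩
      · intro i hi
        rcases Finset.mem_insert.1 hi with rfl | hi2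
        · rw [Function.update_self]
          exact Nat.lt_succ_self c
        · rw [hup hi2]
          exact (k1 _ hi2).trans (Nat.lt_succ_self c)
      · intro i hi j hj
        rcases Finset.mem_insert.1 hi with rfl | hi2
        · rcases Finset.mem_insert.1 hj with rfl | hj2
          · exact fun _ => rfl
          · rw [Function.update_self, hup hj2]
            intro h
            exact absurd h (k1 j hj2).ne'
        · rcases Finset.mem_insert.1 hj with rfl | hj2
          · rw [Function.update_self, hup hi2]
            intro h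
            exact absurd h (k1 i hi2).ne
          · rw [hup hi2, hup hj2]
            exact k2 _ hi2 _ hj2
      · intro b
        rw [pack_sum wt g ha]
        split_ifs with hb
        · have h3 : I.filter (fun k => g k = b) = ∅ := by
            refine Finset.filter_eq_empty_iff.2 fun k hk h => ?_
            exact (k1 k hk).ne (h.trans hb.symm)
          rw [h3, Finset.sum_empty]
          linarith
        · rw [zero_add]
          exact k3 b
      · intro b hb
        rcases Nat.lt_succ_iff_lt_or_eq.1 hb with hb | rfl
        · obtain ⟨i, hi, hi'⟩ := k4 b hb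
          exact ⟨i, Finset.mem_insert_of_mem hi, by rw [hup hi, hi']⟩
        · exact ⟨a, Finset.mem_insert_self _ _, Function.update_self _ _ _⟩
      · intro i hi j hj hτ hwi hwj
        rcases Finset.mem_insert.1 hi with rfl | hi2
        · rcases Finset.mem_insert.1 hj with rfl | hj2
          · rfl
          · rw [hup hj2, hsum hj2] at hwj
            exact absurd hwj (not_lt.2 (hA j hj2 hτ.symm))
        · rcases Finset.mem_insert.1 hj with rfl | hj2
          · rw [hup hi2, hsum hi2] at hwi
            exact absurd hwi (not_lt.2 (hA i hi2 hτ))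
          · rw [hup hi2, hsum hi2] at hwi
            rw [hup hj2, hsum hj2] at hwj
            rw [hup hi2, hup hj2]
            exact k5 _ hi2 _ hj2 hτ hwi hwj

/-- Packing: items `i ∈ I` of weights `wt i < 1` and types `τ i` are packed into `c` boxes of
weight less than `2`, each box contains items of one type only, and `c` is at most the total
weight plus the number of the types.  Greedy, by induction on `I` : at every time all the boxes
except possibly one of each type have weight at least `1`. -/
theorem exists_packing (I : Finset ℕ) (wt : ℕ → ℝ) (h0 : ∀ i ∈ I, 0 ≤ wt i)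
    (h1 : ∀ i ∈ I, wt i < 1) (τ : ℕ → ℕ) :
    ∃ (g : ℕ → ℕ) (c : ℕ), (c : ℝ) ≤ ∑ i ∈ I, wt i + (I.image τ).card ∧ (∀ i ∈ I, g i < c) ∧
      (∀ i ∈ I, ∀ j ∈ I, g i = g j → τ i = τ j) ∧
      ∀ b, ∑ i ∈ I.filter (fun i => g i = b), wt i < 2 := by
  classical
  obtain ⟨g, c, k1, k2, k3, k4, k5⟩ := pack_aux wt τ I h0 h1
  refine ⟨g, c, ?_, k1, k2, k3⟩
  set W : ℕ → ℝ := fun b => ∑ i ∈ I.filter (fun i => g i = b), wt i with hW
  have hW0 : ∀ b, 0 ≤ W b := fun b =>
    Finset.sum_nonneg fun i hi => h0 i (Finset.mem_of_mem_filter i hi)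
  have e1 : ∑ b ∈ range c, W b = ∑ i ∈ I, wt i :=
    Finset.sum_fiberwise_of_maps_to (fun i hi => Finset.mem_range.2 (k1 i hi)) wt
  choose! φ hφ hφ' using k4
  have e2 : ((range c).filter (fun b => W b < 1)).card ≤ (I.image τ).card := by
    refine Finset.card_le_card_of_injOn (fun b => τ (φ b)) ?_ ?_
    · intro b hb
      have hb' := Finset.mem_range.1 (Finset.mem_filter.1 hb).1
      exact Finset.mem_image_of_mem τ (hφ b hb')
    · intro b hb b' hb' h
      have d1 := Finset.mem_range.1 (Finset.mem_filter.1 hb).1
      have d2 := Finset.mem_range.1 (Finset.mem_filter.1 hb').1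
      have w1 := (Finset.mem_filter.1 hb).2
      have w2 := (Finset.mem_filter.1 hb').2
      have h5 := k5 _ (hφ b d1) _ (hφ b' d2) h (by rw [hφ' b d1]; exact w1)
        (by rw [hφ' b' d2]; exact w2)
      rwa [hφ' b d1, hφ' b' d2] at h5
  have e3 : (((range c).filter (fun b => ¬ W b < 1)).card : ℝ) ≤ ∑ i ∈ I, wt i := by
    rw [← e1]
    calc (((range c).filter (fun b => ¬ W b < 1)).card : ℝ)
        = ∑ b ∈ (range c).filter (fun b => ¬ W b < 1), (1 : ℝ) := by simp
      _ ≤ ∑ b ∈ (range c).filter (fun b => ¬ W b < 1), W b :=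
          Finset.sum_le_sum fun b hb => not_lt.1 (Finset.mem_filter.1 hb).2
      _ ≤ ∑ b ∈ range c, W b :=
          Finset.sum_le_sum_of_subset_of_nonneg (Finset.filter_subset _ _) fun b _ _ => hW0 b
  have e4 : ((range c).filter (fun b => W b < 1)).card +
      ((range c).filter (fun b => ¬ W b < 1)).card = c := by
    rw [Finset.card_filter_add_card_filter_not, Finset.card_range]
  have e5 : (((range c).filter (fun b => W b < 1)).card : ℝ) +
      (((range c).filter (fun b => ¬ W b < 1)).card : ℝ) = c := by
    exact_mod_cast e4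
  have e6 : (((range c).filter (fun b => W b < 1)).card : ℝ) ≤ ((I.image τ).card : ℝ) := by
    exact_mod_cast e2
  linarith

end Pool.Agent.OrdTW
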