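import Mathlib
import Pool.Agent.Lib.MP_5b01b8_co_TW.Comp
import Pool.Agent.Lib.MP_5b01b8_co_TW.Pack

/-!
# MP_5b01b8_co (TW), module Split: one step of the decomposition
-/

set_option autoImplicit false

namespace Pool.Agent.OrdTW

open Finset

variable {V : Type} [DecidableEq V]

private theorem split_root {M : ℕ} {par : ℕ → ℕ} {Mk : Finset ℕ} {cr : ℕ → ℕ}
    (hpar : ∀ t, 0 < t → par t < t) (hM : Marking M par Mk cr) :
    ∀ t, t < M → t ∉ Mk → cr t = 0 ∨ par (cr t) ∈ Mk := by
  intro t
  induction t using Nat.strong_induction_on with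
  | _ t ih =>
    intro ht htM
    by_cases h : t = 0 ∨ par t ∈ Mk
    · rw [hM.cr_root t ht htM h]
      exact h
    · push Not at h
      have h1 := hpar t (Nat.pos_of_ne_zero h.1)
      rw [hM.cr_par t ht htM h.1 h.2]
      exact ih _ h1 (h1.trans ht) h.2

/-- the type of a component -/
private def splitTyp (par : ℕ → ℕ) (Mk : Finset ℕ) (cr : ℕ → ℕ) (c : ℕ) : ℕ :=
  if hang par Mk cr c = ∅ then (if c = 0 then 0 else 2 * par c + 2)
  else 2 * (∑ m ∈ hang par Mk cr c, m) + 1

private theorem splitTyp_mem {par : ℕ → ℕ} {Mk : Finset ℕ} {cr : ℕ → ℕ} {bag : ℕ → Finset V}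
    (h1 : ∀ c, (hang par Mk cr c).card ≤ 1) {c c' : ℕ}
    (h : splitTyp par Mk cr c = splitTyp par Mk cr c') {x : V}
    (hx : (c ≠ 0 ∧ par c ∈ Mk ∧ x ∈ bag (par c)) ∨ ∃ m ∈ hang par Mk cr c, x ∈ bag m) :
    x ∈ (if par c' ∈ Mk then bag (par c') else ∅) ∪ (hang par Mk cr c').biUnion bag := by
  by_cases he : hang par Mk cr c = ∅
  · have he' : hang par Mk cr c' = ∅ := by
      by_contra hne
      unfold splitTyp at h
      rw [if_pos he, if_neg hne] at h
      split_ifs at h <;> omega
    rcases hx with hx | ⟨m, hm, -⟩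
    · obtain ⟨hc, hp, hx⟩ := hx
      have h2 : par c = par c' := by
        unfold splitTyp at h
        rw [if_pos he, if_pos he', if_neg hc] at h
        split_ifs at h with h0
        omega
      rw [mem_union, ← h2, if_pos hp]
      exact Or.inl hx
    · rw [he] at hm
      simp at hm
  · have hne' : hang par Mk cr c' ≠ ∅ := by
      intro hne
      unfold splitTyp at h
      rw [if_pos hne, if_neg he] at h
      split_ifs at h
      omega
    obtain ⟨m, hm⟩ := card_eq_one.1
      (le_antisymm (h1 c) (card_pos.2 (nonempty_iff_ne_empty.2 he)))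
    obtain ⟨m', hm'⟩ := card_eq_one.1
      (le_antisymm (h1 c') (card_pos.2 (nonempty_iff_ne_empty.2 hne')))
    have hmm : m = m' := by
      unfold splitTyp at h
      rw [if_neg he, if_neg hne', hm, hm', sum_singleton, sum_singleton] at h
      omega
    have hcc : c = c' := by
      have ha : m ∈ hang par Mk cr c := by
        rw [hm]
        exact mem_singleton_self m
      have hb : m ∈ hang par Mk cr c' := by
        rw [hm', hmm]
        exact mem_singleton_self m'
      have ha' := (mem_filter.1 ha).2.2.2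
      have hb' := (mem_filter.1 hb).2.2.2
      rw [← ha', ← hb']
    subst hcc
    rw [mem_union]
    rcases hx with ⟨_, hp, hx⟩ | ⟨k, hk, hx⟩
    · left
      rw [if_pos hp]
      exact hx
    · right
      exact mem_biUnion.2 ⟨k, hk, hx⟩

private theorem splitTyp_card {M : ℕ} {par : ℕ → ℕ} {Mk : Finset ℕ} {cr : ℕ → ℕ}
    (hpar : ∀ t, 0 < t → par t < t) (hM : Marking M par Mk cr)
    (h1 : ∀ c, (hang par Mk cr c).card ≤ 1) :
    ((((range M).filter (fun t => t ∉ Mk)).image cr).image (splitTyp par Mk cr)).card ≤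
      2 * Mk.card + 1 := by
  have hsub : (((range M).filter (fun t => t ∉ Mk)).image cr).image (splitTyp par Mk cr) ⊆
      insert 0 (Mk.image (fun m => 2 * m + 1) ∪ Mk.image (fun m => 2 * m + 2)) := by
    intro y hy
    obtain ⟨c, hc, rfl⟩ := mem_image.1 hy
    obtain ⟨t, ht, rfl⟩ := mem_image.1 hc
    obtain ⟨ht1, ht2⟩ := mem_filter.1 ht
    have hr := split_root hpar hM t (mem_range.1 ht1) ht2
    rw [mem_insert, mem_union, mem_image, mem_image]
    unfold splitTyp
    by_cases he : hang par Mk cr (cr t) = ∅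
    · rw [if_pos he]
      by_cases h0 : cr t = 0
      · left
        rw [if_pos h0]
      · right
        right
        rw [if_neg h0]
        exact ⟨par (cr t), hr.resolve_left h0, rfl⟩
    · right
      left
      rw [if_neg he]
      obtain ⟨m, hm⟩ := card_eq_one.1
        (le_antisymm (h1 (cr t)) (card_pos.2 (nonempty_iff_ne_empty.2 he)))
      refine ⟨m, ?_, ?_⟩
      · have : m ∈ hang par Mk cr (cr t) := by
          rw [hm]
          exact mem_singleton_self m
        exact (mem_filter.1 this).1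
      · rw [hm, sum_singleton]
  refine (card_le_card hsub).trans ?_
  refine (card_insert_le _ _).trans ?_
  have h2 := card_union_le (Mk.image (fun m => 2 * m + 1)) (Mk.image (fun m => 2 * m + 2))
  have h3 := card_image_le (s := Mk) (f := fun m => 2 * m + 1)
  have h4 := card_image_le (s := Mk) (f := fun m => 2 * m + 2)
  omega

/-- One step.  `K` is a set of vertices whose outer neighbours lie in `F`, `|F| ≤ 4 (w + 1)`.  Let
`B1` be the set of the vertices of `K` with a neighbour in `F`, `|B1| ≤ Δ * |F|`.  Weights: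
`wt t = |{v ∈ K | top v = t}| / s + |{x ∈ B1 | top x = t}| / (w + 1)`; the total weight is at most
`Wt = |K| / s + 4 * Δ`.  Take `Mk`, `cr` of `exists_marking` and let `X` be `B1` and the vertices
of `K` in bags of marked nodes.  For `v ∈ K \ X` put `comp v = cr (top v)`.  Adjacent vertices
`u, v` of `K \ X` have the same `comp` (common bag, `comp_eq`).  Types of the components `c` :
`2 m + 1` if the marked node `m` hangs below it, otherwise `2 * par c + 2` if `c ≠ 0`, and `0` if
`c = 0`; there are at most `2 |Mk| + 1` types.  Pack the components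
(`I` = all the roots `cr t`, `t < M` unmarked) with `exists_packing` and put `g v` = box of
`comp v`.  The number of boxes is at most `Wt + 2 |Mk| + 1 ≤ 5 * Wt + 1`.  A box of weight `< 2`
has less than `2 s` vertices and less than `2 (w + 1)` vertices of `B1` with top in its components.
A vertex `x ∈ X` adjacent to a vertex `u` of the box `i` : common bag `t`, `t` is unmarked and in
the component of `u`; if `x` is in the bag of a marked node, then `adj_marks` puts it in the bag of
one of two marked nodes, which depend only on the type (for type `2 m + 1` the box has just one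
component, as `m` hangs below one component only); otherwise `x ∈ B1` and `cr (top x) = comp u`. -/
theorem split_step {G : SimpleGraph V} {w M Δ : ℕ} {par : ℕ → ℕ} {bag : ℕ → Finset V}
    {top : V → ℕ} (hG : Rooted G w M par bag top) (hM : 0 < M)
    (hΔ : ∀ (v : V) (N : Finset V), (∀ u ∈ N, G.Adj v u) → N.card ≤ Δ) (K F : Finset V)
    (hF : ∀ u ∈ K, ∀ v, G.Adj u v → v ∉ K → v ∈ F) (hFc : F.card ≤ 4 * (w + 1)) {s : ℝ}
    (hs : 0 < s) :
    ∃ (X : Finset V) (g : V → ℕ) (c : ℕ), X ⊆ K ∧
      (X.card : ℝ) ≤ (w + 1) * (2 * (K.card / s) + 8 * Δ) + 4 * Δ * (w + 1) ∧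
      (c : ℝ) ≤ 5 * (K.card / s) + 20 * Δ + 1 ∧ (∀ v ∈ K \ X, g v < c) ∧
      (∀ u ∈ K \ X, ∀ v ∈ K \ X, G.Adj u v → g u = g v) ∧
      (∀ u ∈ K \ X, ∀ v ∈ F, ¬ G.Adj u v) ∧
      (∀ i, (((K \ X).filter fun v => g v = i).card : ℝ) ≤ 2 * s) ∧
      ∀ (i : ℕ) (N : Finset V), N ⊆ X → (∀ x ∈ N, ∃ v ∈ K \ X, g v = i ∧ G.Adj v x) →
        N.card ≤ 4 * (w + 1) := by
  classical
  have hw0 : (0 : ℝ) < (w : ℝ) + 1 := by positivity
  -- the set `B1`
  obtain ⟨B1, hB1⟩ : ∃ B1 : Finset V, B1 = K.filter (fun v => ∃ f ∈ F, G.Adj f v) := ⟨_, rfl⟩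
  have hB1c : B1.card ≤ F.card * Δ := by
    have h1 : B1 ⊆ F.biUnion (fun f => K.filter (fun v => G.Adj f v)) := by
      intro v hv
      rw [hB1, mem_filter] at hv
      obtain ⟨hvK, f, hf, hfv⟩ := hv
      exact mem_biUnion.2 ⟨f, hf, mem_filter.2 ⟨hvK, hfv⟩⟩
    refine (card_le_card h1).trans (card_biUnion_le_card_mul _ _ _ fun f _ => ?_)
    exact hΔ f _ fun u hu => (mem_filter.1 hu).2
  have hB1K : B1 ⊆ K := by
    rw [hB1]
    exact filter_subset _ _
  have hB1c' : (B1.card : ℝ) ≤ 4 * Δ * (w + 1) := by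
    have h1 : B1.card ≤ 4 * (w + 1) * Δ := hB1c.trans (Nat.mul_le_mul_right _ hFc)
    have h2 : (B1.card : ℝ) ≤ ((4 * (w + 1) * Δ : ℕ) : ℝ) := by exact_mod_cast h1
    push_cast at h2
    linarith
  -- weights
  obtain ⟨wt, hwt⟩ : ∃ wt : ℕ → ℝ, wt = fun t => ((K.filter (fun v => top v = t)).card : ℝ) / s +
      ((B1.filter (fun v => top v = t)).card : ℝ) / (w + 1) := ⟨_, rfl⟩
  have hwt0 : ∀ t, 0 ≤ wt t := by
    intro t
    rw [hwt]
    positivity
  have hfib : ∀ (A : Finset V) (T : Finset ℕ),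
      ((A.filter (fun v => top v ∈ T)).card : ℝ) =
        ∑ t ∈ T, ((A.filter (fun v => top v = t)).card : ℝ) := by
    intro A T
    have h1 : (A.filter (fun v => top v ∈ T)).card =
        ∑ t ∈ T, ((A.filter (fun v => top v ∈ T)).filter (fun v => top v = t)).card :=
      card_eq_sum_card_fiberwise fun v hv => (mem_filter.1 hv).2
    rw [h1]
    push_cast
    refine sum_congr rfl fun t ht => ?_
    congr 2
    ext v
    simp only [mem_filter]
    constructor
    · rintro ⟨⟨a, -⟩, b⟩
      exact ⟨a, b⟩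
    · rintro ⟨a, b⟩
      exact ⟨⟨a, b ▸ ht⟩, b⟩
  have hsumK : ∀ (A : Finset V) (T : Finset ℕ) (r : ℝ),
      ∑ t ∈ T, ((A.filter (fun v => top v = t)).card : ℝ) / r =
        ((A.filter (fun v => top v ∈ T)).card : ℝ) / r := by
    intro A T r
    rw [hfib, sum_div]
  have hall : ∀ A : Finset V, A.filter (fun v => top v ∈ range M) = A := by
    intro A
    refine filter_true_of_mem fun v _ => ?_
    exact mem_range.2 (hG.top_lt v)
  have htot : ∑ t ∈ range M, wt t ≤ K.card / s + 4 * Δ := by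
    rw [hwt]
    simp only [sum_add_distrib]
    rw [hsumK, hsumK, hall, hall]
    have h1 : (B1.card : ℝ) / (w + 1) ≤ 4 * Δ := by
      rw [div_le_iff₀ hw0]
      exact hB1c'
    linarith
  obtain ⟨Mk, cr, hMk, hlight, hhang, hMkc⟩ := exists_marking par hG.par_lt hM wt hwt0
  have hMkc' : (Mk.card : ℝ) ≤ 2 * (K.card / s + 4 * Δ) := by linarith
  obtain ⟨X, hX⟩ : ∃ X : Finset V, X = B1 ∪ K.filter (fun v => ∃ m ∈ Mk, v ∈ bag m) := ⟨_, rfl⟩
  obtain ⟨I, hI⟩ : ∃ I : Finset ℕ, I = ((range M).filter (fun t => t ∉ Mk)).image cr := ⟨_, rfl⟩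
  obtain ⟨W, hW⟩ : ∃ W : ℕ → ℝ, W = fun c =>
      ∑ t ∈ (range M).filter (fun t => t ∉ Mk ∧ cr t = c), wt t := ⟨_, rfl⟩
  have hW0 : ∀ i ∈ I, 0 ≤ W i := by
    intro i _
    rw [hW]
    exact sum_nonneg fun t _ => hwt0 t
  have hW1 : ∀ i ∈ I, W i < 1 := by
    intro i _
    rw [hW]
    exact hlight i
  obtain ⟨g0, c0, hc0, hg0, hgt, hbox⟩ := exists_packing I W hW0 hW1 (splitTyp par Mk cr)
  have hWsum : ∀ J ⊆ I, ∑ c ∈ J, W c =
      ∑ t ∈ (range M).filter (fun t => t ∉ Mk ∧ cr t ∈ J), wt t := by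
    intro J _
    rw [hW]
    rw [← sum_fiberwise_of_maps_to (s := (range M).filter (fun t => t ∉ Mk ∧ cr t ∈ J))
      (t := J) (g := cr) (fun t ht => (mem_filter.1 ht).2.2)]
    refine sum_congr rfl fun c hc => ?_
    refine sum_congr ?_ fun _ _ => rfl
    ext t
    simp only [mem_filter]
    constructor
    · rintro ⟨a, b, rfl⟩
      exact ⟨⟨a, b, hc⟩, rfl⟩
    · rintro ⟨⟨a, b, -⟩, d⟩
      exact ⟨a, b, d⟩
  -- vertices outside of X
  have hout : ∀ v ∈ K \ X, ∀ m ∈ Mk, v ∉ bag m := by
    intro v hv m hm hvm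
    obtain ⟨hvK, hvX⟩ := mem_sdiff.1 hv
    apply hvX
    rw [hX]
    exact mem_union_right _ (mem_filter.2 ⟨hvK, m, hm, hvm⟩)
  have htopM : ∀ v ∈ K \ X, top v ∉ Mk := fun v hv =>
    (comp_eq hG hMk (hout v hv) (hG.top_lt v) (hG.mem_top v)).1
  have hcI : ∀ t, t < M → t ∉ Mk → cr t ∈ I := by
    intro t ht htM
    rw [hI]
    exact mem_image.2 ⟨t, mem_filter.2 ⟨mem_range.2 ht, htM⟩, rfl⟩
  -- the nodes of the box `i`
  obtain ⟨T, hT⟩ : ∃ T : ℕ → Finset ℕ, T = fun i =>
      (range M).filter (fun t => t ∉ Mk ∧ cr t ∈ I.filter (fun c => g0 c = i)) := ⟨_, rfl⟩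
  have hTw : ∀ i, ∑ t ∈ T i, wt t < 2 := by
    intro i
    rw [hT]
    simp only
    rw [← hWsum _ (filter_subset _ _)]
    exact hbox i
  have hTK : ∀ (i : ℕ), ((K.filter (fun v => top v ∈ T i)).card : ℝ) / s +
      ((B1.filter (fun v => top v ∈ T i)).card : ℝ) / (w + 1) < 2 := by
    intro i
    have h1 := hTw i
    rw [hwt] at h1
    simp only [sum_add_distrib] at h1
    rw [hsumK, hsumK] at h1
    exact h1
  have hTmem : ∀ t, t < M → t ∉ Mk → t ∈ T (g0 (cr t)) := by
    intro t ht htM
    rw [hT]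
    exact mem_filter.2 ⟨mem_range.2 ht, htM, mem_filter.2 ⟨hcI t ht htM, rfl⟩⟩
  refine ⟨X, fun v => g0 (cr (top v)), c0, ?_, ?_, ?_, ?_, ?_, ?_, ?_, ?_⟩
  · rw [hX]
    exact union_subset hB1K (filter_subset _ _)
  · have h1 : (K.filter (fun v => ∃ m ∈ Mk, v ∈ bag m)).card ≤ Mk.card * (w + 1) := by
      have h2 : K.filter (fun v => ∃ m ∈ Mk, v ∈ bag m) ⊆ Mk.biUnion bag := by
        intro v hv
        obtain ⟨-, m, hm, hvm⟩ := mem_filter.1 hv
        exact mem_biUnion.2 ⟨m, hm, hvm⟩
      refine (card_le_card h2).trans (card_biUnion_le_card_mul _ _ _ fun m hm => ?_)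
      exact hG.card_le m (hMk.sub m hm)
    have h2 : X.card ≤ B1.card + Mk.card * (w + 1) := by
      rw [hX]
      exact (card_union_le _ _).trans (Nat.add_le_add_left h1 _)
    have h3 : (X.card : ℝ) ≤ B1.card + Mk.card * (w + 1) := by exact_mod_cast h2
    have h4 : (Mk.card : ℝ) * (w + 1) ≤ (2 * (K.card / s + 4 * Δ)) * (w + 1) :=
      mul_le_mul_of_nonneg_right hMkc' hw0.le
    calc (X.card : ℝ) ≤ B1.card + Mk.card * (w + 1) := h3
      _ ≤ 4 * Δ * (w + 1) + (2 * (K.card / s + 4 * Δ)) * (w + 1) := add_le_add hB1c' h4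
      _ = (w + 1) * (2 * (K.card / s) + 8 * Δ) + 4 * Δ * (w + 1) := by ring
  · have h1 : ∑ i ∈ I, W i ≤ K.card / s + 4 * Δ := by
      rw [hWsum I subset_rfl]
      refine le_trans ?_ htot
      exact sum_le_sum_of_subset_of_nonneg (filter_subset _ _) fun t _ _ => hwt0 t
    have h2 : ((I.image (splitTyp par Mk cr)).card : ℝ) ≤ 2 * Mk.card + 1 := by
      have h3 := splitTyp_card hG.par_lt hMk hhang
      rw [← hI] at h3
      exact_mod_cast h3
    linarith
  · intro v hv
    exact hg0 _ (hcI _ (hG.top_lt v) (htopM v hv))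
  · intro u hu v hv huv
    obtain ⟨t, ht, hut, hvt⟩ := hG.edge u v huv
    have h1 := (comp_eq hG hMk (hout u hu) ht hut).2.2
    have h2 := (comp_eq hG hMk (hout v hv) ht hvt).2.2
    change g0 (cr (top u)) = g0 (cr (top v))
    rw [← h1, ← h2]
  · intro u hu v hv huv
    obtain ⟨huK, huX⟩ := mem_sdiff.1 hu
    apply huX
    rw [hX, hB1]
    exact mem_union_left _ (mem_filter.2 ⟨huK, v, hv, huv.symm⟩)
  · intro i
    have h1 : (K \ X).filter (fun v => g0 (cr (top v)) = i) ⊆
        K.filter (fun v => top v ∈ T i) := by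
      intro v hv
      obtain ⟨hv1, hv2⟩ := mem_filter.1 hv
      refine mem_filter.2 ⟨(mem_sdiff.1 hv1).1, ?_⟩
      rw [← hv2]
      exact hTmem _ (hG.top_lt v) (htopM v hv1)
    have h2 : (((K \ X).filter (fun v => g0 (cr (top v)) = i)).card : ℝ) ≤
        (K.filter (fun v => top v ∈ T i)).card := by exact_mod_cast card_le_card h1
    have h3 := hTK i
    have h4 : (0 : ℝ) ≤ ((B1.filter (fun v => top v ∈ T i)).card : ℝ) / (w + 1) := by positivity
    have h5 : ((K.filter (fun v => top v ∈ T i)).card : ℝ) / s < 2 := by linarith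
    rw [div_lt_iff₀ hs] at h5
    exact h2.trans h5.le
  · intro i N hNX hN
    have hB : (B1.filter (fun v => top v ∈ T i)).card ≤ 2 * (w + 1) := by
      have h3 := hTK i
      have h4 : (0 : ℝ) ≤ ((K.filter (fun v => top v ∈ T i)).card : ℝ) / s := by positivity
      have h5 : ((B1.filter (fun v => top v ∈ T i)).card : ℝ) / (w + 1) < 2 := by linarith
      rw [div_lt_iff₀ hw0] at h5
      have h6 : ((B1.filter (fun v => top v ∈ T i)).card : ℝ) < ((2 * (w + 1) : ℕ) : ℝ) := by
        push_cast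
        exact h5
      exact (Nat.cast_lt.1 h6).le
    -- every vertex of `N` : either in `B1` with top in the box, or near the marks
    have hcase : ∀ x ∈ N, x ∈ B1.filter (fun v => top v ∈ T i) ∨
        ∃ c ∈ I, g0 c = i ∧ ((c ≠ 0 ∧ par c ∈ Mk ∧ x ∈ bag (par c)) ∨
          ∃ m ∈ hang par Mk cr c, x ∈ bag m) := by
      intro x hx
      obtain ⟨u, hu, hgu, hux⟩ := hN x hx
      obtain ⟨t, ht, hut, hxt⟩ := hG.edge u x hux
      obtain ⟨htM, htu, hcu⟩ := comp_eq hG hMk (hout u hu) ht hut
      by_cases hxm : ∃ m ∈ Mk, x ∈ bag m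
      · right
        obtain ⟨m, hm, hxm⟩ := hxm
        refine ⟨cr t, hcI t ht htM, ?_, adj_marks hG hMk hm hxm ht htM hxt⟩
        rw [hcu]
        exact hgu
      · left
        push Not at hxm
        obtain ⟨-, htx, hcx⟩ := comp_eq hG hMk hxm ht hxt
        have hxX := hNX hx
        rw [hX, mem_union] at hxX
        have hxB : x ∈ B1 := by
          rcases hxX with h | h
          · exact h
          · obtain ⟨-, m, hm, hxm'⟩ := mem_filter.1 h
            exact absurd hxm' (hxm m hm)
        refine mem_filter.2 ⟨hxB, ?_⟩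
        have h1 := hTmem (top x) (hG.top_lt x) htx
        rw [← hcx, hcu] at h1
        have h2 : g0 (cr (top u)) = i := hgu
        rw [h2] at h1
        exact h1
    by_cases hex : ∃ c ∈ I, g0 c = i
    · obtain ⟨c', hc', hgc'⟩ := hex
      have hsub : N ⊆ B1.filter (fun v => top v ∈ T i) ∪
          ((if par c' ∈ Mk then bag (par c') else ∅) ∪ (hang par Mk cr c').biUnion bag) := by
        intro x hx
        rcases hcase x hx with h | ⟨c, hc, hgc, h⟩
        · exact mem_union_left _ h
        · refine mem_union_right _ (splitTyp_mem hhang (hgt c hc c' hc' ?_) h)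
          rw [hgc, hgc']
      have hp1 : (if par c' ∈ Mk then bag (par c') else ∅).card ≤ w + 1 := by
        split_ifs with h
        · exact hG.card_le _ (hMk.sub _ h)
        · simp
      have hp2 : ((hang par Mk cr c').biUnion bag).card ≤ w + 1 := by
        have h1 : ((hang par Mk cr c').biUnion bag).card ≤ (hang par Mk cr c').card * (w + 1) :=
          card_biUnion_le_card_mul _ _ _ fun m hm =>
            hG.card_le m (hMk.sub m (mem_filter.1 hm).1)
        have h2 := Nat.mul_le_mul_right (w + 1) (hhang c')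
        omega
      have h1 := card_le_card hsub
      have h2 := card_union_le (B1.filter (fun v => top v ∈ T i))
        ((if par c' ∈ Mk then bag (par c') else ∅) ∪ (hang par Mk cr c').biUnion bag)
      have h3 := card_union_le (if par c' ∈ Mk then bag (par c') else ∅)
        ((hang par Mk cr c').biUnion bag)
      omega
    · have hsub : N ⊆ B1.filter (fun v => top v ∈ T i) := by
        intro x hx
        rcases hcase x hx with h | ⟨c, hc, hgc, -⟩
        · exact h
        · exact absurd ⟨c, hc, hgc⟩ hex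
      have h1 := card_le_card hsub
      omega

end Pool.Agent.OrdTW
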