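import Mathlib
import Pool.Agent.Lib.MP_5b01b8_co_TW.Split

/-!
# MP_5b01b8_co (TW), module Rec: recursive decomposition
-/

set_option autoImplicit false

namespace Pool.Agent.OrdTW

open Finset

variable {V : Type} [DecidableEq V]

/-- counting of the occupied nodes of the level `l + 1` -/
private theorem rec_occ {K X : Finset V} {g : V → ℕ} {c B : ℕ} {levi nodi : ℕ → V → ℕ}
    (hB : 0 < B) (hgc : ∀ v ∈ K \ X, g v < c) (l : ℕ) :
    (occ K B (fun v => if v ∈ X then 0 else levi (g v) v + 1)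
      (fun v => if v ∈ X then 0 else g v * B ^ levi (g v) v + nodi (g v) v) (l + 1)).card ≤
    ∑ i ∈ range c, (occ ((K \ X).filter fun v => g v = i) B (levi i) (nodi i) l).card := by
  have hsub : occ K B (fun v => if v ∈ X then 0 else levi (g v) v + 1)
      (fun v => if v ∈ X then 0 else g v * B ^ levi (g v) v + nodi (g v) v) (l + 1) ⊆
      (range c).biUnion fun i => (occ ((K \ X).filter fun v => g v = i) B (levi i)
        (nodi i) l).image fun y => i * B ^ l + y := by
    intro y hy
    unfold occ at hy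
    obtain ⟨v, hv, rfl⟩ := mem_image.1 hy
    obtain ⟨hvK, hvl⟩ := mem_filter.1 hv
    by_cases hvX : v ∈ X
    · simp only [if_pos hvX] at hvl
      omega
    · simp only [if_neg hvX] at hvl
      have hvKX : v ∈ K \ X := mem_sdiff.2 ⟨hvK, hvX⟩
      refine mem_biUnion.2 ⟨g v, mem_range.2 (hgc v hvKX), mem_image.2
        ⟨nodi (g v) v / B ^ (levi (g v) v - l), ?_, ?_⟩⟩
      · exact mem_image.2 ⟨v, mem_filter.2 ⟨mem_filter.2 ⟨hvKX, rfl⟩, by omega⟩, rfl⟩
      · simp only [if_neg hvX]
        have h1 : levi (g v) v + 1 - (l + 1) = levi (g v) v - l := by omega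
        rw [h1]
        obtain ⟨e, he⟩ : ∃ e, levi (g v) v = l + e := ⟨levi (g v) v - l, by omega⟩
        rw [he, Nat.add_sub_cancel_left, pow_add, ← mul_assoc, Nat.add_comm (_ * B ^ e),
          Nat.add_mul_div_right _ _ (pow_pos hB e), Nat.add_comm]
  refine (card_le_card hsub).trans (card_biUnion_le.trans (sum_le_sum fun i _ => ?_))
  exact card_image_le

/-- the arithmetic of the recursion step -/
private theorem rec_arith {b μ k c : ℝ} (hμ : 0 < μ) (hb : b = 8 * μ) (hk : 0 ≤ k) {q l : ℕ}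
    (hl : l ≤ q) (hc : c ≤ 5 * (k / b ^ q) + μ) :
    (11 - 10 / 2 ^ l) * (k / b ^ (q - l)) + c * μ ^ l ≤
      (11 - 10 / 2 ^ (l + 1)) * (k / b ^ (q - l)) + μ ^ (l + 1) := by
  have hb0 : 0 < b := by
    rw [hb]
    linarith
  have h1 : c * μ ^ l ≤ (5 * (k / b ^ q) + μ) * μ ^ l :=
    mul_le_mul_of_nonneg_right hc (pow_pos hμ l).le
  have h2 : b ^ q = b ^ (q - l) * b ^ l := by
    rw [← pow_add]
    congr 1
    omega
  have h3 : k / b ^ q * μ ^ l = k / b ^ (q - l) * (1 / 8 ^ l) := by
    rw [h2]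
    have h4 : b ^ l = 8 ^ l * μ ^ l := by
      rw [hb, mul_pow]
    rw [h4]
    have h5 : μ ^ l ≠ 0 := (pow_pos hμ l).ne'
    have h6 : b ^ (q - l) ≠ 0 := (pow_pos hb0 _).ne'
    field_simp
  have h7 : (1 : ℝ) / 8 ^ l ≤ 1 / 2 ^ l :=
    one_div_le_one_div_of_le (by positivity) (pow_le_pow_left₀ (by norm_num) (by norm_num) l)
  have h8 : 0 ≤ k / b ^ (q - l) := by positivity
  have h9 : k / b ^ (q - l) * (1 / 8 ^ l) ≤ k / b ^ (q - l) * (1 / 2 ^ l) :=
    mul_le_mul_of_nonneg_left h7 h8
  have h10 : (10 : ℝ) / 2 ^ (l + 1) = 5 * (1 / 2 ^ l) := by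
    rw [pow_succ]
    field_simp
    norm_num
  have h11 : (10 : ℝ) / 2 ^ l = 10 * (1 / 2 ^ l) := by ring
  rw [h10, h11]
  calc (11 - 10 * (1 / 2 ^ l)) * (k / b ^ (q - l)) + c * μ ^ l
      ≤ (11 - 10 * (1 / 2 ^ l)) * (k / b ^ (q - l)) + (5 * (k / b ^ q) + μ) * μ ^ l := by
        linarith
    _ = (11 - 10 * (1 / 2 ^ l)) * (k / b ^ (q - l)) + 5 * (k / b ^ q * μ ^ l) +
        μ ^ (l + 1) := by ring
    _ ≤ (11 - 10 * (1 / 2 ^ l)) * (k / b ^ (q - l)) + 5 * (k / b ^ (q - l) * (1 / 2 ^ l)) +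
        μ ^ (l + 1) := by
        rw [h3]
        linarith
    _ = (11 - 5 * (1 / 2 ^ l)) * (k / b ^ (q - l)) + μ ^ (l + 1) := by ring

/-- Recursion.  `μ = 20 * Δ + 1`, `b = 8 * μ`, `B = 10 * b + μ`, `a = 4 * (w + 1) * (b + 3 * Δ)`.
Induction on `q`.  `q = 0` : `|K| ≤ 2`, all the vertices get `lev = 0`, `nod = 0`
(`occ` at `l = 0` has at most one element).
`q → q + 1` : `split_step` with `s = b ^ q`, `|K| ≤ 2 b ^ (q + 1)`, so `|K| / s ≤ 2 b` and
`|X| ≤ (w + 1) * (4 b + 8 Δ) + 4 Δ (w + 1) = a`, `c ≤ 5 |K| / s + μ ≤ B`.  For `i < c` let `K i` be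
the set of the `v ∈ K \ X` with `g v = i` and `F i` the set of the neighbours of `K i` outside
`K i` : they are in `X` (edges inside `K \ X` do not leave `K i`, no edges to `F`), `|F i| ≤
4 (w + 1)`, `|K i| ≤ 2 b ^ q`; the induction hypothesis gives `lev i`, `nod i`.  Define
`lev v = nod v = 0` for `v ∈ X`, and `lev v = lev i v + 1`, `nod v = i * B ^ (lev i v) + nod i v`
for `v ∈ K i`.  An edge between `x ∈ X` and `v ∈ K i` : `x ∈ F i`, so `lev i v = 0`, `lev v = 1`,
`nod v = i`, `i / B = 0`.  An edge from `v ∈ K` to `F` : `v ∈ X`, `lev v = 0`.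
Counting: `occ` at `0` has at most one element and `|K| > 0` or it is empty.  At `l + 1` it is the
union over `i < c` of `i * B ^ l + occ (K i) l`, so by induction its size is at most
`∑ i, ((11 - 10 / 2 ^ l) * |K i| / b ^ (q - l) + μ ^ l)
  ≤ (11 - 10 / 2 ^ l) * |K| / b ^ (q - l) + c * μ ^ l`, and
`c * μ ^ l ≤ 5 * |K| * μ ^ l / b ^ q + μ ^ (l + 1)`, where
`5 * |K| * μ ^ l / b ^ q = 5 * (μ / b) ^ l * |K| / b ^ (q - l) ≤ (5 / 2 ^ l) * |K| / b ^ (q - l)`,
and `11 - 10 / 2 ^ l + 5 / 2 ^ l = 11 - 10 / 2 ^ (l + 1)`. -/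
theorem decomp_rec {G : SimpleGraph V} {w M Δ : ℕ} {par : ℕ → ℕ} {bag : ℕ → Finset V}
    {top : V → ℕ} (hG : Rooted G w M par bag top) (hM : 0 < M)
    (hΔ : ∀ (v : V) (N : Finset V), (∀ u ∈ N, G.Adj v u) → N.card ≤ Δ) {a b μ B : ℕ}
    (hμ : μ = 20 * Δ + 1) (hb : b = 8 * μ) (hB : B = 10 * b + μ)
    (ha : a = 4 * (w + 1) * (b + 3 * Δ)) : ∀ (q : ℕ) (K F : Finset V),
      (∀ u ∈ K, ∀ v, G.Adj u v → v ∉ K → v ∈ F) → F.card ≤ 4 * (w + 1) → K.card ≤ 2 * b ^ q →
      ∃ lev nod : V → ℕ, (∀ v ∈ K, lev v ≤ q ∧ nod v < B ^ lev v) ∧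
        (∀ u ∈ K, ∀ v ∈ K, G.Adj u v → (lev u = lev v ∧ nod u = nod v) ∨
          (lev v = lev u + 1 ∧ nod v / B = nod u) ∨ (lev u = lev v + 1 ∧ nod u / B = nod v)) ∧
        (∀ v ∈ K, ∀ x ∈ F, G.Adj v x → lev v = 0) ∧
        (∀ l κ, (K.filter fun v => lev v = l ∧ nod v = κ).card ≤ a) ∧
        ∀ l ≤ q, ((occ K B lev nod l).card : ℝ) ≤
          (11 - 10 / 2 ^ l) * (K.card / (b : ℝ) ^ (q - l)) + (μ : ℝ) ^ l := by
  have hμ0 : 0 < μ := by omega
  have hb0 : 0 < b := by omega
  have hB0 : 0 < B := by omega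
  have hμR : (0 : ℝ) < μ := by exact_mod_cast hμ0
  have hbR : (0 : ℝ) < b := by exact_mod_cast hb0
  have hbμ : (b : ℝ) = 8 * μ := by
    rw [hb]
    push_cast
    ring
  intro q
  induction q with
  | zero =>
    intro K F hF hFc hK
    have hK2 : K.card ≤ 2 := by simpa using hK
    refine ⟨fun _ => 0, fun _ => 0, ?_, ?_, ?_, ?_, ?_⟩
    · intro v _
      simp
    · intro u _ v _ _
      exact Or.inl ⟨rfl, rfl⟩
    · intro v _ x _ _
      rfl
    · intro l κ
      refine (card_filter_le _ _).trans (hK2.trans ?_)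
      rw [ha]
      have h1 : 1 ≤ w + 1 := by omega
      have h2 : 1 ≤ b + 3 * Δ := by omega
      have h3 : 1 * 1 ≤ (w + 1) * (b + 3 * Δ) := Nat.mul_le_mul h1 h2
      rw [Nat.mul_assoc]
      omega
    · intro l hl
      obtain rfl : l = 0 := by omega
      have h1 : (occ K B (fun _ => 0) (fun _ => 0) 0).card ≤ K.card := by
        unfold occ
        exact card_image_le.trans (card_filter_le _ _)
      have h2 : ((occ K B (fun _ => 0) (fun _ => 0) 0).card : ℝ) ≤ K.card := by
        exact_mod_cast h1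
      norm_num
      linarith
  | succ q ih =>
    intro K F hF hFc hK
    classical
    have hs : (0 : ℝ) < (b : ℝ) ^ q := pow_pos hbR q
    have hKR : (K.card : ℝ) ≤ 2 * (b : ℝ) ^ (q + 1) := by exact_mod_cast hK
    have hKs : (K.card : ℝ) / (b : ℝ) ^ q ≤ 2 * b := by
      rw [div_le_iff₀ hs]
      calc (K.card : ℝ) ≤ 2 * (b : ℝ) ^ (q + 1) := hKR
        _ = 2 * b * (b : ℝ) ^ q := by ring
    obtain ⟨X, g, c, hXK, hXc, hc, hgc, hgadj, hFadj, hKi, hN⟩ :=
      split_step hG hM hΔ K F hF hFc hs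
    have hXa : X.card ≤ a := by
      have h1 : (X.card : ℝ) ≤ ((a : ℕ) : ℝ) := by
        rw [ha]
        push_cast
        have h2 : ((w : ℝ) + 1) * (2 * (K.card / (b : ℝ) ^ q) + 8 * Δ) ≤
            ((w : ℝ) + 1) * (2 * (2 * b) + 8 * Δ) :=
          mul_le_mul_of_nonneg_left (by linarith) (by positivity)
        calc (X.card : ℝ) ≤ ((w : ℝ) + 1) * (2 * (K.card / (b : ℝ) ^ q) + 8 * Δ) +
              4 * Δ * (w + 1) := hXc
          _ ≤ ((w : ℝ) + 1) * (2 * (2 * b) + 8 * Δ) + 4 * Δ * (w + 1) := by linarith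
          _ = 4 * (w + 1) * (b + 3 * Δ) := by ring
      exact_mod_cast h1
    have hcμ : (c : ℝ) ≤ 5 * (K.card / (b : ℝ) ^ q) + μ := by
      rw [hμ]
      push_cast
      linarith
    have hcB : c ≤ B := by
      have h1 : (c : ℝ) ≤ ((B : ℕ) : ℝ) := by
        rw [hB]
        push_cast
        linarith
      exact_mod_cast h1
    have hIH : ∀ i, ∃ lev nod : V → ℕ,
        (∀ v ∈ (K \ X).filter (fun v => g v = i), lev v ≤ q ∧ nod v < B ^ lev v) ∧
        (∀ u ∈ (K \ X).filter (fun v => g v = i), ∀ v ∈ (K \ X).filter (fun v => g v = i),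
          G.Adj u v → (lev u = lev v ∧ nod u = nod v) ∨
          (lev v = lev u + 1 ∧ nod v / B = nod u) ∨ (lev u = lev v + 1 ∧ nod u / B = nod v)) ∧
        (∀ v ∈ (K \ X).filter (fun v => g v = i), ∀ x ∈ X.filter (fun x => ∃ v ∈ K \ X,
          g v = i ∧ G.Adj v x), G.Adj v x → lev v = 0) ∧
        (∀ l κ, (((K \ X).filter (fun v => g v = i)).filter fun v =>
          lev v = l ∧ nod v = κ).card ≤ a) ∧
        ∀ l ≤ q, ((occ ((K \ X).filter (fun v => g v = i)) B lev nod l).card : ℝ) ≤
          (11 - 10 / 2 ^ l) * (((K \ X).filter (fun v => g v = i)).card / (b : ℝ) ^ (q - l)) +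
            (μ : ℝ) ^ l := by
      intro i
      refine ih ((K \ X).filter (fun v => g v = i))
        (X.filter (fun x => ∃ v ∈ K \ X, g v = i ∧ G.Adj v x)) ?_ ?_ ?_
      · intro u hu v huv hv
        obtain ⟨huKX, hgu⟩ := mem_filter.1 hu
        have hvK : v ∈ K := by
          by_contra hvK
          exact hFadj u huKX v (hF u (mem_sdiff.1 huKX).1 v huv hvK) huv
        by_cases hvX : v ∈ X
        · exact mem_filter.2 ⟨hvX, u, huKX, hgu, huv⟩
        · exfalso
          have hvKX : v ∈ K \ X := mem_sdiff.2 ⟨hvK, hvX⟩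
          exact hv (mem_filter.2 ⟨hvKX, (hgadj u huKX v hvKX huv).symm.trans hgu⟩)
      · exact hN i _ (filter_subset _ _) fun x hx => (mem_filter.1 hx).2
      · have h1 := hKi i
        exact_mod_cast h1
    choose levi nodi h1 h2 h3 h4 h5 using hIH
    have hmem : ∀ v ∈ K, v ∉ X → v ∈ (K \ X).filter (fun v' => g v' = g v) :=
      fun v hv hvX => mem_filter.2 ⟨mem_sdiff.2 ⟨hv, hvX⟩, rfl⟩
    -- an edge from a vertex outside of `X` to a vertex of `X`
    have hXe : ∀ v ∈ K, v ∉ X → ∀ x ∈ X, G.Adj v x →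
        levi (g v) v = 0 ∧ nodi (g v) v = 0 ∧ g v < B := by
      intro v hv hvX x hx hvx
      have h6 : levi (g v) v = 0 :=
        h3 (g v) v (hmem v hv hvX) x
          (mem_filter.2 ⟨hx, v, mem_sdiff.2 ⟨hv, hvX⟩, rfl, hvx⟩) hvx
      have h7 := (h1 (g v) v (hmem v hv hvX)).2
      rw [h6, pow_zero] at h7
      exact ⟨h6, by omega, (hgc v (mem_sdiff.2 ⟨hv, hvX⟩)).trans_le hcB⟩
    refine ⟨fun v => if v ∈ X then 0 else levi (g v) v + 1,
      fun v => if v ∈ X then 0 else g v * B ^ levi (g v) v + nodi (g v) v, ?_, ?_, ?_, ?_, ?_⟩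
    · intro v hv
      by_cases hvX : v ∈ X
      · simp [hvX]
      · simp only [if_neg hvX]
        obtain ⟨h6, h7⟩ := h1 (g v) v (hmem v hv hvX)
        refine ⟨by omega, ?_⟩
        have h8 : g v + 1 ≤ B := (hgc v (mem_sdiff.2 ⟨hv, hvX⟩)).trans_le hcB
        calc g v * B ^ levi (g v) v + nodi (g v) v < g v * B ^ levi (g v) v +
              B ^ levi (g v) v := Nat.add_lt_add_left h7 _
          _ = (g v + 1) * B ^ levi (g v) v := by ring
          _ ≤ B * B ^ levi (g v) v := Nat.mul_le_mul_right _ h8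
          _ = B ^ (levi (g v) v + 1) := by ring
    · intro u hu v hv huv
      by_cases huX : u ∈ X
      · by_cases hvX : v ∈ X
        · left
          simp only [if_pos huX, if_pos hvX]
          exact ⟨trivial, trivial⟩
        · right
          left
          simp only [if_pos huX, if_neg hvX]
          obtain ⟨h6, h7, h8⟩ := hXe v hv hvX u huX huv.symm
          rw [h6, h7, pow_zero, Nat.mul_one, Nat.add_zero]
          exact ⟨rfl, Nat.div_eq_of_lt h8⟩
      · by_cases hvX : v ∈ X
        · right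
          right
          simp only [if_neg huX, if_pos hvX]
          obtain ⟨h6, h7, h8⟩ := hXe u hu huX v hvX huv
          rw [h6, h7, pow_zero, Nat.mul_one, Nat.add_zero]
          exact ⟨rfl, Nat.div_eq_of_lt h8⟩
        · simp only [if_neg huX, if_neg hvX]
          have hg : g u = g v := hgadj u (mem_sdiff.2 ⟨hu, huX⟩) v (mem_sdiff.2 ⟨hv, hvX⟩) huv
          have h6 := h2 (g v) u (by rw [← hg]; exact hmem u hu huX) v (hmem v hv hvX) huv
          rw [hg]
          rcases h6 with ⟨h7, h8⟩ | ⟨h7, h8⟩ | ⟨h7, h8⟩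
          · left
            rw [h7, h8]
            exact ⟨rfl, rfl⟩
          · right
            left
            refine ⟨by rw [h7], ?_⟩
            rw [h7, ← h8, pow_succ, ← Nat.mul_assoc, Nat.add_comm,
              Nat.add_mul_div_right _ _ hB0, Nat.add_comm]
          · right
            right
            refine ⟨by rw [h7], ?_⟩
            rw [h7, ← h8, pow_succ, ← Nat.mul_assoc, Nat.add_comm,
              Nat.add_mul_div_right _ _ hB0, Nat.add_comm]
    · intro v hv x hx hvx
      by_cases hvX : v ∈ X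
      · simp only [if_pos hvX]
      · exact absurd hvx (hFadj v (mem_sdiff.2 ⟨hv, hvX⟩) x hx)
    · intro l κ
      rcases l with _ | l
      · refine (card_le_card ?_).trans hXa
        intro v hv
        obtain ⟨hvK, hvl, -⟩ := mem_filter.1 hv
        by_contra hvX
        simp only [if_neg hvX] at hvl
        omega
      · refine (card_le_card ?_).trans (h4 (κ / B ^ l) l (κ % B ^ l))
        intro v hv
        obtain ⟨hvK, hvl, hvn⟩ := mem_filter.1 hv
        have hvX : v ∉ X := by
          intro hvX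
          simp only [if_pos hvX] at hvl
          omega
        simp only [if_neg hvX] at hvl hvn
        have h6 : levi (g v) v = l := by omega
        have h7 := (h1 (g v) v (hmem v hvK hvX)).2
        rw [h6] at h7 hvn
        have h8 : κ / B ^ l = g v := by
          rw [← hvn, Nat.add_comm, Nat.add_mul_div_right _ _ (pow_pos hB0 l),
            Nat.div_eq_of_lt h7, Nat.zero_add]
        have h9 : κ % B ^ l = nodi (g v) v := by
          rw [← hvn, Nat.add_comm, Nat.add_mul_mod_self_right, Nat.mod_eq_of_lt h7]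
        rw [h8, h9]
        exact mem_filter.2 ⟨hmem v hvK hvX, h6, rfl⟩
    · intro l hl
      rcases l with _ | l
      · have h6 : occ K B (fun v => if v ∈ X then 0 else levi (g v) v + 1)
            (fun v => if v ∈ X then 0 else g v * B ^ levi (g v) v + nodi (g v) v) 0 ⊆ {0} := by
          intro y hy
          unfold occ at hy
          obtain ⟨v, hv, rfl⟩ := mem_image.1 hy
          have hvK := (mem_filter.1 hv).1
          rw [mem_singleton, Nat.sub_zero]
          by_cases hvX : v ∈ X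
          · simp [hvX]
          · simp only [if_neg hvX]
            have h7 := (h1 (g v) v (hmem v hvK hvX)).2
            have h8 : g v + 1 ≤ B := (hgc v (mem_sdiff.2 ⟨hvK, hvX⟩)).trans_le hcB
            refine Nat.div_eq_of_lt ?_
            calc g v * B ^ levi (g v) v + nodi (g v) v < g v * B ^ levi (g v) v +
                  B ^ levi (g v) v := Nat.add_lt_add_left h7 _
              _ = (g v + 1) * B ^ levi (g v) v := by ring
              _ ≤ B * B ^ levi (g v) v := Nat.mul_le_mul_right _ h8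
              _ = B ^ (levi (g v) v + 1) := by ring
        have h7 := card_le_card h6
        rw [card_singleton] at h7
        have h8 : ((occ K B (fun v => if v ∈ X then 0 else levi (g v) v + 1)
            (fun v => if v ∈ X then 0 else g v * B ^ levi (g v) v + nodi (g v) v) 0).card : ℝ)
              ≤ 1 := by exact_mod_cast h7
        have h9 : (0 : ℝ) ≤ K.card / (b : ℝ) ^ (q + 1) := by positivity
        refine h8.trans ?_
        rw [pow_zero, pow_zero, Nat.sub_zero]
        linarith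
      · have hlq : l ≤ q := by omega
        have h6 := rec_occ (levi := levi) (nodi := nodi) hB0 hgc l
        have h7 : ((occ K B (fun v => if v ∈ X then 0 else levi (g v) v + 1)
            (fun v => if v ∈ X then 0 else g v * B ^ levi (g v) v + nodi (g v) v)
              (l + 1)).card : ℝ) ≤ ∑ i ∈ range c,
            ((occ ((K \ X).filter fun v => g v = i) B (levi i) (nodi i) l).card : ℝ) := by
          exact_mod_cast h6
        have h8 : ∑ i ∈ range c, (((K \ X).filter fun v => g v = i).card : ℝ) ≤ K.card := by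
          have h9 : ∑ i ∈ range c, ((K \ X).filter fun v => g v = i).card = (K \ X).card :=
            (card_eq_sum_card_fiberwise fun v hv => by
              have := hgc v hv
              exact_mod_cast mem_range.2 this).symm
          have h10 : ∑ i ∈ range c, ((K \ X).filter fun v => g v = i).card ≤ K.card := by
            rw [h9]
            exact card_le_card sdiff_subset
          exact_mod_cast h10
        have h9 : (0 : ℝ) ≤ 11 - 10 / 2 ^ l := by
          have h10 : (1 : ℝ) ≤ 2 ^ l := one_le_pow₀ (by norm_num)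
          have h11 : (10 : ℝ) / 2 ^ l ≤ 10 := div_le_self (by norm_num) h10
          linarith
        have h10 : q + 1 - (l + 1) = q - l := by omega
        rw [h10]
        refine h7.trans ((sum_le_sum fun i _ => h5 i l hlq).trans ?_)
        rw [sum_add_distrib, ← mul_sum, ← sum_div, sum_const, card_range, nsmul_eq_mul]
        refine le_trans ?_ (rec_arith hμR hbμ (Nat.cast_nonneg K.card) hlq hcμ)
        have h11 : (∑ i ∈ range c, (((K \ X).filter fun v => g v = i).card : ℝ)) /
            (b : ℝ) ^ (q - l) ≤ K.card / (b : ℝ) ^ (q - l) :=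
          div_le_div_of_nonneg_right h8 (by positivity)
        have h12 := mul_le_mul_of_nonneg_left h11 h9
        linarith

end Pool.Agent.OrdTW
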