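import Mathlib
import Pool.Agent.Lib.MP_5b01b8_co_TW.Defs
import Pool.Agent.Lib.MP_5b01b8_co_FO.Parent

/-!
# MP_5b01b8_co (TW), module Root: from tree decompositions to rooted tree decompositions
-/

set_option autoImplicit false

namespace Pool.Agent.OrdTW

open Finset

/-- Use `Pool.Agent.OrdForest.exists_parent` for the tree `T` : parents `p : Fin m → Option (Fin m)`
and ranks `rk` with `rk u < rk v` if `p v = some u`, and every edge joins a node and its parent.
Number the nodes by an equivalence `e : Fin m ≃ Fin m` such that `rk (e.symm i)` is monotone in `i`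
(`Tuple.sort`), so parents have smaller numbers.  As `T` is connected there is exactly one node
without parent: (two nodes without parents: the descendants of one of them are closed under
adjacency), it has rank minimal ... it has the number `0`, because going up from the node with
number `0` is impossible.  Define `par`, `bag` on numbers (`par t = t - 1` and `bag t = ∅` for
`t ≥ m`), `top v` = the smallest number of a node whose bag contains `v`.  `up` : let `v ∈ bag t`,
`t ≠ top v`, and suppose that `v ∉ bag (par t)` (or `t = 0`; but then `t = top v`).  The set `D` of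
the descendants of `t` does not contain `top v` (descendants have larger numbers).  In the
preconnected graph `T.induce {t | v ∈ bag t}` there is a walk from `t` to `top v`; consider its
first step `x → y` with `x ∈ D`, `y ∉ D`.  One is the parent of the other; `y` is not a child of
`x`, so `y` is the parent of `x`, hence `x = t` and `y = par t`, contradiction. -/
theorem exists_rooted {V : Type} {G : SimpleGraph V} {w : ℕ} (h : HasTreeDecomposition G w) :
    ∃ (M : ℕ) (par : ℕ → ℕ) (bag : ℕ → Finset V) (top : V → ℕ), 0 < M ∧
      Rooted G w M par bag top := by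
  classical
  obtain ⟨m, T, bg, hT, hcard, hcov, hedge, hconn⟩ := h
  obtain ⟨p, rk, hrk, hpar⟩ := Pool.Agent.OrdForest.exists_parent T hT.isAcyclic
  have hm : 0 < m := by
    obtain ⟨x⟩ := hT.connected.nonempty
    exact x.pos
  obtain ⟨σ, hσ⟩ : ∃ σ : Equiv.Perm (Fin m), Monotone (rk ∘ σ) :=
    ⟨Tuple.sort rk, Tuple.monotone_sort rk⟩
  have hnum : ∀ u v, p v = some u → σ.symm u < σ.symm v := by
    intro u v huv
    by_contra hc
    have h1 := hσ (not_lt.1 hc)
    simp only [Function.comp_apply, Equiv.apply_symm_apply] at h1
    exact absurd (hrk u v huv) (not_lt.2 h1)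
  -- going along walks
  have hdesc : ∀ x z : Fin m, Relation.ReflTransGen (fun a b => p b = some a) x z →
      σ.symm x ≤ σ.symm z := by
    intro x z hxz
    induction hxz with
    | refl => exact le_rfl
    | tail _ hbc ih => exact ih.trans (hnum _ _ hbc).le
  have hwalk : ∀ (S : Set (Fin m)) (x z : S), (T.induce S).Walk x z →
      (∃ y ∈ S, p x = some y) ∨ Relation.ReflTransGen (fun a b => p b = some a) x.1 z.1 := by
    intro S x z hw
    have hrev : (T.induce S).Walk z x := hw.reverse
    clear hw
    revert hrev
    suffices H : ∀ (z x : S) (q : (T.induce S).Walk z x),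
        (∃ y ∈ S, p x = some y) ∨ Relation.ReflTransGen (fun a b => p b = some a) x.1 z.1 from
      fun q => H z x q
    intro z x q
    induction q with
    | nil => exact Or.inr Relation.ReflTransGen.refl
    | @cons z' z x hadj q ih =>
      rcases ih with ih | ih
      · exact Or.inl ih
      · have hadj' : T.Adj z'.1 z.1 := hadj
        rcases hpar _ _ hadj' with h1 | h1
        · exact Or.inr (ih.tail h1)
        · rcases Relation.ReflTransGen.cases_tail ih with h2 | ⟨b, hb, hbz⟩
          · left
            exact ⟨z'.1, z'.2, by rw [← h2]; exact h1⟩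
          · right
            have h3 : b = z'.1 := Option.some.inj (hbz.symm.trans h1)
            rw [← h3]
            exact hb
  let bag : ℕ → Finset V := fun t => if h : t < m then bg (σ ⟨t, h⟩) else ∅
  let par : ℕ → ℕ := fun t => if h : t < m then
    (match p (σ ⟨t, h⟩) with
      | some y => ((σ.symm y : Fin m) : ℕ)
      | none => 0) else 0
  have hbag : ∀ x : Fin m, bag (σ.symm x : Fin m) = bg x := by
    intro x
    simp only [bag]
    rw [dif_pos (σ.symm x).2]
    simp
  have hbag' : ∀ (t : ℕ) (h : t < m), bag t = bg (σ ⟨t, h⟩) := by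
    intro t h
    simp only [bag]
    rw [dif_pos h]
  have hex : ∀ v, ∃ t, v ∈ bag t := by
    intro v
    obtain ⟨x, hx⟩ := hcov v
    exact ⟨_, by rw [hbag]; exact hx⟩
  refine ⟨m, par, bag, fun v => Nat.find (hex v), hm, ?_⟩
  refine ⟨?_, ?_, ?_, ?_, ?_, ?_⟩
  · intro t ht
    simp only [par]
    split_ifs with h
    · rcases hp : p (σ ⟨t, h⟩) with _ | y
      · exact ht
      · have h1 := hnum _ _ hp
        rw [Equiv.symm_apply_apply] at h1
        exact h1
    · exact ht
  · intro t ht
    rw [hbag' t ht]
    exact hcard _
  · intro v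
    obtain ⟨x, hx⟩ := hcov v
    have h1 : Nat.find (hex v) ≤ ((σ.symm x : Fin m) : ℕ) :=
      Nat.find_min' (hex v) (by rw [hbag]; exact hx)
    exact lt_of_le_of_lt h1 (σ.symm x).2
  · intro v
    exact Nat.find_spec (hex v)
  · intro v t ht hv hne
    have hle : Nat.find (hex v) ≤ t := Nat.find_min' (hex v) hv
    have hlt : Nat.find (hex v) < t := lt_of_le_of_ne hle (Ne.symm hne)
    have hs : Nat.find (hex v) < m := lt_trans hlt ht
    have hv' := Nat.find_spec (hex v)
    rw [hbag' _ hs] at hv'
    rw [hbag' t ht] at hv
    obtain ⟨q⟩ := hconn v ⟨σ ⟨t, ht⟩, hv⟩ ⟨σ ⟨_, hs⟩, hv'⟩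
    rcases hwalk _ _ _ q with ⟨y, hy, hpy⟩ | h1
    · have hpy' : p (σ ⟨t, ht⟩) = some y := hpy
      have h2 : par t = ((σ.symm y : Fin m) : ℕ) := by
        simp only [par]
        rw [dif_pos ht, hpy']
      refine ⟨lt_of_le_of_lt (Nat.zero_le _) hlt, ?_⟩
      rw [h2, hbag]
      exact hy
    · exfalso
      have h2 := hdesc _ _ h1
      simp only [Equiv.symm_apply_apply] at h2
      exact absurd hlt (not_lt.2 h2)
  · intro u v huv
    obtain ⟨x, hx, hx'⟩ := hedge u v huv
    exact ⟨_, (σ.symm x).2, by rw [hbag]; exact hx, by rw [hbag]; exact hx'⟩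

end Pool.Agent.OrdTW
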