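import Mathlib

/-!
# MP_5b01b8_co (TW), module SumB: a numerical sum
-/

set_option autoImplicit false

namespace Pool.Agent.OrdTW

open Finset

/-- `2 ^ (h / 2 - l / 2) ≤ 2 ^ (h - l)`, geometric series with the ratio `2 / b ≤ 1 / 4`, and
`∑ l ≤ h, μ ^ l * 2 ^ (h - l) ≤ (h + 1) * (2 * μ) ^ h ≤ (8 * μ) ^ h = b ^ h ≤ b * n`. -/
theorem sum_bound {n h b μ : ℕ} (hμ : 1 ≤ μ) (hb : b = 8 * μ) (hn : b ^ h ≤ b * n) (N : ℕ → ℝ)
    (hN : ∀ l ≤ h, N l ≤ (11 - 10 / 2 ^ l) * (n / (b : ℝ) ^ (h - l)) + (μ : ℝ) ^ l) :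
    ∑ l ∈ range (h + 1), N l / 2 ^ (l / 2) ≤ (22 + b) * n / 2 ^ (h / 2) := by
  have hμ' : (1 : ℝ) ≤ μ := by exact_mod_cast hμ
  have hb' : (b : ℝ) = 8 * μ := by rw [hb]; push_cast; ring
  have hb8 : (8 : ℝ) ≤ b := by rw [hb']; linarith
  have hbp : (0 : ℝ) < b := by linarith
  have hn0 : (0 : ℝ) ≤ n := Nat.cast_nonneg n
  have hn' : (b : ℝ) ^ h ≤ b * n := by exact_mod_cast hn
  have hterm : ∀ l ∈ range (h + 1), N l / 2 ^ (l / 2) * 2 ^ (h / 2) ≤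
      11 * n * (1 / 4) ^ (h - l) + (2 * μ) ^ h := by
    intro l hl
    have hlh : l ≤ h := Nat.lt_succ_iff.1 (mem_range.1 hl)
    have e1 : (2 : ℝ) ^ (h / 2) / 2 ^ (l / 2) ≤ 2 ^ (h - l) := by
      rw [div_le_iff₀ (by positivity), ← pow_add]
      exact pow_le_pow_right₀ (by norm_num) (by omega)
    have e2 : (0 : ℝ) ≤ 2 ^ (h / 2) / 2 ^ (l / 2) := by positivity
    have e3 : (10 : ℝ) / 2 ^ l ≤ 10 := by
      rw [div_le_iff₀ (by positivity)]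
      have : (1 : ℝ) ≤ 2 ^ l := one_le_pow₀ (by norm_num)
      linarith
    have e4 : (0 : ℝ) ≤ 10 / 2 ^ l := by positivity
    have e5 : (0 : ℝ) ≤ n / (b : ℝ) ^ (h - l) := by positivity
    have hB0 : (0 : ℝ) ≤ (11 - 10 / 2 ^ l) * (n / (b : ℝ) ^ (h - l)) + (μ : ℝ) ^ l :=
      add_nonneg (mul_nonneg (by linarith) e5) (by positivity)
    have e6 : (n : ℝ) / (b : ℝ) ^ (h - l) * 2 ^ (h - l) ≤ n * (1 / 4) ^ (h - l) := by
      rw [div_mul_eq_mul_div, mul_div_assoc, ← div_pow]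
      refine mul_le_mul_of_nonneg_left (pow_le_pow_left₀ (by positivity) ?_ _) hn0
      rw [div_le_div_iff₀ hbp (by norm_num)]
      linarith
    have e7 : (μ : ℝ) ^ l * 2 ^ (h - l) ≤ (2 * μ) ^ h := by
      rw [mul_pow, mul_comm]
      exact mul_le_mul (pow_le_pow_right₀ (by norm_num) (by omega))
        (pow_le_pow_right₀ hμ' hlh) (by positivity) (by positivity)
    calc N l / 2 ^ (l / 2) * 2 ^ (h / 2) = N l * (2 ^ (h / 2) / 2 ^ (l / 2)) := by ring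
      _ ≤ ((11 - 10 / 2 ^ l) * (n / (b : ℝ) ^ (h - l)) + (μ : ℝ) ^ l) *
          (2 ^ (h / 2) / 2 ^ (l / 2)) := mul_le_mul_of_nonneg_right (hN l hlh) e2
      _ ≤ ((11 - 10 / 2 ^ l) * (n / (b : ℝ) ^ (h - l)) + (μ : ℝ) ^ l) * 2 ^ (h - l) :=
          mul_le_mul_of_nonneg_left e1 hB0
      _ = (11 - 10 / 2 ^ l) * (n / (b : ℝ) ^ (h - l) * 2 ^ (h - l)) +
          (μ : ℝ) ^ l * 2 ^ (h - l) := by ring
      _ ≤ 11 * (n / (b : ℝ) ^ (h - l) * 2 ^ (h - l)) + (2 * μ) ^ h :=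
          add_le_add (mul_le_mul_of_nonneg_right (by linarith) (by positivity)) e7
      _ ≤ 11 * (n * (1 / 4) ^ (h - l)) + (2 * μ) ^ h :=
          add_le_add (mul_le_mul_of_nonneg_left e6 (by norm_num)) le_rfl
      _ = 11 * n * (1 / 4) ^ (h - l) + (2 * μ) ^ h := by ring
  have hgeo : ∑ l ∈ range (h + 1), (1 / 4 : ℝ) ^ (h - l) ≤ 2 := by
    have h1 := sum_range_reflect (fun j => (1 / 4 : ℝ) ^ j) (h + 1)
    have h2 : ∑ l ∈ range (h + 1), (1 / 4 : ℝ) ^ (h - l) =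
        ∑ j ∈ range (h + 1), (1 / 4 : ℝ) ^ (h + 1 - 1 - j) :=
      sum_congr rfl fun l _ => by rw [Nat.add_sub_cancel]
    rw [h2, h1, geom_sum_eq (by norm_num)]
    have h3 : (0 : ℝ) < (1 / 4) ^ (h + 1) := by positivity
    rw [div_le_iff_of_neg (by norm_num)]
    linarith
  have hcnt : ((h + 1 : ℕ) : ℝ) ≤ 4 ^ h := by
    have h1 : ∀ j : ℕ, j + 1 ≤ 4 ^ j := by
      intro j
      induction j with
      | zero => norm_num
      | succ j ih =>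
        rw [pow_succ]
        omega
    exact_mod_cast h1 h
  rw [le_div_iff₀ (by positivity), sum_mul]
  calc ∑ l ∈ range (h + 1), N l / 2 ^ (l / 2) * 2 ^ (h / 2)
      ≤ ∑ l ∈ range (h + 1), (11 * (n : ℝ) * (1 / 4) ^ (h - l) + (2 * (μ : ℝ)) ^ h) :=
        sum_le_sum hterm
    _ = 11 * n * ∑ l ∈ range (h + 1), (1 / 4 : ℝ) ^ (h - l) + ((h + 1 : ℕ) : ℝ) * (2 * μ) ^ h := by
        rw [sum_add_distrib, ← mul_sum, sum_const, card_range, nsmul_eq_mul]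
    _ ≤ 11 * n * 2 + 4 ^ h * (2 * μ) ^ h :=
        add_le_add (mul_le_mul_of_nonneg_left hgeo (by positivity))
          (mul_le_mul_of_nonneg_right hcnt (by positivity))
    _ = 22 * n + b ^ h := by
        rw [← mul_pow, hb']
        ring
    _ ≤ (22 + b) * n := by linarith

end Pool.Agent.OrdTW
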