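import Mathlib
import Pool.Agent.Lib.MP_5b01b8_co_TW.Rec
import Pool.Agent.Lib.MP_5b01b8_co_TW.SumB
import Pool.Agent.Lib.MP_5b01b8_co_TW.Root

/-!
# MP_5b01b8_co (TW), module Decomp: the layout of a graph of bounded degree and treewidth
-/

set_option autoImplicit false

namespace Pool.Agent.OrdTW

open Finset

/-- the slots: the position of a vertex among the vertices of its node -/
private def dslot {n : ℕ} (lev nod : Fin n → ℕ) (v : Fin n) : ℕ :=
  (univ.filter fun u : Fin n => (lev u = lev v ∧ nod u = nod v) ∧ u < v).card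

private theorem dslot_lt {n a : ℕ} {lev nod : Fin n → ℕ}
    (h : ∀ l κ, (univ.filter fun v : Fin n => lev v = l ∧ nod v = κ).card ≤ a) (v : Fin n) :
    dslot lev nod v < a := by
  refine lt_of_lt_of_le (card_lt_card ?_) (h (lev v) (nod v))
  refine ssubset_iff_of_subset (fun u hu => ?_) |>.2 ⟨v, ?_, ?_⟩
  · rw [mem_filter] at hu ⊢
    exact ⟨hu.1, hu.2.1⟩
  · rw [mem_filter]
    exact ⟨mem_univ v, rfl, rfl⟩
  · rw [mem_filter]
    exact fun hu => lt_irrefl v hu.2.2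

private theorem dslot_mono {n : ℕ} {lev nod : Fin n → ℕ} {u v : Fin n} (h1 : lev u = lev v)
    (h2 : nod u = nod v) (h : u < v) : dslot lev nod u < dslot lev nod v := by
  refine card_lt_card ?_
  refine ssubset_iff_of_subset (fun x hx => ?_) |>.2 ⟨u, ?_, ?_⟩
  · rw [mem_filter] at hx ⊢
    exact ⟨hx.1, ⟨hx.2.1.1.trans h1, hx.2.1.2.trans h2⟩, hx.2.2.trans h⟩
  · rw [mem_filter]
    exact ⟨mem_univ u, ⟨h1, h2⟩, h⟩
  · rw [mem_filter]
    exact fun hu => lt_irrefl u hu.2.2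

private theorem dslot_inj {n : ℕ} {lev nod : Fin n → ℕ} {u v : Fin n} (h1 : lev u = lev v)
    (h2 : nod u = nod v) (h : dslot lev nod u = dslot lev nod v) : u = v := by
  rcases lt_trichotomy u v with h3 | h3 | h3
  · exact absurd h (dslot_mono h1 h2 h3).ne
  · exact h3
  · exact absurd h (dslot_mono h1.symm h2.symm h3).ne'

private theorem exists_height {b n : ℕ} (hb : 2 ≤ b) (hn : 1 ≤ n) :
    ∃ h : ℕ, n ≤ b ^ h ∧ b ^ h ≤ b * n := by
  classical
  have hex : ∃ h : ℕ, n ≤ b ^ h := ⟨n, (Nat.lt_pow_self (by omega)).le⟩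
  refine ⟨Nat.find hex, Nat.find_spec hex, ?_⟩
  rcases Nat.eq_zero_or_pos (Nat.find hex) with h0 | h0
  · rw [h0, pow_zero]
    exact Nat.one_le_iff_ne_zero.2 (Nat.mul_ne_zero (by omega) (by omega))
  · obtain ⟨q, hq⟩ : ∃ q, Nat.find hex = q + 1 := ⟨Nat.find hex - 1, by omega⟩
    have h1 : ¬ n ≤ b ^ q := Nat.find_min hex (by omega)
    rw [hq, pow_succ, mul_comm]
    exact Nat.mul_le_mul_left b (not_le.1 h1).le

/-- The layout.  `h` is the smallest number with `n ≤ b ^ h`; `decomp_rec` with `K = univ`,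
`F = ∅`, `q = h`; the slots are injective on the sets `{v | lev v = l ∧ nod v = κ}`, which have at
most `a` elements; `sum_bound`. -/
theorem exists_layout (Δ w : ℕ) : ∃ a b B : ℕ, 1 ≤ a ∧ 2 ≤ b ∧ 1 ≤ B ∧
    ∀ (n : ℕ) (G : SimpleGraph (Fin n)), 1 ≤ n →
      (∀ (v : Fin n) (N : Finset (Fin n)), (∀ u ∈ N, G.Adj v u) → N.card ≤ Δ) →
      HasTreeDecomposition G w → ∃ (h : ℕ) (lev nod slot : Fin n → ℕ),
        Layout G a B h lev nod slot ∧ b ^ h ≤ b * n ∧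
        ∑ l ∈ range (h + 1), ((occ univ B lev nod l).card : ℝ) / 2 ^ (l / 2) ≤
          (22 + b) * n / 2 ^ (h / 2) := by
  obtain ⟨μ, hμ⟩ : ∃ μ : ℕ, μ = 20 * Δ + 1 := ⟨_, rfl⟩
  obtain ⟨b, hb⟩ : ∃ b : ℕ, b = 8 * μ := ⟨_, rfl⟩
  obtain ⟨B, hB⟩ : ∃ B : ℕ, B = 10 * b + μ := ⟨_, rfl⟩
  obtain ⟨a, ha⟩ : ∃ a : ℕ, a = 4 * (w + 1) * (b + 3 * Δ) := ⟨_, rfl⟩
  have hb2 : 2 ≤ b := by omega
  have ha1 : 1 ≤ a := by
    rw [ha]
    exact Nat.one_le_iff_ne_zero.2 (Nat.mul_ne_zero (by omega) (by omega))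
  refine ⟨a, b, B, ha1, hb2, by omega, fun n G hn hΔ hT => ?_⟩
  obtain ⟨M, par, bag, top, hM, hR⟩ := exists_rooted hT
  obtain ⟨h, hh1, hh2⟩ := exists_height hb2 hn
  obtain ⟨lev, nod, h1, h2, -, h4, h5⟩ := decomp_rec hR hM hΔ hμ hb hB ha h univ ∅
    (fun u _ v _ hv => absurd (mem_univ v) hv) (by rw [card_empty]; exact Nat.zero_le _)
    (by
      rw [card_univ, Fintype.card_fin]
      omega)
  refine ⟨h, lev, nod, dslot lev nod, ⟨fun v => (h1 v (mem_univ v)).1,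
    fun v => (h1 v (mem_univ v)).2, dslot_lt h4, fun u v => dslot_inj,
    fun u v huv => h2 u (mem_univ u) v (mem_univ v) huv⟩, hh2, ?_⟩
  refine sum_bound (by omega) hb hh2 (fun l => ((occ univ B lev nod l).card : ℝ)) fun l hl => ?_
  have h6 := h5 l hl
  rw [card_univ, Fintype.card_fin] at h6
  exact h6

end Pool.Agent.OrdTW
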