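import Mathlib
import Pool.Agent.Lib.MP_5b01b8_co_TW.Anti

/-!
# MP_5b01b8_co (TW), module Sched: the schedule
-/

set_option autoImplicit false

namespace Pool.Agent.OrdTW

open Finset

/-- The sets of the proof of `exists_paths`. -/
private def schedAl (S : ℕ → (ℕ → ℕ) → Finset ℕ) (H Λ : ℕ) (j : ℕ → ℕ) : ℕ → Set (ℕ → ℕ)
  | 0 => {z | IsCh S H z}
  | m + 1 => {z | IsCh S H z ∧ ∃ z' ∈ schedAl S H Λ j m, (∀ i < j (Λ - 1 - m), z' i = z i) ∧
      ∀ i, j (Λ - 1 - m) ≤ i → i < H → z i < z' i}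

private theorem schedAl_ch {S : ℕ → (ℕ → ℕ) → Finset ℕ} {H Λ : ℕ} {j : ℕ → ℕ} {m : ℕ}
    {z : ℕ → ℕ} (h : z ∈ schedAl S H Λ j m) : IsCh S H z := by
  cases m with
  | zero => exact h
  | succ m => exact h.1

private theorem schedAl_ac (S : ℕ → (ℕ → ℕ) → Finset ℕ) (H Λ : ℕ) (j : ℕ → ℕ) (m : ℕ) :
    AC H (j (Λ - 1 - m)) (schedAl S H Λ j m \ schedAl S H Λ j (m + 1)) := by
  intro z hz z' hz' h1 h2
  apply hz.2
  exact ⟨schedAl_ch hz.1, z', hz'.1, fun i hi => (h1 i hi).symm, h2⟩

private theorem schedAl_read {S : ℕ → (ℕ → ℕ) → Finset ℕ} {H Λ : ℕ} {j : ℕ → ℕ} :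
    ∀ m : ℕ, m ≤ Λ → ∀ z ∈ schedAl S H Λ j m, ∃ X : ℕ → ℕ → ℕ, X 0 = z ∧
      (∀ l ≤ m, IsCh S H (X l)) ∧ ∀ l < m, (∀ i < j (Λ - m + l), X (l + 1) i = X l i) ∧
        ∀ i, j (Λ - m + l) ≤ i → i < H → X l i < X (l + 1) i := by
  intro m
  induction m with
  | zero =>
    intro _ z hz
    refine ⟨fun _ => z, rfl, fun l _ => schedAl_ch hz, fun l hl => ?_⟩
    omega
  | succ m ih =>
    intro hm z hz
    obtain ⟨hz1, z', hz', h1, h2⟩ := hz
    obtain ⟨X, hX0, hX1, hX2⟩ := ih (by omega) z' hz'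
    refine ⟨fun l => match l with
      | 0 => z
      | l + 1 => X l, rfl, ?_, ?_⟩
    · intro l hl
      cases l with
      | zero => exact hz1
      | succ l => exact hX1 l (by omega)
    · intro l hl
      cases l with
      | zero =>
        have h3 : Λ - (m + 1) + 0 = Λ - 1 - m := by omega
        rw [h3]
        refine ⟨fun i hi => ?_, fun i hi hi' => ?_⟩
        · change X 0 i = z i
          rw [hX0]
          exact h1 i hi
        · change z i < X 0 i
          rw [hX0]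
          exact h2 i hi hi'
      | succ l =>
        have h3 : Λ - (m + 1) + (l + 1) = Λ - m + l := by omega
        rw [h3]
        exact hX2 l (by omega)

/-- The schedule.  `j l` is the first coordinate which is changed in the step from the time `l` to
the time `l + 1`.  Proof: put `Al 0 = {z | IsCh S H z}` and let `Al (m+1)` be the set of the `z`
with `IsCh S H z` for which there is `z' ∈ Al m` with `z' i = z i` for `i < j` and `z i < z' i` for
`j ≤ i < H`, where `j = j (Λ - 1 - m)`.  Then `Al m \ Al (m+1)` satisfies `AC H j` (if `z`, `z'`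
were a forbidden pair, then `z ∈ Al (m+1)`), so by `antichain` and `av_le_of_forall` its
probability is at most the cost of `j`.  By induction on `m` the complement of `Al m` in `Al 0`
has probability at most the sum of the costs of the last `m` steps, and `Al 0` has probability
`1` (`av_allowed`), so `Al Λ` is not empty; read off the sequences.  (If `j l = H` then the cost is
`0` and nothing has to be changed: the general argument covers this case.) -/
theorem exists_paths {S : ℕ → (ℕ → ℕ) → Finset ℕ} {V : ℕ → Finset ℕ} {D : ℕ → ℝ} {L : ℝ}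
    {M H : ℕ} (hM : Mem S M) (hL : 1 ≤ L) (hSV : ∀ i x, S i x ⊆ V i) (hD : ∀ i < H, 0 < D i)
    (hSD : ∀ i < H, ∀ x, IsCh S i x → D i ≤ (S i x).card)
    (hVD : ∀ i < H, ((V i).card : ℝ) ≤ L * D i) (Λ : ℕ) (j : ℕ → ℕ) (hj : ∀ l, j l ≤ H)
    (hcost : ∑ l ∈ range Λ, (L ^ M * ∑ i ∈ Ico (j l) H, 1 / D i) < 1) :
    ∃ X : ℕ → ℕ → ℕ, (∀ l ≤ Λ, IsCh S H (X l)) ∧
      ∀ l < Λ, (∀ i < j l, X (l + 1) i = X l i) ∧ ∀ i, j l ≤ i → i < H → X l i < X (l + 1) i := by
  have hcard : ∀ i < H, ∀ x, IsCh S i x → (S i x).Nonempty := by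
    intro i hi x hx
    rw [← Finset.card_pos]
    have h1 := (hD i hi).trans_le (hSD i hi x hx)
    exact_mod_cast h1
  obtain ⟨x0, hx0⟩ : ∃ x0 : ℕ → ℕ, x0 = fun _ => 0 := ⟨_, rfl⟩
  have hch0 : IsCh S 0 x0 := fun i hi => absurd hi (Nat.not_lt_zero i)
  obtain ⟨c, hc⟩ : ∃ c : ℕ → ℝ, c = fun l => L ^ M * ∑ i ∈ Ico (j l) H, 1 / D i := ⟨_, rfl⟩
  have hc0 : ∀ l, 0 ≤ c l := by
    intro l
    rw [hc]
    refine mul_nonneg (pow_nonneg (by linarith) _) (sum_nonneg fun i hi => ?_)
    exact one_div_nonneg.2 (hD i (mem_Ico.1 hi).2).le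
  -- the probability of one step
  have hstep : ∀ m, av S (schedAl S H Λ j m \ schedAl S H Λ j (m + 1)) H 0 x0 ≤
      c (Λ - 1 - m) := by
    intro m
    have hjm := hj (Λ - 1 - m)
    have h1 : j (Λ - 1 - m) + (H - j (Λ - 1 - m)) = H := by omega
    have h2 := av_le_of_forall (n := j (Λ - 1 - m)) (m := H - j (Λ - 1 - m)) (t := 0) hM
      (E := schedAl S H Λ j m \ schedAl S H Λ j (m + 1)) (hc0 (Λ - 1 - m)) hch0 (by
        intro x' _ hx'
        rw [zero_add] at hx' ⊢
        rw [hc]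
        exact antichain hM hL hSV hD hSD hVD _ _ x' _ h1 hx' (schedAl_ac S H Λ j m))
    rwa [h1] at h2
  have hsum : ∀ m, av S (schedAl S H Λ j 0 \ schedAl S H Λ j m) H 0 x0 ≤
      ∑ k ∈ range m, c (Λ - 1 - k) := by
    intro m
    induction m with
    | zero =>
      rw [Set.diff_self, sum_range_zero]
      have h1 : ∀ (n t : ℕ) (x : ℕ → ℕ), av S ∅ n t x = 0 := by
        intro n
        induction n with
        | zero =>
          intro t x
          simp [av]
        | succ n ih =>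
          intro t x
          simp [av, ih]
      rw [h1]
    | succ m ih =>
      rw [sum_range_succ]
      refine le_trans (av_mono (E' := (schedAl S H Λ j 0 \ schedAl S H Λ j m) ∪
        (schedAl S H Λ j m \ schedAl S H Λ j (m + 1))) ?_ H 0 x0) ?_
      · intro z hz
        by_cases h : z ∈ schedAl S H Λ j m
        · exact Or.inr ⟨h, hz.2⟩
        · exact Or.inl ⟨hz.1, h⟩
      · refine (av_union _ _ H 0 x0).trans ?_
        exact add_le_add ih (hstep m)
  have h1 : av S (schedAl S H Λ j 0) H 0 x0 = 1 := by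
    have h2 := av_allowed (n := H) hM hch0 (fun i x' _ hi hx' => hcard i (by omega) x' hx')
    rw [zero_add] at h2
    exact h2
  have hne : (schedAl S H Λ j Λ).Nonempty := by
    by_contra hemp
    rw [Set.not_nonempty_iff_eq_empty] at hemp
    have h2 := hsum Λ
    rw [hemp, Set.diff_empty, h1, sum_range_reflect] at h2
    rw [hc] at h2
    linarith
  obtain ⟨z, hz⟩ := hne
  obtain ⟨X, _, hX1, hX2⟩ := schedAl_read Λ le_rfl z hz
  refine ⟨X, hX1, fun l hl => ?_⟩
  have h2 := hX2 l hl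
  have h3 : Λ - Λ + l = l := by omega
  rwa [h3] at h2

end Pool.Agent.OrdTW
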