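import Mathlib
import Pool.Agent.Lib.MP_5b01b8_co_TW.Defs
import Pool.Agent.Lib.MP_5b01b8_co_TW.Sched

/-!
# MP_5b01b8_co (TW), module Emb: the embedding of a layout
-/

set_option autoImplicit false

namespace Pool.Agent.OrdTW

open Finset

variable {V : Type} [Fintype V] [DecidableEq V]

/-- the time at which the node of `v` begins -/
def tim (B h : ℕ) (lev nod : V → ℕ) (v : V) : ℕ := nod v * B ^ (h - lev v)

/-- the fine level of `v` -/
def fine (a : ℕ) (lev slot : V → ℕ) (v : V) : ℕ := a * lev v + slot v

omit [Fintype V] [DecidableEq V] in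
private theorem tim_div {B h : ℕ} {lev nod : V → ℕ} (hB : 1 ≤ B) {v : V} (hv : lev v ≤ h)
    {i : ℕ} (hi : i ≤ lev v) :
    tim B h lev nod v / B ^ (h - i) = nod v / B ^ (lev v - i) := by
  unfold tim
  have : B ^ (h - i) = B ^ (lev v - i) * B ^ (h - lev v) := by
    rw [← pow_add]
    congr 1
    omega
  rw [this]
  exact Nat.mul_div_mul_right _ _ (Nat.pow_pos (by omega))

omit [Fintype V] [DecidableEq V] in
private theorem tim_lt {G : SimpleGraph V} {a B h : ℕ} {lev nod slot : V → ℕ}
    (hL : Layout G a B h lev nod slot) (v : V) :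
    (nod v + 1) * B ^ (h - lev v) ≤ B ^ h := by
  have h1 : B ^ h = B ^ lev v * B ^ (h - lev v) := by
    rw [← pow_add]
    congr 1
    have := hL.lev_le v
    omega
  rw [h1]
  exact Nat.mul_le_mul_right _ (hL.nod_lt v)

omit [Fintype V] [DecidableEq V] in
private theorem fine_lt {G : SimpleGraph V} {a B h : ℕ} {lev nod slot : V → ℕ}
    (hL : Layout G a B h lev nod slot) (v : V) : fine a lev slot v < a * (lev v + 1) := by
  unfold fine
  have := hL.slot_lt v
  rw [Nat.mul_add, Nat.mul_one]
  omega

omit [Fintype V] [DecidableEq V] in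
private theorem lev_le_of_fine {G : SimpleGraph V} {a B h : ℕ} {lev nod slot : V → ℕ}
    (hL : Layout G a B h lev nod slot) {u v : V} (huv : fine a lev slot u ≤ fine a lev slot v) :
    lev u ≤ lev v := by
  by_contra hcon
  have h1 : lev v + 1 ≤ lev u := by omega
  have h2 : a * (lev v + 1) ≤ a * lev u := Nat.mul_le_mul_left _ h1
  have h3 := fine_lt hL v
  have h4 : a * lev u ≤ fine a lev slot u := Nat.le_add_right _ _
  omega

/-- the level `i` is one whose node begins to be occupied at the time `l` -/
private def Beg (B h : ℕ) (lev nod : V → ℕ) (i l : ℕ) : Prop :=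
  (∃ v, i ≤ lev v ∧ tim B h lev nod v = l) ∧
    ∀ v, i ≤ lev v → tim B h lev nod v / B ^ (h - i) = l / B ^ (h - i) →
      l ≤ tim B h lev nod v

open Classical in
/-- the first changed coordinate in the step to the time `l` -/
private noncomputable def jj (a B h H : ℕ) (lev nod : V → ℕ) (τ : ℕ → ℕ) (l : ℕ) : ℕ :=
  if hi : ∃ i, i ≤ h ∧ Beg B h lev nod i l then τ (a * Nat.find hi) else H

open Classical in
omit [DecidableEq V] in
private theorem cost_aux {B h : ℕ} {lev nod : V → ℕ} (hB : 1 ≤ B) (hlev : ∀ v, lev v ≤ h)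
    (i : ℕ) (Λ : ℕ) :
    ((range Λ).filter fun l => Beg B h lev nod i (l + 1)).card ≤
      (occ univ B lev nod i).card := by
  refine card_le_card_of_injOn (fun l => (l + 1) / B ^ (h - i)) ?_ ?_
  · intro l hl
    simp only [coe_filter, mem_range, Set.mem_ofPred_eq] at hl
    obtain ⟨v, hv1, hv2⟩ := hl.2.1
    simp only [occ, coe_image, Set.mem_image, mem_coe, mem_filter, mem_univ, true_and]
    refine ⟨v, hv1, ?_⟩
    rw [← tim_div hB (hlev v) hv1, hv2]
  · intro l hl l' hl' heq
    simp only [coe_filter, mem_range, Set.mem_ofPred_eq] at hl hl'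
    obtain ⟨v, hv1, hv2⟩ := hl.2.1
    obtain ⟨v', hv1', hv2'⟩ := hl'.2.1
    simp only at heq
    have h1 := hl.2.2 v' hv1' (by rw [hv2', heq])
    have h2 := hl'.2.2 v hv1 (by rw [hv2, heq])
    omega

/-- Embedding.  `τ f < H`, for `f < a * (h + 1)`, is the level of the chain which is used for the
fine level `f`.  Times `l ≤ Λ = B ^ h`; at the time `l` the present node of level `i` is
`l / B ^ (h - i)`.  Call the node `(i, κ)` occupied if `κ ∈ occ univ B lev nod i`, and then let
`first (i, κ)` be the smallest time `tim v` of a vertex `v` with `i ≤ lev v`,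
`nod v / B ^ (lev v - i) = κ`; these times satisfy `tim v / B ^ (h - i) = κ`.  For a time
`l' = l + 1` let `i0` be the smallest level `i ≤ h` such that the present node
`(i, l' / B ^ (h - i))` is occupied and its `first` is `l'`; put `j l = τ (a * i0)`, and
`j l = H` if there is no such level (cost `0`).  For given `i` the times `l'` with `i0 = i` are the
`first` times of different nodes of the level `i`, so the total cost is at most
`∑ i ≤ h, |occ i| * cost (τ (a * i)) < 1`, and `exists_paths` gives sequences `X l`.  Put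
`pos v = X (tim v) (τ (fine v))`.

(1) If `tim v < l' ≤ l''`, where the present node of the level `lev v` at the time `l''` is still
the node of `v` (`tim v ≤ l'' < (nod v + 1) * B ^ (h - lev v)`), then `i0 (l') > lev v` : for
`i ≤ lev v` the present node of level `i` at the time `l'` is the one of `v` and its `first` is at
most `tim v < l'`.  Hence the coordinate `τ (fine v) < τ (a * (lev v + 1))` does not change.
So for an edge `u v` with `fine u < fine v` : `lev u ≤ lev v`, the time `tim v` is in the lifetime
of the node of `u` (`nod v / B = nod u` or the same node), and `x = X (tim v)` has the values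
`pos u`, `pos v`.
(2) If `fine u = fine v` and `tim u < tim v`, then the nodes are different nodes of one level, the
`first` time of the node of `v` is `tim v`, so in the step to the time `tim v` the coordinate
strictly increases (`i0 ≤ lev v`, `τ (a * i0) ≤ τ (fine v)`), and it never decreases. -/
theorem embed {G : SimpleGraph V} {a B h : ℕ} {lev nod slot : V → ℕ}
    (hL : Layout G a B h lev nod slot) (hB : 1 ≤ B) {S : ℕ → (ℕ → ℕ) → Finset ℕ}
    {W : ℕ → Finset ℕ} {D : ℕ → ℝ} {L : ℝ} {M H : ℕ} (hM : Mem S M) (hL1 : 1 ≤ L)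
    (hSW : ∀ i x, S i x ⊆ W i) (hD : ∀ i < H, 0 < D i)
    (hSD : ∀ i < H, ∀ x, IsCh S i x → D i ≤ (S i x).card)
    (hWD : ∀ i < H, ((W i).card : ℝ) ≤ L * D i) (τ : ℕ → ℕ) (hτ : StrictMono τ)
    (hτH : ∀ f < a * (h + 1), τ f < H)
    (hcost : ∑ i ∈ range (h + 1), ((occ univ B lev nod i).card : ℝ) *
      (L ^ M * ∑ t ∈ Ico (τ (a * i)) H, 1 / D t) < 1) :
    ∃ pos : V → ℕ, (∀ v, pos v ∈ W (τ (fine a lev slot v))) ∧
      (∀ u v, fine a lev slot u = fine a lev slot v → tim B h lev nod u < tim B h lev nod v →
        pos u < pos v) ∧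
      ∀ u v, G.Adj u v → fine a lev slot u < fine a lev slot v → ∃ x : ℕ → ℕ, IsCh S H x ∧
        x (τ (fine a lev slot u)) = pos u ∧ x (τ (fine a lev slot v)) = pos v := by
  classical
  rcases isEmpty_or_nonempty V with hV | ⟨⟨v0⟩⟩
  · exact ⟨fun _ => 0, fun v => hV.elim v, fun u => hV.elim u, fun u => hV.elim u⟩
  have ha : 0 < a := lt_of_le_of_lt (Nat.zero_le _) (hL.slot_lt v0)
  have hBp : ∀ k, 0 < B ^ k := fun k => Nat.pow_pos (by omega)
  obtain ⟨j, hjdef⟩ : ∃ j : ℕ → ℕ, ∀ l, j l = jj a B h H lev nod τ (l + 1) := ⟨_, fun _ => rfl⟩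
  -- the two cases
  have hj1 : ∀ l i0, i0 ≤ h → Beg B h lev nod i0 (l + 1) → j l ≤ τ (a * i0) := by
    intro l i0 hi0 hb
    have hex : ∃ i, i ≤ h ∧ Beg B h lev nod i (l + 1) := ⟨i0, hi0, hb⟩
    rw [hjdef]
    unfold jj
    rw [dif_pos hex]
    exact hτ.monotone (Nat.mul_le_mul_left _ (Nat.find_min' hex ⟨hi0, hb⟩))
  have hj2 : ∀ l, j l = H ∨ ∃ i0, i0 ≤ h ∧ Beg B h lev nod i0 (l + 1) ∧ j l = τ (a * i0) := by
    intro l
    by_cases hex : ∃ i, i ≤ h ∧ Beg B h lev nod i (l + 1)
    · refine Or.inr ⟨Nat.find hex, (Nat.find_spec hex).1, (Nat.find_spec hex).2, ?_⟩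
      rw [hjdef]
      unfold jj
      rw [dif_pos hex]
    · left
      rw [hjdef]
      unfold jj
      rw [dif_neg hex]
  have hjH : ∀ l, j l ≤ H := by
    intro l
    rcases hj2 l with h1 | ⟨i0, hi0, -, h1⟩
    · exact h1.le
    · rw [h1]
      exact (hτH _ ((Nat.mul_lt_mul_left ha).2 (by omega))).le
  -- cost
  obtain ⟨c, hc⟩ : ∃ c : ℕ → ℝ, ∀ i, c i = L ^ M * ∑ t ∈ Ico i H, 1 / D t := ⟨_, fun _ => rfl⟩
  have hc0 : ∀ i, 0 ≤ c i := by
    intro i
    rw [hc]
    refine mul_nonneg (pow_nonneg (by linarith) _) (sum_nonneg fun t ht => ?_)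
    exact (one_div_pos.2 (hD t (mem_Ico.1 ht).2)).le
  have hcH : c H = 0 := by
    rw [hc, Ico_self, sum_empty, mul_zero]
  have hcost' : ∑ l ∈ range (B ^ h), (L ^ M * ∑ i ∈ Ico (j l) H, 1 / D i) < 1 := by
    refine lt_of_le_of_lt ?_ hcost
    calc ∑ l ∈ range (B ^ h), (L ^ M * ∑ i ∈ Ico (j l) H, 1 / D i)
        = ∑ l ∈ range (B ^ h), c (j l) := sum_congr rfl fun l _ => (hc _).symm
      _ ≤ ∑ l ∈ range (B ^ h), ∑ i ∈ range (h + 1),
            (if Beg B h lev nod i (l + 1) then c (τ (a * i)) else 0) := by
          refine sum_le_sum fun l _ => ?_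
          rcases hj2 l with h1 | ⟨i0, hi0, hb, h1⟩
          · rw [h1, hcH]
            refine sum_nonneg fun i _ => ?_
            split_ifs
            · exact hc0 _
            · exact le_refl _
          · rw [h1]
            have h2 : (if Beg B h lev nod i0 (l + 1) then c (τ (a * i0)) else 0) =
                c (τ (a * i0)) := if_pos hb
            rw [← h2]
            refine single_le_sum (f := fun i =>
              (if Beg B h lev nod i (l + 1) then c (τ (a * i)) else 0)) (fun i _ => ?_)
              (mem_range.2 (by omega))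
            split_ifs
            · exact hc0 _
            · exact le_refl _
      _ = ∑ i ∈ range (h + 1), ∑ l ∈ range (B ^ h),
            (if Beg B h lev nod i (l + 1) then c (τ (a * i)) else 0) := sum_comm
      _ ≤ ∑ i ∈ range (h + 1), ((occ univ B lev nod i).card : ℝ) *
            (L ^ M * ∑ t ∈ Ico (τ (a * i)) H, 1 / D t) := by
          refine sum_le_sum fun i _ => ?_
          rw [← sum_filter, sum_const, nsmul_eq_mul, ← hc]
          refine mul_le_mul_of_nonneg_right ?_ (hc0 _)
          exact_mod_cast cost_aux hB hL.lev_le i (B ^ h)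
  obtain ⟨X, hX1, hX2⟩ := exists_paths hM hL1 hSW hD hSD hWD (B ^ h) j hjH hcost'
  -- the times
  have htim : ∀ v, tim B h lev nod v < (nod v + 1) * B ^ (h - lev v) := by
    intro v
    unfold tim
    exact (Nat.mul_lt_mul_right (hBp _)).2 (by omega)
  have htimΛ : ∀ v, tim B h lev nod v < B ^ h := fun v =>
    lt_of_lt_of_le (htim v) (tim_lt hL v)
  have hfine : ∀ v, fine a lev slot v < a * (h + 1) := fun v =>
    lt_of_lt_of_le (fine_lt hL v) (Nat.mul_le_mul_left _ (by have := hL.lev_le v; omega))
  -- coordinates never decrease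
  have hstep : ∀ l < B ^ h, ∀ i < H, X l i ≤ X (l + 1) i := by
    intro l hl i hi
    rcases lt_or_ge i (j l) with h1 | h1
    · exact ((hX2 l hl).1 i h1).symm.le
    · exact ((hX2 l hl).2 i h1 hi).le
  have hmono : ∀ k l, l + k ≤ B ^ h → ∀ i < H, X l i ≤ X (l + k) i := by
    intro k
    induction k with
    | zero => intro l _ i _; exact le_refl _
    | succ k ih =>
      intro l hl i hi
      exact (ih l (by omega) i hi).trans (hstep (l + k) (by omega) i hi)
  -- coordinates do not change during the lifetime
  have hkeep : ∀ v f, f < a * (lev v + 1) → ∀ k,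
      tim B h lev nod v + k < (nod v + 1) * B ^ (h - lev v) →
        X (tim B h lev nod v + k) (τ f) = X (tim B h lev nod v) (τ f) := by
    intro v f hf k
    induction k with
    | zero => intro _; rfl
    | succ k ih =>
      intro hk
      rw [← ih (by omega)]
      have hΛ : tim B h lev nod v + k < B ^ h := by
        have := tim_lt hL v
        omega
      refine (hX2 _ hΛ).1 _ ?_
      have hfh : f < a * (h + 1) :=
        lt_of_lt_of_le hf (Nat.mul_le_mul_left _ (by have := hL.lev_le v; omega))
      rcases hj2 (tim B h lev nod v + k) with h1 | ⟨i0, hi0, hb, h1⟩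
      · rw [h1]
        exact hτH f hfh
      · rw [h1]
        refine hτ ?_
        have hi : lev v < i0 := by
          by_contra hcon
          have hcon' : i0 ≤ lev v := by omega
          have hsplit : B ^ (h - i0) = B ^ (h - lev v) * B ^ (lev v - i0) := by
            rw [← pow_add]
            congr 1
            have := hL.lev_le v
            omega
          have h2 : tim B h lev nod v / B ^ (h - lev v) = nod v := by
            unfold tim
            exact Nat.mul_div_cancel _ (hBp _)
          have h3 : (tim B h lev nod v + k + 1) / B ^ (h - lev v) = nod v := by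
            rw [Nat.div_eq_iff (hBp _)]
            have h4 : tim B h lev nod v = nod v * B ^ (h - lev v) := rfl
            have h5 := hBp (h - lev v)
            rw [Nat.add_mul, Nat.one_mul] at hk
            constructor
            · omega
            · omega
          have h4 : tim B h lev nod v / B ^ (h - i0) =
              (tim B h lev nod v + k + 1) / B ^ (h - i0) := by
            rw [hsplit, ← Nat.div_div_eq_div_mul, ← Nat.div_div_eq_div_mul, h2, h3]
          have h5 := hb.2 v hcon' h4
          omega
        exact lt_of_lt_of_le hf (Nat.mul_le_mul_left _ hi)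
  refine ⟨fun v => X (tim B h lev nod v) (τ (fine a lev slot v)), ?_, ?_, ?_⟩
  · intro v
    exact hSW _ _ (hX1 _ (htimΛ v).le _ (hτH _ (hfine v)))
  · intro u v huv ht
    dsimp only
    have hlev : lev u = lev v := le_antisymm (lev_le_of_fine hL huv.le) (lev_le_of_fine hL huv.ge)
    obtain ⟨k, hk⟩ : ∃ k, tim B h lev nod v = tim B h lev nod u + k + 1 :=
      ⟨tim B h lev nod v - tim B h lev nod u - 1, by omega⟩
    have hvΛ := htimΛ v
    have h1 : X (tim B h lev nod u) (τ (fine a lev slot u)) ≤
        X (tim B h lev nod u + k) (τ (fine a lev slot u)) :=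
      hmono k _ (by omega) _ (hτH _ (hfine u))
    have hbeg : Beg B h lev nod (lev v) (tim B h lev nod u + k + 1) := by
      rw [← hk]
      refine ⟨⟨v, le_refl _, rfl⟩, fun x _ hx => ?_⟩
      have h2 : tim B h lev nod v / B ^ (h - lev v) = nod v := by
        unfold tim
        exact Nat.mul_div_cancel _ (hBp _)
      rw [h2] at hx
      have h3 := Nat.div_mul_le_self (tim B h lev nod x) (B ^ (h - lev v))
      rw [hx] at h3
      exact h3
    have h2 := hj1 _ _ (hL.lev_le v) hbeg
    have h3 : j (tim B h lev nod u + k) ≤ τ (fine a lev slot u) := by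
      refine h2.trans (hτ.monotone ?_)
      rw [huv]
      exact Nat.le_add_right _ _
    have h4 := (hX2 (tim B h lev nod u + k) (by omega)).2 _ h3 (hτH _ (hfine u))
    rw [← hk, huv] at h4
    rw [huv] at h1 ⊢
    exact lt_of_le_of_lt h1 h4
  · intro u v hadj hlt
    dsimp only
    refine ⟨X (tim B h lev nod v), hX1 _ (htimΛ v).le, ?_, rfl⟩
    have hlev := lev_le_of_fine hL hlt.le
    have hlife : tim B h lev nod u ≤ tim B h lev nod v ∧
        tim B h lev nod v < (nod u + 1) * B ^ (h - lev u) := by
      rcases hL.edge u v hadj with ⟨h1, h2⟩ | ⟨h1, h2⟩ | ⟨h1, h2⟩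
      · have h3 : tim B h lev nod v = tim B h lev nod u := by
          unfold tim
          rw [h1, h2]
        rw [h3]
        exact ⟨le_refl _, htim u⟩
      · have hvh := hL.lev_le v
        have h3 : B ^ (h - lev u) = B * B ^ (h - lev v) := by
          rw [← pow_succ']
          congr 1
          omega
        have h4 : nod u * B ≤ nod v := by
          rw [← h2]
          exact Nat.div_mul_le_self _ _
        have h5 : nod v < (nod u + 1) * B := by
          rw [← h2, Nat.add_mul, Nat.one_mul]
          exact Nat.lt_div_mul_add (by omega)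
        unfold tim
        rw [h3, ← Nat.mul_assoc, ← Nat.mul_assoc]
        exact ⟨Nat.mul_le_mul_right _ h4, (Nat.mul_lt_mul_right (hBp _)).2 h5⟩
      · omega
    obtain ⟨k, hk⟩ : ∃ k, tim B h lev nod v = tim B h lev nod u + k :=
      ⟨tim B h lev nod v - tim B h lev nod u, by omega⟩
    rw [hk]
    exact hkeep u _ (fine_lt hL u) k (by omega)

end Pool.Agent.OrdTW
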