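import Mathlib
import Pool.Agent.Lib.MP_5b01b8_co_TW.Defs

/-!
# MP_5b01b8_co (TW), module OD: elementary facts on one-sided density
-/

set_option autoImplicit false

namespace Pool.Agent.OrdTW

open Finset

variable {r : ℕ}

private theorem od_rho_nonneg (T : ℕ) {d : ℝ} (hd : 0 ≤ d) : 0 ≤ rho T d := by
  unfold rho
  positivity

theorem nb_subset (χ : ℕ → ℕ → Fin r) (a : Fin r) (x : ℕ) (Z : Finset ℕ) : nb χ a x Z ⊆ Z := by
  unfold nb
  exact filter_subset _ _

theorem mem_nb (χ : ℕ → ℕ → Fin r) (a : Fin r) (x y : ℕ) (Z : Finset ℕ) :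
    y ∈ nb χ a x Z ↔ y ∈ Z ∧ χ x y = a := by
  unfold nb
  rw [mem_filter]

theorem nb_mono (χ : ℕ → ℕ → Fin r) (a : Fin r) (x : ℕ) {Z Z' : Finset ℕ} (h : Z ⊆ Z') :
    nb χ a x Z ⊆ nb χ a x Z' := by
  intro y hy
  rw [mem_nb] at hy ⊢
  exact ⟨h hy.1, hy.2⟩

theorem few_subset (χ : ℕ → ℕ → Fin r) (a : Fin r) (d : ℝ) (V Z : Finset ℕ) :
    few χ a d V Z ⊆ V := by
  unfold few
  exact filter_subset _ _

theorem mem_few (χ : ℕ → ℕ → Fin r) (a : Fin r) (d : ℝ) (x : ℕ) (V Z : Finset ℕ) :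
    x ∈ few χ a d V Z ↔ x ∈ V ∧ ((nb χ a x Z).card : ℝ) < d * Z.card := by
  unfold few
  rw [mem_filter]

theorem OD.mono {χ : ℕ → ℕ → Fin r} {a : Fin r} {ρ ρ' ζ d : ℝ} {V W : Finset ℕ}
    (h : OD χ a ρ ζ d V W) (hρ : ρ ≤ ρ') : OD χ a ρ' ζ d V W := by
  intro Z hZ hc
  exact (h Z hZ hc).trans (mul_le_mul_of_nonneg_right hρ (Nat.cast_nonneg _))

/-- a subset of proportion `κ` of the source: the exceptional vertices of the subset are
exceptional for `V` -/
theorem OT.source {T : ℕ} {χ : ℕ → ℕ → Fin r} {a : Fin r} {κ d : ℝ} {V V' W : Finset ℕ}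
    (hd : 0 ≤ d) (h : OT T χ a κ d V W) (hV : V' ⊆ V) (hc : κ * V.card ≤ V'.card) :
    OT T χ a 1 d V' W := by
  intro Z hZ hcZ
  have h1 := h Z hZ hcZ
  have h2 : (few χ a d V' Z).card ≤ (few χ a d V Z).card := by
    apply card_le_card
    intro x hx
    rw [mem_few] at hx ⊢
    exact ⟨hV hx.1, hx.2⟩
  have h3 : ((few χ a d V' Z).card : ℝ) ≤ (few χ a d V Z).card := by exact_mod_cast h2
  refine h3.trans (h1.trans ?_)
  rw [mul_one, mul_assoc]
  exact mul_le_mul_of_nonneg_left hc (od_rho_nonneg T hd)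

theorem OT.weaken {T : ℕ} {χ : ℕ → ℕ → Fin r} {a : Fin r} {κ κ' d : ℝ} {V W : Finset ℕ}
    (hd : 0 ≤ d) (h : OT T χ a κ d V W) (hκ : κ ≤ κ') : OT T χ a κ' d V W := by
  exact OD.mono h (mul_le_mul_of_nonneg_left hκ (od_rho_nonneg T hd))

/-- failure of the one-sided density -/
theorem not_OT {T : ℕ} {χ : ℕ → ℕ → Fin r} {a : Fin r} {κ d : ℝ} {V W : Finset ℕ}
    (hκ : 0 ≤ κ) (hd : 0 ≤ d) (h : ¬ OT T χ a κ d V W) : ∃ U ⊆ V, ∃ Z ⊆ W, d ^ (T - 1) * W.card ≤ Z.card ∧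
      rho T d * κ * V.card ≤ U.card ∧ U.Nonempty ∧
      ∀ x ∈ U, ((nb χ a x Z).card : ℝ) ≤ d * Z.card := by
  unfold OT OD at h
  push Not at h
  obtain ⟨Z, hZ, h1, h2⟩ := h
  refine ⟨few χ a d V Z, few_subset χ a d V Z, Z, hZ, h1, h2.le, ?_, ?_⟩
  · rw [← Finset.card_pos]
    have h3 : (0 : ℝ) ≤ rho T d * κ * V.card :=
      mul_nonneg (mul_nonneg (od_rho_nonneg T hd) hκ) (Nat.cast_nonneg _)
    exact_mod_cast h3.trans_lt h2
  · intro x hx
    rw [mem_few] at hx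
    exact hx.2.le

theorem rho_pos {T : ℕ} (hT : 2 ≤ T) {d : ℝ} (hd : 0 < d) : 0 < rho T d := by
  have h1 : (0 : ℝ) < T := by
    have : 0 < T := by omega
    exact_mod_cast this
  unfold rho
  positivity

theorem rho_le_one {T : ℕ} (hT : 2 ≤ T) {d : ℝ} (hd : 0 < d) (hd1 : d ≤ 1) : rho T d ≤ 1 := by
  have h1 : (2 : ℝ) ≤ T := by exact_mod_cast hT
  have h2 : d ^ T ≤ 1 := pow_le_one₀ hd.le hd1
  have h3 : d ^ T / (2 * T) ≤ 1 := by
    rw [div_le_one (by linarith)]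
    linarith
  have h4 : (0 : ℝ) ≤ d ^ T / (2 * T) := by positivity
  have h5 : (d ^ T / (2 * T)) ^ T ≤ 1 := pow_le_one₀ h4 h3
  unfold rho
  rw [div_le_one (by linarith)]
  linarith

/-- the inequality which makes the greedy choice of chains possible: the factors are at most
`2 T / d ^ (T - 1) ≤ 2 T / d ^ T`, and `(T - 1) / (2 T) < 1` -/
theorem rho_lt {T : ℕ} (hT : 2 ≤ T) {d : ℝ} (hd : 0 < d) (hd1 : d ≤ 1) {n : ℕ} (hn : n ≤ T - 1)
    (f : ℕ → ℝ) (hf : ∀ i < n, d ≤ f i ∧ f i ≤ 1) :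
    (T - 1 : ℝ) * rho T d * ∏ i ∈ range n, (2 * T / (f i) ^ (T - 1)) < 1 := by
  have h1 : (2 : ℝ) ≤ T := by exact_mod_cast hT
  have h2 : d ^ T ≤ 1 := pow_le_one₀ hd.le hd1
  have hdT : 0 < d ^ T := pow_pos hd T
  have h3 : 1 ≤ 2 * T / d ^ T := by
    rw [le_div_iff₀ hdT]
    linarith
  have h4 : ∏ i ∈ range n, (2 * T / (f i) ^ (T - 1)) ≤ (2 * T / d ^ T) ^ T := by
    have h5 : ∏ i ∈ range n, (2 * T / (f i) ^ (T - 1)) ≤ ∏ _i ∈ range n, (2 * T / d ^ T) := by
      refine Finset.prod_le_prod ?_ ?_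
      · intro i hi
        have h6 := (hf i (mem_range.1 hi)).1
        have h7 : 0 < f i := hd.trans_le h6
        positivity
      · intro i hi
        obtain ⟨h6, h6'⟩ := hf i (mem_range.1 hi)
        have h7 : 0 < f i := hd.trans_le h6
        have h8 : d ^ T ≤ f i ^ (T - 1) := by
          calc d ^ T ≤ d ^ (T - 1) := pow_le_pow_of_le_one hd.le hd1 (by omega)
            _ ≤ f i ^ (T - 1) := pow_le_pow_left₀ hd.le h6 _
        exact div_le_div_of_nonneg_left (by linarith) hdT h8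
    refine h5.trans ?_
    rw [prod_const, card_range]
    exact pow_le_pow_right₀ h3 (by omega)
  have h5 : (0 : ℝ) ≤ (T - 1 : ℝ) * rho T d :=
    mul_nonneg (by linarith) (rho_pos hT hd).le
  refine (mul_le_mul_of_nonneg_left h4 h5).trans_lt ?_
  have h6 : (T - 1 : ℝ) * rho T d * (2 * T / d ^ T) ^ T = (T - 1 : ℝ) / (2 * T) := by
    unfold rho
    have h7 : (d ^ T / (2 * T)) ^ T * (2 * T / d ^ T) ^ T = 1 := by
      rw [← mul_pow]
      have h8 : d ^ T / (2 * T) * (2 * T / d ^ T) = 1 := by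
        have h9 : (2 * (T : ℝ)) ≠ 0 := by positivity
        field_simp
      rw [h8, one_pow]
    calc (T - 1 : ℝ) * ((d ^ T / (2 * T)) ^ T / (2 * T)) * (2 * T / d ^ T) ^ T
        = (T - 1 : ℝ) / (2 * T) * ((d ^ T / (2 * T)) ^ T * (2 * T / d ^ T) ^ T) := by ring
      _ = (T - 1 : ℝ) / (2 * T) := by rw [h7, mul_one]
  rw [h6, div_lt_one (by linarith)]
  linarith

theorem BadLE.symm {χ : ℕ → ℕ → Fin r} (hχ : ∀ x y, χ x y = χ y x) {A : Finset (Fin r)} {η : ℝ}
    {X Y : Finset ℕ} (h : BadLE χ A η X Y) : BadLE χ A η Y X := by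
  have h1 : (badp χ A Y X).card = (badp χ A X Y).card := by
    refine card_bij (fun z _ => (z.2, z.1)) ?_ ?_ ?_
    · intro z hz
      unfold badp at hz ⊢
      rw [mem_filter, mem_product] at hz ⊢
      refine ⟨⟨hz.1.2, hz.1.1⟩, ?_⟩
      rw [hχ]
      exact hz.2
    · intro z _ z' _ h
      have h2 := congrArg Prod.fst h
      have h3 := congrArg Prod.snd h
      exact Prod.ext h3 h2
    · intro z hz
      refine ⟨(z.2, z.1), ?_, rfl⟩
      unfold badp at hz ⊢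
      rw [mem_filter, mem_product] at hz ⊢
      refine ⟨⟨hz.1.2, hz.1.1⟩, ?_⟩
      rw [hχ]
      exact hz.2
  unfold BadLE at h ⊢
  rw [h1]
  have h2 : η * X.card * Y.card = η * Y.card * X.card := by ring
  rw [← h2]
  exact h

/-- passing to subsets of proportions `u` and `y` -/
theorem BadLE.sub {χ : ℕ → ℕ → Fin r} {A : Finset (Fin r)} {η u y : ℝ} {X Y X' Y' : Finset ℕ}
    (h : BadLE χ A η X Y) (hη : 0 ≤ η) (hu : 0 < u) (hy : 0 < y) (hX : X' ⊆ X) (hY : Y' ⊆ Y)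
    (hXc : u * X.card ≤ X'.card) (hYc : y * Y.card ≤ Y'.card) :
    BadLE χ A (η / (u * y)) X' Y' := by
  have h1 : (badp χ A X' Y').card ≤ (badp χ A X Y).card := by
    apply card_le_card
    intro z hz
    unfold badp at hz ⊢
    rw [mem_filter, mem_product] at hz ⊢
    exact ⟨⟨hX hz.1.1, hY hz.1.2⟩, hz.2⟩
  have h2 : ((badp χ A X' Y').card : ℝ) ≤ (badp χ A X Y).card := by exact_mod_cast h1
  unfold BadLE at h ⊢
  refine h2.trans (h.trans ?_)
  have h3 : u * X.card * (y * Y.card) ≤ (X'.card : ℝ) * Y'.card :=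
    mul_le_mul hXc hYc (by positivity) (Nat.cast_nonneg _)
  have h4 : η * X.card * Y.card = η / (u * y) * (u * X.card * (y * Y.card)) := by
    field_simp
  rw [h4, mul_assoc (η / (u * y))]
  exact mul_le_mul_of_nonneg_left h3 (by positivity)

/-- removing colours which are rare: count the pairs colour by colour, there are at most `r`
removed colours, each has at most `β |X| |Y|` pairs -/
theorem BadLE.remove {χ : ℕ → ℕ → Fin r} {A A' : Finset (Fin r)} {η β : ℝ} {X Y : Finset ℕ}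
    (h : BadLE χ A η X Y) (hβ : 0 ≤ β)
    (hd : ∀ a ∈ A, a ∉ A' → ∀ x ∈ X, ((nb χ a x Y).card : ℝ) ≤ β * Y.card) :
    BadLE χ A' (η + r * β) X Y := by
  classical
  have h1 : badp χ A' X Y ⊆ badp χ A X Y ∪ (A \ A').biUnion (fun a =>
      X.biUnion (fun x => (nb χ a x Y).image (fun y => (x, y)))) := by
    intro z hz
    unfold badp at hz
    rw [mem_filter, mem_product] at hz
    by_cases hA : χ z.1 z.2 ∈ A
    · apply mem_union_right
      rw [mem_biUnion]
      refine ⟨χ z.1 z.2, mem_sdiff.2 ⟨hA, hz.2⟩, ?_⟩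
      rw [mem_biUnion]
      refine ⟨z.1, hz.1.1, ?_⟩
      rw [mem_image]
      exact ⟨z.2, (mem_nb _ _ _ _ _).2 ⟨hz.1.2, rfl⟩, rfl⟩
    · apply mem_union_left
      unfold badp
      rw [mem_filter, mem_product]
      exact ⟨hz.1, hA⟩
  have h2 : ((badp χ A' X Y).card : ℝ) ≤ (badp χ A X Y).card + ∑ a ∈ A \ A', ∑ x ∈ X,
      ((nb χ a x Y).card : ℝ) := by
    have h3 : (badp χ A' X Y).card ≤ (badp χ A X Y).card + ∑ a ∈ A \ A', ∑ x ∈ X,
        (nb χ a x Y).card := by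
      refine (card_le_card h1).trans ((card_union_le _ _).trans ?_)
      refine Nat.add_le_add_left ?_ _
      refine card_biUnion_le.trans (sum_le_sum fun a _ => ?_)
      exact card_biUnion_le.trans (sum_le_sum fun x _ => card_image_le)
    exact_mod_cast h3
  have h3 : ∑ a ∈ A \ A', ∑ x ∈ X, ((nb χ a x Y).card : ℝ) ≤
      ∑ _a ∈ A \ A', ∑ _x ∈ X, β * Y.card := by
    refine sum_le_sum fun a ha => sum_le_sum fun x hx => ?_
    rw [mem_sdiff] at ha
    exact hd a ha.1 ha.2 x hx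
  rw [sum_const, sum_const, nsmul_eq_mul, nsmul_eq_mul] at h3
  have h4 : ((A \ A').card : ℝ) ≤ r := by
    have h5 : (A \ A').card ≤ r := by
      have h6 := card_le_univ (A \ A')
      rwa [Fintype.card_fin] at h6
    exact_mod_cast h5
  have h5 : ((A \ A').card : ℝ) * (X.card * (β * Y.card)) ≤ r * (X.card * (β * Y.card)) :=
    mul_le_mul_of_nonneg_right h4 (by positivity)
  unfold BadLE at h ⊢
  have h6 : (η + r * β) * X.card * Y.card = η * X.card * Y.card +
      r * (X.card * (β * Y.card)) := by ring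
  rw [h6]
  linarith

/-- if the density of the dead colours is less than one, then there is an alive colour -/
theorem BadLE.nonempty {χ : ℕ → ℕ → Fin r} {A : Finset (Fin r)} {η : ℝ} {X Y : Finset ℕ}
    (h : BadLE χ A η X Y) (hη : η < 1) (hX : X.Nonempty) (hY : Y.Nonempty) : A.Nonempty := by
  by_contra hA
  rw [Finset.not_nonempty_iff_eq_empty] at hA
  have h1 : badp χ A X Y = X ×ˢ Y := by
    unfold badp
    rw [filter_eq_self]
    intro z _
    rw [hA]
    exact notMem_empty _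
  unfold BadLE at h
  rw [h1, card_product] at h
  push_cast at h
  have h2 : (0 : ℝ) < X.card := by exact_mod_cast hX.card_pos
  have h3 : (0 : ℝ) < Y.card := by exact_mod_cast hY.card_pos
  nlinarith [mul_pos h2 h3]

theorem ka_mono {T : ℕ} {A A' : ℕ → ℕ → Finset (Fin r)} (h : ∀ i j, A' i j ⊆ A i j) :
    ka T A' ≤ ka T A := by
  unfold ka
  refine sum_le_sum fun i _ => sum_le_sum fun j _ => ?_
  split_ifs
  · exact le_rfl
  · exact card_le_card (h i j)

/-- removing a colour decreases `ka` -/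
theorem ka_lt {T : ℕ} {A A' : ℕ → ℕ → Finset (Fin r)} (h : ∀ i j, A' i j ⊆ A i j) {i j : ℕ}
    (hi : i < T) (hj : j < T) (hij : i ≠ j) {a : Fin r} (ha : a ∈ A i j) (ha' : a ∉ A' i j) :
    ka T A' + 1 ≤ ka T A := by
  unfold ka
  have hle : ∀ i ∈ range T, ∑ j ∈ range T, (if i = j then 0 else (A' i j).card) ≤
      ∑ j ∈ range T, (if i = j then 0 else (A i j).card) := by
    intro i _
    refine sum_le_sum fun j _ => ?_
    split_ifs
    · exact le_rfl
    · exact card_le_card (h i j)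
  refine Nat.succ_le_of_lt (sum_lt_sum hle ⟨i, mem_range.2 hi, ?_⟩)
  refine sum_lt_sum ?_ ⟨j, mem_range.2 hj, ?_⟩
  · intro j _
    split_ifs
    · exact le_rfl
    · exact card_le_card (h i j)
  · rw [if_neg hij, if_neg hij]
    refine card_lt_card ((ssubset_iff_of_subset (h i j)).2 ⟨a, ha, ha'⟩)

end Pool.Agent.OrdTW
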