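import Mathlib
import Pool.Agent.Lib.MP_5b01b8_co_TW.OD
import Pool.Agent.Lib.MP_5b01b8_co_TW.Av

/-!
# MP_5b01b8_co (TW), module Exc: exceptional sequences are rare
-/

set_option autoImplicit false

namespace Pool.Agent.OrdTW

open Finset

variable {r : ℕ}

open Classical in
/-- the elements of `W t` which have the right colours to the coordinates `t - T + 1, ..., q - 1`
of `x` -/
noncomputable def good (χ : ℕ → ℕ → Fin r) (T : ℕ) (W : ℕ → Finset ℕ) (φ : ℕ → ℕ → Fin r)
    (t q : ℕ) (x : ℕ → ℕ) : Finset ℕ :=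
  (W t).filter fun y => ∀ s < q, t < s + T → s < t → χ (x s) y = φ (s % T) (t % T)

/-- the exceptional sequences of the level `t` -/
def exc (χ : ℕ → ℕ → Fin r) (T : ℕ) (W : ℕ → Finset ℕ) (φ : ℕ → ℕ → Fin r) (dd : ℕ → ℝ)
    (t : ℕ) : Set (ℕ → ℕ) :=
  {x | ((good χ T W φ t t x).card : ℝ) < dd t ^ (T - 1) * (W t).card}

private theorem mem_good (χ : ℕ → ℕ → Fin r) (T : ℕ) (W : ℕ → Finset ℕ) (φ : ℕ → ℕ → Fin r)
    (t q : ℕ) (x : ℕ → ℕ) (y : ℕ) : y ∈ good χ T W φ t q x ↔
      y ∈ W t ∧ ∀ s < q, t < s + T → s < t → χ (x s) y = φ (s % T) (t % T) := by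
  classical
  unfold good
  rw [mem_filter]

/-- one more coordinate -/
private theorem good_succ (χ : ℕ → ℕ → Fin r) {T : ℕ} (W : ℕ → Finset ℕ) (φ : ℕ → ℕ → Fin r)
    {t q : ℕ} (h1 : t < q + T) (h2 : q < t) (x : ℕ → ℕ) (y : ℕ) :
    nb χ (φ (q % T) (t % T)) y (good χ T W φ t q x) ⊆
      good χ T W φ t (q + 1) (Function.update x q y) := by
  intro z hz
  rw [mem_nb, mem_good] at hz
  rw [mem_good]
  refine ⟨hz.1.1, fun s hs hs1 hs2 => ?_⟩
  rcases Nat.lt_succ_iff_lt_or_eq.1 hs with h | h
  · rw [Function.update_of_ne (Nat.ne_of_lt h)]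
    exact hz.1.2 s h hs1 hs2
  · rw [h, Function.update_self]
    exact hz.2

private theorem card_le (T t q : ℕ) (hq : q ≤ t) (hT : 1 ≤ T) :
    ((range q).filter fun s => t < s + T).card ≤ T - 1 - (t - q) := by
  have h1 : ((range q).filter fun s => t < s + T) ⊆ Ico (t + 1 - T) q := by
    intro s hs
    rw [mem_filter, mem_range] at hs
    rw [mem_Ico]
    omega
  refine (card_le_card h1).trans ?_
  rw [Nat.card_Ico]
  omega

private theorem card_succ (T t q : ℕ) (h : t < q + T) :
    ((range (q + 1)).filter fun s => t < s + T).card =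
      ((range q).filter fun s => t < s + T).card + 1 := by
  rw [range_add_one, filter_insert, if_pos h, card_insert_of_notMem]
  simp

/-- The exceptional sequences are rare (the coordinates are chosen uniformly in the windows).
Let `t < H` and `t < q + T`, `q ≤ t`, let `j` be the number of the `s < q` with `t < s + T`.
If `good t q x` has at least `dd t ^ j * |W t|` elements, then the probability of `exc t` is at
most `(t - q) * rho T (dd t)`.  Induction on `n = t - q`.  For `n = 0` the sequence `x` is not in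
`exc t`, because `j ≤ T - 1` and `dd t ≤ 1`.  For `n > 0` : by `OT` with `Z = good t q x` (its
proportion in `W t` is at least `dd t ^ j ≥ dd t ^ (T - 1)`, as `j < T - 1`) all but
`rho * |W q|` of the `y ∈ W q` have at least `dd t * |Z|` neighbours of colour `φ` in `Z`, that is
`good t (q + 1) (update x q y)` has at least `dd t ^ (j + 1) * |W t|` elements; for these `y` use
the induction hypothesis, for the others the bound `1`. -/
theorem av_exc_le {T H : ℕ} (hT : 2 ≤ T) {χ : ℕ → ℕ → Fin r} {W : ℕ → Finset ℕ}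
    {φ : ℕ → ℕ → Fin r} {dd : ℕ → ℝ} (hW : Chain χ T H W φ dd) (hne : ∀ t < H, (W t).Nonempty)
    {t : ℕ} (ht : t < H) : ∀ (n q : ℕ) (x : ℕ → ℕ), q + n = t → t < q + T →
      dd t ^ ((range q).filter fun s => t < s + T).card * (W t).card ≤ (good χ T W φ t q x).card →
      av (fun i _ => W i) (exc χ T W φ dd t) n q x ≤ n * rho T (dd t) := by
  obtain ⟨hd0, hd1⟩ := hW.pos t ht
  have hrho := rho_pos hT hd0
  intro n
  induction n with
  | zero =>
    intro q x hq htq hx
    have hqt : q = t := by omega
    subst hqt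
    have h1 : dd q ^ (T - 1) * ((W q).card : ℝ) ≤ ((good χ T W φ q q x).card : ℝ) := by
      refine le_trans (mul_le_mul_of_nonneg_right ?_ (Nat.cast_nonneg _)) hx
      exact pow_le_pow_of_le_one hd0.le hd1
        ((card_le T q q le_rfl (by omega)).trans (Nat.sub_le _ _))
    have h2 : x ∉ exc χ T W φ dd q := by
      intro h
      exact absurd h (not_lt.2 h1)
    simp only [av, if_neg h2]
    simp
  | succ n ih =>
    intro q x hq htq hx
    have hqt : q < t := by omega
    have hWq : (0 : ℝ) < ((W q).card : ℝ) := by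
      exact_mod_cast Finset.card_pos.2 (hne q (by omega))
    have hj : ((range q).filter fun s => t < s + T).card ≤ T - 1 :=
      (card_le T t q hqt.le (by omega)).trans (Nat.sub_le _ _)
    have hsub : good χ T W φ t q x ⊆ W t := fun y hy => ((mem_good χ T W φ t q x y).1 hy).1
    have hprop : dd t ^ (T - 1) * ((W t).card : ℝ) ≤ ((good χ T W φ t q x).card : ℝ) :=
      le_trans (mul_le_mul_of_nonneg_right (pow_le_pow_of_le_one hd0.le hd1 hj)
        (Nat.cast_nonneg _)) hx
    have hod := hW.od q t hqt htq ht (good χ T W φ t q x) hsub hprop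
    rw [mul_one] at hod
    have hgood : ∀ y ∈ W q, y ∉ few χ (φ (q % T) (t % T)) (dd t) (W q) (good χ T W φ t q x) →
        av (fun i _ => W i) (exc χ T W φ dd t) n (q + 1) (Function.update x q y) ≤
          n * rho T (dd t) := by
      intro y hy hyf
      refine ih (q + 1) (Function.update x q y) (by omega) (by omega) ?_
      rw [card_succ T t q htq, pow_succ]
      have h1 : dd t * ((good χ T W φ t q x).card : ℝ) ≤
          ((nb χ (φ (q % T) (t % T)) y (good χ T W φ t q x)).card : ℝ) := by
        by_contra hcon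
        exact hyf ((mem_few χ _ _ y _ _).2 ⟨hy, not_le.1 hcon⟩)
      have h2 : ((nb χ (φ (q % T) (t % T)) y (good χ T W φ t q x)).card : ℝ) ≤
          ((good χ T W φ t (q + 1) (Function.update x q y)).card : ℝ) := by
        exact_mod_cast card_le_card (good_succ χ W φ htq hqt x y)
      have h3 := mul_le_mul_of_nonneg_left hx hd0.le
      linarith
    have hsum : ∑ y ∈ W q, av (fun i _ => W i) (exc χ T W φ dd t) n (q + 1)
        (Function.update x q y) ≤
          ((few χ (φ (q % T) (t % T)) (dd t) (W q) (good χ T W φ t q x)).card : ℝ) +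
            (W q).card * (n * rho T (dd t)) := by
      classical
      have hfs : few χ (φ (q % T) (t % T)) (dd t) (W q) (good χ T W φ t q x) ⊆ W q :=
        few_subset χ _ _ _ _
      rw [← sum_sdiff hfs, add_comm]
      have hnr : (0 : ℝ) ≤ n * rho T (dd t) := mul_nonneg (Nat.cast_nonneg _) hrho.le
      refine add_le_add ?_ ?_
      · refine (sum_le_card_nsmul _ _ 1 fun y _ => av_le_one _ _ _ _).trans ?_
        rw [nsmul_eq_mul, mul_one]
      · refine (sum_le_card_nsmul _ _ ((n : ℝ) * rho T (dd t)) fun y hy => ?_).trans ?_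
        · rw [mem_sdiff] at hy
          exact hgood y hy.1 hy.2
        · rw [nsmul_eq_mul]
          refine mul_le_mul_of_nonneg_right ?_ hnr
          exact_mod_cast card_le_card sdiff_subset
    have hav : av (fun i _ => W i) (exc χ T W φ dd t) (n + 1) q x =
        (∑ y ∈ W q, av (fun i _ => W i) (exc χ T W φ dd t) n (q + 1)
          (Function.update x q y)) / ((W q).card : ℝ) := rfl
    rw [hav, div_le_iff₀ hWq]
    push_cast
    nlinarith [hsum, hod]

end Pool.Agent.OrdTW
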