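import Mathlib
import Pool.Agent.Lib.MP_5b01b8_co_TW.OD

/-!
# MP_5b01b8_co (TW), module Win: definition of windows
-/

set_option autoImplicit false

namespace Pool.Agent.OrdTW

open Finset

variable {r : ℕ}

/-- windows for the levels `t < H` : `t % T` is the class, `t / T` the scale -/
structure Win (χ : ℕ → ℕ → Fin r) (T H : ℕ) (X : ℕ → Finset ℕ) (A : ℕ → ℕ → Finset (Fin r))
    (η : ℝ) (V : ℕ → Finset ℕ) : Prop where
  sub : ∀ t < H, V t ⊆ X (t % T)
  order : ∀ s t, s < t → t < H → s % T = t % T → ∀ x ∈ V s, ∀ y ∈ V t, x < y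
  card_mono : ∀ s t, s ≤ t → t < H → s % T = t % T → (V s).card ≤ (V t).card
  bad : ∀ s t, s < H → t < H → s % T ≠ t % T → s < t + 2 * T → t < s + 2 * T →
    BadLE χ (A (s % T) (t % T)) η (V s) (V t)

end Pool.Agent.OrdTW
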