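import Mathlib
import Pool.Agent.Lib.MP_5b01b8_co_TW.Win

/-!
# MP_5b01b8_co (TW), module InnD: definitions for the inner induction

Situation: windows `V t` for the phase with the alive sets `A` (`ka T A ≤ k + 1`).  Some colour `a`
is not one-sided dense from a window `V i0` to the window `V t0`, `i0 < t0 < i0 + T` : there are
`U ⊆ V i0` (small) and `Y t0 ⊆ V t0` such that every `x ∈ U` has few neighbours of colour `a` in
`Y t0`.  Below `t0` the chain is built in a host made of `U` and of left halves of subsets `Y t`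
of the windows `V t`, `t0 ≤ t < t0 + T`; the right halves are the next `T` windows of the chain.
Only the class of `i0` has a small set; all other sets have a large proportion in `V t`.
-/

set_option autoImplicit false

namespace Pool.Agent.OrdTW

open Finset

variable {r : ℕ}

/-- the state of the inner induction; `A'` are the present alive sets, they differ from `A` only
at pairs which contain the class `i0 % T` -/
structure Inn (χ : ℕ → ℕ → Fin r) (T t0 i0 : ℕ) (A A' : ℕ → ℕ → Finset (Fin r))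
    (V : ℕ → Finset ℕ) (U : Finset ℕ) (Y : ℕ → Finset ℕ) (u y β : ℝ) : Prop where
  lt : i0 < t0
  near : t0 < i0 + T
  U_sub : U ⊆ V i0
  U_card : u * (V i0).card ≤ U.card
  Y_sub : ∀ t, t0 ≤ t → t < t0 + T → Y t ⊆ V t
  Y_card : ∀ t, t0 ≤ t → t < t0 + T → y * (V t).card ≤ (Y t).card
  Y_top : Y (i0 + T) = V (i0 + T)
  symm : ∀ i j, A' i j = A' j i
  sub : ∀ i j, A' i j ⊆ A i j
  same : ∀ i j, i ≠ i0 % T → j ≠ i0 % T → A' i j = A i j
  dead : ∀ t, t0 ≤ t → t < t0 + T → t ≠ i0 + T → ∀ a ∈ A (i0 % T) (t % T),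
    a ∉ A' (i0 % T) (t % T) → ∀ x ∈ U, ((nb χ a x (Y t)).card : ℝ) ≤ β * (Y t).card

/-- the result of the inner induction: a chain of length `L ≤ t0 + T` whose windows from the level
`t0` on are subsets of the windows `V t` of proportion at least `κ1`, and whose last `T` windows
have size at least `κ2 * |V t|` -/
def Concl (χ : ℕ → ℕ → Fin r) (T : ℕ) (X : ℕ → Finset ℕ) (A : ℕ → ℕ → Finset (Fin r))
    (V : ℕ → Finset ℕ) (K t0 L : ℕ) (κ1 κ2 D : ℝ) : Prop :=
  ∃ (W : ℕ → Finset ℕ) (φ : ℕ → ℕ → Fin r) (dd : ℕ → ℝ), Chain χ T L W φ dd ∧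
    (∀ t < L, D ≤ dd t) ∧ (∀ i j, φ i j = φ j i) ∧
    (∀ i < T, ∀ j < T, i ≠ j → φ i j ∈ A i j) ∧ (∀ t < L, W t ⊆ X (t % T)) ∧
    (∀ t < L, K * 2 ^ (t / T) ≤ (W t).card) ∧
    (∀ t, t0 ≤ t → t < L → W t ⊆ V t ∧ κ1 * (V t).card ≤ (W t).card) ∧
    (∀ t < L, L ≤ t + T → κ2 * (V t).card ≤ (W t).card)

theorem Concl.weaken {χ : ℕ → ℕ → Fin r} {T : ℕ} {X : ℕ → Finset ℕ}
    {A : ℕ → ℕ → Finset (Fin r)} {V : ℕ → Finset ℕ} {K t0 L : ℕ} {κ1 κ2 D κ1' κ2' D' : ℝ}
    (h : Concl χ T X A V K t0 L κ1 κ2 D) (h1 : κ1' ≤ κ1) (h2 : κ2' ≤ κ2) (h3 : D' ≤ D) :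
    Concl χ T X A V K t0 L κ1' κ2' D' := by
  obtain ⟨W, φ, dd, hc, hd, hs, ha, hX, hK, hV, hl⟩ := h
  refine ⟨W, φ, dd, hc, fun t ht => h3.trans (hd t ht), hs, ha, hX, hK, ?_, ?_⟩
  · intro t ht ht'
    obtain ⟨g1, g2⟩ := hV t ht ht'
    exact ⟨g1, (mul_le_mul_of_nonneg_right h1 (Nat.cast_nonneg _)).trans g2⟩
  · intro t ht ht'
    exact (mul_le_mul_of_nonneg_right h2 (Nat.cast_nonneg _)).trans (hl t ht ht')

/-- halving a finite set of natural numbers -/
theorem exists_halves (Y : Finset ℕ) (hY : 2 ≤ Y.card) :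
    ∃ P Q : Finset ℕ, P ⊆ Y ∧ Q ⊆ Y ∧ (∀ x ∈ P, ∀ z ∈ Q, x < z) ∧ Y.card ≤ 3 * P.card ∧
      Y.card ≤ 2 * Q.card := by
  classical
  obtain ⟨n, hn⟩ : ∃ n, Y.card = n := ⟨_, rfl⟩
  let f := Y.orderEmbOfFin hn
  let I : Finset (Fin n) := Finset.univ.filter fun i => (i : ℕ) < n / 2
  have hI : I.card = n / 2 := by
    have e : I.map Fin.valEmbedding = Finset.range (n / 2) := by
      ext x
      simp only [I, Finset.mem_map, Finset.mem_filter, Finset.mem_univ, true_and,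
        Fin.valEmbedding_apply, Finset.mem_range]
      constructor
      · rintro ⟨i, hi, rfl⟩
        exact hi
      · intro hx
        exact ⟨⟨x, by omega⟩, hx, rfl⟩
    rw [← Finset.card_map Fin.valEmbedding, e, Finset.card_range]
  have hIc : Iᶜ.card = n - n / 2 := by
    rw [Finset.card_compl, hI, Fintype.card_fin]
  refine ⟨I.map f.toEmbedding, Iᶜ.map f.toEmbedding, ?_, ?_, ?_, ?_, ?_⟩
  · intro x hx
    rw [Finset.mem_map] at hx
    obtain ⟨i, -, rfl⟩ := hx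
    exact Finset.orderEmbOfFin_mem Y hn i
  · intro x hx
    rw [Finset.mem_map] at hx
    obtain ⟨i, -, rfl⟩ := hx
    exact Finset.orderEmbOfFin_mem Y hn i
  · intro x hx z hz
    rw [Finset.mem_map] at hx hz
    obtain ⟨i, hi, rfl⟩ := hx
    obtain ⟨j, hj, rfl⟩ := hz
    have hi' : (i : ℕ) < n / 2 := (Finset.mem_filter.1 hi).2
    have hj' : ¬ (j : ℕ) < n / 2 := fun h =>
      (Finset.mem_compl.1 hj) (Finset.mem_filter.2 ⟨Finset.mem_univ _, h⟩)
    have hij : i < j := by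
      rw [Fin.lt_def]
      omega
    exact f.strictMono hij
  · rw [Finset.card_map, hI]
    omega
  · rw [Finset.card_map, hIc]
    omega

/-- the level of the class `c` in the interval `[t0, t0 + T)` -/
def lev0 (T t0 c : ℕ) : ℕ := t0 + (c + T - t0 % T) % T

theorem lev0_spec {T t0 c : ℕ} (hc : c < T) :
    t0 ≤ lev0 T t0 c ∧ lev0 T t0 c < t0 + T ∧ lev0 T t0 c % T = c := by
  have hT : 0 < T := by omega
  have h1 : t0 % T < T := Nat.mod_lt _ hT
  have h2 : (c + T - t0 % T) % T < T := Nat.mod_lt _ hT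
  unfold lev0
  refine ⟨Nat.le_add_right _ _, by omega, ?_⟩
  rw [Nat.add_mod_mod]
  have e : t0 + (c + T - t0 % T) = c + T * (t0 / T + 1) := by
    have h3 := Nat.mod_add_div t0 T
    rw [Nat.mul_add, Nat.mul_one]
    omega
  rw [e, Nat.add_mul_mod_self_left, Nat.mod_eq_of_lt hc]

theorem lev0_eq {T t0 t : ℕ} (h1 : t0 ≤ t) (h2 : t < t0 + T) : lev0 T t0 (t % T) = t := by
  have hT : 0 < T := by omega
  obtain ⟨d, rfl⟩ : ∃ d, t = t0 + d := ⟨t - t0, by omega⟩
  have hd : d < T := by omega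
  have ha : t0 % T < T := Nat.mod_lt _ hT
  unfold lev0
  have e : (t0 + d) % T = (t0 % T + d) % T := by rw [Nat.mod_add_mod]
  rw [e]
  congr 1
  rcases Nat.lt_or_ge (t0 % T + d) T with h | h
  · rw [Nat.mod_eq_of_lt h]
    have e2 : t0 % T + d + T - t0 % T = d + T := by omega
    rw [e2, Nat.add_mod_right, Nat.mod_eq_of_lt hd]
  · have e3 : (t0 % T + d) % T = t0 % T + d - T := by
      rw [Nat.mod_eq_sub_mod h, Nat.mod_eq_of_lt (by omega)]
    rw [e3]
    have e2 : t0 % T + d - T + T - t0 % T = d := by omega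
    rw [e2, Nat.mod_eq_of_lt hd]

end Pool.Agent.OrdTW
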