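import Mathlib
import Pool.Agent.Lib.MP_5b01b8_co_TW.InnD

/-!
# MP_5b01b8_co (TW), module InnL: inner induction, two large sets
-/

set_option autoImplicit false

namespace Pool.Agent.OrdTW

open Finset

variable {r : ℕ}

private theorem innl_badLE_mono {χ : ℕ → ℕ → Fin r} {A : Finset (Fin r)} {η η' : ℝ}
    {X Y : Finset ℕ} (h : BadLE χ A η X Y) (hη : η ≤ η') : BadLE χ A η' X Y := by
  unfold BadLE at h ⊢
  refine h.trans ?_
  have h1 : η * X.card ≤ η' * X.card := mul_le_mul_of_nonneg_right hη (Nat.cast_nonneg _)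
  exact mul_le_mul_of_nonneg_right h1 (Nat.cast_nonneg _)

/-- Case 1 of the inner induction: a colour `a` alive in `A` is rare between two large sets.
`U' ⊆ V s`, `Z ⊆ V t` have proportions at least `u'`, `z'`, `s ≠ t` are levels in
`[t0, t0 + T)`.  Apply `Rk r T k` to the host `X' i = U'` for `i = s % T`, `X' i = Z` for
`i = t % T`, `X' i = V (lev0 T t0 i)` otherwise, with the alive sets `A''` obtained from `A` by
removing `a` at the pair `(s % T, t % T)` and its transpose (`ka T A'' + 1 ≤ ka T A ≤ k + 1`).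
All the pairs of classes have density of dead colours at most `ηw / (u' * z')` (`BadLE.sub`), at
the special pair we add `r * β` (`BadLE.remove`), so at most `η`.  The windows of the chain of
length `L` satisfy `W l ⊆ X' (l % T) ⊆ V (lev0 T t0 (l % T))`, and `lev0 T t0 (l % T) = l` for
`t0 ≤ l`; for `l < t0` it is larger than `l`, so `V l` is smaller (`card_mono`).  The constants
`η, κ, D, C` are those of `Rk`. -/
theorem inner_large {T k : ℕ} (hT : 2 ≤ T) {η κ D : ℝ} {C : ℕ} (hκ : 0 < κ) (hκ1 : κ ≤ 1)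
    (hR : RkC r T k η κ D C)
    {χ : ℕ → ℕ → Fin r} {X : ℕ → Finset ℕ} {A : ℕ → ℕ → Finset (Fin r)} {V : ℕ → Finset ℕ}
    {K H t0 L : ℕ} {ηw β u' z' : ℝ} (hχ : ∀ x y, χ x y = χ y x) (hA : ∀ i j, A i j = A j i)
    (hka : ka T A ≤ k + 1) (hK : 1 ≤ K) (hW : Win χ T H X A ηw V) (hH : t0 + T ≤ H)
    (hL0 : t0 < L) (hL : L ≤ t0 + T) {s t : ℕ} (hs0 : t0 ≤ s) (hs : s < t0 + T) (ht0 : t0 ≤ t)
    (ht : t < t0 + T) (hst : s ≠ t) {a : Fin r} (ha : a ∈ A (s % T) (t % T))
    {U' Z : Finset ℕ} (hU' : U' ⊆ V s) (hZ : Z ⊆ V t) (hu' : 0 < u') (hu1 : u' ≤ 1)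
    (hz' : 0 < z') (hz1 : z' ≤ 1) (hUc : u' * (V s).card ≤ U'.card)
    (hZc : z' * (V t).card ≤ Z.card) (hβ : 0 ≤ β)
    (hdead : ∀ x ∈ U', ((nb χ a x Z).card : ℝ) ≤ β * Z.card) (hηw : 0 ≤ ηw)
    (hη : ηw / (u' * z') + r * β ≤ η)
    (hC : ∀ l, t0 ≤ l → l < t0 + T → 2 * C * K * 2 ^ (l / T) ≤ u' * z' * (V l).card) :
    Concl χ T X A V K t0 L (κ * (u' * z')) (κ * (u' * z')) D := by
  classical
  have hT0 : 0 < T := by omega
  have huz : 0 < u' * z' := mul_pos hu' hz'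
  have huz1 : u' * z' ≤ u' := mul_le_of_le_one_right hu'.le hz1
  have huz2 : u' * z' ≤ z' := mul_le_of_le_one_left hz'.le hu1
  have huz3 : u' * z' ≤ 1 := huz1.trans hu1
  obtain ⟨p, hp⟩ : ∃ p, p = s % T := ⟨_, rfl⟩
  obtain ⟨q, hq⟩ : ∃ q, q = t % T := ⟨_, rfl⟩
  have hpT : p < T := by rw [hp]; exact Nat.mod_lt _ hT0
  have hqT : q < T := by rw [hq]; exact Nat.mod_lt _ hT0
  have hlp : lev0 T t0 p = s := by rw [hp]; exact lev0_eq hs0 hs
  have hlq : lev0 T t0 q = t := by rw [hq]; exact lev0_eq ht0 ht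
  have hpq : p ≠ q := by
    intro h
    apply hst
    rw [← hlp, ← hlq, h]
  rw [← hp, ← hq] at ha
  -- the sets and their proportions
  obtain ⟨X', hX'⟩ : ∃ X' : ℕ → Finset ℕ, ∀ i, X' i =
      if i = p then U' else if i = q then Z else V (lev0 T t0 i) := ⟨_, fun _ => rfl⟩
  obtain ⟨pr, hpr⟩ : ∃ pr : ℕ → ℝ, ∀ i, pr i = if i = p then u' else if i = q then z' else 1 :=
    ⟨_, fun _ => rfl⟩
  have hX'p : X' p = U' := by rw [hX', if_pos rfl]
  have hX'q : X' q = Z := by rw [hX', if_neg hpq.symm, if_pos rfl]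
  have hprp : pr p = u' := by rw [hpr, if_pos rfl]
  have hprq : pr q = z' := by rw [hpr, if_neg hpq.symm, if_pos rfl]
  have hX'o : ∀ i, i ≠ p → i ≠ q → X' i = V (lev0 T t0 i) := by
    intro i h1 h2
    rw [hX', if_neg h1, if_neg h2]
  have hpro : ∀ i, i ≠ p → i ≠ q → pr i = 1 := by
    intro i h1 h2
    rw [hpr, if_neg h1, if_neg h2]
  have hprop : ∀ i, X' i ⊆ V (lev0 T t0 i) ∧ pr i * (V (lev0 T t0 i)).card ≤ (X' i).card ∧
      0 < pr i ∧ u' * z' ≤ pr i := by
    intro i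
    by_cases h1 : i = p
    · rw [h1, hX'p, hprp, hlp]
      exact ⟨hU', hUc, hu', huz1⟩
    · by_cases h2 : i = q
      · rw [h2, hX'q, hprq, hlq]
        exact ⟨hZ, hZc, hz', huz2⟩
      · rw [hX'o i h1 h2, hpro i h1 h2]
        exact ⟨Finset.Subset.refl _, by rw [one_mul], one_pos, huz3⟩
  have hprod : ∀ i j, i ≠ j → u' * z' ≤ pr i * pr j := by
    intro i j hij
    by_cases h1 : i = p
    · by_cases h2 : j = q
      · rw [h1, h2, hprp, hprq]
      · have h3 : j ≠ p := fun h => hij (h1.trans h.symm)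
        rw [h1, hprp, hpro j h3 h2, mul_one]
        exact huz1
    · by_cases h2 : i = q
      · by_cases h3 : j = p
        · rw [h2, h3, hprp, hprq, mul_comm]
        · have h4 : j ≠ q := fun h => hij (h2.trans h.symm)
          rw [h2, hprq, hpro j h3 h4, mul_one]
          exact huz2
      · rw [hpro i h1 h2, one_mul]
        exact (hprop j).2.2.2
  -- the alive sets
  obtain ⟨A', hA'⟩ : ∃ A' : ℕ → ℕ → Finset (Fin r), ∀ i j, A' i j =
      if (i = p ∧ j = q) ∨ (i = q ∧ j = p) then (A i j).erase a else A i j := ⟨_, fun _ _ => rfl⟩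
  have hAs : ∀ i j, A' i j = A' j i := by
    intro i j
    by_cases h1 : (i = p ∧ j = q) ∨ (i = q ∧ j = p)
    · have h2 : (j = p ∧ i = q) ∨ (j = q ∧ i = p) := by
        rcases h1 with ⟨h1, h2⟩ | ⟨h1, h2⟩
        · exact Or.inr ⟨h2, h1⟩
        · exact Or.inl ⟨h2, h1⟩
      rw [hA', hA', if_pos h1, if_pos h2, hA i j]
    · have h2 : ¬((j = p ∧ i = q) ∨ (j = q ∧ i = p)) := by
        intro h2
        apply h1
        rcases h2 with ⟨h2, h3⟩ | ⟨h2, h3⟩
        · exact Or.inr ⟨h3, h2⟩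
        · exact Or.inl ⟨h3, h2⟩
      rw [hA', hA', if_neg h1, if_neg h2, hA i j]
  have hAsub : ∀ i j, A' i j ⊆ A i j := by
    intro i j
    rw [hA']
    split_ifs
    · exact Finset.erase_subset _ _
    · exact Finset.Subset.refl _
  have hA'pq : A' p q = (A p q).erase a := by rw [hA', if_pos (Or.inl ⟨rfl, rfl⟩)]
  have hkA : ka T A' ≤ k := by
    have h1 := ka_lt hAsub hpT hqT hpq ha (by rw [hA'pq]; exact Finset.notMem_erase _ _)
    omega
  -- levels
  have hlev : ∀ i < T, lev0 T t0 i < H ∧ lev0 T t0 i % T = i := by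
    intro i hi
    obtain ⟨h1, h2, h3⟩ := lev0_spec (t0 := t0) hi
    exact ⟨by omega, h3⟩
  -- dead colours
  have hbad0 : ∀ i < T, ∀ j < T, i ≠ j → BadLE χ (A i j) (ηw / (u' * z')) (X' i) (X' j) := by
    intro i hi j hj hij
    obtain ⟨h1, h2, h3⟩ := lev0_spec (t0 := t0) hi
    obtain ⟨h4, h5, h6⟩ := lev0_spec (t0 := t0) hj
    have h7 := hW.bad (lev0 T t0 i) (lev0 T t0 j) (by omega) (by omega)
      (by rw [h3, h6]; exact hij) (by omega) (by omega)
    rw [h3, h6] at h7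
    obtain ⟨h8, h9, h10, h11⟩ := hprop i
    obtain ⟨h12, h13, h14, h15⟩ := hprop j
    refine innl_badLE_mono (h7.sub hηw h10 h14 h8 h12 h9 h13) ?_
    exact div_le_div_of_nonneg_left hηw huz (hprod i j hij)
  have hrβ : 0 ≤ (r : ℝ) * β := mul_nonneg (Nat.cast_nonneg _) hβ
  have hbpq : BadLE χ (A' p q) η (X' p) (X' q) := by
    refine innl_badLE_mono ((hbad0 p hpT q hqT hpq).remove (A' := A' p q) hβ ?_) hη
    intro b hb hb' x hx
    have hba : b = a := by
      by_contra h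
      exact hb' (by rw [hA'pq]; exact Finset.mem_erase.2 ⟨h, hb⟩)
    rw [hX'p] at hx
    rw [hba, hX'q]
    exact hdead x hx
  have hbad : ∀ i < T, ∀ j < T, i ≠ j → BadLE χ (A' i j) η (X' i) (X' j) := by
    intro i hi j hj hij
    by_cases h1 : i = p ∧ j = q
    · rw [h1.1, h1.2]
      exact hbpq
    · by_cases h2 : i = q ∧ j = p
      · rw [h2.1, h2.2, hAs]
        exact hbpq.symm hχ
      · rw [hA', if_neg (by rintro (h | h); exacts [h1 h, h2 h])]
        exact innl_badLE_mono (hbad0 i hi j hj hij) (by linarith)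
  -- cardinalities
  have hcard : ∀ i < T, C * K * 2 ^ (L / T) ≤ (X' i).card := by
    intro i hi
    obtain ⟨h1, h2, h3⟩ := lev0_spec (t0 := t0) hi
    obtain ⟨h8, h9, h10, h11⟩ := hprop i
    have h4 := hC _ h1 h2
    have h5 : L / T ≤ lev0 T t0 i / T + 1 := by
      calc L / T ≤ (lev0 T t0 i + T) / T := Nat.div_le_div_right (by omega)
        _ = lev0 T t0 i / T + 1 := Nat.add_div_right _ hT0
    have h6 : (2 : ℝ) ^ (L / T) ≤ 2 * 2 ^ (lev0 T t0 i / T) := by
      have := pow_le_pow_right₀ (one_le_two : (1 : ℝ) ≤ 2) h5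
      rw [pow_succ] at this
      linarith
    have h7 : ((C * K * 2 ^ (L / T) : ℕ) : ℝ) ≤ ((X' i).card : ℝ) := by
      push_cast
      calc (C : ℝ) * K * 2 ^ (L / T) ≤ C * K * (2 * 2 ^ (lev0 T t0 i / T)) :=
            mul_le_mul_of_nonneg_left h6 (by positivity)
        _ = 2 * C * K * 2 ^ (lev0 T t0 i / T) := by ring
        _ ≤ u' * z' * (V (lev0 T t0 i)).card := h4
        _ ≤ pr i * (V (lev0 T t0 i)).card :=
            mul_le_mul_of_nonneg_right h11 (Nat.cast_nonneg _)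
        _ ≤ (X' i).card := h9
    exact_mod_cast h7
  obtain ⟨W, φ, dd, hch, hdd, hφs, hφA, hWX, hWK, hWc⟩ :=
    hR χ X' A' K L hχ hAs hkA hK hbad hcard
  have hle : ∀ l < L, l ≤ lev0 T t0 (l % T) := by
    intro l hl
    by_cases h1 : t0 ≤ l
    · rw [lev0_eq h1 (by omega)]
    · have h2 := (lev0_spec (t0 := t0) (Nat.mod_lt l hT0)).1
      omega
  have hfin : ∀ l < L, L ≤ l + T → κ * (u' * z') * (V l).card ≤ (W l).card := by
    intro l hl hlT
    have hm := Nat.mod_lt l hT0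
    obtain ⟨h8, h9, h10, h11⟩ := hprop (l % T)
    obtain ⟨h1, h2⟩ := hlev (l % T) hm
    have h3 : (V l).card ≤ (V (lev0 T t0 (l % T))).card :=
      hW.card_mono _ _ (hle l hl) h1 h2.symm
    have h3' : ((V l).card : ℝ) ≤ ((V (lev0 T t0 (l % T))).card : ℝ) := by exact_mod_cast h3
    calc κ * (u' * z') * (V l).card ≤ κ * (u' * z') * (V (lev0 T t0 (l % T))).card :=
          mul_le_mul_of_nonneg_left h3' (by positivity)
      _ = κ * (u' * z' * (V (lev0 T t0 (l % T))).card) := by ring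
      _ ≤ κ * (pr (l % T) * (V (lev0 T t0 (l % T))).card) :=
          mul_le_mul_of_nonneg_left (mul_le_mul_of_nonneg_right h11 (Nat.cast_nonneg _)) hκ.le
      _ ≤ κ * (X' (l % T)).card := mul_le_mul_of_nonneg_left h9 hκ.le
      _ ≤ (W l).card := hWc l hl hlT
  refine ⟨W, φ, dd, hch, hdd, hφs, fun i hi j hj hij => hAsub i j (hφA i hi j hj hij), ?_, hWK,
    ?_, hfin⟩
  · intro l hl
    have hm := Nat.mod_lt l hT0
    obtain ⟨h1, h2⟩ := hlev (l % T) hm
    have h3 := hW.sub _ h1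
    rw [h2] at h3
    exact (hWX l hl).trans ((hprop _).1.trans h3)
  · intro l hl0 hl
    refine ⟨?_, hfin l hl (by omega)⟩
    have h1 := (hWX l hl).trans (hprop _).1
    rw [lev0_eq hl0 (by omega)] at h1
    exact h1

end Pool.Agent.OrdTW
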