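import Mathlib
import Pool.Agent.Lib.MP_5b01b8_co_TW.InnD

/-!
# MP_5b01b8_co (TW), module InnP: inner induction, all tests pass
-/

set_option autoImplicit false

namespace Pool.Agent.OrdTW

open Finset

variable {r : ℕ}

private theorem bad_mono {χ : ℕ → ℕ → Fin r} {A : Finset (Fin r)} {η η' : ℝ} {X Y : Finset ℕ}
    (h : BadLE χ A η X Y) (hη : η ≤ η') : BadLE χ A η' X Y := by
  unfold BadLE at h ⊢
  refine h.trans ?_
  have h1 : (0 : ℝ) ≤ X.card := by positivity
  have h2 : (0 : ℝ) ≤ Y.card := by positivity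
  exact mul_le_mul_of_nonneg_right (mul_le_mul_of_nonneg_right hη h1) h2

private theorem mod_ne {T s t : ℕ} (h1 : s < t) (h2 : t < s + T) : s % T ≠ t % T := by
  intro h
  have h4 : T ∣ t - s := (Nat.modEq_iff_dvd' h1.le).1 h
  have h5 := Nat.le_of_dvd (by omega) h4
  omega

/-- Case 2 of the inner induction: all tests pass.  `P t` and `Q t` are the left and the right
halves of `Y t` for `t ≠ i0 + T`, and `Q (i0 + T) = V (i0 + T)`.  Apply `Rk r T k` to the host
`X' i = U` for `i = i0 % T`, `X' i = P (lev0 T t0 i)` otherwise, with the alive sets `A'` and the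
length `t0`; append the windows `Q t`, `t0 ≤ t < L`, with `dd t = d`.
Dead colours: for two classes different from `i0 % T` we have `A' = A` and the density is at most
`9 * ηw / y ^ 2`; for the pairs with `U` it is at most `3 * ηw / (u * y)` for `A`, and every
removed colour has at most `β * |Y t| ≤ 3 * β * |P t|` neighbours of `x ∈ U` in `P t`.
Order: `P t < Q t`; and `U ⊆ V i0`, `Q (i0 + T) = V (i0 + T)`.
`od` for a target `t ≥ t0` and a source `s` with `s < t < s + T` : if `s ≥ t0` use `h3`; if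
`s < t0` then `t0 ≤ s + T`, so `W s` has proportion at least `κ` in `X' (s % T)` : if
`s % T = i0 % T` then `s = i0` (both in `(t0 - T, t0)`) and `h1` applies (`t < s + T = i0 + T`),
otherwise `lev0 T t0 (s % T) = s + T ≠ t` and `h2` applies; use `OT.source`. -/
theorem inner_pass {T k : ℕ} (hT : 2 ≤ T) {η κ D : ℝ} {C : ℕ} (hκ : 0 < κ) (hκ1 : κ ≤ 1)
    (hC1 : 1 ≤ C)
    (hR : RkC r T k η κ D C)
    {χ : ℕ → ℕ → Fin r} {X : ℕ → Finset ℕ} {A A' : ℕ → ℕ → Finset (Fin r)} {V : ℕ → Finset ℕ}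
    {K H t0 i0 L : ℕ} {U : Finset ℕ} {Y P Q : ℕ → Finset ℕ} {ηw β u y d : ℝ}
    (hχ : ∀ x y, χ x y = χ y x) (hA : ∀ i j, A i j = A j i) (hka : ka T A' ≤ k) (hK : 1 ≤ K)
    (hW : Win χ T H X A ηw V) (hH : t0 + T ≤ H) (hL0 : t0 < L) (hL : L ≤ t0 + T)
    (hI : Inn χ T t0 i0 A A' V U Y u y β) (hu : 0 < u) (hu1 : u ≤ 1) (hy : 0 < y) (hy1 : y ≤ 1)
    (hβ : 0 ≤ β) (hηw : 0 ≤ ηw) (hη : 9 * ηw / (u * y ^ 2) + 3 * r * β ≤ η) (hd : 0 < d)
    (hd1 : d ≤ 1) (hdD : d ≤ D)
    (hP : ∀ t, t0 ≤ t → t < t0 + T → t ≠ i0 + T → P t ⊆ Y t ∧ (Y t).card ≤ 3 * (P t).card)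
    (hQ : ∀ t, t0 ≤ t → t < t0 + T → Q t ⊆ Y t ∧ (Y t).card ≤ 2 * (Q t).card)
    (hPQ : ∀ t, t0 ≤ t → t < t0 + T → t ≠ i0 + T → ∀ x ∈ P t, ∀ z ∈ Q t, x < z)
    (h1 : ∀ t, t0 ≤ t → t < t0 + T → t ≠ i0 + T → ∀ a ∈ A' (i0 % T) (t % T),
      OT T χ a κ d U (Q t))
    (h2 : ∀ s t, t0 ≤ s → s < t0 + T → t0 ≤ t → t < t0 + T → s ≠ t → s ≠ i0 + T →
      ∀ a ∈ A' (s % T) (t % T), OT T χ a κ d (P s) (Q t))
    (h3 : ∀ s t, t0 ≤ s → s < t0 + T → t0 ≤ t → t < t0 + T → s ≠ t →
      ∀ a ∈ A' (s % T) (t % T), OT T χ a κ d (Q s) (Q t))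
    (hC : ∀ l < t0 + T, 6 * C * K * 2 ^ (l / T) ≤ u * y * (V l).card) :
    Concl χ T X A V K t0 L (y / 2) (κ / 3 * (u * y)) d := by
  classical
  have hT0 : 0 < T := by omega
  have hmod : ∀ t, t % T < T := fun t => Nat.mod_lt _ hT0
  have hi0 := hI.lt
  have hi1 := hI.near
  -- the large sets
  have hYV : ∀ t, t0 ≤ t → t < t0 + T → y * (V t).card ≤ (Y t).card := hI.Y_card
  have hPV : ∀ t, t0 ≤ t → t < t0 + T → t ≠ i0 + T → P t ⊆ V t ∧
      y / 3 * (V t).card ≤ (P t).card := by
    intro t ht1 ht2 ht3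
    obtain ⟨h4, h5⟩ := hP t ht1 ht2 ht3
    refine ⟨h4.trans (hI.Y_sub t ht1 ht2), ?_⟩
    have h6 := hYV t ht1 ht2
    have h7 : ((Y t).card : ℝ) ≤ 3 * (P t).card := by exact_mod_cast h5
    linarith
  have hQV : ∀ t, t0 ≤ t → t < t0 + T → Q t ⊆ V t ∧ y / 2 * (V t).card ≤ (Q t).card := by
    intro t ht1 ht2
    obtain ⟨h4, h5⟩ := hQ t ht1 ht2
    refine ⟨h4.trans (hI.Y_sub t ht1 ht2), ?_⟩
    have h6 := hYV t ht1 ht2
    have h7 : ((Y t).card : ℝ) ≤ 2 * (Q t).card := by exact_mod_cast h5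
    linarith
  -- the host
  obtain ⟨X', hX'⟩ : ∃ X' : ℕ → Finset ℕ, ∀ i, X' i =
    if i = i0 % T then U else P (lev0 T t0 i) := ⟨_, fun _ => rfl⟩
  have hX0 : X' (i0 % T) = U := by rw [hX', if_pos rfl]
  have hX1 : ∀ i, i ≠ i0 % T → X' i = P (lev0 T t0 i) := fun i hi => by rw [hX', if_neg hi]
  have hlev : ∀ i < T, i ≠ i0 % T → t0 ≤ lev0 T t0 i ∧ lev0 T t0 i < t0 + T ∧
      lev0 T t0 i % T = i ∧ lev0 T t0 i ≠ i0 + T := by
    intro i hi hne
    obtain ⟨h4, h5, h6⟩ := lev0_spec (t0 := t0) hi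
    refine ⟨h4, h5, h6, fun h => hne ?_⟩
    rw [← h6, h, Nat.add_mod_right]
  -- the density of the dead colours
  have hη1 : 3 * ηw / (u * y) + 3 * r * β ≤ η := by
    refine le_trans ?_ hη
    have h4 : 3 * ηw / (u * y) ≤ 9 * ηw / (u * y ^ 2) := by
      rw [div_le_div_iff₀ (by positivity) (by positivity)]
      have h5 : ηw * (u * y) * y ≤ ηw * (u * y) * 1 :=
        mul_le_mul_of_nonneg_left hy1 (by positivity)
      have h6 : 0 ≤ ηw * (u * y) := by positivity
      nlinarith
    linarith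
  have hη2 : ηw / (y / 3 * (y / 3)) ≤ η := by
    refine le_trans ?_ hη
    have h4 : ηw / (y / 3 * (y / 3)) ≤ 9 * ηw / (u * y ^ 2) := by
      rw [div_le_div_iff₀ (by positivity) (by positivity)]
      have h5 : ηw * y ^ 2 * u ≤ ηw * y ^ 2 * 1 :=
        mul_le_mul_of_nonneg_left hu1 (by positivity)
      nlinarith
    have h6 : (0 : ℝ) ≤ 3 * r * β := by positivity
    linarith
  have hbad0 : ∀ j < T, j ≠ i0 % T → BadLE χ (A' (i0 % T) j) η U (X' j) := by
    intro j hj hne
    obtain ⟨h4, h5, h6, h7⟩ := hlev j hj hne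
    rw [hX1 j hne]
    obtain ⟨h8, h9⟩ := hPV _ h4 h5 h7
    have h10 := hW.bad i0 (lev0 T t0 j) (by omega) (by omega) (by rw [h6]; exact hne.symm)
      (by omega) (by omega)
    rw [h6] at h10
    have h11 := h10.sub hηw hu (show 0 < y / 3 by positivity) hI.U_sub h8 hI.U_card h9
    have h12 : BadLE χ (A' (i0 % T) j) (ηw / (u * (y / 3)) + r * (3 * β)) U
        (P (lev0 T t0 j)) := by
      refine h11.remove (by positivity) ?_
      intro a ha ha' x hx
      have h13 := hI.dead _ h4 h5 h7 a (by rw [h6]; exact ha) (by rw [h6]; exact ha') x hx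
      have h14 : (nb χ a x (P (lev0 T t0 j))).card ≤ (nb χ a x (Y (lev0 T t0 j))).card :=
        card_le_card (nb_mono χ a x (hP _ h4 h5 h7).1)
      have h15 : ((Y (lev0 T t0 j)).card : ℝ) ≤ 3 * (P (lev0 T t0 j)).card := by
        exact_mod_cast (hP _ h4 h5 h7).2
      calc ((nb χ a x (P (lev0 T t0 j))).card : ℝ) ≤ (nb χ a x (Y (lev0 T t0 j))).card := by
            exact_mod_cast h14
        _ ≤ β * (Y (lev0 T t0 j)).card := h13
        _ ≤ β * (3 * (P (lev0 T t0 j)).card) := mul_le_mul_of_nonneg_left h15 hβ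
        _ = 3 * β * (P (lev0 T t0 j)).card := by ring
    refine bad_mono h12 (le_trans (le_of_eq ?_) hη1)
    field_simp
  have hbad : ∀ i < T, ∀ j < T, i ≠ j → BadLE χ (A' i j) η (X' i) (X' j) := by
    intro i hi j hj hij
    by_cases h4 : i = i0 % T
    · rw [h4, hX0]
      exact hbad0 j hj (fun h => hij (by rw [h4, h]))
    · by_cases h5 : j = i0 % T
      · rw [h5, hX0, hI.symm]
        exact BadLE.symm hχ (hbad0 i hi h4)
      · obtain ⟨a1, a2, a3, a4⟩ := hlev i hi h4
        obtain ⟨b1, b2, b3, b4⟩ := hlev j hj h5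
        rw [hI.same i j h4 h5, hX1 i h4, hX1 j h5]
        have h10 := hW.bad (lev0 T t0 i) (lev0 T t0 j) (by omega) (by omega)
          (by rw [a3, b3]; exact hij) (by omega) (by omega)
        rw [a3, b3] at h10
        have h11 := h10.sub hηw (show 0 < y / 3 by positivity) (show 0 < y / 3 by positivity)
          (hPV _ a1 a2 a4).1 (hPV _ b1 b2 b4).1 (hPV _ a1 a2 a4).2 (hPV _ b1 b2 b4).2
        exact bad_mono h11 hη2
  -- sizes
  have hVsz : ∀ l < t0 + T, 6 * (C * K * (2 : ℝ) ^ (l / T)) ≤ y * (V l).card ∧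
      6 * (C * K * (2 : ℝ) ^ (l / T)) ≤ u * (V l).card := by
    intro l hl
    have h4 := hC l hl
    have h5 : (0 : ℝ) ≤ (V l).card := Nat.cast_nonneg _
    refine ⟨?_, ?_⟩
    · calc 6 * (C * K * (2 : ℝ) ^ (l / T)) = 6 * C * K * (2 : ℝ) ^ (l / T) := by ring
        _ ≤ u * y * (V l).card := h4
        _ ≤ 1 * y * (V l).card :=
          mul_le_mul_of_nonneg_right (mul_le_mul_of_nonneg_right hu1 hy.le) h5
        _ = y * (V l).card := by ring
    · calc 6 * (C * K * (2 : ℝ) ^ (l / T)) = 6 * C * K * (2 : ℝ) ^ (l / T) := by ring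
        _ ≤ u * y * (V l).card := h4
        _ ≤ u * 1 * (V l).card :=
          mul_le_mul_of_nonneg_right (mul_le_mul_of_nonneg_left hy1 hu.le) h5
        _ = u * (V l).card := by ring
  have hXsz : ∀ i < T, C * K * 2 ^ (t0 / T) ≤ (X' i).card := by
    intro i hi
    by_cases h4 : i = i0 % T
    · rw [h4, hX0]
      have h5 : t0 / T ≤ i0 / T + 1 := by
        have := Nat.div_le_div_right (c := T) hi1.le
        rwa [Nat.add_div_right _ hT0] at this
      have h6 : (2 : ℝ) ^ (t0 / T) ≤ 2 * 2 ^ (i0 / T) := by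
        calc (2 : ℝ) ^ (t0 / T) ≤ 2 ^ (i0 / T + 1) :=
              pow_le_pow_right₀ (by norm_num) h5
          _ = 2 * 2 ^ (i0 / T) := by ring
      have h7 : (C * K * (2 : ℝ) ^ (t0 / T)) ≤ U.card := by
        calc (C * K * (2 : ℝ) ^ (t0 / T)) ≤ C * K * (2 * 2 ^ (i0 / T)) :=
              mul_le_mul_of_nonneg_left h6 (by positivity)
          _ ≤ 6 * (C * K * (2 : ℝ) ^ (i0 / T)) := by
            have : (0 : ℝ) ≤ C * K * (2 : ℝ) ^ (i0 / T) := by positivity
            linarith
          _ ≤ u * (V i0).card := (hVsz i0 (by omega)).2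
          _ ≤ U.card := hI.U_card
      exact_mod_cast h7
    · obtain ⟨a1, a2, a3, a4⟩ := hlev i hi h4
      rw [hX1 i h4]
      have h6 : (2 : ℝ) ^ (t0 / T) ≤ 2 ^ (lev0 T t0 i / T) :=
        pow_le_pow_right₀ (by norm_num) (Nat.div_le_div_right a1)
      have h7 : (C * K * (2 : ℝ) ^ (t0 / T)) ≤ (P (lev0 T t0 i)).card := by
        calc (C * K * (2 : ℝ) ^ (t0 / T)) ≤ C * K * 2 ^ (lev0 T t0 i / T) :=
              mul_le_mul_of_nonneg_left h6 (by positivity)
          _ ≤ 2 * (C * K * (2 : ℝ) ^ (lev0 T t0 i / T)) := by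
            have : (0 : ℝ) ≤ C * K * (2 : ℝ) ^ (lev0 T t0 i / T) := by positivity
            linarith
          _ ≤ y / 3 * (V (lev0 T t0 i)).card := by
            have := (hVsz _ a2).1
            linarith
          _ ≤ (P (lev0 T t0 i)).card := (hPV _ a1 a2 a4).2
      exact_mod_cast h7
  -- the lower chain
  obtain ⟨W0, φ, dd0, hch, hdd, hφ, hφA, hWX, hWK, hlast⟩ :=
    hR χ X' A' K t0 hχ hI.symm hka hK hbad hXsz
  have hWin : ∀ t, ¬ t < t0 → t < L → t0 ≤ t ∧ t < t0 + T := fun t h4 h5 => by omega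
  have hclass : ∀ s < t0, t0 ≤ s + T → s % T = i0 % T → s = i0 := by
    intro s h4 h5 h6
    by_contra hcon
    rcases lt_or_gt_of_ne hcon with h7 | h7
    · exact mod_ne h7 (by omega) h6
    · exact mod_ne h7 (by omega) h6.symm
  have hlevs : ∀ s < t0, t0 ≤ s + T → lev0 T t0 (s % T) = s + T := by
    intro s h4 h5
    have := lev0_eq (T := T) (t0 := t0) (t := s + T) h5 (by omega)
    rwa [Nat.add_mod_right] at this
  have hXsub : ∀ i < T, X' i ⊆ X i := by
    intro i hi
    by_cases h4 : i = i0 % T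
    · rw [h4, hX0]
      exact hI.U_sub.trans (hW.sub i0 (by omega))
    · obtain ⟨a1, a2, a3, a4⟩ := hlev i hi h4
      rw [hX1 i h4]
      have := hW.sub (lev0 T t0 i) (by omega)
      rw [a3] at this
      exact (hPV _ a1 a2 a4).1.trans this
  refine ⟨fun t => if t < t0 then W0 t else Q t, φ, fun t => if t < t0 then dd0 t else d,
    ⟨?_, ?_, ?_, ?_⟩, ?_, hφ, ?_, ?_, ?_, ?_, ?_⟩
  · -- order
    intro s t hst htL hc x hx z hz
    by_cases ht : t < t0
    · rw [if_pos (by omega)] at hx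
      rw [if_pos ht] at hz
      exact hch.order s t hst ht hc x hx z hz
    · rw [if_neg ht] at hz
      obtain ⟨ht1, ht2⟩ := hWin t ht htL
      by_cases hs : s < t0
      · rw [if_pos hs] at hx
        have hx' := hWX s hs hx
        by_cases h4 : s % T = i0 % T
        · rw [h4, hX0] at hx'
          have h5 : t = i0 + T := by
            have h6 := lev0_eq (T := T) ht1 ht2
            have h7 := lev0_eq (T := T) (t0 := t0) (t := i0 + T) (by omega) (by omega)
            rw [Nat.add_mod_right, ← h4, hc, h6] at h7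
            exact h7
          have hz' := (hQ t ht1 ht2).1 hz
          rw [h5, hI.Y_top] at hz'
          exact hW.order i0 (i0 + T) (by omega) (by omega) (by rw [Nat.add_mod_right]) x
            (hI.U_sub hx') z hz'
        · rw [hX1 _ h4, hc, lev0_eq ht1 ht2] at hx'
          have h5 : t ≠ i0 + T := by
            intro h
            rw [hc, h, Nat.add_mod_right] at h4
            exact h4 rfl
          exact hPQ t ht1 ht2 h5 x hx' z hz
      · exact absurd hc (mod_ne hst (by omega))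
  · -- anti
    intro s t hst htL
    by_cases ht : t < t0
    · rw [if_pos ht, if_pos (by omega)]
      exact hch.anti s t hst ht
    · rw [if_neg ht]
      by_cases hs : s < t0
      · rw [if_pos hs]
        exact hdD.trans (hdd s hs)
      · rw [if_neg hs]
  · -- pos
    intro t htL
    by_cases ht : t < t0
    · rw [if_pos ht]
      exact hch.pos t ht
    · rw [if_neg ht]
      exact ⟨hd, hd1⟩
  · -- od
    intro s t hst hts htL
    by_cases ht : t < t0
    · rw [if_pos ht, if_pos ht, if_pos (by omega)]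
      exact hch.od s t hst hts ht
    · rw [if_neg ht, if_neg ht]
      obtain ⟨ht1, ht2⟩ := hWin t ht htL
      have hne := mod_ne hst hts
      have hφ1 := hφA _ (hmod s) _ (hmod t) hne
      by_cases hs : s < t0
      · rw [if_pos hs]
        have hs1 : t0 ≤ s + T := by omega
        have h4 := hlast s hs hs1
        have h5 := hWX s hs
        by_cases h6 : s % T = i0 % T
        · have h7 := hclass s hs hs1 h6
          subst h7
          rw [hX0] at h4 h5
          exact OT.source hd.le (h1 t ht1 ht2 (by omega) _ hφ1) h5 h4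
        · rw [hX1 _ h6, hlevs s hs hs1] at h4 h5
          have h8 : s + T ≠ i0 + T := by
            intro h
            exact h6 (by rw [Nat.add_right_cancel h])
          refine OT.source hd.le (h2 (s + T) t hs1 (by omega) ht1 ht2 (by omega) h8 _ ?_) h5 h4
          rw [Nat.add_mod_right]
          exact hφ1
      · rw [if_neg hs]
        exact OT.weaken hd.le (h3 s t (by omega) (by omega) ht1 ht2 (by omega) _ hφ1) hκ1
  · -- dd
    intro t htL
    dsimp only
    by_cases ht : t < t0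
    · rw [if_pos ht]
      exact hdD.trans (hdd t ht)
    · rw [if_neg ht]
  · -- alive
    intro i hi j hj hij
    exact hI.sub i j (hφA i hi j hj hij)
  · -- subsets
    intro t htL
    dsimp only
    by_cases ht : t < t0
    · rw [if_pos ht]
      exact (hWX t ht).trans (hXsub _ (hmod t))
    · rw [if_neg ht]
      obtain ⟨ht1, ht2⟩ := hWin t ht htL
      exact (hQV t ht1 ht2).1.trans (hW.sub t (by omega))
  · -- sizes
    intro t htL
    dsimp only
    by_cases ht : t < t0
    · rw [if_pos ht]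
      exact hWK t ht
    · rw [if_neg ht]
      obtain ⟨ht1, ht2⟩ := hWin t ht htL
      have h4 := (hVsz t ht2).1
      have h5 := (hQV t ht1 ht2).2
      have h6 : (1 : ℝ) ≤ C := by exact_mod_cast hC1
      have h7 : (K * (2 : ℝ) ^ (t / T)) ≤ (Q t).card := by
        have h8 : (0 : ℝ) ≤ K * (2 : ℝ) ^ (t / T) := by positivity
        have h9 : 1 * (K * (2 : ℝ) ^ (t / T)) ≤ C * (K * (2 : ℝ) ^ (t / T)) :=
          mul_le_mul_of_nonneg_right h6 h8
        have h10 : C * K * (2 : ℝ) ^ (t / T) = C * (K * (2 : ℝ) ^ (t / T)) := by ring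
        rw [h10] at h4
        linarith
      exact_mod_cast h7
  · -- the upper windows
    intro t ht htL
    dsimp only
    rw [if_neg (by omega)]
    exact hQV t ht (by omega)
  · -- the last windows
    intro t htL hLt
    dsimp only
    have h20 : (0 : ℝ) ≤ (V t).card := Nat.cast_nonneg _
    have h21 : u * y ≤ y := mul_le_of_le_one_left hy.le hu1
    have h22 : u * y ≤ u := mul_le_of_le_one_right hu.le hy1
    by_cases ht : t < t0
    · rw [if_pos ht]
      have ht1 : t0 ≤ t + T := by omega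
      have h4 := hlast t ht ht1
      by_cases h6 : t % T = i0 % T
      · have h7 := hclass t ht ht1 h6
        subst h7
        rw [hX0] at h4
        have h8 := hI.U_card
        calc κ / 3 * (u * y) * (V t).card ≤ κ / 3 * u * (V t).card :=
              mul_le_mul_of_nonneg_right (mul_le_mul_of_nonneg_left h22 (by positivity)) h20
          _ ≤ κ * (u * (V t).card) := by
            have : 0 ≤ κ * (u * (V t).card) := mul_nonneg hκ.le (mul_nonneg hu.le h20)
            linarith [show κ / 3 * u * (V t).card = κ * (u * (V t).card) / 3 by ring]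
          _ ≤ κ * U.card := mul_le_mul_of_nonneg_left h8 hκ.le
          _ ≤ (W0 t).card := h4
      · rw [hX1 _ h6, hlevs t ht ht1] at h4
        have h8 : t + T ≠ i0 + T := by
          intro h
          exact h6 (by rw [Nat.add_right_cancel h])
        have h9 := (hPV (t + T) ht1 (by omega) h8).2
        have h10 : ((V t).card : ℝ) ≤ (V (t + T)).card := by
          exact_mod_cast hW.card_mono t (t + T) (by omega) (by omega)
            (by rw [Nat.add_mod_right])
        calc κ / 3 * (u * y) * (V t).card ≤ κ / 3 * y * (V t).card :=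
              mul_le_mul_of_nonneg_right (mul_le_mul_of_nonneg_left h21 (by positivity)) h20
          _ ≤ κ / 3 * y * (V (t + T)).card := mul_le_mul_of_nonneg_left h10 (by positivity)
          _ = κ * (y / 3 * (V (t + T)).card) := by ring
          _ ≤ κ * (P (t + T)).card := mul_le_mul_of_nonneg_left h9 hκ.le
          _ ≤ (W0 t).card := h4
    · rw [if_neg ht]
      obtain ⟨ht1, ht2⟩ := hWin t ht htL
      have h5 := (hQV t ht1 ht2).2
      have h6 : κ / 3 * (u * y) ≤ y / 2 := by
        have h7 : κ * (u * y) ≤ 1 * (u * y) := mul_le_mul_of_nonneg_right hκ1 (by positivity)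
        linarith
      exact (mul_le_mul_of_nonneg_right h6 h20).trans h5

end Pool.Agent.OrdTW
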