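import Mathlib
import Pool.Agent.Lib.MP_5b01b8_co_TW.InnL
import Pool.Agent.Lib.MP_5b01b8_co_TW.InnP

/-!
# MP_5b01b8_co (TW), module Inner: the inner induction
-/

set_option autoImplicit false

namespace Pool.Agent.OrdTW

open Finset

variable {r : ℕ}

/-- the statement of the inner induction with its constants -/
private def InnC (r T k k' : ℕ) (β e G D : ℝ) (C : ℕ) : Prop :=
  ∀ (χ : ℕ → ℕ → Fin r) (X : ℕ → Finset ℕ) (A A' : ℕ → ℕ → Finset (Fin r))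
    (V : ℕ → Finset ℕ) (K H t0 i0 L : ℕ) (U : Finset ℕ) (Y : ℕ → Finset ℕ) (u y ηw : ℝ),
    (∀ x y, χ x y = χ y x) → (∀ i j, A i j = A j i) → ka T A ≤ k + 1 → ka T A' ≤ k' →
    1 ≤ K → Win χ T H X A ηw V → t0 + T ≤ H → t0 < L → L ≤ t0 + T → 0 < u → u ≤ 1 →
    0 < y → y ≤ 1 → 0 ≤ ηw → ηw ≤ e * (u * y ^ 2) →
    (∀ t < t0 + T, C * K * 2 ^ (t / T) ≤ u * y ^ 2 * (V t).card) →
    Inn χ T t0 i0 A A' V U Y u y β →
    Concl χ T X A V K t0 L (G * y ^ 2) (G * (u * y ^ 2)) D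

private theorem cls_ne {T t0 i0 t : ℕ} (h1 : i0 < t0) (h2 : t0 < i0 + T) (h3 : t0 ≤ t)
    (h4 : t < t0 + T) (h5 : t ≠ i0 + T) : i0 % T ≠ t % T := by
  intro h
  have hd : T ∣ t - i0 := (Nat.modEq_iff_dvd' (by omega : i0 ≤ t)).1 h
  obtain ⟨c, hc⟩ := hd
  have hT : 0 < T := by omega
  rcases Nat.lt_or_ge c 2 with hc2 | hc2
  · interval_cases c <;> omega
  · have : T * 2 ≤ T * c := Nat.mul_le_mul_left _ hc2
    omega

/-- the state after the set `U` has shrunk -/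
private theorem inn_shrink {T : ℕ} {χ : ℕ → ℕ → Fin r} {A A' : ℕ → ℕ → Finset (Fin r)}
    {V : ℕ → Finset ℕ} {t0 i0 : ℕ} {U : Finset ℕ} {Y : ℕ → Finset ℕ} {u y d q g β β1 : ℝ}
    (hI : Inn χ T t0 i0 A A' V U Y u y β) (hy : 0 < y) (hd : 0 < d) (hdβ : d ≤ β1) (hq0 : 0 < q)
    (hq1 : q ≤ 1) (hg : 0 < g) (hβ1 : β ≤ β1 * q / 2) {t : ℕ} (ht0 : t0 ≤ t)
    (ht : t < t0 + T) (hti : t ≠ i0 + T) {a : Fin r} {U' Z : Finset ℕ} (hU' : U' ⊆ U)
    (hZY : Z ⊆ Y t) (hUc : g * U.card ≤ U'.card) (hZY2 : q / 2 * (Y t).card ≤ Z.card)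
    (hdead : ∀ x ∈ U', ((nb χ a x Z).card : ℝ) ≤ d * Z.card)
    {A'' : ℕ → ℕ → Finset (Fin r)}
    (hA'' : A'' = fun i j => if (i = i0 % T ∧ j = t % T) ∨ (i = t % T ∧ j = i0 % T) then
      (A' i j).erase a else A' i j) :
    Inn χ T t0 i0 A A'' V U' (Function.update Y t Z) (g * u) (y * (q / 2)) β1 := by
  have hpt : i0 % T ≠ t % T := cls_ne hI.lt hI.near ht0 ht hti
  have hsub : ∀ i j, A'' i j ⊆ A' i j := by
    intro i j
    rw [hA'']
    simp only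
    split_ifs
    · exact Finset.erase_subset _ _
    · exact Finset.Subset.refl _
  have hval : A'' (i0 % T) (t % T) = (A' (i0 % T) (t % T)).erase a := by
    rw [hA'']
    simp
  refine ⟨hI.lt, hI.near, hU'.trans hI.U_sub, ?_, ?_, ?_, ?_, ?_, ?_, ?_, ?_⟩
  · calc g * u * (V i0).card = g * (u * (V i0).card) := by ring
      _ ≤ g * U.card := by
          exact mul_le_mul_of_nonneg_left hI.U_card hg.le
      _ ≤ U'.card := hUc
  · intro l hl0 hl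
    by_cases hlt' : l = t
    · subst hlt'
      rw [Function.update_self]
      exact hZY.trans (hI.Y_sub l hl0 hl)
    · rw [Function.update_of_ne hlt']
      exact hI.Y_sub l hl0 hl
  · intro l hl0 hl
    by_cases hlt' : l = t
    · subst hlt'
      rw [Function.update_self]
      calc y * (q / 2) * (V l).card = q / 2 * (y * (V l).card) := by ring
        _ ≤ q / 2 * (Y l).card := by
            exact mul_le_mul_of_nonneg_left (hI.Y_card l hl0 hl) (by positivity)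
        _ ≤ Z.card := hZY2
    · rw [Function.update_of_ne hlt']
      have h2 : y * (q / 2) ≤ y := by nlinarith
      calc y * (q / 2) * (V l).card ≤ y * (V l).card :=
            mul_le_mul_of_nonneg_right h2 (Nat.cast_nonneg _)
        _ ≤ (Y l).card := hI.Y_card l hl0 hl
  · rw [Function.update_of_ne (Ne.symm hti)]
    exact hI.Y_top
  · intro i j
    rw [hA'']
    simp only
    rw [hI.symm i j]
    by_cases hc : (i = i0 % T ∧ j = t % T) ∨ (i = t % T ∧ j = i0 % T)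
    · rw [if_pos hc, if_pos (by tauto)]
    · rw [if_neg hc, if_neg (by tauto)]
  · intro i j
    exact (hsub i j).trans (hI.sub i j)
  · intro i j hi hj
    rw [hA'']
    simp only
    rw [if_neg (by tauto)]
    exact hI.same i j hi hj
  · intro l hl0 hl hli b hb hb' x hx
    by_cases hlt' : l = t
    · subst hlt'
      rw [Function.update_self]
      rw [hval] at hb'
      by_cases hba : b = a
      · subst hba
        calc ((nb χ b x Z).card : ℝ) ≤ d * Z.card := hdead x hx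
          _ ≤ β1 * Z.card := mul_le_mul_of_nonneg_right hdβ (Nat.cast_nonneg _)
      · have hb2 : b ∉ A' (i0 % T) (l % T) := fun h =>
          hb' (Finset.mem_erase.2 ⟨hba, h⟩)
        have h3 := hI.dead l hl0 hl hli b hb hb2 x (hU' hx)
        have h4 : ((nb χ b x Z).card : ℝ) ≤ (nb χ b x (Y l)).card := by
          exact_mod_cast Finset.card_le_card (nb_mono χ b x hZY)
        have hβ10 : 0 < β1 := by linarith
        calc ((nb χ b x Z).card : ℝ) ≤ β * (Y l).card := h4.trans h3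
          _ ≤ β1 * q / 2 * (Y l).card := mul_le_mul_of_nonneg_right hβ1 (Nat.cast_nonneg _)
          _ = β1 * (q / 2 * (Y l).card) := by ring
          _ ≤ β1 * Z.card := mul_le_mul_of_nonneg_left hZY2 hβ10.le
    · rw [Function.update_of_ne hlt']
      have hne : A'' (i0 % T) (l % T) = A' (i0 % T) (l % T) := by
        rw [hA'']
        simp only
        rw [if_neg]
        rintro (⟨-, h⟩ | ⟨h, -⟩)
        · apply hlt'
          rw [← lev0_eq hl0 hl, ← lev0_eq ht0 ht, h]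
        · exact hpt h
      rw [hne] at hb'
      have h3 := hI.dead l hl0 hl hli b hb hb' x (hU' hx)
      have hββ : β ≤ β1 := by
        have hβ10 : 0 < β1 := by linarith
        nlinarith
      calc ((nb χ b x (Y l)).card : ℝ) ≤ β * (Y l).card := h3
        _ ≤ β1 * (Y l).card := mul_le_mul_of_nonneg_right hββ (Nat.cast_nonneg _)

/-- a failure between two large sets -/
private theorem inn_large {T k : ℕ} (hT : 2 ≤ T) {η κ Dk : ℝ} {Ck : ℕ} (hη0 : 0 < η)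
    (hκ : 0 < κ) (hκ1 : κ ≤ 1) (hR : RkC r T k η κ Dk Ck) {d q ρ β e G : ℝ} {C : ℕ}
    (hd : 0 < d) (hdk : d ≤ Dk) (hdη : r * d ≤ η / 2) (hq : q = d ^ (T - 1))
    (hρ : ρ = rho T d) (hq0 : 0 < q) (hq1 : q ≤ 1) (hρ0 : 0 < ρ)
    (hρκ1 : ρ * κ ≤ 1) (he2 : e ≤ η * ρ * κ * q / 12)
    (hG2 : G ≤ κ * (ρ * κ * q / 6)) (hC2 : 12 * Ck ≤ C * (ρ * κ * q))
    {χ : ℕ → ℕ → Fin r} {X : ℕ → Finset ℕ} {A A' : ℕ → ℕ → Finset (Fin r)}
    {V : ℕ → Finset ℕ} {K H t0 i0 L : ℕ} {U : Finset ℕ} {Y Q : ℕ → Finset ℕ} {u y ηw : ℝ}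
    (hχ : ∀ x y, χ x y = χ y x) (hA : ∀ i j, A i j = A j i) (hkA : ka T A ≤ k + 1)
    (hK : 1 ≤ K) (hW : Win χ T H X A ηw V) (hH : t0 + T ≤ H) (hL0 : t0 < L)
    (hL : L ≤ t0 + T) (hu : 0 < u) (hu1 : u ≤ 1) (hy : 0 < y) (hy1 : y ≤ 1) (hηw : 0 ≤ ηw)
    (hηe : ηw ≤ e * (u * y ^ 2))
    (hC : ∀ t < t0 + T, C * K * 2 ^ (t / T) ≤ u * y ^ 2 * (V t).card)
    (hI : Inn χ T t0 i0 A A' V U Y u y β)
    (hQ : ∀ t, t0 ≤ t → t < t0 + T → Q t ⊆ Y t ∧ (Y t).card ≤ 2 * (Q t).card)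
    {s t : ℕ} {R : Finset ℕ} (hs0 : t0 ≤ s) (hs : s < t0 + T) (ht0 : t0 ≤ t)
    (ht : t < t0 + T) (hst : s ≠ t) {a : Fin r} (ha : a ∈ A' (s % T) (t % T)) (hRV : R ⊆ V s)
    (hRc : y / 3 * (V s).card ≤ R.card) (hnot : ¬ OT T χ a κ d R (Q t)) :
    Concl χ T X A V K t0 L (G * y ^ 2) (G * (u * y ^ 2)) d := by
  obtain ⟨U', hU', Z, hZ, hZc, hUc, -, hdead⟩ := not_OT hκ.le hd.le hnot
  rw [← hq] at hZc
  rw [← hρ] at hUc
  have hQc : (Y t).card ≤ 2 * (Q t).card := (hQ t ht0 ht).2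
  have hQc' : ((Y t).card : ℝ) ≤ 2 * (Q t).card := by exact_mod_cast hQc
  have hYt := hI.Y_card t ht0 ht
  have hu' : 0 < ρ * κ * (y / 3) := by positivity
  have hz' : 0 < q * (y / 2) := by positivity
  have hprod : ρ * κ * (y / 3) * (q * (y / 2)) = ρ * κ * q / 6 * y ^ 2 := by ring
  refine (inner_large (u' := ρ * κ * (y / 3)) (z' := q * (y / 2)) (β := d) hT hκ hκ1 hR hχ hA
    hkA hK hW hH hL0 hL hs0 hs ht0 ht hst (hI.sub _ _ ha) (hU'.trans hRV)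
    (hZ.trans ((hQ t ht0 ht).1.trans (hI.Y_sub t ht0 ht))) hu' ?_ hz' ?_ ?_ ?_ hd.le hdead hηw
    ?_ ?_).weaken ?_ ?_ hdk
  · calc ρ * κ * (y / 3) ≤ 1 * (1 / 3) := by gcongr
      _ ≤ 1 := by norm_num
  · calc q * (y / 2) ≤ 1 * (1 / 2) := by gcongr
      _ ≤ 1 := by norm_num
  · calc ρ * κ * (y / 3) * (V s).card = ρ * κ * (y / 3 * (V s).card) := by ring
      _ ≤ ρ * κ * R.card := by gcongr
      _ ≤ U'.card := hUc
  · calc q * (y / 2) * (V t).card = q * (y * (V t).card / 2) := by ring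
      _ ≤ q * (Q t).card := by
          apply mul_le_mul_of_nonneg_left _ hq0.le
          linarith
      _ ≤ Z.card := hZc
  · rw [hprod]
    have h1 : ηw / (ρ * κ * q / 6 * y ^ 2) ≤ η / 2 := by
      rw [div_le_iff₀ (by positivity)]
      calc ηw ≤ e * (u * y ^ 2) := hηe
        _ ≤ (η * ρ * κ * q / 12) * (1 * y ^ 2) := by gcongr
        _ = η / 2 * (ρ * κ * q / 6 * y ^ 2) := by ring
    linarith
  · intro l hl0 hl
    rw [hprod]
    have h1 := hC l hl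
    have h2 : (0 : ℝ) ≤ K * 2 ^ (l / T) := by positivity
    calc 2 * (Ck : ℝ) * K * 2 ^ (l / T) = (12 * Ck) * (K * 2 ^ (l / T)) / 6 := by ring
      _ ≤ (C * (ρ * κ * q)) * (K * 2 ^ (l / T)) / 6 := by gcongr
      _ = ρ * κ * q / 6 * (C * K * 2 ^ (l / T)) := by ring
      _ ≤ ρ * κ * q / 6 * (u * y ^ 2 * (V l).card) := by gcongr
      _ ≤ ρ * κ * q / 6 * (1 * y ^ 2 * (V l).card) := by gcongr
      _ = ρ * κ * q / 6 * y ^ 2 * (V l).card := by ring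
  · rw [hprod]
    calc G * y ^ 2 ≤ κ * (ρ * κ * q / 6) * y ^ 2 := by gcongr
      _ = κ * (ρ * κ * q / 6 * y ^ 2) := by ring
  · rw [hprod]
    calc G * (u * y ^ 2) ≤ κ * (ρ * κ * q / 6) * (1 * y ^ 2) := by gcongr
      _ = κ * (ρ * κ * q / 6 * y ^ 2) := by ring

/-- one step of the inner induction, with all the constants -/
private theorem inner_step {T k k' : ℕ} (hT : 2 ≤ T) (hk' : k' ≤ k) {η κ Dk : ℝ} {Ck : ℕ}
    (hη0 : 0 < η) (hκ : 0 < κ) (hκ1 : κ ≤ 1) (hCk : 1 ≤ Ck)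
    (hR : RkC r T k η κ Dk Ck) {β1 e1 G1 D1 : ℝ} {C1 : ℕ}
    (hG1 : 0 < G1)
    (IH : 1 ≤ k' → InnC r T k (k' - 1) β1 e1 G1 D1 C1)
    {d q ρ β e G : ℝ} {C : ℕ} (hd : 0 < d) (hd1 : d ≤ 1) (hdβ : d ≤ β1) (hdD : d ≤ D1)
    (hdk : d ≤ Dk) (hdη : r * d ≤ η / 2) (hq : q = d ^ (T - 1)) (hρ : ρ = rho T d)
    (hβ : 0 < β) (hβη : 3 * r * β ≤ η / 2) (hβ1 : β ≤ β1 * q / 2) (_he : 0 < e)
    (heη : e ≤ η / 18) (he2 : e ≤ η * ρ * κ * q / 12) (he3 : e ≤ e1 * ρ * κ * q ^ 2 / 4)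
    (_hG : 0 < G) (hG2 : G ≤ κ * (ρ * κ * q / 6)) (hG3 : G ≤ G1 * (ρ * κ * q ^ 2 / 4))
    (hC1 : 6 * Ck ≤ C) (hC2 : 12 * Ck ≤ C * (ρ * κ * q)) (hC3 : 4 * C1 ≤ C * (ρ * κ * q ^ 2)) :
    InnC r T k k' β e G d C := by
  intro χ X A A' V K H t0 i0 L U Y u y ηw hχ hA hkA hkA' hK hW hH hL0 hL hu hu1 hy hy1 hηw hηe
    hC hI
  have hq0 : 0 < q := by rw [hq]; positivity
  have hq1 : q ≤ 1 := by rw [hq]; exact pow_le_one₀ hd.le hd1
  have hρ0 : 0 < ρ := by rw [hρ]; exact rho_pos hT hd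
  have hρ1 : ρ ≤ 1 := by rw [hρ]; exact rho_le_one hT hd hd1
  have hρκ : 0 < ρ * κ := mul_pos hρ0 hκ
  have hρκ1 : ρ * κ ≤ 1 := mul_le_one₀ hρ1 hκ.le hκ1
  have hy2 : 0 < y ^ 2 := by positivity
  have hy21 : y ^ 2 ≤ y := by nlinarith
  have huy : 0 < u * y ^ 2 := mul_pos hu hy2
  have hKr : (1 : ℝ) ≤ K := by exact_mod_cast hK
  -- sizes
  have hYc : ∀ t, t0 ≤ t → t < t0 + T → 2 ≤ (Y t).card := by
    intro t h1 h2
    have h3 := hC t h2
    have h4 := hI.Y_card t h1 h2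
    have h5 : (6 : ℝ) ≤ C := by
      have : 6 ≤ C := le_trans (by omega) hC1
      exact_mod_cast this
    have h6 : (1 : ℝ) ≤ 2 ^ (t / T) := one_le_pow₀ (by norm_num)
    have h7 : (6 : ℝ) ≤ C * K * 2 ^ (t / T) := by
      calc (6 : ℝ) ≤ C * 1 * 1 := by linarith
        _ ≤ C * K * 2 ^ (t / T) := by gcongr
    have h8 : u * y ^ 2 * (V t).card ≤ y * (V t).card := by
      have : u * y ^ 2 ≤ y := by nlinarith
      exact mul_le_mul_of_nonneg_right this (Nat.cast_nonneg _)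
    have h9 : (2 : ℝ) ≤ (Y t).card := by linarith
    exact_mod_cast h9
  -- halves
  have halves : ∀ t, ∃ P Q : Finset ℕ, t0 ≤ t → t < t0 + T → (P ⊆ Y t ∧ Q ⊆ Y t ∧
      (∀ x ∈ P, ∀ z ∈ Q, x < z) ∧ (Y t).card ≤ 3 * P.card ∧ (Y t).card ≤ 2 * Q.card) := by
    intro t
    by_cases h : t0 ≤ t ∧ t < t0 + T
    · obtain ⟨P, Q, h1⟩ := exists_halves (Y t) (hYc t h.1 h.2)
      exact ⟨P, Q, fun _ _ => h1⟩
    · exact ⟨∅, ∅, fun h1 h2 => absurd ⟨h1, h2⟩ h⟩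
  choose P Q0 hPQ using halves
  obtain ⟨Q, hQdef⟩ : ∃ Q : ℕ → Finset ℕ, Q = fun t => if t = i0 + T then Y (i0 + T) else Q0 t :=
    ⟨_, rfl⟩
  have hP : ∀ t, t0 ≤ t → t < t0 + T → t ≠ i0 + T → P t ⊆ Y t ∧ (Y t).card ≤ 3 * (P t).card :=
    fun t h1 h2 _ => ⟨(hPQ t h1 h2).1, (hPQ t h1 h2).2.2.2.1⟩
  have hQ : ∀ t, t0 ≤ t → t < t0 + T → Q t ⊆ Y t ∧ (Y t).card ≤ 2 * (Q t).card := by
    intro t h1 h2
    rw [hQdef]
    by_cases h : t = i0 + T
    · subst h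
      simp only [if_true]
      exact ⟨Finset.Subset.refl _, by omega⟩
    · simp only [if_neg h]
      exact ⟨(hPQ t h1 h2).2.1, (hPQ t h1 h2).2.2.2.2⟩
  have hPQ' : ∀ t, t0 ≤ t → t < t0 + T → t ≠ i0 + T → ∀ x ∈ P t, ∀ z ∈ Q t, x < z := by
    intro t h1 h2 h
    rw [hQdef]
    simp only [if_neg h]
    exact (hPQ t h1 h2).2.2.1
  have hlarge : ∀ s t (R : Finset ℕ), t0 ≤ s → s < t0 + T → t0 ≤ t → t < t0 + T → s ≠ t →
      ∀ a ∈ A' (s % T) (t % T), R ⊆ V s → y / 3 * (V s).card ≤ R.card →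
      ¬ OT T χ a κ d R (Q t) →
      Concl χ T X A V K t0 L (G * y ^ 2) (G * (u * y ^ 2)) d :=
    fun s t R hs0 hs ht0 ht hst a ha hRV hRc hnot =>
      inn_large hT hη0 hκ hκ1 hR hd hdk hdη hq hρ hq0 hq1 hρ0 hρκ1 he2 hG2 hC2 hχ hA
        hkA hK hW hH hL0 hL hu hu1 hy hy1 hηw hηe hC hI hQ hs0 hs ht0 ht hst ha hRV hRc hnot
  by_cases h1 : ∀ t, t0 ≤ t → t < t0 + T → t ≠ i0 + T → ∀ a ∈ A' (i0 % T) (t % T),
      OT T χ a κ d U (Q t)
  · by_cases h2 : ∀ s t, t0 ≤ s → s < t0 + T → t0 ≤ t → t < t0 + T → s ≠ t → s ≠ i0 + T →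
        ∀ a ∈ A' (s % T) (t % T), OT T χ a κ d (P s) (Q t)
    · by_cases h3 : ∀ s t, t0 ≤ s → s < t0 + T → t0 ≤ t → t < t0 + T → s ≠ t →
          ∀ a ∈ A' (s % T) (t % T), OT T χ a κ d (Q s) (Q t)
      · -- all tests pass
        refine (inner_pass hT hκ hκ1 hCk hR hχ hA (hkA'.trans hk') hK hW hH hL0 hL hI hu hu1 hy
          hy1 hβ.le hηw ?_ hd hd1 hdk hP hQ hPQ' h1 h2 h3 ?_).weaken ?_ ?_ le_rfl
        · have h4 : 9 * ηw / (u * y ^ 2) ≤ η / 2 := by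
            rw [div_le_iff₀ huy]
            calc 9 * ηw ≤ 9 * (e * (u * y ^ 2)) := by gcongr
              _ ≤ 9 * (η / 18 * (u * y ^ 2)) := by gcongr
              _ = η / 2 * (u * y ^ 2) := by ring
          linarith
        · intro l hl
          have h4 := hC l hl
          have h5 : (6 : ℝ) * Ck ≤ C := by exact_mod_cast hC1
          calc (6 : ℝ) * Ck * K * 2 ^ (l / T) ≤ C * K * 2 ^ (l / T) := by gcongr
            _ ≤ u * y ^ 2 * (V l).card := h4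
            _ ≤ u * y * (V l).card := by gcongr
        · have h4 : G ≤ 1 / 2 := by
            calc G ≤ κ * (ρ * κ * q / 6) := hG2
              _ ≤ 1 * (1 * 1 / 6) := by gcongr
              _ ≤ 1 / 2 := by norm_num
          nlinarith
        · have h4 : G ≤ κ / 3 := by
            calc G ≤ κ * (ρ * κ * q / 6) := hG2
              _ ≤ κ * (1 * 1 / 6) := by gcongr
              _ ≤ κ / 3 := by linarith
          calc G * (u * y ^ 2) ≤ κ / 3 * (u * y) := by gcongr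
            _ = κ / 3 * (u * y) := rfl
      · push Not at h3
        obtain ⟨s, t, hs0, hs, ht0, ht, hst, a, ha, hnot⟩ := h3
        refine hlarge s t (Q s) hs0 hs ht0 ht hst a ha
          ((hQ s hs0 hs).1.trans (hI.Y_sub s hs0 hs)) ?_ hnot
        have h4 := hI.Y_card s hs0 hs
        have h5 : ((Y s).card : ℝ) ≤ 2 * (Q s).card := by exact_mod_cast (hQ s hs0 hs).2
        have h6 : (0 : ℝ) ≤ (Q s).card := Nat.cast_nonneg _
        linarith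
    · push Not at h2
      obtain ⟨s, t, hs0, hs, ht0, ht, hst, hsi, a, ha, hnot⟩ := h2
      refine hlarge s t (P s) hs0 hs ht0 ht hst a ha
        ((hP s hs0 hs hsi).1.trans (hI.Y_sub s hs0 hs)) ?_ hnot
      have h4 := hI.Y_card s hs0 hs
      have h5 : ((Y s).card : ℝ) ≤ 3 * (P s).card := by exact_mod_cast (hP s hs0 hs hsi).2
      linarith
  · -- the set `U` shrinks
    push Not at h1
    obtain ⟨t, ht0, ht, hti, a, ha, hnot⟩ := h1
    obtain ⟨U', hU', Z, hZ, hZc, hUc, -, hdead⟩ := not_OT hκ.le hd.le hnot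
    rw [← hq] at hZc
    rw [← hρ] at hUc
    have hpt : i0 % T ≠ t % T := cls_ne hI.lt hI.near ht0 ht hti
    have hp : i0 % T < T := Nat.mod_lt _ (by omega)
    have htT : t % T < T := Nat.mod_lt _ (by omega)
    have hZY : Z ⊆ Y t := hZ.trans (hQ t ht0 ht).1
    have hQc : ((Y t).card : ℝ) ≤ 2 * (Q t).card := by exact_mod_cast (hQ t ht0 ht).2
    have hZY2 : q / 2 * (Y t).card ≤ Z.card := by
      calc q / 2 * (Y t).card ≤ q / 2 * (2 * (Q t).card) := by gcongr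
        _ = q * (Q t).card := by ring
        _ ≤ Z.card := hZc
    obtain ⟨A'', hA''⟩ : ∃ A'' : ℕ → ℕ → Finset (Fin r), A'' = fun i j =>
        if (i = i0 % T ∧ j = t % T) ∨ (i = t % T ∧ j = i0 % T) then (A' i j).erase a
        else A' i j := ⟨_, rfl⟩
    have hsub : ∀ i j, A'' i j ⊆ A' i j := by
      intro i j
      rw [hA'']
      simp only
      split_ifs
      · exact Finset.erase_subset _ _
      · exact Finset.Subset.refl _
    have hval : A'' (i0 % T) (t % T) = (A' (i0 % T) (t % T)).erase a := by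
      rw [hA'']
      simp
    have hlt : ka T A'' + 1 ≤ ka T A' := ka_lt hsub hp htT hpt ha (by rw [hval]; simp)
    have hI' : Inn χ T t0 i0 A A'' V U' (Function.update Y t Z) (ρ * κ * u) (y * (q / 2)) β1 :=
      inn_shrink hI hy hd hdβ hq0 hq1 hρκ hβ1 ht0 ht hti hU' hZY hUc hZY2 hdead hA''
    have h1k : 1 ≤ k' := by omega
    have hu'y' : ρ * κ * u * (y * (q / 2)) ^ 2 = ρ * κ * q ^ 2 / 4 * (u * y ^ 2) := by ring
    have hy'2 : (y * (q / 2)) ^ 2 = q ^ 2 / 4 * y ^ 2 := by ring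
    refine (IH h1k χ X A A'' V K H t0 i0 L U' (Function.update Y t Z) (ρ * κ * u) (y * (q / 2)) ηw
      hχ hA hkA (by omega) hK hW hH hL0 hL (by positivity) ?_ (by positivity) ?_ hηw ?_ ?_
      hI').weaken ?_ ?_ hdD
    · calc ρ * κ * u ≤ 1 * 1 := by gcongr
        _ = 1 := by norm_num
    · nlinarith
    · rw [hu'y']
      calc ηw ≤ e * (u * y ^ 2) := hηe
        _ ≤ e1 * ρ * κ * q ^ 2 / 4 * (u * y ^ 2) := by gcongr
        _ = e1 * (ρ * κ * q ^ 2 / 4 * (u * y ^ 2)) := by ring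
    · intro l hl
      rw [hu'y']
      have h3 := hC l hl
      calc (C1 : ℝ) * K * 2 ^ (l / T) = 4 * C1 * (K * 2 ^ (l / T)) / 4 := by ring
        _ ≤ C * (ρ * κ * q ^ 2) * (K * 2 ^ (l / T)) / 4 := by gcongr
        _ = ρ * κ * q ^ 2 / 4 * (C * K * 2 ^ (l / T)) := by ring
        _ ≤ ρ * κ * q ^ 2 / 4 * (u * y ^ 2 * (V l).card) := by gcongr
        _ = ρ * κ * q ^ 2 / 4 * (u * y ^ 2) * (V l).card := by ring
    · rw [hy'2]
      calc G * y ^ 2 ≤ G1 * (ρ * κ * q ^ 2 / 4) * y ^ 2 := by gcongr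
        _ ≤ G1 * (1 * q ^ 2 / 4) * y ^ 2 := by gcongr
        _ = G1 * (q ^ 2 / 4 * y ^ 2) := by ring
    · rw [hu'y']
      calc G * (u * y ^ 2) ≤ G1 * (ρ * κ * q ^ 2 / 4) * (u * y ^ 2) := by gcongr
        _ = G1 * (ρ * κ * q ^ 2 / 4 * (u * y ^ 2)) := by ring

private theorem inner_const {T k k' : ℕ} (hT : 2 ≤ T) (hk' : k' ≤ k) {η κ Dk : ℝ} {Ck : ℕ}
    (hη : 0 < η) (hκ : 0 < κ) (hκ1 : κ ≤ 1) (hDk : 0 < Dk) (hCk : 1 ≤ Ck)
    (hR : RkC r T k η κ Dk Ck) {β1 e1 G1 D1 : ℝ} {C1 : ℕ} (hβ1 : 0 < β1) (he1 : 0 < e1)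
    (hG1 : 0 < G1) (hD1 : 0 < D1)
    (IH : 1 ≤ k' → InnC r T k (k' - 1) β1 e1 G1 D1 C1) :
    ∃ (β e G D : ℝ) (C : ℕ), 0 < β ∧ 0 < e ∧ 0 < G ∧ G ≤ 1 ∧ 0 < D ∧ D ≤ 1 ∧ 1 ≤ C ∧
      InnC r T k k' β e G D C := by
  have hr0 : (0 : ℝ) ≤ r := Nat.cast_nonneg _
  obtain ⟨d, hd⟩ : ∃ d : ℝ, d = min β1 (min D1 (min Dk (min 1 (η / (2 * r + 2))))) := ⟨_, rfl⟩
  have hd0 : 0 < d := by
    rw [hd]
    refine lt_min hβ1 (lt_min hD1 (lt_min hDk (lt_min one_pos ?_)))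
    positivity
  have hdβ : d ≤ β1 := by rw [hd]; exact min_le_left _ _
  have hdD : d ≤ D1 := by rw [hd]; exact (min_le_right _ _).trans (min_le_left _ _)
  have hdk : d ≤ Dk := by
    rw [hd]; exact (min_le_right _ _).trans ((min_le_right _ _).trans (min_le_left _ _))
  have hd1 : d ≤ 1 := by
    rw [hd]
    exact (min_le_right _ _).trans ((min_le_right _ _).trans ((min_le_right _ _).trans
      (min_le_left _ _)))
  have hdη' : d ≤ η / (2 * r + 2) := by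
    rw [hd]
    exact (min_le_right _ _).trans ((min_le_right _ _).trans ((min_le_right _ _).trans
      (min_le_right _ _)))
  have hdη : r * d ≤ η / 2 := by
    rw [le_div_iff₀ (by positivity)] at hdη'
    nlinarith
  obtain ⟨q, hq⟩ : ∃ q : ℝ, q = d ^ (T - 1) := ⟨_, rfl⟩
  obtain ⟨ρ, hρ⟩ : ∃ ρ : ℝ, ρ = rho T d := ⟨_, rfl⟩
  have hq0 : 0 < q := by rw [hq]; positivity
  have hq1 : q ≤ 1 := by rw [hq]; exact pow_le_one₀ hd0.le hd1
  have hρ0 : 0 < ρ := by rw [hρ]; exact rho_pos hT hd0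
  have hρ1 : ρ ≤ 1 := by rw [hρ]; exact rho_le_one hT hd0 hd1
  obtain ⟨β, hβ⟩ : ∃ β : ℝ, β = min (η / (6 * r + 6)) (β1 * q / 2) := ⟨_, rfl⟩
  have hβ0 : 0 < β := by rw [hβ]; exact lt_min (by positivity) (by positivity)
  have hβη : 3 * r * β ≤ η / 2 := by
    have h1 : β ≤ η / (6 * r + 6) := by rw [hβ]; exact min_le_left _ _
    rw [le_div_iff₀ (by positivity)] at h1
    nlinarith
  obtain ⟨e, he⟩ : ∃ e : ℝ, e = min (η / 18) (min (η * ρ * κ * q / 12)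
      (e1 * ρ * κ * q ^ 2 / 4)) := ⟨_, rfl⟩
  have he0 : 0 < e := by
    rw [he]
    exact lt_min (by positivity) (lt_min (by positivity) (by positivity))
  obtain ⟨G, hG⟩ : ∃ G : ℝ, G = min (κ * (ρ * κ * q / 6)) (G1 * (ρ * κ * q ^ 2 / 4)) := ⟨_, rfl⟩
  have hG0 : 0 < G := by rw [hG]; exact lt_min (by positivity) (by positivity)
  have hG2 : G ≤ κ * (ρ * κ * q / 6) := by rw [hG]; exact min_le_left _ _
  have hG1' : G ≤ 1 := by
    calc G ≤ κ * (ρ * κ * q / 6) := hG2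
      _ ≤ 1 * (1 * 1 * 1 / 6) := by gcongr
      _ ≤ 1 := by norm_num
  obtain ⟨C2, hC2⟩ := exists_nat_ge (12 * Ck / (ρ * κ * q) : ℝ)
  obtain ⟨C3, hC3⟩ := exists_nat_ge (4 * C1 / (ρ * κ * q ^ 2) : ℝ)
  rw [div_le_iff₀ (by positivity)] at hC2 hC3
  refine ⟨β, e, G, d, 6 * Ck + C2 + C3, hβ0, he0, hG0, hG1', hd0, hd1, by omega, ?_⟩
  refine inner_step hT hk' hη hκ hκ1 hCk hR hG1 IH hd0 hd1 hdβ hdD hdk hdη hq hρ hβ0 hβη
    (by rw [hβ]; exact min_le_right _ _) he0 (by rw [he]; exact min_le_left _ _)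
    (by rw [he]; exact (min_le_right _ _).trans (min_le_left _ _))
    (by rw [he]; exact (min_le_right _ _).trans (min_le_right _ _)) hG0 hG2
    (by rw [hG]; exact min_le_right _ _) (by omega) ?_ ?_
  · push_cast
    have h1 : (0 : ℝ) ≤ ρ * κ * q := by positivity
    have h2 : (0 : ℝ) ≤ Ck := Nat.cast_nonneg _
    have h3 : (0 : ℝ) ≤ C3 := Nat.cast_nonneg _
    calc (12 : ℝ) * Ck ≤ C2 * (ρ * κ * q) := hC2
      _ ≤ (6 * Ck + C2 + C3) * (ρ * κ * q) := by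
          apply mul_le_mul_of_nonneg_right _ h1
          linarith
  · push_cast
    have h1 : (0 : ℝ) ≤ ρ * κ * q ^ 2 := by positivity
    have h2 : (0 : ℝ) ≤ Ck := Nat.cast_nonneg _
    have h3 : (0 : ℝ) ≤ C2 := Nat.cast_nonneg _
    calc (4 : ℝ) * C1 ≤ C3 * (ρ * κ * q ^ 2) := hC3
      _ ≤ (6 * Ck + C2 + C3) * (ρ * κ * q ^ 2) := by
          apply mul_le_mul_of_nonneg_right _ h1
          linarith

/-- The inner induction, on the number `k'` of the colours alive in `A'`.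
Let `η, κ, Dk, Ck` be the constants of `Rk r T k` and `β1, e1, G1, D1, C1` those of `k' - 1` (all
`1` if `k' = 0`).  Put `d = min β1 (min D1 (min Dk (min 1 (η / (2 * r + 2)))))`,
`q = d ^ (T - 1)`, `ρ = rho T d`, and `β = min (η / (6 * r + 6)) (β1 * q / 2)`,
`e = min (η / 18) (min (η * ρ * κ * q / 12) (e1 * ρ * κ * q ^ 2 / 4))`,
`G = min (κ * ρ * κ * q / 6) (G1 * ρ * κ * q ^ 2 / 4)` (`≤ 1/2`, `≤ κ / 3`), `D = min d D1`,
`C ≥ 12 * Ck / (ρ * κ * q)`, `≥ 4 * C1 / (ρ * κ * q ^ 2)`, `≥ 6 * Ck`.  (Note `u, y ≤ 1`.)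

Let `P t`, `Q t` be the halves of `Y t` (`exists_halves`), `Q (i0 + T) = V (i0 + T)`.  Tests with
`κ`, `d` : `h1`, `h2`, `h3` of `inner_pass`.  If all pass, `inner_pass` gives the claim.

If `h1` fails for `t` and `a ∈ A' (i0 % T) (t % T)`, then `not_OT` gives `U' ⊆ U`, `Z ⊆ Q t` with
`ρ * κ * |U| ≤ |U'|`, `q * |Q t| ≤ |Z|` and at most `d * |Z|` neighbours of colour `a` in `Z` for
`x ∈ U'`.  Apply the induction hypothesis `k' - 1` to `U'`, `update Y t Z`, the sets `A'` without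
`a` at `(i0 % T, t % T)` and its transpose, and `u' = ρ * κ * u`, `y' = y * q / 2` (`same` holds
as only pairs with the class `i0 % T` are changed; `dead` : for the old dead colours at `t` the
bound is `β * |Y t| ≤ β * (2 / q) * |Z| ≤ β1 * |Z|`, for the new one `d ≤ β1`).

If `h2` or `h3` fails for `s ≠ t` and `a`, then we get `U' ⊆ P s` or `U' ⊆ Q s`, in both cases
`|U'| ≥ ρ * κ * y / 3 * |V s|`, and `Z ⊆ Q t`, `|Z| ≥ q * y / 2 * |V t|`, and `inner_large`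
(`u' = ρ * κ * y / 3`, `z' = q * y / 2`, dead colour bound `d ≤ η / (2 * r + 2)`) applies. -/
theorem inner (r T k : ℕ) (hT : 2 ≤ T) (hk : Rk r T k) : ∀ k' : ℕ, k' ≤ k →
    ∃ (β e G D : ℝ) (C : ℕ), 0 < β ∧ 0 < e ∧ 0 < G ∧ G ≤ 1 ∧ 0 < D ∧ D ≤ 1 ∧ 1 ≤ C ∧
      ∀ (χ : ℕ → ℕ → Fin r) (X : ℕ → Finset ℕ) (A A' : ℕ → ℕ → Finset (Fin r))
        (V : ℕ → Finset ℕ) (K H t0 i0 L : ℕ) (U : Finset ℕ) (Y : ℕ → Finset ℕ) (u y ηw : ℝ),
        (∀ x y, χ x y = χ y x) → (∀ i j, A i j = A j i) → ka T A ≤ k + 1 → ka T A' ≤ k' →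
        1 ≤ K → Win χ T H X A ηw V → t0 + T ≤ H → t0 < L → L ≤ t0 + T → 0 < u → u ≤ 1 →
        0 < y → y ≤ 1 → 0 ≤ ηw → ηw ≤ e * (u * y ^ 2) →
        (∀ t < t0 + T, C * K * 2 ^ (t / T) ≤ u * y ^ 2 * (V t).card) →
        Inn χ T t0 i0 A A' V U Y u y β →
        Concl χ T X A V K t0 L (G * y ^ 2) (G * (u * y ^ 2)) D := by
  obtain ⟨η, κ, Dk, Ck, hη, -, hκ, hκ1, hDk, -, hCk, hR⟩ := hk
  intro k'
  induction k' with
  | zero =>
    intro hk'
    exact inner_const hT hk' hη hκ hκ1 hDk hCk hR one_pos one_pos one_pos one_pos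
      (C1 := 1) (fun h => absurd h (by omega))
  | succ k' ih =>
    intro hk'
    obtain ⟨β1, e1, G1, D1, C1, hβ1, he1, hG1, -, hD1, -, -, h⟩ := ih (by omega)
    exact inner_const hT hk' hη hκ hκ1 hDk hCk hR hβ1 he1 hG1 hD1 (C1 := C1) (fun _ => h)

end Pool.Agent.OrdTW
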