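import Mathlib
import Pool.Agent.Lib.MP_5b01b8_co_TW.InnD

/-!
# MP_5b01b8_co (TW), module Join: joining the lower chain and the upper windows
-/

set_option autoImplicit false

namespace Pool.Agent.OrdTW

open Finset

variable {r : ℕ}

/-- Joining the chain of `Concl` (length `t0 + T < H`) and the windows `V t`, `t0 + T ≤ t < H`, for
which all the tests with targets above `t0` pass.
`W' t = if t < t0 + T then W t else V t`, `dd' t = if t < t0 + T then dd t else d`.
Order for `s < t0 + T ≤ t` : if `t0 ≤ s` then `W s ⊆ V s`; if `s < t0` let `s' ` be the level of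
the class of `s` in `[t0, t0 + T)`; `W s < W s' ⊆ V s'`, `W s'` is not empty, `V s' < V t`.
`od` for a target `t ≥ t0 + T` and a source `s < t0 + T` : `s > t0`, so `W s ⊆ V s` has proportion
at least `κ1` and `OT.source` applies; for `s ≥ t0 + T` use `OT.weaken`.
If `H ≤ t + T` and `t < t0 + T` then `t0 ≤ t`. -/
theorem join {T : ℕ} (hT : 2 ≤ T) {χ : ℕ → ℕ → Fin r} {X : ℕ → Finset ℕ}
    {A : ℕ → ℕ → Finset (Fin r)} {V : ℕ → Finset ℕ} {K H H' t0 : ℕ} {ηw κ1 κ2 D d : ℝ}
    (hW : Win χ T H' X A ηw V) (hH : H ≤ H') (ht0 : t0 + T < H) (hκ0 : 0 < κ2) (hκ : κ2 ≤ κ1)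
    (hκ1 : κ1 ≤ 1) (hd : 0 < d) (hd1 : d ≤ 1) (hdD : d ≤ D) (hK : 1 ≤ K)
    (hV : ∀ t < H, K * 2 ^ (t / T) ≤ (V t).card)
    (hc : Concl χ T X A V K t0 (t0 + T) κ1 κ2 D)
    (htest : ∀ s t, t0 < t → s < t → t < s + T → t < H → ∀ a ∈ A (s % T) (t % T),
      OT T χ a κ1 d (V s) (V t)) :
    Concl χ T X A V K H H κ2 κ2 d := by
  obtain ⟨W, φ, dd, hch, hD, hφs, hφA, hWX, hWc, hWV, -⟩ := hc
  have hT0 : 0 < T := by omega
  have hpos : ∀ t < t0 + T, (W t).Nonempty := by
    intro t ht
    rw [← Finset.card_pos]
    exact lt_of_lt_of_le (Nat.mul_pos hK (by positivity)) (hWc t ht)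
  refine ⟨fun t => if t < t0 + T then W t else V t, φ, fun t => if t < t0 + T then dd t else d,
    ⟨?_, ?_, ?_, ?_⟩, ?_, hφs, hφA, ?_, ?_, ?_, ?_⟩
  · intro s t hst ht hmod x hx y hy
    by_cases h1 : t < t0 + T
    · have h2 : s < t0 + T := by omega
      simp only [h1, h2, if_true] at hx hy
      exact hch.order s t hst h1 hmod x hx y hy
    · simp only [h1, if_false] at hy
      by_cases h2 : s < t0 + T
      · simp only [h2, if_true] at hx
        by_cases h3 : t0 ≤ s
        · exact hW.order s t hst (by omega) hmod x ((hWV s h3 h2).1 hx) y hy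
        · obtain ⟨e1, e2, e3⟩ := lev0_spec (T := T) (t0 := t0) (Nat.mod_lt s hT0)
          obtain ⟨z, hz⟩ := hpos _ e2
          have l1 : x < z := hch.order s _ (by omega) e2 e3.symm x hx z hz
          have l2 : z < y := hW.order _ t (by omega) (by omega) (e3.trans hmod) z
            ((hWV _ e1 e2).1 hz) y hy
          exact l1.trans l2
      · simp only [h2, if_false] at hx
        exact hW.order s t hst (by omega) hmod x hx y hy
  · intro s t hst ht
    by_cases h1 : t < t0 + T
    · have h2 : s < t0 + T := by omega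
      simp only [h1, h2, if_true]
      exact hch.anti s t hst h1
    · by_cases h2 : s < t0 + T
      · simp only [h1, h2, if_true, if_false]
        exact hdD.trans (hD s h2)
      · simp only [h1, h2, if_false]
        exact le_rfl
  · intro t ht
    by_cases h1 : t < t0 + T
    · simp only [h1, if_true]
      exact hch.pos t h1
    · simp only [h1, if_false]
      exact ⟨hd, hd1⟩
  · intro s t hst ht htH
    by_cases h1 : t < t0 + T
    · have h2 : s < t0 + T := by omega
      simp only [h1, h2, if_true]
      exact hch.od s t hst ht h1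
    · have hne : s % T ≠ t % T := by
        intro he
        have h5 : (t - s) % T = 0 := Nat.sub_mod_eq_zero_of_mod_eq he.symm
        have h6 : (t - s) % T = t - s := Nat.mod_eq_of_lt (by omega)
        omega
      have hte := htest s t (by omega) hst ht htH _
        (hφA _ (Nat.mod_lt s hT0) _ (Nat.mod_lt t hT0) hne)
      by_cases h2 : s < t0 + T
      · simp only [h1, h2, if_true, if_false]
        obtain ⟨h3, h4⟩ := hWV s (by omega) h2
        exact OT.source hd.le hte h3 h4
      · simp only [h1, h2, if_false]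
        exact OT.weaken hd.le hte hκ1
  · intro t ht
    by_cases h1 : t < t0 + T
    · simp only [h1, if_true]
      exact hdD.trans (hD t h1)
    · simp only [h1, if_false]
      exact le_rfl
  · intro t ht
    by_cases h1 : t < t0 + T
    · simp only [h1, if_true]
      exact hWX t h1
    · simp only [h1, if_false]
      exact hW.sub t (by omega)
  · intro t ht
    by_cases h1 : t < t0 + T
    · simp only [h1, if_true]
      exact hWc t h1
    · simp only [h1, if_false]
      exact hV t ht
  · intro t h1 h2
    omega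
  · intro t ht hHt
    have hv : (0 : ℝ) ≤ ((V t).card : ℝ) := Nat.cast_nonneg _
    by_cases h1 : t < t0 + T
    · simp only [h1, if_true]
      exact (mul_le_mul_of_nonneg_right hκ hv).trans (hWV t (by omega) h1).2
    · simp only [h1, if_false]
      nlinarith [mul_le_mul_of_nonneg_right (hκ.trans hκ1) hv]

end Pool.Agent.OrdTW
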