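import Mathlib

/-!
# MP_5b01b8_co (TW), module Maxi: a maximal inequality for nested rectangles
-/

set_option autoImplicit false

namespace Pool.Agent.OrdTW

open Finset

/-- the points of `Bad` in the rectangle with corner `(x, y)` and sides `p`, `q` -/
def rect (Bad : Finset (ℕ × ℕ)) (x y p q : ℕ) : Finset (ℕ × ℕ) :=
  Bad.filter fun z => (x ≤ z.1 ∧ z.1 < x + p) ∧ (y ≤ z.2 ∧ z.2 < y + q)

/-- the points of `Bad` in the cell `(i, j)` of the grid with sides `P`, `Q` -/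
private def mcell (Bad : Finset (ℕ × ℕ)) (P Q i j : ℕ) : Finset (ℕ × ℕ) :=
  Bad.filter fun z => z.1 / P = i ∧ z.2 / Q = j

/-- the enlargement of a cell -/
private def menl (P Q i j : ℕ) : Finset (ℕ × ℕ) :=
  Finset.Ico ((i - 1) * P) ((i + 1) * P) ×ˢ Finset.Ico ((j - 1) * Q) ((j + 1) * Q)

private theorem ico_card (i P : ℕ) : (Finset.Ico ((i - 1) * P) ((i + 1) * P)).card ≤ 2 * P := by
  rw [Nat.card_Ico]
  rcases Nat.eq_zero_or_pos i with h | h
  · subst h
    have : (0 + 1) * P - (0 - 1) * P ≤ (0 + 1) * P := Nat.sub_le _ _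
    omega
  · obtain ⟨i', rfl⟩ : ∃ i', i = i' + 1 := ⟨i - 1, by omega⟩
    have e : (i' + 1 + 1) * P = (i' + 1 - 1) * P + 2 * P := by
      rw [Nat.add_sub_cancel]
      ring
    rw [e]
    omega

private theorem menl_card (P Q i j : ℕ) : (menl P Q i j).card ≤ 4 * (P * Q) := by
  unfold menl
  rw [Finset.card_product]
  calc _ ≤ (2 * P) * (2 * Q) := Nat.mul_le_mul (ico_card i P) (ico_card j Q)
    _ = 4 * (P * Q) := by ring

private theorem ico_mono {a i i' t s' : ℕ} (h : i' / 2 ^ t = i) {x : ℕ}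
    (hx : x ∈ Finset.Ico ((i' - 1) * (a * 2 ^ s')) ((i' + 1) * (a * 2 ^ s'))) :
    x ∈ Finset.Ico ((i - 1) * (a * 2 ^ (t + s'))) ((i + 1) * (a * 2 ^ (t + s'))) := by
  have ht : 0 < 2 ^ t := by positivity
  have h1 : i * 2 ^ t ≤ i' := by
    rw [← h]
    exact Nat.div_mul_le_self _ _
  have h2 : i' < (i + 1) * 2 ^ t := by
    have := Nat.lt_div_mul_add (a := i') ht
    rw [h] at this
    linarith
  have h3 : (i - 1) * 2 ^ t ≤ i' - 1 := by
    rcases Nat.eq_zero_or_pos i with h0 | h0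
    · subst h0
      simp
    · obtain ⟨l, rfl⟩ : ∃ l, i = l + 1 := ⟨i - 1, by omega⟩
      rw [Nat.add_sub_cancel]
      have e : (l + 1) * 2 ^ t = l * 2 ^ t + 2 ^ t := by ring
      rw [e] at h1
      omega
  rw [Finset.mem_Ico] at hx ⊢
  have e1 : (i - 1) * (a * 2 ^ (t + s')) = ((i - 1) * 2 ^ t) * (a * 2 ^ s') := by
    rw [pow_add]
    ring
  have e2 : (i + 1) * (a * 2 ^ (t + s')) = ((i + 1) * 2 ^ t) * (a * 2 ^ s') := by
    rw [pow_add]
    ring
  rw [e1, e2]
  exact ⟨(Nat.mul_le_mul_right _ h3).trans hx.1, hx.2.trans_le (Nat.mul_le_mul_right _ h2)⟩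

private theorem menl_mono {a b i i' j j' t s' : ℕ} (h : i' / 2 ^ t = i) (h' : j' / 2 ^ t = j) :
    menl (a * 2 ^ s') (b * 2 ^ s') i' j' ⊆ menl (a * 2 ^ (t + s')) (b * 2 ^ (t + s')) i j := by
  intro z hz
  unfold menl at hz ⊢
  rw [Finset.mem_product] at hz ⊢
  exact ⟨ico_mono h hz.1, ico_mono h' hz.2⟩

/-- The four sub-cells of a cell. -/
private theorem cell_sum (Bad : Finset (ℕ × ℕ)) (a b s i j : ℕ) :
    ∑ w ∈ ({2 * i, 2 * i + 1} : Finset ℕ) ×ˢ ({2 * j, 2 * j + 1} : Finset ℕ),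
      (mcell Bad (a * 2 ^ s) (b * 2 ^ s) w.1 w.2).card =
    (mcell Bad (a * 2 ^ (s + 1)) (b * 2 ^ (s + 1)) i j).card := by
  have hd : ∀ a z : ℕ, z / (a * 2 ^ (s + 1)) = z / (a * 2 ^ s) / 2 := by
    intro a z
    rw [Nat.div_div_eq_div_mul, pow_succ, mul_assoc]
  have H : ∀ z ∈ mcell Bad (a * 2 ^ (s + 1)) (b * 2 ^ (s + 1)) i j,
      (z.1 / (a * 2 ^ s), z.2 / (b * 2 ^ s)) ∈
        ({2 * i, 2 * i + 1} : Finset ℕ) ×ˢ ({2 * j, 2 * j + 1} : Finset ℕ) := by
    intro z hz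
    unfold mcell at hz
    rw [Finset.mem_filter, hd, hd] at hz
    obtain ⟨-, h1, h2⟩ := hz
    rw [Finset.mem_product]
    simp only [Finset.mem_insert, Finset.mem_singleton]
    constructor <;> omega
  rw [Finset.card_eq_sum_card_fiberwise H]
  refine Finset.sum_congr rfl ?_
  rintro ⟨p, q⟩ hw
  congr 1
  ext z
  unfold mcell
  rw [Finset.mem_product] at hw
  simp only [Finset.mem_insert, Finset.mem_singleton] at hw
  simp only [Finset.mem_filter, hd, Prod.mk.injEq]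
  constructor
  · rintro ⟨h1, h2, h3⟩
    exact ⟨⟨h1, by omega, by omega⟩, h2, h3⟩
  · rintro ⟨⟨h1, -, -⟩, h2, h3⟩
    exact ⟨h1, h2, h3⟩

/-- The induction over the scales. -/
private theorem scale_ind {a b : ℕ} (Bad : Finset (ℕ × ℕ)) {θ : ℝ}
    (hθ : 0 < θ) (s : ℕ) : ∀ i j : ℕ, ∃ E : Finset (ℕ × ℕ),
      θ * E.card ≤ 4 * (mcell Bad (a * 2 ^ s) (b * 2 ^ s) i j).card ∧
      ∀ s' ≤ s, ∀ i' j' : ℕ, i' / 2 ^ (s - s') = i → j' / 2 ^ (s - s') = j →
        θ * ((a * 2 ^ s' : ℕ) : ℝ) * ((b * 2 ^ s' : ℕ) : ℝ) <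
          (mcell Bad (a * 2 ^ s') (b * 2 ^ s') i' j').card →
        menl (a * 2 ^ s') (b * 2 ^ s') i' j' ⊆ E := by
  induction s with
  | zero =>
    intro i j
    by_cases hh : θ * ((a * 2 ^ 0 : ℕ) : ℝ) * ((b * 2 ^ 0 : ℕ) : ℝ) <
        (mcell Bad (a * 2 ^ 0) (b * 2 ^ 0) i j).card
    · refine ⟨menl (a * 2 ^ 0) (b * 2 ^ 0) i j, ?_, ?_⟩
      · have h1 : ((menl (a * 2 ^ 0) (b * 2 ^ 0) i j).card : ℝ) ≤
            4 * (((a * 2 ^ 0 : ℕ) : ℝ) * ((b * 2 ^ 0 : ℕ) : ℝ)) := by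
          exact_mod_cast menl_card (a * 2 ^ 0) (b * 2 ^ 0) i j
        nlinarith
      · intro s' hs' i' j' hi hj _
        have h0 : s' = 0 := by omega
        subst h0
        simp only [Nat.sub_self, pow_zero, Nat.div_one] at hi hj
        rw [hi, hj]
    · refine ⟨∅, by simp, ?_⟩
      intro s' hs' i' j' hi hj h
      have h0 : s' = 0 := by omega
      subst h0
      simp only [Nat.sub_self, pow_zero, Nat.div_one] at hi hj
      rw [hi, hj] at h
      exact absurd h hh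
  | succ s ih =>
    intro i j
    by_cases hh : θ * ((a * 2 ^ (s + 1) : ℕ) : ℝ) * ((b * 2 ^ (s + 1) : ℕ) : ℝ) <
        (mcell Bad (a * 2 ^ (s + 1)) (b * 2 ^ (s + 1)) i j).card
    · refine ⟨menl (a * 2 ^ (s + 1)) (b * 2 ^ (s + 1)) i j, ?_, ?_⟩
      · have h1 : ((menl (a * 2 ^ (s + 1)) (b * 2 ^ (s + 1)) i j).card : ℝ) ≤
            4 * (((a * 2 ^ (s + 1) : ℕ) : ℝ) * ((b * 2 ^ (s + 1) : ℕ) : ℝ)) := by
          exact_mod_cast menl_card (a * 2 ^ (s + 1)) (b * 2 ^ (s + 1)) i j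
        nlinarith
      · intro s' hs' i' j' hi hj _
        have h1 := menl_mono (a := a) (b := b) (s' := s') hi hj
        rw [Nat.sub_add_cancel hs'] at h1
        exact h1
    · choose E hE hE' using ih
      refine ⟨(({2 * i, 2 * i + 1} : Finset ℕ) ×ˢ ({2 * j, 2 * j + 1} : Finset ℕ)).biUnion
        fun w => E w.1 w.2, ?_, ?_⟩
      · rw [← cell_sum]
        have h1 : ((((({2 * i, 2 * i + 1} : Finset ℕ) ×ˢ
            ({2 * j, 2 * j + 1} : Finset ℕ)).biUnion fun w => E w.1 w.2).card : ℕ) : ℝ) ≤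
            ∑ w ∈ ({2 * i, 2 * i + 1} : Finset ℕ) ×ˢ ({2 * j, 2 * j + 1} : Finset ℕ),
              ((E w.1 w.2).card : ℝ) := by
          exact_mod_cast Finset.card_biUnion_le
        calc _ ≤ θ * ∑ w ∈ ({2 * i, 2 * i + 1} : Finset ℕ) ×ˢ
              ({2 * j, 2 * j + 1} : Finset ℕ), ((E w.1 w.2).card : ℝ) :=
              mul_le_mul_of_nonneg_left h1 hθ.le
          _ = ∑ w ∈ ({2 * i, 2 * i + 1} : Finset ℕ) ×ˢ
              ({2 * j, 2 * j + 1} : Finset ℕ), θ * ((E w.1 w.2).card : ℝ) := Finset.mul_sum _ _ _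
          _ ≤ ∑ w ∈ ({2 * i, 2 * i + 1} : Finset ℕ) ×ˢ ({2 * j, 2 * j + 1} : Finset ℕ),
              4 * ((mcell Bad (a * 2 ^ s) (b * 2 ^ s) w.1 w.2).card : ℝ) :=
              Finset.sum_le_sum fun w _ => hE w.1 w.2
          _ = _ := by
              rw [← Finset.mul_sum]
              push_cast
              rfl
      · intro s' hs' i' j' hi hj h
        rcases Nat.lt_or_ge s s' with h0 | h0
        · have h1 : s' = s + 1 := by omega
          subst h1
          simp only [Nat.sub_self, pow_zero, Nat.div_one] at hi hj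
          rw [hi, hj] at h
          exact absurd h hh
        · have e : s + 1 - s' = (s - s') + 1 := by omega
          rw [e, pow_succ, ← Nat.div_div_eq_div_mul] at hi hj
          have h1 := hE' (i' / 2 ^ (s - s')) (j' / 2 ^ (s - s')) s' h0 i' j' rfl rfl h
          refine h1.trans ?_
          refine Finset.subset_biUnion_of_mem (fun w : ℕ × ℕ => E w.1 w.2)
            (x := (i' / 2 ^ (s - s'), j' / 2 ^ (s - s'))) ?_
          rw [Finset.mem_product]
          simp only [Finset.mem_insert, Finset.mem_singleton]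
          constructor <;> omega

/-- One scale after the other.  The cell `(i, j)` of the scale `s` consists of the `z` with
`z.1 / (a * 2 ^ s) = i`, `z.2 / (b * 2 ^ s) = j`; it is heavy if it contains more than
`θ * (a * 2 ^ s) * (b * 2 ^ s)` points of `Bad`; its enlargement consists of the `(x, y)` with
`x / (a * 2 ^ s) ∈ {i - 1, i}`, `y / (b * 2 ^ s) ∈ {j - 1, j}` (at most `4 a b 4 ^ s` points).
Claim: for all `s, i, j` there is a finite set `E s i j` with
`θ * |E| ≤ 4 * |Bad ∩ cell s i j|` which contains the enlargements of all the heavy cells of the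
scales `s' ≤ s` which are contained in the cell `(s, i, j)`, that is `i' / 2 ^ (s - s') = i`,
`j' / 2 ^ (s - s') = j`.  Proof by induction on `s` : if the cell itself is heavy, take its
enlargement (the enlargement of a smaller cell contained in it is contained in its enlargement);
otherwise take the union of the four sets of the sub-cells (or the empty set for `s = 0`).
Finally take the union over the cells of the scale `m` which meet `Bad`.  If a rectangle with
corner `(x, y)` and sides `a * 2 ^ s`, `b * 2 ^ s` contains more than `4 θ a b 4 ^ s` points of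
`Bad`, then one of the four cells which it meets is heavy, and `(x, y)` is in its enlargement. -/
theorem max_ineq {a b : ℕ} (ha : 1 ≤ a) (hb : 1 ≤ b) (Bad : Finset (ℕ × ℕ)) (m : ℕ) {θ : ℝ}
    (hθ : 0 < θ) :
    ∃ E : Finset (ℕ × ℕ), θ * E.card ≤ 4 * Bad.card ∧ ∀ x y, (x, y) ∉ E → ∀ s ≤ m,
      ((rect Bad x y (a * 2 ^ s) (b * 2 ^ s)).card : ℝ) ≤
        4 * θ * ((a * 2 ^ s : ℕ) : ℝ) * ((b * 2 ^ s : ℕ) : ℝ) := by
  choose E hE hE' using scale_ind (a := a) (b := b) Bad hθ m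
  refine ⟨(Bad.image fun z => (z.1 / (a * 2 ^ m), z.2 / (b * 2 ^ m))).biUnion
    fun w => E w.1 w.2, ?_, ?_⟩
  · have h1 : ((((Bad.image fun z => (z.1 / (a * 2 ^ m), z.2 / (b * 2 ^ m))).biUnion
        fun w => E w.1 w.2).card : ℕ) : ℝ) ≤
        ∑ w ∈ Bad.image fun z => (z.1 / (a * 2 ^ m), z.2 / (b * 2 ^ m)),
          ((E w.1 w.2).card : ℝ) := by
      exact_mod_cast Finset.card_biUnion_le
    have h2 : Bad.card = ∑ w ∈ Bad.image fun z => (z.1 / (a * 2 ^ m), z.2 / (b * 2 ^ m)),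
        (mcell Bad (a * 2 ^ m) (b * 2 ^ m) w.1 w.2).card := by
      rw [Finset.card_eq_sum_card_image (fun z : ℕ × ℕ => (z.1 / (a * 2 ^ m), z.2 / (b * 2 ^ m)))]
      refine Finset.sum_congr rfl ?_
      rintro ⟨p, q⟩ _
      congr 1
      ext z
      unfold mcell
      simp only [Finset.mem_filter, Prod.mk.injEq]
    calc _ ≤ θ * ∑ w ∈ Bad.image fun z => (z.1 / (a * 2 ^ m), z.2 / (b * 2 ^ m)),
          ((E w.1 w.2).card : ℝ) := mul_le_mul_of_nonneg_left h1 hθ.le
      _ = ∑ w ∈ Bad.image fun z => (z.1 / (a * 2 ^ m), z.2 / (b * 2 ^ m)),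
          θ * ((E w.1 w.2).card : ℝ) := Finset.mul_sum _ _ _
      _ ≤ ∑ w ∈ Bad.image fun z => (z.1 / (a * 2 ^ m), z.2 / (b * 2 ^ m)),
          4 * ((mcell Bad (a * 2 ^ m) (b * 2 ^ m) w.1 w.2).card : ℝ) :=
          Finset.sum_le_sum fun w _ => hE w.1 w.2
      _ = 4 * (Bad.card : ℝ) := by
          rw [← Finset.mul_sum, h2]
          push_cast
          rfl
  · intro x y hxy s hs
    by_contra hcon
    push Not at hcon
    have hP : 0 < a * 2 ^ s := by positivity
    have hQ : 0 < b * 2 ^ s := by positivity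
    have key : ∀ w ∈ ({x / (a * 2 ^ s), x / (a * 2 ^ s) + 1} : Finset ℕ) ×ˢ
        ({y / (b * 2 ^ s), y / (b * 2 ^ s) + 1} : Finset ℕ),
        ((mcell Bad (a * 2 ^ s) (b * 2 ^ s) w.1 w.2).card : ℝ) ≤
          θ * ((a * 2 ^ s : ℕ) : ℝ) * ((b * 2 ^ s : ℕ) : ℝ) := by
      rintro ⟨i, j⟩ hw
      by_contra hheavy
      push Not at hheavy
      simp only [Finset.mem_product, Finset.mem_insert, Finset.mem_singleton] at hw
      apply hxy
      have h1 := hE' (i / 2 ^ (m - s)) (j / 2 ^ (m - s)) s hs i j rfl rfl hheavy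
      have hne : (mcell Bad (a * 2 ^ s) (b * 2 ^ s) i j).Nonempty := by
        rw [← Finset.card_pos]
        have h2 : (0 : ℝ) < (mcell Bad (a * 2 ^ s) (b * 2 ^ s) i j).card := by
          refine lt_of_le_of_lt ?_ hheavy
          positivity
        exact_mod_cast h2
      obtain ⟨z, hz⟩ := hne
      unfold mcell at hz
      rw [Finset.mem_filter] at hz
      obtain ⟨hzB, hz1, hz2⟩ := hz
      have hd : ∀ a : ℕ, a * 2 ^ m = a * 2 ^ s * 2 ^ (m - s) := by
        intro a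
        rw [mul_assoc, ← pow_add, Nat.add_sub_cancel' hs]
      rw [Finset.mem_biUnion]
      refine ⟨(i / 2 ^ (m - s), j / 2 ^ (m - s)), ?_, ?_⟩
      · rw [Finset.mem_image]
        refine ⟨z, hzB, ?_⟩
        rw [hd a, hd b, ← Nat.div_div_eq_div_mul z.1 (a * 2 ^ s),
          ← Nat.div_div_eq_div_mul z.2 (b * 2 ^ s), hz1, hz2]
      · apply h1
        unfold menl
        rw [Finset.mem_product, Finset.mem_Ico, Finset.mem_Ico]
        have h3 : x / (a * 2 ^ s) * (a * 2 ^ s) ≤ x := Nat.div_mul_le_self _ _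
        have h4 : x < (x / (a * 2 ^ s) + 1) * (a * 2 ^ s) := by
          have := Nat.lt_div_mul_add (a := x) hP
          linarith
        have h5 : y / (b * 2 ^ s) * (b * 2 ^ s) ≤ y := Nat.div_mul_le_self _ _
        have h6 : y < (y / (b * 2 ^ s) + 1) * (b * 2 ^ s) := by
          have := Nat.lt_div_mul_add (a := y) hQ
          linarith
        have hgen : ∀ u v : ℕ, (v = u ∨ v = u + 1) → v - 1 ≤ u ∧ u + 1 ≤ v + 1 := by
          intro u v huv
          omega
        have q1 := hgen _ _ hw.1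
        have q2 := hgen _ _ hw.2
        have g1 : (i - 1) * (a * 2 ^ s) ≤ x / (a * 2 ^ s) * (a * 2 ^ s) :=
          Nat.mul_le_mul_right _ q1.1
        have g2 : (x / (a * 2 ^ s) + 1) * (a * 2 ^ s) ≤ (i + 1) * (a * 2 ^ s) :=
          Nat.mul_le_mul_right _ q1.2
        have g3 : (j - 1) * (b * 2 ^ s) ≤ y / (b * 2 ^ s) * (b * 2 ^ s) :=
          Nat.mul_le_mul_right _ q2.1
        have g4 : (y / (b * 2 ^ s) + 1) * (b * 2 ^ s) ≤ (j + 1) * (b * 2 ^ s) :=
          Nat.mul_le_mul_right _ q2.2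
        exact ⟨⟨g1.trans h3, h4.trans_le g2⟩, ⟨g3.trans h5, h6.trans_le g4⟩⟩
    have hsub : rect Bad x y (a * 2 ^ s) (b * 2 ^ s) ⊆
        (({x / (a * 2 ^ s), x / (a * 2 ^ s) + 1} : Finset ℕ) ×ˢ
        ({y / (b * 2 ^ s), y / (b * 2 ^ s) + 1} : Finset ℕ)).biUnion
          fun w => mcell Bad (a * 2 ^ s) (b * 2 ^ s) w.1 w.2 := by
      intro z hz
      unfold rect at hz
      rw [Finset.mem_filter] at hz
      obtain ⟨hzB, ⟨h1, h2⟩, h3, h4⟩ := hz
      rw [Finset.mem_biUnion]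
      refine ⟨(z.1 / (a * 2 ^ s), z.2 / (b * 2 ^ s)), ?_, ?_⟩
      · simp only [Finset.mem_product, Finset.mem_insert, Finset.mem_singleton]
        have g1 : x / (a * 2 ^ s) ≤ z.1 / (a * 2 ^ s) := Nat.div_le_div_right h1
        have g2 : z.1 / (a * 2 ^ s) ≤ x / (a * 2 ^ s) + 1 := by
          have := Nat.div_le_div_right (c := a * 2 ^ s) h2.le
          rwa [Nat.add_div_right _ hP] at this
        have g3 : y / (b * 2 ^ s) ≤ z.2 / (b * 2 ^ s) := Nat.div_le_div_right h3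
        have g4 : z.2 / (b * 2 ^ s) ≤ y / (b * 2 ^ s) + 1 := by
          have := Nat.div_le_div_right (c := b * 2 ^ s) h4.le
          rwa [Nat.add_div_right _ hQ] at this
        constructor <;> omega
      · unfold mcell
        rw [Finset.mem_filter]
        exact ⟨hzB, rfl, rfl⟩
    have h1 : ((rect Bad x y (a * 2 ^ s) (b * 2 ^ s)).card : ℝ) ≤
        ∑ w ∈ ({x / (a * 2 ^ s), x / (a * 2 ^ s) + 1} : Finset ℕ) ×ˢ
        ({y / (b * 2 ^ s), y / (b * 2 ^ s) + 1} : Finset ℕ),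
          ((mcell Bad (a * 2 ^ s) (b * 2 ^ s) w.1 w.2).card : ℝ) := by
      exact_mod_cast (Finset.card_le_card hsub).trans Finset.card_biUnion_le
    have h2 := Finset.sum_le_sum key
    rw [Finset.sum_const, nsmul_eq_mul, Finset.card_product,
      Finset.card_pair (Nat.succ_ne_self _).symm, Finset.card_pair (Nat.succ_ne_self _).symm] at h2
    push_cast at h1 h2 hcon
    linarith

end Pool.Agent.OrdTW
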