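import Mathlib

/-!
# MP_5b01b8_co (TW), module Pick: the union bound
-/

set_option autoImplicit false

namespace Pool.Agent.OrdTW

open Finset

/-- Union bound.  Work with the functions on `Fin T` with values `α i < N i` (`Fintype.piFinset`);
for `i < j` the number of the `α` with `(α i, α j) ∈ B i j` is the number of the pairs in `B i j`
(in the box) times the product of the other `N l`.  There are less than `T ^ 2` pairs. -/
theorem pick {T : ℕ} (N : ℕ → ℕ) (hN : ∀ i < T, 1 ≤ N i) (B : ℕ → ℕ → Finset (ℕ × ℕ))
    (hB : ∀ i j, i < j → j < T → (T : ℝ) ^ 2 * (B i j).card ≤ N i * N j) :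
    ∃ α : ℕ → ℕ, (∀ i < T, α i < N i) ∧ ∀ i j, i < j → j < T → (α i, α j) ∉ B i j := by
  classical
  rcases Nat.eq_zero_or_pos T with rfl | hT
  · exact ⟨fun _ => 0, fun i hi => absurd hi (by omega), fun i j _ hj => absurd hj (by omega)⟩
  obtain ⟨P, hP⟩ : ∃ P : Finset (Fin T → ℕ),
      P = Fintype.piFinset (fun i : Fin T => range (N i)) := ⟨_, rfl⟩
  have hmem : ∀ α, α ∈ P ↔ ∀ i : Fin T, α i < N i := by
    intro α
    rw [hP, Fintype.mem_piFinset]
    simp
  have hPpos : 0 < P.card := card_pos.2 ⟨fun _ => 0, (hmem _).2 fun i => hN i i.2⟩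
  have hcount : ∀ i j : Fin T, i < j →
      (T : ℝ) ^ 2 * (P.filter fun α => (α i, α j) ∈ B i j).card ≤ P.card := by
    intro i j hij
    have h1 : ((P.filter fun α => (α i, α j) ∈ B i j) ×ˢ
        (range (N i) ×ˢ range (N j))).card ≤ (B i j ×ˢ P).card := by
      refine card_le_card_of_injOn (fun z => ((z.1 i, z.1 j),
        Function.update (Function.update z.1 i z.2.1) j z.2.2)) ?_ ?_
      · intro z hz
        have hz' := mem_coe.1 hz
        rw [mem_product, mem_filter, mem_product, mem_range, mem_range] at hz'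
        obtain ⟨⟨h1, h2⟩, h3, h4⟩ := hz'
        refine mem_coe.2 (mem_product.2 ⟨h2, (hmem _).2 fun l => ?_⟩)
        dsimp only
        by_cases hl : l = j
        · rw [hl, Function.update_self]
          exact h4
        · rw [Function.update_of_ne hl]
          by_cases hl' : l = i
          · rw [hl', Function.update_self]
            exact h3
          · rw [Function.update_of_ne hl']
            exact (hmem _).1 h1 l
      · intro z hz w hw hzw
        simp only [Prod.mk.injEq] at hzw
        obtain ⟨⟨h1, h2⟩, h3⟩ := hzw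
        have h4 : z.2.2 = w.2.2 := by
          have := congrFun h3 j
          rwa [Function.update_self, Function.update_self] at this
        have h5 : z.2.1 = w.2.1 := by
          have := congrFun h3 i
          rwa [Function.update_of_ne hij.ne, Function.update_of_ne hij.ne,
            Function.update_self, Function.update_self] at this
        refine Prod.ext (funext fun l => ?_) (Prod.ext h5 h4)
        by_cases hl : l = j
        · rw [hl]
          exact h2
        · by_cases hl' : l = i
          · rw [hl']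
            exact h1
          · have := congrFun h3 l
            rwa [Function.update_of_ne hl, Function.update_of_ne hl,
              Function.update_of_ne hl', Function.update_of_ne hl'] at this
    rw [card_product, card_product, card_product, card_range, card_range] at h1
    have h2 : ((P.filter fun α => (α i, α j) ∈ B i j).card : ℝ) * (N i * N j) ≤
        (B i j).card * P.card := by exact_mod_cast h1
    have h3 := hB i j hij j.2
    have h4 : (0 : ℝ) < N i * N j := by
      have h5 : (1 : ℝ) ≤ N i := by exact_mod_cast hN i i.2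
      have h6 : (1 : ℝ) ≤ N j := by exact_mod_cast hN j j.2
      positivity
    refine le_of_mul_le_mul_right ?_ h4
    calc (T : ℝ) ^ 2 * (P.filter fun α => (α i, α j) ∈ B i j).card * (N i * N j)
        = (T : ℝ) ^ 2 * ((P.filter fun α => (α i, α j) ∈ B i j).card * (N i * N j)) := by ring
      _ ≤ (T : ℝ) ^ 2 * ((B i j).card * P.card) := mul_le_mul_of_nonneg_left h2 (by positivity)
      _ = ((T : ℝ) ^ 2 * (B i j).card) * P.card := by ring
      _ ≤ (N i * N j) * P.card := mul_le_mul_of_nonneg_right h3 (by positivity)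
      _ = P.card * (N i * N j) := by ring
  -- the pairs
  obtain ⟨Q, hQ⟩ : ∃ Q : Finset (Fin T × Fin T), Q = univ.filter (fun z => z.1 < z.2) :=
    ⟨_, rfl⟩
  have hQc : Q.card < T ^ 2 := by
    have h1 : Q ⊂ univ := by
      rw [ssubset_univ_iff]
      intro h
      have h2 : ((⟨0, hT⟩, ⟨0, hT⟩) : Fin T × Fin T) ∈ Q := by rw [h]; exact mem_univ _
      rw [hQ, mem_filter] at h2
      exact lt_irrefl _ h2.2
    have h2 := card_lt_card h1
    rw [card_univ, Fintype.card_prod, Fintype.card_fin] at h2
    rw [sq]
    exact h2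
  by_contra hcon
  have hcov : P ⊆ Q.biUnion fun z => P.filter fun α => (α z.1, α z.2) ∈ B z.1 z.2 := by
    intro α hα
    by_contra hno
    refine hcon ⟨fun i => if h : i < T then α ⟨i, h⟩ else 0, fun i hi => ?_,
      fun i j hij hj hmemB => hno ?_⟩
    · dsimp only
      rw [dif_pos hi]
      exact (hmem _).1 hα ⟨i, hi⟩
    · dsimp only at hmemB
      rw [dif_pos (hij.trans hj), dif_pos hj] at hmemB
      refine mem_biUnion.2 ⟨(⟨i, hij.trans hj⟩, ⟨j, hj⟩), ?_, mem_filter.2 ⟨hα, hmemB⟩⟩
      rw [hQ, mem_filter]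
      exact ⟨mem_univ _, hij⟩
  have h1 : (P.card : ℝ) ≤
      ∑ z ∈ Q, ((P.filter fun α => (α z.1, α z.2) ∈ B z.1 z.2).card : ℝ) := by
    exact_mod_cast (card_le_card hcov).trans card_biUnion_le
  have h2 : (T : ℝ) ^ 2 * P.card ≤ Q.card * P.card := by
    calc (T : ℝ) ^ 2 * P.card
        ≤ (T : ℝ) ^ 2 * ∑ z ∈ Q, ((P.filter fun α => (α z.1, α z.2) ∈ B z.1 z.2).card : ℝ) :=
          mul_le_mul_of_nonneg_left h1 (by positivity)
      _ = ∑ z ∈ Q, (T : ℝ) ^ 2 *
          ((P.filter fun α => (α z.1, α z.2) ∈ B z.1 z.2).card : ℝ) := mul_sum _ _ _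
      _ ≤ ∑ z ∈ Q, (P.card : ℝ) := by
          refine sum_le_sum fun z hz => ?_
          rw [hQ, mem_filter] at hz
          exact hcount z.1 z.2 hz.2
      _ = Q.card * P.card := by rw [sum_const, nsmul_eq_mul]
  have h3 : (Q.card : ℝ) < (T : ℝ) ^ 2 := by exact_mod_cast hQc
  have h4 : (0 : ℝ) < P.card := by exact_mod_cast hPpos
  exact absurd h2 (not_le.2 (mul_lt_mul_of_pos_right h3 h4))

end Pool.Agent.OrdTW
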