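import Mathlib
import Pool.Agent.Lib.MP_5b01b8_co_TW.Win
import Pool.Agent.Lib.MP_5b01b8_co_TW.Maxi
import Pool.Agent.Lib.MP_5b01b8_co_TW.Pick

/-!
# MP_5b01b8_co (TW), module Loc: windows at a good corner
-/

set_option autoImplicit false

namespace Pool.Agent.OrdTW

open Finset

variable {r : ℕ}

/-- the increasing enumeration of a finite set -/
private noncomputable def en (X : Finset ℕ) (p : ℕ) : ℕ :=
  if h : p < X.card then X.orderEmbOfFin rfl ⟨p, h⟩ else 0

private theorem en_mem {X : Finset ℕ} {p : ℕ} (h : p < X.card) : en X p ∈ X := by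
  unfold en
  rw [dif_pos h]
  exact Finset.orderEmbOfFin_mem _ _ _

private theorem en_lt {X : Finset ℕ} {p q : ℕ} (hq : q < X.card) (h : p < q) :
    en X p < en X q := by
  unfold en
  rw [dif_pos (h.trans hq), dif_pos hq]
  exact (X.orderEmbOfFin rfl).strictMono (by simpa using h)

private theorem en_inj {X : Finset ℕ} {p q : ℕ} (hp : p < X.card) (hq : q < X.card)
    (h : en X p = en X q) : p = q := by
  rcases lt_trichotomy p q with h1 | h1 | h1
  · exact absurd h (en_lt hq h1).ne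
  · exact h1
  · exact absurd h (en_lt hp h1).ne'

open Classical in
/-- the bad pairs of indices -/
private noncomputable def badi (χ : ℕ → ℕ → Fin r) (A : Finset (Fin r)) (X Y : Finset ℕ) :
    Finset (ℕ × ℕ) :=
  (range X.card ×ˢ range Y.card).filter fun z => χ (en X z.1) (en Y z.2) ∉ A

private theorem badi_card {χ : ℕ → ℕ → Fin r} {A : Finset (Fin r)} {η : ℝ} {X Y : Finset ℕ}
    (h : BadLE χ A η X Y) : ((badi χ A X Y).card : ℝ) ≤ η * X.card * Y.card := by
  refine le_trans ?_ h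
  have : (badi χ A X Y).card ≤ (badp χ A X Y).card := by
    refine card_le_card_of_injOn (fun z => (en X z.1, en Y z.2)) ?_ ?_
    · intro z hz
      have hz' := hz
      simp only [badi, mem_coe, mem_filter, mem_product, mem_range] at hz'
      simp only [badp, mem_coe, mem_filter, mem_product]
      exact ⟨⟨en_mem hz'.1.1, en_mem hz'.1.2⟩, hz'.2⟩
    · intro z hz w hw hzw
      simp only [badi, mem_coe, mem_filter, mem_product, mem_range] at hz hw
      simp only [Prod.mk.injEq] at hzw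
      exact Prod.ext (en_inj hz.1.1 hw.1.1 hzw.1) (en_inj hz.1.2 hw.1.2 hzw.2)
  exact_mod_cast this

/-- the window of the scale `s` at the corner `α` -/
private noncomputable def wd (X : Finset ℕ) (α M s : ℕ) : Finset ℕ :=
  (Ico (α + M * 2 ^ s) (α + M * 2 ^ (s + 1))).image (en X)

private theorem mem_wd {X : Finset ℕ} {α M s x : ℕ} :
    x ∈ wd X α M s ↔ ∃ p, α + M * 2 ^ s ≤ p ∧ p < α + M * 2 ^ (s + 1) ∧ en X p = x := by
  simp only [wd, mem_image, mem_Ico, and_assoc]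

private theorem wd_sub {X : Finset ℕ} {α M s : ℕ} (h : α + M * 2 ^ (s + 1) ≤ X.card) :
    wd X α M s ⊆ X := by
  intro x hx
  obtain ⟨p, -, h2, rfl⟩ := mem_wd.1 hx
  exact en_mem (lt_of_lt_of_le h2 h)

private theorem wd_card {X : Finset ℕ} {α M s : ℕ} (h : α + M * 2 ^ (s + 1) ≤ X.card) :
    (wd X α M s).card = M * 2 ^ s := by
  unfold wd
  rw [card_image_of_injOn]
  · rw [Nat.card_Ico, pow_succ]
    have : M * (2 ^ s * 2) = M * 2 ^ s + M * 2 ^ s := by ring
    rw [this]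
    omega
  · intro p hp q hq hpq
    simp only [coe_Ico, Set.mem_Ico] at hp hq
    exact en_inj (lt_of_lt_of_le hp.2 h) (lt_of_lt_of_le hq.2 h) hpq

private theorem badp_wd {χ : ℕ → ℕ → Fin r} {A : Finset (Fin r)} {X Y : Finset ℕ}
    {α β M N s t l : ℕ} (hs : s + 1 ≤ l) (ht : t + 1 ≤ l) (hX : α + M * 2 ^ l ≤ X.card)
    (hY : β + N * 2 ^ l ≤ Y.card) :
    (badp χ A (wd X α M s) (wd Y β N t)).card ≤
      (rect (badi χ A X Y) α β (M * 2 ^ l) (N * 2 ^ l)).card := by
  classical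
  have hs2 : M * 2 ^ (s + 1) ≤ M * 2 ^ l :=
    Nat.mul_le_mul_left _ (Nat.pow_le_pow_right (by norm_num) hs)
  have ht2 : N * 2 ^ (t + 1) ≤ N * 2 ^ l :=
    Nat.mul_le_mul_left _ (Nat.pow_le_pow_right (by norm_num) ht)
  have : badp χ A (wd X α M s) (wd Y β N t) ⊆
      (rect (badi χ A X Y) α β (M * 2 ^ l) (N * 2 ^ l)).image
        (fun z => (en X z.1, en Y z.2)) := by
    intro z hz
    simp only [badp, mem_filter, mem_product] at hz
    obtain ⟨⟨h1, h2⟩, h3⟩ := hz
    obtain ⟨p, hp1, hp2, hp3⟩ := mem_wd.1 h1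
    obtain ⟨q, hq1, hq2, hq3⟩ := mem_wd.1 h2
    refine mem_image.2 ⟨(p, q), ?_, Prod.ext hp3 hq3⟩
    simp only [rect, badi, mem_filter, mem_product, mem_range]
    refine ⟨⟨⟨by omega, by omega⟩, ?_⟩, ⟨?_, ?_⟩, ?_, ?_⟩
    · rw [hp3, hq3]
      exact h3
    · exact le_trans (Nat.le_add_right _ _) hp1
    · omega
    · exact le_trans (Nat.le_add_right _ _) hq1
    · omega
  exact (card_le_card this).trans card_image_le

/-- Windows exist.  Let `n i = |X i|` and let `e i : ℕ → ℕ` be the increasing enumeration of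
`X i` (indices `< n i`).  Put `M i = n i / 2 ^ (m + 2)` (so `n i ≤ 2 ^ (m + 3) * M i`, as
`n i ≥ 2 ^ (m + 3)`), `N i = n i / 2` (so `n i ≤ 3 * N i`), `θ = 36 * T ^ 2 * η`.  For `i < j < T`
let `Bad i j` be the set of the pairs of indices `(p, q)`, `p < n i`, `q < n j`, with
`χ (e i p) (e j q) ∉ A i j`; it has at most `η * n i * n j` elements.  Let `E i j` be the set of
`max_ineq` (with `a = M i`, `b = M j`); `|E i j| ≤ 4 * η * n i * n j / θ ≤ N i * N j / T ^ 2`.  By
`pick` there are `α i < N i` with `(α i, α j) ∉ E i j`.  Let `V t`, for `t = T * s + i`, be the set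
of the `e i p` with `α i + M i * 2 ^ s ≤ p < α i + M i * 2 ^ (s + 1)`; since
`α i + M i * 2 ^ m ≤ n i / 2 + n i / 4` these indices are `< n i`, and `|V t| = M i * 2 ^ s`.
If the classes `i < j` of `s`, `t` are different and `|s - t| < 2 * T`, then the scales differ by
at most `2`, and with `l` = (larger scale) `+ 1 ≤ m` the windows are contained in the rectangle
of the scale `l` at the corner `(α i, α j)`, so the number of bad pairs is at most
`4 * θ * M i * M j * 4 ^ l ≤ 64 * θ * |V s| * |V t|`.  For `i > j` use the symmetry. -/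
theorem exists_windows {T : ℕ} (hT : 2 ≤ T) {χ : ℕ → ℕ → Fin r} {X : ℕ → Finset ℕ}
    {A : ℕ → ℕ → Finset (Fin r)} {η : ℝ} {m : ℕ} (hχ : ∀ x y, χ x y = χ y x)
    (hA : ∀ i j, A i j = A j i) (hη : 0 < η)
    (hbad : ∀ i < T, ∀ j < T, i ≠ j → BadLE χ (A i j) η (X i) (X j))
    (hX : ∀ i < T, 2 ^ (m + 3) ≤ (X i).card) :
    ∃ V : ℕ → Finset ℕ, Win χ T (T * m) X A (2304 * T ^ 2 * η) V ∧
      ∀ t < T * m, (X (t % T)).card * 2 ^ (t / T) ≤ (V t).card * 2 ^ (m + 3) := by
  classical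
  have hT0 : 0 < T := by omega
  have hTR : (0 : ℝ) < T := by exact_mod_cast hT0
  obtain ⟨M, hM⟩ : ∃ M : ℕ → ℕ, ∀ i, M i = (X i).card / 2 ^ (m + 2) := ⟨_, fun _ => rfl⟩
  obtain ⟨N, hN⟩ : ∃ N : ℕ → ℕ, ∀ i, N i = (X i).card / 2 := ⟨_, fun _ => rfl⟩
  have hpow : 2 ^ (m + 3) = 2 * 2 ^ (m + 2) := by ring
  have hpow2 : 2 ^ (m + 2) = 4 * 2 ^ m := by ring
  have hpm : 0 < 2 ^ m := Nat.pow_pos (by norm_num)
  have hMle : ∀ i, M i * 2 ^ (m + 2) ≤ (X i).card := fun i => by
    rw [hM]; exact Nat.div_mul_le_self _ _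
  have hM2 : ∀ i < T, 2 ≤ M i := fun i hi => by
    rw [hM, Nat.le_div_iff_mul_le (by positivity)]
    have := hX i hi
    omega
  have hMge : ∀ i < T, (X i).card ≤ 2 ^ (m + 3) * M i := fun i hi => by
    have h1 : (X i).card < (M i + 1) * 2 ^ (m + 2) := by
      rw [hM]
      have := Nat.lt_div_mul_add (a := (X i).card) (b := 2 ^ (m + 2)) (by positivity)
      rw [Nat.add_mul, Nat.one_mul]
      exact this
    have h2 := hM2 i hi
    rw [hpow]
    nlinarith [Nat.pow_pos (n := m + 2) (show 0 < 2 by norm_num)]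
  have hNge : ∀ i < T, (X i).card ≤ 3 * N i := fun i hi => by
    have h1 := hX i hi
    have h3 := hN i
    omega
  have hN1 : ∀ i < T, 1 ≤ N i := fun i hi => by
    have h1 := hX i hi
    have h3 := hN i
    omega
  obtain ⟨θ, hθ⟩ : ∃ θ : ℝ, θ = 36 * T ^ 2 * η := ⟨_, rfl⟩
  have hθ0 : 0 < θ := by rw [hθ]; positivity
  -- the exceptional sets
  have hE : ∀ i j, ∃ E : Finset (ℕ × ℕ), i < j → j < T →
      ((T : ℝ) ^ 2 * E.card ≤ N i * N j ∧ ∀ x y, (x, y) ∉ E → ∀ s ≤ m,
      ((rect (badi χ (A i j) (X i) (X j)) x y (M i * 2 ^ s) (M j * 2 ^ s)).card : ℝ) ≤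
        4 * θ * ((M i * 2 ^ s : ℕ) : ℝ) * ((M j * 2 ^ s : ℕ) : ℝ)) := by
    intro i j
    by_cases hij : i < j ∧ j < T
    · obtain ⟨h1, h2⟩ := hij
      have hiT : i < T := h1.trans h2
      have hMi : 1 ≤ M i := le_trans (by norm_num) (hM2 i hiT)
      have hMj : 1 ≤ M j := le_trans (by norm_num) (hM2 j h2)
      obtain ⟨E, hE1, hE2⟩ := max_ineq hMi hMj (badi χ (A i j) (X i) (X j)) m hθ0
      refine ⟨E, fun _ _ => ⟨?_, hE2⟩⟩
      have hb := badi_card (hbad i hiT j h2 h1.ne)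
      have hni : ((X i).card : ℝ) ≤ 3 * N i := by exact_mod_cast hNge i hiT
      have hnj : ((X j).card : ℝ) ≤ 3 * N j := by exact_mod_cast hNge j h2
      have h3 : ((X i).card : ℝ) * (X j).card ≤ 9 * (N i * N j) := by
        calc ((X i).card : ℝ) * (X j).card ≤ (3 * N i) * (3 * N j) :=
              mul_le_mul hni hnj (by positivity) (by positivity)
          _ = 9 * (N i * N j) := by ring
      have h4 : 36 * η * ((T : ℝ) ^ 2 * E.card) ≤ 36 * η * (N i * N j) := by
        calc 36 * η * ((T : ℝ) ^ 2 * E.card) = θ * E.card := by rw [hθ]; ring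
          _ ≤ 4 * (badi χ (A i j) (X i) (X j)).card := hE1
          _ ≤ 4 * (η * (X i).card * (X j).card) := by linarith
          _ = 4 * η * ((X i).card * (X j).card) := by ring
          _ ≤ 4 * η * (9 * (N i * N j)) := mul_le_mul_of_nonneg_left h3 (by positivity)
          _ = 36 * η * (N i * N j) := by ring
      exact le_of_mul_le_mul_left h4 (by positivity)
    · exact ⟨∅, fun h1 h2 => absurd ⟨h1, h2⟩ hij⟩
  choose E hE using hE
  obtain ⟨α, hα1, hα2⟩ := pick (T := T) N hN1 E (fun i j h1 h2 => (hE i j h1 h2).1)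
  -- indices
  have hidx : ∀ i < T, ∀ l ≤ m, α i + M i * 2 ^ l ≤ (X i).card := by
    intro i hi l hl
    have h1 := hα1 i hi
    have h2 := hMle i
    have h3 : M i * 2 ^ l ≤ M i * 2 ^ m :=
      Nat.mul_le_mul_left _ (Nat.pow_le_pow_right (by norm_num) hl)
    have h4 : M i * 2 ^ (m + 2) = 4 * (M i * 2 ^ m) := by ring
    have h5 := hN i
    omega
  have hdiv : ∀ t < T * m, t / T < m := fun t ht => Nat.div_lt_of_lt_mul ht
  have hmod : ∀ t, t % T < T := fun t => Nat.mod_lt _ hT0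
  obtain ⟨V, hV⟩ : ∃ V : ℕ → Finset ℕ,
      ∀ t, V t = wd (X (t % T)) (α (t % T)) (M (t % T)) (t / T) := ⟨_, fun _ => rfl⟩
  have hVc : ∀ t < T * m, (V t).card = M (t % T) * 2 ^ (t / T) := fun t ht => by
    rw [hV]
    exact wd_card (hidx _ (hmod t) _ (hdiv t ht))
  -- the main estimate
  have hmain : ∀ s t, s < T * m → t < T * m → s % T < t % T → s < t + 2 * T → t < s + 2 * T →
      BadLE χ (A (s % T) (t % T)) (2304 * T ^ 2 * η) (V s) (V t) := by
    intro s t hs ht hst h1 h2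
    have hs' := hdiv s hs
    have ht' := hdiv t ht
    have hd1 : s / T ≤ t / T + 2 := by
      have : s / T ≤ (t + 2 * T) / T := Nat.div_le_div_right h1.le
      rwa [Nat.add_mul_div_right _ _ hT0] at this
    have hd2 : t / T ≤ s / T + 2 := by
      have : t / T ≤ (s + 2 * T) / T := Nat.div_le_div_right h2.le
      rwa [Nat.add_mul_div_right _ _ hT0] at this
    obtain ⟨l, hl⟩ : ∃ l, l = max (s / T) (t / T) + 1 := ⟨_, rfl⟩
    have hlm : l ≤ m := by omega
    have hsl : s / T + 1 ≤ l := by omega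
    have htl : t / T + 1 ≤ l := by omega
    have h3 : (badp χ (A (s % T) (t % T)) (V s) (V t)).card ≤
        (rect (badi χ (A (s % T) (t % T)) (X (s % T)) (X (t % T))) (α (s % T)) (α (t % T))
          (M (s % T) * 2 ^ l) (M (t % T) * 2 ^ l)).card := by
      rw [hV s, hV t]
      exact badp_wd hsl htl (hidx _ (hmod s) l hlm) (hidx _ (hmod t) l hlm)
    have h4 := (hE (s % T) (t % T) hst (hmod t)).2 (α (s % T)) (α (t % T))
      (hα2 _ _ hst (hmod t)) l hlm
    have h5 : (2 ^ l : ℕ) * 2 ^ l ≤ 16 * (2 ^ (s / T) * 2 ^ (t / T)) := by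
      have : (16 : ℕ) * (2 ^ (s / T) * 2 ^ (t / T)) = 2 ^ (s / T + t / T + 4) := by
        rw [pow_add, pow_add]; ring
      rw [this, ← pow_add]
      exact Nat.pow_le_pow_right (by norm_num) (by omega)
    unfold BadLE
    rw [hVc s hs, hVc t ht]
    have h6 : ((badp χ (A (s % T) (t % T)) (V s) (V t)).card : ℝ) ≤
        4 * θ * ((M (s % T) * 2 ^ l : ℕ) : ℝ) * ((M (t % T) * 2 ^ l : ℕ) : ℝ) :=
      le_trans (by exact_mod_cast h3) h4
    refine h6.trans ?_
    have h7 : (((2 : ℝ) ^ l) * 2 ^ l) ≤ 16 * (2 ^ (s / T) * 2 ^ (t / T)) := by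
      exact_mod_cast h5
    push_cast
    calc 4 * θ * ((M (s % T) : ℝ) * 2 ^ l) * ((M (t % T) : ℝ) * 2 ^ l) =
          (4 * θ * (M (s % T) * M (t % T))) * ((2 : ℝ) ^ l * 2 ^ l) := by ring
      _ ≤ (4 * θ * (M (s % T) * M (t % T))) * (16 * (2 ^ (s / T) * 2 ^ (t / T))) :=
          mul_le_mul_of_nonneg_left h7 (by positivity)
      _ = 2304 * (T : ℝ) ^ 2 * η * ((M (s % T) : ℝ) * 2 ^ (s / T)) *
          ((M (t % T) : ℝ) * 2 ^ (t / T)) := by rw [hθ]; ring
  refine ⟨V, ⟨?_, ?_, ?_, ?_⟩, ?_⟩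
  · intro t ht
    rw [hV]
    exact wd_sub (hidx _ (hmod t) _ (hdiv t ht))
  · intro s t hst ht hc x hx y hy
    rw [hV] at hx hy
    rw [← hc] at hy
    obtain ⟨p, -, hp2, rfl⟩ := mem_wd.1 hx
    obtain ⟨q, hq1, hq2, rfl⟩ := mem_wd.1 hy
    have hdd : s / T < t / T := by
      by_contra hcon
      rw [not_lt] at hcon
      have h1 := Nat.div_add_mod s T
      have h2 := Nat.div_add_mod t T
      have h3 : T * (t / T) ≤ T * (s / T) := Nat.mul_le_mul_left _ hcon
      omega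
    have h1 : M (s % T) * 2 ^ (s / T + 1) ≤ M (s % T) * 2 ^ (t / T) :=
      Nat.mul_le_mul_left _ (Nat.pow_le_pow_right (by norm_num) hdd)
    refine en_lt ?_ (by omega)
    exact lt_of_lt_of_le hq2 (hidx _ (hmod s) _ (hdiv t ht))
  · intro s t hst ht hc
    rw [hVc s (lt_of_le_of_lt hst ht), hVc t ht, ← hc]
    exact Nat.mul_le_mul_left _ (Nat.pow_le_pow_right (by norm_num) (Nat.div_le_div_right hst))
  · intro s t hs ht hne h1 h2
    rcases lt_or_gt_of_ne hne with h | h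
    · exact hmain s t hs ht h h1 h2
    · rw [hA]
      exact BadLE.symm hχ (hmain t s ht hs h h2 h1)
  · intro t ht
    rw [hVc t ht]
    calc (X (t % T)).card * 2 ^ (t / T) ≤ (2 ^ (m + 3) * M (t % T)) * 2 ^ (t / T) :=
          Nat.mul_le_mul_right _ (hMge _ (hmod t))
      _ = M (t % T) * 2 ^ (t / T) * 2 ^ (m + 3) := by ring

end Pool.Agent.OrdTW
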