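import Mathlib
import Pool.Agent.Lib.MP_5b01b8_co_TW.Inner
import Pool.Agent.Lib.MP_5b01b8_co_TW.Join
import Pool.Agent.Lib.MP_5b01b8_co_TW.Loc

/-!
# MP_5b01b8_co (TW), module Step: the outer induction
-/

set_option autoImplicit false

namespace Pool.Agent.OrdTW

open Finset

variable {r : ℕ}

/-- If no colour is alive between two different classes `0, 1 < T`, then the density of the dead
colours is one, a contradiction to `η < 1` (`BadLE.nonempty`; the sets are not empty as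
`C * K * 2 ^ (H / T) ≥ 1`). -/
theorem Rk_zero (r T : ℕ) (hT : 2 ≤ T) : Rk r T 0 := by
  refine ⟨1 / 2, 1, 1, 1, by norm_num, by norm_num, by norm_num, le_rfl, by norm_num, le_rfl,
    le_rfl, ?_⟩
  intro χ X A K H hχ hA hka hK hbad hX
  exfalso
  have hXne : ∀ i < T, (X i).Nonempty := by
    intro i hi
    rw [← card_pos]
    have h1 := hX i hi
    have h2 : 0 < 1 * K * 2 ^ (H / T) := by positivity
    omega
  have hne : (A 0 1).Nonempty := BadLE.nonempty (hbad 0 (by omega) 1 (by omega) (by norm_num))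
    (by norm_num) (hXne 0 (by omega)) (hXne 1 (by omega))
  have h1 : (A 0 1).card ≤ ka T A := by
    unfold ka
    have h2 : (A 0 1).card ≤ ∑ j ∈ range T, if 0 = j then 0 else (A 0 j).card := by
      have := single_le_sum (f := fun j => if 0 = j then 0 else (A 0 j).card)
        (fun j _ => Nat.zero_le _) (mem_range.2 (show 1 < T by omega))
      simpa using this
    refine h2.trans ?_
    exact single_le_sum (f := fun i => ∑ j ∈ range T, if i = j then 0 else (A i j).card)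
      (fun j _ => Nat.zero_le _) (mem_range.2 (show 0 < T by omega))
  have h3 := card_pos.2 hne
  omega

/-- A symmetric choice of alive colours. -/
theorem exists_phi {T : ℕ} {A : ℕ → ℕ → Finset (Fin r)} (hT : 2 ≤ T) (hA : ∀ i j, A i j = A j i)
    (hne : ∀ i < T, ∀ j < T, i ≠ j → (A i j).Nonempty) :
    ∃ φ : ℕ → ℕ → Fin r, (∀ i j, φ i j = φ j i) ∧ ∀ i < T, ∀ j < T, i ≠ j → φ i j ∈ A i j := by
  classical
  obtain ⟨c, -⟩ := hne 0 (by omega) 1 (by omega) (by norm_num)
  refine ⟨fun i j => if h : (A (min i j) (max i j)).Nonempty then h.choose else c, ?_, ?_⟩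
  · intro i j
    simp only [min_comm i j, max_comm i j]
  · intro i hi j hj hij
    have h1 : A (min i j) (max i j) = A i j := by
      rcases le_total i j with h | h
      · rw [min_eq_left h, max_eq_right h]
      · rw [min_eq_right h, max_eq_left h, hA]
    have h2 : (A (min i j) (max i j)).Nonempty := by
      rw [h1]
      exact hne i hi j hj hij
    have h3 := h2.choose_spec
    simp only [dif_pos h2]
    exact h1 ▸ h3

/-- the size of the windows -/
private theorem window_size {T C K H t n v : ℕ} (hT : 0 < T) (hn : C * K * 2 ^ (H / T) ≤ n)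
    (h : n * 2 ^ (t / T) ≤ v * 2 ^ (H / T + 3 + 3)) :
    C * K * 2 ^ (t / T) ≤ 64 * v ∧ (H ≤ t + T → n ≤ 128 * v) := by
  have hp : 0 < 2 ^ (H / T) := Nat.pow_pos (by norm_num)
  have e1 : v * 2 ^ (H / T + 3 + 3) = 64 * v * 2 ^ (H / T) := by ring
  rw [e1] at h
  refine ⟨?_, ?_⟩
  · refine Nat.le_of_mul_le_mul_right ?_ hp
    calc C * K * 2 ^ (t / T) * 2 ^ (H / T) = C * K * 2 ^ (H / T) * 2 ^ (t / T) := by ring
      _ ≤ n * 2 ^ (t / T) := Nat.mul_le_mul_right _ hn
      _ ≤ _ := h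
  · intro hH
    have h1 : H / T ≤ t / T + 1 := by
      have := Nat.div_le_div_right (c := T) hH
      rwa [Nat.add_div_right _ hT] at this
    have h2 : 2 ^ (H / T) ≤ 2 * 2 ^ (t / T) := by
      calc 2 ^ (H / T) ≤ 2 ^ (t / T + 1) := Nat.pow_le_pow_right (by norm_num) h1
        _ = 2 * 2 ^ (t / T) := by ring
    refine Nat.le_of_mul_le_mul_right ?_ hp
    calc n * 2 ^ (H / T) ≤ n * (2 * 2 ^ (t / T)) := Nat.mul_le_mul_left _ h2
      _ = 2 * (n * 2 ^ (t / T)) := by ring
      _ ≤ 2 * (64 * v * 2 ^ (H / T)) := Nat.mul_le_mul_left _ h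
      _ = 128 * v * 2 ^ (H / T) := by ring

/-- The outer step.  Let `η0, κ0, D0, C0` be the constants of `Rk r T k` (only used through
`inner r T k hT hk k le_rfl`), and `β, e, G, D1, C1` those of `inner`.  Put `d = min β D1`
(`≤ 1`: `D1 ≤ 1`), `q = d ^ (T - 1)`, `κ1 = G * q ^ 2`, `u = rho T d * κ1`, `y = q`,
`η = min (1 / 2) (e * (u * y ^ 2) / (2304 * T ^ 2))`, `κ = G * (u * y ^ 2) / 128`, `D = d`,
`C ≥ 64 * C1 / (u * y ^ 2)`, `C ≥ 64`.

Let `m = H / T + 3`; `exists_windows` gives windows `V t`, `t < T * m`, `T * m ≥ H + 2 * T`, with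
density of the dead colours at most `2304 * T ^ 2 * η` and
`|V t| ≥ |X (t % T)| * 2 ^ (t / T) / 2 ^ (m + 3) ≥ (C / 64) * K * 2 ^ (t / T)`, and
`|V t| ≥ |X (t % T)| / 128` if `H ≤ t + T`.  The alive sets are not empty (`BadLE.nonempty`).
Tests: `OT T χ a κ1 d (V s) (V t)` for `s < t < s + T`, `t < H`, `a ∈ A (s % T) (t % T)`.
If all pass: `W = V`, `φ` from `exists_phi`, `dd = d`.
Otherwise let `t0 < H` be the largest target for which a test fails, for `s = i0` and `a`;
`not_OT` gives `U ⊆ V i0`, `Z ⊆ V t0`; take `Y = update V t0 Z` and `A'` = `A` without `a` at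
`(i0 % T, t0 % T)` and its transpose, `ka T A' + 1 ≤ ka T A ≤ k + 1`.  `Inn` holds with
`u, y, β` (`d ≤ β`).  `L = min H (t0 + T)`; `inner` gives `Concl` with
`κ1 = G * y ^ 2`, `κ2 = G * (u * y ^ 2)`.  If `L = H` we are done (`κ2 * |V t| ≤ |W t|` and
`|V t| ≥ |X| / 128` for the last `T` levels), otherwise use `join`. -/
theorem Rk_succ (r T k : ℕ) (hT : 2 ≤ T) (hk : Rk r T k) : Rk r T (k + 1) := by
  classical
  have hT0 : 0 < T := by omega
  have hTR : (2 : ℝ) ≤ T := by exact_mod_cast hT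
  obtain ⟨β, e, G, D1, C1, hβ, he, hG, hG1, hD1, hD11, hC1, hin⟩ := inner r T k hT hk k le_rfl
  obtain ⟨d, hd⟩ : ∃ d : ℝ, d = min β D1 := ⟨_, rfl⟩
  have hd0 : 0 < d := by rw [hd]; exact lt_min hβ hD1
  have hdβ : d ≤ β := by rw [hd]; exact min_le_left _ _
  have hdD : d ≤ D1 := by rw [hd]; exact min_le_right _ _
  have hd1 : d ≤ 1 := hdD.trans hD11
  obtain ⟨q, hq⟩ : ∃ q : ℝ, q = d ^ (T - 1) := ⟨_, rfl⟩
  have hq0 : 0 < q := by rw [hq]; exact pow_pos hd0 _
  have hq1 : q ≤ 1 := by rw [hq]; exact pow_le_one₀ hd0.le hd1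
  obtain ⟨κ1, hκ1⟩ : ∃ κ1 : ℝ, κ1 = G * q ^ 2 := ⟨_, rfl⟩
  have hκ10 : 0 < κ1 := by rw [hκ1]; positivity
  have hq21 : q ^ 2 ≤ 1 := pow_le_one₀ hq0.le hq1
  have hκ11 : κ1 ≤ 1 := by
    rw [hκ1]
    exact mul_le_one₀ hG1 (by positivity) hq21
  have hρ0 : 0 < rho T d := rho_pos hT hd0
  have hρ1 : rho T d ≤ 1 := rho_le_one hT hd0 hd1
  obtain ⟨u, hu⟩ : ∃ u : ℝ, u = rho T d * κ1 := ⟨_, rfl⟩
  have hu0 : 0 < u := by rw [hu]; positivity
  have hu1 : u ≤ 1 := by
    rw [hu]
    exact mul_le_one₀ hρ1 hκ10.le hκ11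
  have huq0 : 0 < u * q ^ 2 := by positivity
  have huq1 : u * q ^ 2 ≤ 1 := mul_le_one₀ hu1 (by positivity) hq21
  obtain ⟨η, hη⟩ : ∃ η : ℝ, η = min (1 / 2) (e * (u * q ^ 2) / (2304 * T ^ 2)) := ⟨_, rfl⟩
  have hη0 : 0 < η := by rw [hη]; exact lt_min (by norm_num) (by positivity)
  have hη2 : η ≤ 1 / 2 := by rw [hη]; exact min_le_left _ _
  have hη3 : 2304 * T ^ 2 * η ≤ e * (u * q ^ 2) := by
    have h1 : η ≤ e * (u * q ^ 2) / (2304 * T ^ 2) := by rw [hη]; exact min_le_right _ _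
    rw [le_div_iff₀ (by positivity)] at h1
    linarith
  obtain ⟨κ2, hκ2⟩ : ∃ κ2 : ℝ, κ2 = G * (u * q ^ 2) := ⟨_, rfl⟩
  have hκ20 : 0 < κ2 := by rw [hκ2]; positivity
  have hκ21 : κ2 ≤ κ1 := by
    rw [hκ2, hκ1]
    refine mul_le_mul_of_nonneg_left ?_ hG.le
    nlinarith [sq_nonneg q]
  obtain ⟨C, hC⟩ : ∃ C : ℕ, 64 * C1 / (u * q ^ 2) ≤ C := exists_nat_ge _
  obtain ⟨C', hC'⟩ : ∃ C' : ℕ, C' = C + 64 := ⟨_, rfl⟩
  refine ⟨η, κ2 / 128, d, C', hη0, by linarith, by positivity, by linarith, hd0, hd1,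
    by omega, ?_⟩
  intro χ X A K H hχ hA hka hK hbad hX
  -- the windows
  have hXm : ∀ i < T, 2 ^ (H / T + 3 + 3) ≤ (X i).card := by
    intro i hi
    refine le_trans ?_ (hX i hi)
    calc 2 ^ (H / T + 3 + 3) = 64 * 1 * 2 ^ (H / T) := by ring
      _ ≤ C' * K * 2 ^ (H / T) :=
        Nat.mul_le_mul_right _ (Nat.mul_le_mul (by omega) hK)
  obtain ⟨V, hW, hVX⟩ := exists_windows hT hχ hA hη0 hbad hXm
  have hH' : H + 2 * T ≤ T * (H / T + 3) := by
    have h1 := Nat.div_add_mod H T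
    have h2 := Nat.mod_lt H hT0
    have h3 : T * (H / T + 3) = T * (H / T) + 3 * T := by ring
    omega
  have hmod : ∀ t, t % T < T := fun t => Nat.mod_lt _ hT0
  have hsz : ∀ t < H + 2 * T, C' * K * 2 ^ (t / T) ≤ 64 * (V t).card ∧
      (H ≤ t + T → (X (t % T)).card ≤ 128 * (V t).card) := by
    intro t ht
    exact window_size hT0 (hX _ (hmod t)) (hVX t (by omega))
  have hVK : ∀ t < H + 2 * T, K * 2 ^ (t / T) ≤ (V t).card := by
    intro t ht
    have h1 := (hsz t ht).1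
    have h2 : 64 * K * 2 ^ (t / T) ≤ C' * K * 2 ^ (t / T) :=
      Nat.mul_le_mul_right _ (Nat.mul_le_mul_right _ (by omega))
    have h3 : 64 * K * 2 ^ (t / T) = 64 * (K * 2 ^ (t / T)) := by ring
    omega
  have hVC : ∀ t < H + 2 * T, (C1 : ℝ) * K * 2 ^ (t / T) ≤ u * q ^ 2 * (V t).card := by
    intro t ht
    have h1 : (C : ℝ) * K * 2 ^ (t / T) ≤ 64 * (V t).card := by
      have h2 := (hsz t ht).1
      have h3 : C * K * 2 ^ (t / T) ≤ C' * K * 2 ^ (t / T) :=
        Nat.mul_le_mul_right _ (Nat.mul_le_mul_right _ (by omega))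
      exact_mod_cast h3.trans h2
    have h2 : 64 * (C1 : ℝ) ≤ C * (u * q ^ 2) := by
      rwa [div_le_iff₀ huq0] at hC
    have h3 : (0 : ℝ) ≤ K * 2 ^ (t / T) := by positivity
    have h4 : 64 * ((C1 : ℝ) * K * 2 ^ (t / T)) ≤ 64 * (u * q ^ 2 * (V t).card) := by
      calc 64 * ((C1 : ℝ) * K * 2 ^ (t / T)) = 64 * (C1 : ℝ) * (K * 2 ^ (t / T)) := by ring
        _ ≤ C * (u * q ^ 2) * (K * 2 ^ (t / T)) := mul_le_mul_of_nonneg_right h2 h3
        _ = u * q ^ 2 * (C * K * 2 ^ (t / T)) := by ring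
        _ ≤ u * q ^ 2 * (64 * (V t).card) := mul_le_mul_of_nonneg_left h1 huq0.le
        _ = 64 * (u * q ^ 2 * (V t).card) := by ring
    linarith
  -- it is enough to find the conclusion for the windows
  have hfin : ∀ κ2' D : ℝ, κ2 ≤ κ2' → d ≤ D → ∀ κ' t0, Concl χ T X A V K t0 H κ' κ2' D →
      ∃ (W : ℕ → Finset ℕ) (φ : ℕ → ℕ → Fin r) (dd : ℕ → ℝ), Chain χ T H W φ dd ∧
        (∀ t < H, d ≤ dd t) ∧ (∀ i j, φ i j = φ j i) ∧
        (∀ i < T, ∀ j < T, i ≠ j → φ i j ∈ A i j) ∧ (∀ t < H, W t ⊆ X (t % T)) ∧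
        (∀ t < H, K * 2 ^ (t / T) ≤ (W t).card) ∧
        (∀ t < H, H ≤ t + T → κ2 / 128 * (X (t % T)).card ≤ (W t).card) := by
    rintro κ2' D h1 h2 κ' t0 ⟨W, φ, dd, hc, hD, hφ, hφA, hWX, hWK, -, hlast⟩
    refine ⟨W, φ, dd, hc, fun t ht => h2.trans (hD t ht), hφ, hφA, hWX, hWK, ?_⟩
    intro t ht htT
    have h3 := hlast t ht htT
    have h4 : ((X (t % T)).card : ℝ) ≤ 128 * (V t).card := by
      exact_mod_cast (hsz t (by omega)).2 htT
    calc κ2 / 128 * (X (t % T)).card ≤ κ2 / 128 * (128 * (V t).card) :=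
          mul_le_mul_of_nonneg_left h4 (by positivity)
      _ = κ2 * (V t).card := by ring
      _ ≤ κ2' * (V t).card := mul_le_mul_of_nonneg_right h1 (by positivity)
      _ ≤ (W t).card := h3
  by_cases hall : ∀ t < H, ∀ s, s < t → t < s + T → ∀ a ∈ A (s % T) (t % T),
      OT T χ a κ1 d (V s) (V t)
  · -- all tests pass
    have hXne : ∀ i < T, (X i).Nonempty := by
      intro i hi
      rw [← card_pos]
      exact lt_of_lt_of_le (Nat.pow_pos (by norm_num)) (hXm i hi)
    obtain ⟨φ, hφ, hφA⟩ := exists_phi hT hA (fun i hi j hj hij =>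
      BadLE.nonempty (hbad i hi j hj hij) (by linarith) (hXne i hi) (hXne j hj))
    refine hfin 1 d ?_ le_rfl 1 H ?_
    · linarith
    refine ⟨V, φ, fun _ => d, ⟨?_, fun _ _ _ _ => le_rfl, fun _ _ => ⟨hd0, hd1⟩, ?_⟩,
      fun _ _ => le_rfl, hφ, hφA, fun t ht => hW.sub t (by omega), fun t ht => hVK t (by omega),
      fun t ht1 ht2 => absurd ht1 (by omega), fun t _ _ => by rw [one_mul]⟩
    · exact fun s t h1 h2 h3 => hW.order s t h1 (by omega) h3
    · intro s t h1 h2 h3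
      have hne : s % T ≠ t % T := by
        intro h
        have h4 : T ∣ t - s := (Nat.modEq_iff_dvd' h1.le).1 h
        have h5 := Nat.le_of_dvd (by omega) h4
        omega
      exact OT.weaken hd0.le (hall t h3 s h1 h2 _ (hφA _ (hmod s) _ (hmod t) hne)) hκ11
  · -- a test fails
    obtain ⟨S, hS⟩ : ∃ S : Finset ℕ, S = (range H).filter fun t => ∃ s, s < t ∧ t < s + T ∧
      ∃ a ∈ A (s % T) (t % T), ¬ OT T χ a κ1 d (V s) (V t) := ⟨_, rfl⟩
    have hSne : S.Nonempty := by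
      push Not at hall
      obtain ⟨t, ht, s, h1, h2, a, ha, h3⟩ := hall
      refine ⟨t, ?_⟩
      rw [hS]
      exact mem_filter.2 ⟨mem_range.2 ht, s, h1, h2, a, ha, h3⟩
    obtain ⟨t0, ht0⟩ : ∃ t0, t0 = S.max' hSne := ⟨_, rfl⟩
    have ht0S : t0 ∈ S := by rw [ht0]; exact max'_mem _ _
    have hmax : ∀ t ∈ S, t ≤ t0 := fun t ht => by rw [ht0]; exact le_max' _ _ ht
    have ht0' := ht0S
    rw [hS, mem_filter, mem_range] at ht0'
    obtain ⟨ht0H, i0, hi1, hi2, a, ha, hnot⟩ := ht0'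
    obtain ⟨U, hU, Z, hZ, hZc, hUc, -, hdead⟩ := not_OT hκ10.le hd0.le hnot
    have hne0 : i0 % T ≠ t0 % T := by
      intro h
      have h4 : T ∣ t0 - i0 := (Nat.modEq_iff_dvd' hi1.le).1 h
      have h5 := Nat.le_of_dvd (by omega) h4
      omega
    obtain ⟨A', hA'⟩ : ∃ A' : ℕ → ℕ → Finset (Fin r), A' = fun i j =>
      if (i = i0 % T ∧ j = t0 % T) ∨ (i = t0 % T ∧ j = i0 % T) then (A i j).erase a
      else A i j := ⟨_, rfl⟩
    have hA'sub : ∀ i j, A' i j ⊆ A i j := by
      intro i j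
      rw [hA']
      dsimp only
      split_ifs with h
      · exact erase_subset _ _
      · exact Subset.refl _
    have hka' : ka T A' ≤ k := by
      have h1 : ka T A' + 1 ≤ ka T A := by
        refine ka_lt hA'sub (hmod i0) (hmod t0) hne0 ha ?_
        rw [hA']
        dsimp only
        rw [if_pos (Or.inl ⟨rfl, rfl⟩)]
        exact notMem_erase _ _
      omega
    have hInn : Inn χ T t0 i0 A A' V U (Function.update V t0 Z) u q β := by
      refine ⟨hi1, hi2, hU, ?_, ?_, ?_, ?_, ?_, hA'sub, ?_, ?_⟩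
      · rw [hu]
        exact hUc
      · intro t _ _
        by_cases h : t = t0
        · rw [h, Function.update_self]
          exact hZ
        · rw [Function.update_of_ne h]
      · intro t _ _
        by_cases h : t = t0
        · rw [h, Function.update_self, hq]
          exact hZc
        · rw [Function.update_of_ne h]
          exact mul_le_of_le_one_left (by positivity) hq1
      · rw [Function.update_of_ne (by omega)]
      · intro i j
        rw [hA']
        dsimp only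
        rw [hA i j]
        by_cases h : (i = i0 % T ∧ j = t0 % T) ∨ (i = t0 % T ∧ j = i0 % T)
        · rw [if_pos h, if_pos (h.symm.imp And.symm And.symm)]
        · rw [if_neg h, if_neg (fun h' => h (h'.symm.imp And.symm And.symm))]
      · intro i j h1 h2
        rw [hA']
        dsimp only
        rw [if_neg (by tauto)]
      · intro t ht1 ht2 ht3 b hb hb' x hx
        rw [hA'] at hb'
        dsimp only at hb'
        have htt : t % T = t0 % T := by
          by_contra hcon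
          rw [if_neg (by tauto)] at hb'
          exact hb' hb
        have htt0 : t = t0 := by
          by_contra hcon
          have h4 : T ∣ t - t0 := (Nat.modEq_iff_dvd' ht1).1 htt.symm
          have h5 := Nat.le_of_dvd (by omega) h4
          omega
        subst htt0
        rw [if_pos (Or.inl ⟨rfl, rfl⟩)] at hb'
        have hba : b = a := by
          by_contra hcon
          exact hb' (mem_erase.2 ⟨hcon, hb⟩)
        rw [hba, Function.update_self]
        exact (hdead x hx).trans (mul_le_mul_of_nonneg_right hdβ (by positivity))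
    have hkey : ∀ L, t0 < L → L ≤ t0 + T → Concl χ T X A V K t0 L κ1 κ2 D1 := by
      intro L hL1 hL2
      rw [hκ1, hκ2]
      exact hin χ X A A' V K (T * (H / T + 3)) t0 i0 L U (Function.update V t0 Z) u q
        (2304 * T ^ 2 * η) hχ hA hka hka' hK hW (by omega) hL1 hL2 hu0 hu1 hq0 hq1
        (by positivity) hη3 (fun t ht => hVC t (by omega)) hInn
    rcases le_or_gt H (t0 + T) with hcase | hcase
    · exact hfin κ2 D1 le_rfl hdD κ1 t0 (hkey H ht0H hcase)
    · refine hfin κ2 d le_rfl le_rfl κ2 H ?_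
      refine join hT hW (by omega) hcase hκ20 hκ21 hκ11 hd0 hd1 hdD hK
        (fun t ht => hVK t (by omega)) (hkey _ (by omega) le_rfl) ?_
      intro s t h1 h2 h3 h4 b hb
      by_contra hcon
      have h5 : t ∈ S := by
        rw [hS]
        exact mem_filter.2 ⟨mem_range.2 h4, s, h2, h3, b, hb, hcon⟩
      have h6 := hmax t h5
      omega

theorem Rk_all (r T k : ℕ) (hT : 2 ≤ T) : Rk r T k := by
  induction k with
  | zero => exact Rk_zero r T hT
  | succ k ih => exact Rk_succ r T k hT ih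

end Pool.Agent.OrdTW
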