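import Mathlib
import Pool.Agent.Lib.MP_5b01b8_co_TW.Exc

/-!
# MP_5b01b8_co (TW), module Suc: from a chain of windows to successor sets
-/

set_option autoImplicit false

namespace Pool.Agent.OrdTW

open Finset

variable {r : ℕ}

/-- the probability of the exceptional event of the level `t'` after `n` steps -/
private noncomputable def Pr (χ : ℕ → ℕ → Fin r) (T : ℕ) (W : ℕ → Finset ℕ)
    (φ : ℕ → ℕ → Fin r) (dd : ℕ → ℝ) (t' n t : ℕ) (x : ℕ → ℕ) : ℝ :=
  av (fun i _ => W i) (exc χ T W φ dd t') n t x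

private theorem Pr_succ (χ : ℕ → ℕ → Fin r) (T : ℕ) (W : ℕ → Finset ℕ)
    (φ : ℕ → ℕ → Fin r) (dd : ℕ → ℝ) (t' n t : ℕ) (x : ℕ → ℕ) :
    Pr χ T W φ dd t' (n + 1) t x =
      (∑ y ∈ W t, Pr χ T W φ dd t' n (t + 1) (Function.update x t y)) / (W t).card := by
  unfold Pr
  rw [av]

private theorem Pr_nonneg (χ : ℕ → ℕ → Fin r) (T : ℕ) (W : ℕ → Finset ℕ)
    (φ : ℕ → ℕ → Fin r) (dd : ℕ → ℝ) (t' n t : ℕ) (x : ℕ → ℕ) :
    0 ≤ Pr χ T W φ dd t' n t x := av_nonneg _ _ _ _

private theorem good_dep (χ : ℕ → ℕ → Fin r) (T : ℕ) (W : ℕ → Finset ℕ)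
    (φ : ℕ → ℕ → Fin r) (t : ℕ) {x x' : ℕ → ℕ}
    (h : ∀ s < t, t < s + T → x s = x' s) : good χ T W φ t t x = good χ T W φ t t x' := by
  classical
  unfold good
  refine Finset.filter_congr fun y _ => ?_
  constructor
  · intro h1 s hs hsT hst
    rw [← h s hs hsT]
    exact h1 s hs hsT hst
  · intro h1 s hs hsT hst
    rw [h s hs hsT]
    exact h1 s hs hsT hst

private theorem Pr_dep (χ : ℕ → ℕ → Fin r) (T : ℕ) (W : ℕ → Finset ℕ)
    (φ : ℕ → ℕ → Fin r) (dd : ℕ → ℝ) (t' : ℕ) : ∀ (n t : ℕ) (x x' : ℕ → ℕ), t + n = t' →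
      (∀ s < t, t' < s + T → x s = x' s) →
      Pr χ T W φ dd t' n t x = Pr χ T W φ dd t' n t x' := by
  intro n
  induction n with
  | zero =>
    intro t x x' ht h
    have ht' : t = t' := by omega
    subst ht'
    unfold Pr
    rw [av, av]
    have e : x ∈ exc χ T W φ dd t ↔ x' ∈ exc χ T W φ dd t := by
      unfold exc
      simp only [Set.mem_setOf_eq]
      rw [good_dep χ T W φ t h]
    by_cases hx : x ∈ exc χ T W φ dd t
    · rw [if_pos hx, if_pos (e.1 hx)]
    · rw [if_neg hx, if_neg fun h => hx (e.2 h)]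
  | succ n ih =>
    intro t x x' ht h
    rw [Pr_succ, Pr_succ]
    congr 1
    refine Finset.sum_congr rfl fun y _ => ?_
    refine ih (t + 1) _ _ (by omega) fun s hs hsT => ?_
    by_cases hst : s = t
    · subst hst
      rw [Function.update_self, Function.update_self]
    · rw [Function.update_of_ne hst, Function.update_of_ne hst]
      exact h s (by omega) hsT

open Classical in
/-- the successor sets -/
private noncomputable def SS (T H : ℕ) (χ : ℕ → ℕ → Fin r) (W : ℕ → Finset ℕ)
    (φ : ℕ → ℕ → Fin r) (dd : ℕ → ℝ) (t : ℕ) (x : ℕ → ℕ) : Finset ℕ :=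
  if t < H then (good χ T W φ t t x).filter fun y => ∀ t', t < t' → t' < t + T → t' < H →
    Pr χ T W φ dd t' (t' - (t + 1)) (t + 1) (Function.update x t y) ≤
      (2 * T / dd t ^ (T - 1)) * Pr χ T W φ dd t' (t' - t) t x else ∅

private theorem mem_SS {T H : ℕ} {χ : ℕ → ℕ → Fin r} {W : ℕ → Finset ℕ}
    {φ : ℕ → ℕ → Fin r} {dd : ℕ → ℝ} {t : ℕ} {x : ℕ → ℕ} {y : ℕ} :
    y ∈ SS T H χ W φ dd t x ↔ t < H ∧ y ∈ good χ T W φ t t x ∧
      ∀ t', t < t' → t' < t + T → t' < H →
        Pr χ T W φ dd t' (t' - (t + 1)) (t + 1) (Function.update x t y) ≤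
          (2 * T / dd t ^ (T - 1)) * Pr χ T W φ dd t' (t' - t) t x := by
  classical
  unfold SS
  split_ifs with h
  · rw [Finset.mem_filter]
    exact ⟨fun h1 => ⟨h, h1.1, h1.2⟩, fun h1 => ⟨h1.2.1, h1.2.2⟩⟩
  · exact ⟨fun h1 => absurd h1 (Finset.notMem_empty _), fun h1 => absurd h1.1 h⟩

private theorem good_sub (χ : ℕ → ℕ → Fin r) (T : ℕ) (W : ℕ → Finset ℕ)
    (φ : ℕ → ℕ → Fin r) (t q : ℕ) (x : ℕ → ℕ) : good χ T W φ t q x ⊆ W t := by
  classical
  unfold good
  exact Finset.filter_subset _ _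

private theorem SS_dep {T H : ℕ} (hT : 2 ≤ T) (χ : ℕ → ℕ → Fin r) (W : ℕ → Finset ℕ)
    (φ : ℕ → ℕ → Fin r) (dd : ℕ → ℝ) : Mem (SS T H χ W φ dd) (T - 1) := by
  intro t x x' h
  have hg : good χ T W φ t t x = good χ T W φ t t x' :=
    good_dep χ T W φ t fun s hs hsT => h s hs (by omega)
  ext y
  rw [mem_SS, mem_SS, hg]
  refine and_congr_right fun _ => and_congr_right fun _ => ?_
  refine forall_congr' fun t' => forall_congr' fun h1 => forall_congr' fun h2 =>
    forall_congr' fun h3 => ?_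
  have e1 : Pr χ T W φ dd t' (t' - (t + 1)) (t + 1) (Function.update x t y) =
      Pr χ T W φ dd t' (t' - (t + 1)) (t + 1) (Function.update x' t y) := by
    refine Pr_dep χ T W φ dd t' _ _ _ _ (by omega) fun s hs hsT => ?_
    by_cases hst : s = t
    · subst hst
      rw [Function.update_self, Function.update_self]
    · rw [Function.update_of_ne hst, Function.update_of_ne hst]
      exact h s (by omega) (by omega)
  have e2 : Pr χ T W φ dd t' (t' - t) t x = Pr χ T W φ dd t' (t' - t) t x' :=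
    Pr_dep χ T W φ dd t' _ _ _ _ (by omega) fun s hs hsT => h s hs (by omega)
  rw [e1, e2]

/-- Markov: few `y` violate the condition for `t'` -/
private theorem markov {χ : ℕ → ℕ → Fin r} {T : ℕ} {W : ℕ → Finset ℕ}
    {φ : ℕ → ℕ → Fin r} {dd : ℕ → ℝ} {t' t : ℕ} (htt : t < t') (hne : (W t).Nonempty)
    {R : ℝ} (hR : 0 < R) (x : ℕ → ℕ) (Y : Finset ℕ) (hY : Y ⊆ W t)
    (h : ∀ y ∈ Y, R * Pr χ T W φ dd t' (t' - t) t x <
      Pr χ T W φ dd t' (t' - (t + 1)) (t + 1) (Function.update x t y)) :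
    (Y.card : ℝ) ≤ (W t).card / R := by
  have e : t' - t = (t' - (t + 1)) + 1 := by omega
  have hW : (0 : ℝ) < (W t).card := by exact_mod_cast hne.card_pos
  set P := Pr χ T W φ dd t' (t' - t) t x with hP
  have h1 : P * (W t).card =
      ∑ y ∈ W t, Pr χ T W φ dd t' (t' - (t + 1)) (t + 1) (Function.update x t y) := by
    rw [hP, e, Pr_succ, div_mul_cancel₀ _ hW.ne']
  have h2 : ∑ y ∈ Y, Pr χ T W φ dd t' (t' - (t + 1)) (t + 1) (Function.update x t y) ≤
      P * (W t).card := by
    rw [h1]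
    exact Finset.sum_le_sum_of_subset_of_nonneg hY fun y _ _ => Pr_nonneg _ _ _ _ _ _ _ _ _
  have hP0 : 0 ≤ P := Pr_nonneg _ _ _ _ _ _ _ _ _
  rcases hP0.eq_or_lt with h0 | h0
  · have hYe : Y = ∅ := by
      by_contra hne'
      obtain ⟨y, hy⟩ := Finset.nonempty_iff_ne_empty.2 hne'
      have h3 := h y hy
      have h4 : Pr χ T W φ dd t' (t' - (t + 1)) (t + 1) (Function.update x t y) ≤
          ∑ y ∈ Y, Pr χ T W φ dd t' (t' - (t + 1)) (t + 1) (Function.update x t y) :=
        Finset.single_le_sum (f := fun y =>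
          Pr χ T W φ dd t' (t' - (t + 1)) (t + 1) (Function.update x t y))
          (fun y _ => Pr_nonneg _ _ _ _ _ _ _ _ _) hy
      rw [← h0] at h2 h3
      rw [mul_zero] at h3
      rw [zero_mul] at h2
      linarith
    rw [hYe, Finset.card_empty, Nat.cast_zero]
    positivity
  · have h3 : (Y.card : ℝ) * (R * P) ≤
        ∑ y ∈ Y, Pr χ T W φ dd t' (t' - (t + 1)) (t + 1) (Function.update x t y) := by
      rw [← nsmul_eq_mul, ← Finset.sum_const]
      exact Finset.sum_le_sum fun y hy => (h y hy).le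
    have h4 := h3.trans h2
    rw [le_div_iff₀ hR]
    have h5 : (Y.card * R) * P ≤ (W t).card * P := by
      calc (Y.card * R : ℝ) * P = Y.card * (R * P) := by ring
        _ ≤ P * (W t).card := h4
        _ = (W t).card * P := by ring
    exact le_of_mul_le_mul_right h5 h0

/-- Successor sets.  Let `P t' t x = av (fun i _ => W i) (exc t') (t' - t) t x` be the probability
that `exc t'` occurs if the coordinates `t, ..., t' - 1` are chosen uniformly.  Define
`S t x` (for `t < H`; empty otherwise) as the set of the `y ∈ good t t x` such that for all `t'`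
with `t < t' < t + T`, `t' < H` we have
`P t' (t + 1) (update x t y) ≤ (2 * T / dd t ^ (T - 1)) * P t' t x`.

Memory `T - 1` : `exc t'` depends only on the coordinates `s` with `t' < s + T`, `s < t'`
(`av_indep`-like argument by induction).

Cardinality: let `IsCh S t x`, `t < H`.  Let `q = t - (T - 1)` (truncated).  `av_exc_le` with
this `q` (no `s < q` has `t < s + T`, so `good t q x = W t`) gives
`P t q x ≤ (T - 1) * rho T (dd t)`, and by the definition of `S` the probability `P t i x`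
increases from `i` to `i + 1` (`q ≤ i < t`) at most by the factor `2 * T / dd i ^ (T - 1)`, where
`dd i ≥ dd t`.  So `P t t x < 1` by `rho_lt`, hence `x ∉ exc t` (it is an indicator), that is
`good t t x` has at least `dd t ^ (T - 1) * |W t|` elements.  For every `t'` the average of
`P t' (t + 1) (update x t y)` over `y ∈ W t` is `P t' t x`, hence at most
`dd t ^ (T - 1) / (2 * T) * |W t|` elements `y` violate the condition for `t'` (Markov; if
`P t' t x = 0` then all the terms are `0`), altogether at most half of `dd t ^ (T - 1) * |W t|`. -/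
theorem exists_suc {T H : ℕ} (hT : 2 ≤ T) {χ : ℕ → ℕ → Fin r} {W : ℕ → Finset ℕ}
    {φ : ℕ → ℕ → Fin r} {dd : ℕ → ℝ} (hW : Chain χ T H W φ dd) (hne : ∀ t < H, (W t).Nonempty)
    {D : ℝ} (hD : 0 < D) (hDd : ∀ t < H, D ≤ dd t) :
    ∃ S : ℕ → (ℕ → ℕ) → Finset ℕ, Mem S (T - 1) ∧ (∀ i x, S i x ⊆ W i) ∧
      (∀ i < H, ∀ x, IsCh S i x → D ^ (T - 1) / 2 * (W i).card ≤ (S i x).card) ∧
      ∀ i < H, ∀ x, ∀ y ∈ S i x, ∀ s < i, i < s + T → χ (x s) y = φ (s % T) (i % T) := by
  classical
  refine ⟨SS T H χ W φ dd, SS_dep hT χ W φ dd, fun i x y hy => ?_, fun t ht x hx => ?_,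
    fun i _ x y hy s hs hsT => ?_⟩
  · exact good_sub _ _ _ _ _ _ _ (mem_SS.1 hy).2.1
  · have hdt := hW.pos t ht
    have hTpos : (0 : ℝ) < T := by
      have : (0 : ℝ) < 2 := by norm_num
      have h2 : (2 : ℝ) ≤ T := by exact_mod_cast hT
      linarith
    obtain ⟨q, n, hqn, hqT, hnT, hq0⟩ : ∃ q n : ℕ, q + n = t ∧ t < q + T ∧ n ≤ T - 1 ∧
        ∀ s < q, ¬ t < s + T := by
      refine ⟨t - (T - 1), t - (t - (T - 1)), by omega, by omega, by omega, fun s hs => ?_⟩
      omega
    -- the probability at `q`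
    have hfil : ((range q).filter fun s => t < s + T) = ∅ := by
      rw [Finset.filter_eq_empty_iff]
      intro s hs
      exact hq0 s (Finset.mem_range.1 hs)
    have hgood : good χ T W φ t q x = W t := by
      unfold good
      rw [Finset.filter_true_of_mem]
      intro y _ s hs hsT
      exact absurd hsT (hq0 s hs)
    have hA : Pr χ T W φ dd t n q x ≤ n * rho T (dd t) := by
      refine av_exc_le hT hW hne ht n q x hqn hqT ?_
      rw [hfil, Finset.card_empty, pow_zero, one_mul, hgood]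
    -- the growth
    have hB : ∀ m ≤ n, Pr χ T W φ dd t (n - m) (q + m) x ≤
        (∏ i ∈ range m, (2 * T / (dd (q + i)) ^ (T - 1))) * Pr χ T W φ dd t n q x := by
      intro m
      induction m with
      | zero =>
        intro _
        simp
      | succ m ih =>
        intro hm
        have h1 := ih (by omega)
        have hlt : q + m < t := by omega
        have h2 := (mem_SS.1 (hx (q + m) hlt)).2.2 t hlt (by omega) ht
        rw [Function.update_eq_self] at h2
        have e1 : t - (q + m + 1) = n - (m + 1) := by omega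
        have e2 : t - (q + m) = n - m := by omega
        rw [e1, e2] at h2
        have hdi := hW.pos (q + m) (by omega)
        have hfac : 0 ≤ 2 * (T : ℝ) / dd (q + m) ^ (T - 1) :=
          div_nonneg (by positivity) (pow_nonneg hdi.1.le _)
        rw [Finset.prod_range_succ]
        calc Pr χ T W φ dd t (n - (m + 1)) (q + (m + 1)) x
            ≤ 2 * T / dd (q + m) ^ (T - 1) * Pr χ T W φ dd t (n - m) (q + m) x := h2
          _ ≤ 2 * T / dd (q + m) ^ (T - 1) *
              ((∏ i ∈ range m, (2 * T / (dd (q + i)) ^ (T - 1))) *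
                Pr χ T W φ dd t n q x) := mul_le_mul_of_nonneg_left h1 hfac
          _ = _ := by ring
    have hC := hB n le_rfl
    rw [Nat.sub_self, hqn] at hC
    have hprod : 0 ≤ ∏ i ∈ range n, (2 * (T : ℝ) / (dd (q + i)) ^ (T - 1)) := by
      refine Finset.prod_nonneg fun i hi => ?_
      have hdi := hW.pos (q + i) (by have := Finset.mem_range.1 hi; omega)
      exact div_nonneg (by positivity) (pow_nonneg hdi.1.le _)
    have hrho := rho_pos hT hdt.1
    have hlt1 : Pr χ T W φ dd t 0 t x < 1 := by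
      have h3 := rho_lt hT hdt.1 hdt.2 hnT (fun i => dd (q + i)) (fun i hi =>
        ⟨hW.anti (q + i) t (by omega) ht, (hW.pos (q + i) (by omega)).2⟩)
      have hn1 : (n : ℝ) ≤ (T : ℝ) - 1 := by
        have : n + 1 ≤ T := by omega
        have h4 : ((n + 1 : ℕ) : ℝ) ≤ T := by exact_mod_cast this
        push_cast at h4
        linarith
      calc Pr χ T W φ dd t 0 t x ≤ (∏ i ∈ range n, (2 * T / (dd (q + i)) ^ (T - 1))) *
            Pr χ T W φ dd t n q x := hC
        _ ≤ (∏ i ∈ range n, (2 * T / (dd (q + i)) ^ (T - 1))) * (((T : ℝ) - 1) * rho T (dd t)) :=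
            mul_le_mul_of_nonneg_left (hA.trans (mul_le_mul_of_nonneg_right hn1 hrho.le)) hprod
        _ = ((T : ℝ) - 1) * rho T (dd t) *
            ∏ i ∈ range n, (2 * T / (dd (q + i)) ^ (T - 1)) := by ring
        _ < 1 := h3
    have hnotexc : x ∉ exc χ T W φ dd t := by
      intro hxe
      unfold Pr at hlt1
      rw [av, if_pos hxe] at hlt1
      exact lt_irrefl _ hlt1
    have hgc : dd t ^ (T - 1) * (W t).card ≤ ((good χ T W φ t t x).card : ℝ) := by
      unfold exc at hnotexc
      simp only [Set.mem_setOf_eq, not_lt] at hnotexc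
      exact hnotexc
    -- the violators
    have hdp : 0 < dd t ^ (T - 1) := pow_pos hdt.1 _
    have hR : 0 < 2 * (T : ℝ) / dd t ^ (T - 1) := by positivity
    set Yv : ℕ → Finset ℕ := fun t' => (W t).filter fun y =>
      (2 * T / dd t ^ (T - 1)) * Pr χ T W φ dd t' (t' - t) t x <
        Pr χ T W φ dd t' (t' - (t + 1)) (t + 1) (Function.update x t y) with hYv
    have hYc : ∀ t' ∈ Finset.Ioo t (t + T), ((Yv t').card : ℝ) ≤
        (W t).card / (2 * (T : ℝ) / dd t ^ (T - 1)) := by
      intro t' ht'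
      have h1 := Finset.mem_Ioo.1 ht'
      exact markov h1.1 (hne t ht) hR x (Yv t') (Finset.filter_subset _ _)
        fun y hy => (Finset.mem_filter.1 hy).2
    have hsub : good χ T W φ t t x ⊆ SS T H χ W φ dd t x ∪
        (Finset.Ioo t (t + T)).biUnion Yv := by
      intro y hy
      rw [Finset.mem_union]
      by_cases hyS : y ∈ SS T H χ W φ dd t x
      · exact Or.inl hyS
      · right
        rw [mem_SS] at hyS
        push Not at hyS
        obtain ⟨t', h1, h2, -, h4⟩ := hyS ht hy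
        rw [Finset.mem_biUnion]
        exact ⟨t', Finset.mem_Ioo.2 ⟨h1, h2⟩,
          Finset.mem_filter.2 ⟨good_sub _ _ _ _ _ _ _ hy, h4⟩⟩
    have hcard := (Finset.card_le_card hsub).trans (Finset.card_union_le _ _)
    have hcard2 : ((good χ T W φ t t x).card : ℝ) ≤ (SS T H χ W φ dd t x).card +
        ((Finset.Ioo t (t + T)).biUnion Yv).card := by exact_mod_cast hcard
    have hbi : (((Finset.Ioo t (t + T)).biUnion Yv).card : ℝ) ≤
        ((T : ℝ) - 1) * ((W t).card / (2 * (T : ℝ) / dd t ^ (T - 1))) := by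
      have h1 : (((Finset.Ioo t (t + T)).biUnion Yv).card : ℝ) ≤
          ∑ t' ∈ Finset.Ioo t (t + T), ((Yv t').card : ℝ) := by
        exact_mod_cast Finset.card_biUnion_le
      refine h1.trans ((Finset.sum_le_sum hYc).trans ?_)
      rw [Finset.sum_const, nsmul_eq_mul, Nat.card_Ioo]
      have h2 : t + T - t - 1 = T - 1 := by omega
      rw [h2, Nat.cast_sub (by omega), Nat.cast_one]
    have hWc : (0 : ℝ) ≤ (W t).card := Nat.cast_nonneg _
    have hfin : ((T : ℝ) - 1) * ((W t).card / (2 * (T : ℝ) / dd t ^ (T - 1))) ≤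
        dd t ^ (T - 1) / 2 * (W t).card := by
      have h1 : ((T : ℝ) - 1) * ((W t).card / (2 * (T : ℝ) / dd t ^ (T - 1))) =
          (((T : ℝ) - 1) / T) * (dd t ^ (T - 1) / 2 * (W t).card) := by
        field_simp
      rw [h1]
      refine mul_le_of_le_one_left (by positivity) ?_
      rw [div_le_one hTpos]
      linarith
    have hD1 : D ^ (T - 1) ≤ dd t ^ (T - 1) := pow_le_pow_left₀ hD.le (hDd t ht) _
    have hD2 : D ^ (T - 1) / 2 * (W t).card ≤ dd t ^ (T - 1) / 2 * (W t).card :=
      mul_le_mul_of_nonneg_right (by linarith) hWc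
    have hsum : dd t ^ (T - 1) * (W t).card = dd t ^ (T - 1) / 2 * (W t).card +
        dd t ^ (T - 1) / 2 * (W t).card := by ring
    linarith
  · have h1 := (mem_SS.1 hy).2.1
    unfold good at h1
    exact (Finset.mem_filter.1 h1).2 s hs hsT hs

end Pool.Agent.OrdTW
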