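import Mathlib
import Pool.Agent.Lib.MP_5b01b8_co_TW.Step
import Pool.Agent.Lib.MP_5b01b8_co_TW.Suc

/-!
# MP_5b01b8_co (TW), module Host: the structure found in the coloured host
-/

set_option autoImplicit false

namespace Pool.Agent.OrdTW

open Finset

variable {r : ℕ}

theorem ka_le {T : ℕ} (A : ℕ → ℕ → Finset (Fin r)) : ka T A ≤ T * T * r := by
  have h1 : ∀ i j : ℕ, (if i = j then 0 else (A i j).card) ≤ r := by
    intro i j
    split_ifs
    · exact Nat.zero_le r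
    · have h2 := (A i j).card_le_univ
      rwa [Fintype.card_fin] at h2
  have h2 : ka T A ≤ ∑ _i ∈ Finset.range T, ∑ _j ∈ Finset.range T, r :=
    Finset.sum_le_sum fun i _ => Finset.sum_le_sum fun j _ => h1 i j
  rw [Finset.sum_const, Finset.sum_const, Finset.card_range, smul_eq_mul, smul_eq_mul,
    ← mul_assoc] at h2
  exact h2

/-- `Rk_all` with `k = T * T * r`, all the colours alive (`badp` is empty), and `exists_suc`;
`δ = D ^ (T - 1) / 2`. -/
theorem host (r T : ℕ) (hT : 2 ≤ T) : ∃ (δ : ℝ) (C : ℕ), 0 < δ ∧ δ ≤ 1 ∧ 1 ≤ C ∧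
    ∀ (χ : ℕ → ℕ → Fin r) (X : ℕ → Finset ℕ) (K m : ℕ), (∀ x y, χ x y = χ y x) → 1 ≤ K →
      (∀ i < T, C * K * 2 ^ m ≤ (X i).card) →
      ∃ (V : ℕ → Finset ℕ) (φ : ℕ → ℕ → Fin r) (S : ℕ → (ℕ → ℕ) → Finset ℕ),
        (∀ i j, φ i j = φ j i) ∧ (∀ t < T * m, V t ⊆ X (t % T)) ∧
        (∀ s t, s < t → t < T * m → s % T = t % T → ∀ x ∈ V s, ∀ y ∈ V t, x < y) ∧
        (∀ t < T * m, K * 2 ^ (t / T) ≤ (V t).card) ∧ Mem S (T - 1) ∧ (∀ i x, S i x ⊆ V i) ∧
        (∀ i < T * m, ∀ x, IsCh S i x → δ * (V i).card ≤ (S i x).card) ∧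
        ∀ i < T * m, ∀ x, ∀ y ∈ S i x, ∀ s < i, i < s + T → χ (x s) y = φ (s % T) (i % T) := by
  classical
  obtain ⟨η, κ, D, C, hη0, -, -, -, hD0, hD1, hC1, hR⟩ := Rk_all r T (T * T * r) hT
  refine ⟨D ^ (T - 1) / 2, C, by positivity, ?_, hC1, ?_⟩
  · have h1 : D ^ (T - 1) ≤ 1 := pow_le_one₀ hD0.le hD1
    linarith
  intro χ X K m hχ hK hX
  have hTm : T * m / T = m := Nat.mul_div_cancel_left m (by omega)
  have hbad : ∀ i < T, ∀ j < T, i ≠ j →
      BadLE χ (Finset.univ : Finset (Fin r)) η (X i) (X j) := by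
    intro i _ j _ _
    have h1 : badp χ (Finset.univ : Finset (Fin r)) (X i) (X j) = ∅ := by
      unfold badp
      rw [Finset.filter_eq_empty_iff]
      intro z _ h2
      exact h2 (Finset.mem_univ _)
    unfold BadLE
    rw [h1, Finset.card_empty, Nat.cast_zero]
    positivity
  obtain ⟨W, φ, dd, hW, hDd, hφ, -, hsub, hcard, -⟩ :=
    hR χ X (fun _ _ => Finset.univ) K (T * m) hχ (fun _ _ => rfl) (ka_le _) hK hbad
      (by rw [hTm]; exact hX)
  have hne : ∀ t < T * m, (W t).Nonempty := by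
    intro t ht
    have h1 := hcard t ht
    have h2 : 0 < K * 2 ^ (t / T) := Nat.mul_pos hK (by positivity)
    exact Finset.card_pos.1 (lt_of_lt_of_le h2 h1)
  obtain ⟨S, hS1, hS2, hS3, hS4⟩ := exists_suc hT hW hne hD0 hDd
  exact ⟨W, φ, S, hφ, hsub, hW.order, hcard, hS1, hS2, hS3, hS4⟩

end Pool.Agent.OrdTW
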