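import Mathlib
import Pool.Agent.Lib.MP_5b01b8_co_TW.Emb
import Pool.Agent.Lib.MP_5b01b8_co_TW.Decomp
import Pool.Agent.Lib.MP_5b01b8_co_TW.Cost
import Pool.Agent.Lib.MP_5b01b8_co_TW.Host
import Pool.Agent.Lib.MP_5b01b8_co_h12.Main

/-!
# MP_5b01b8_co (TW), module Final: the theorem
-/

set_option autoImplicit false

namespace Pool.Agent.OrdTW

open Finset

private theorem fine_inj {a lu lv su sv : ℕ} (hsu : su < a) (hsv : sv < a)
    (h : a * lu + su = a * lv + sv) : lu = lv ∧ su = sv := by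
  have h1 : (a * lu + su) / a = lu := by
    rw [Nat.mul_add_div (by omega), Nat.div_eq_of_lt hsu, add_zero]
  have h2 : (a * lv + sv) / a = lv := by
    rw [Nat.mul_add_div (by omega), Nat.div_eq_of_lt hsv, add_zero]
  have h3 : lu = lv := by rw [← h1, ← h2, h]
  subst h3
  exact ⟨rfl, by omega⟩

private theorem tau_mod {T a : ℕ} (ha : 1 ≤ a) {q : ℕ → ℕ} (hq : ∀ i < 2 * a, q i < T) (f : ℕ) :
    tau T a q f % T = q (f % (2 * a)) := by
  unfold tau
  rw [Nat.mul_add_mod, Nat.mod_eq_of_lt (hq _ (Nat.mod_lt _ (by omega)))]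

private theorem mod_ne {a f g : ℕ} (h1 : f < g) (h2 : g < f + 2 * a) :
    f % (2 * a) ≠ g % (2 * a) := by
  intro h
  have h3 : (2 * a) ∣ g - f := (Nat.modEq_iff_dvd' h1.le).1 h
  have := Nat.le_of_dvd (by omega) h3
  omega

private theorem tau_lt {T a h : ℕ} (ha : 1 ≤ a) {q : ℕ → ℕ} (hq : ∀ i < 2 * a, q i < T) {f : ℕ}
    (hf : f < a * (h + 1)) : tau T a q f < T * (h / 2 + 1) := by
  have h1 : f / (2 * a) < h / 2 + 1 := by
    rw [Nat.div_lt_iff_lt_mul (by omega)]
    refine hf.trans_le ?_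
    have h2 : h + 1 ≤ 2 * (h / 2 + 1) := by omega
    calc a * (h + 1) ≤ a * (2 * (h / 2 + 1)) := Nat.mul_le_mul_left _ h2
      _ = (h / 2 + 1) * (2 * a) := by ring
  have h2 := hq _ (Nat.mod_lt f (show 0 < 2 * a by omega))
  unfold tau
  calc T * (f / (2 * a)) + q (f % (2 * a)) < T * (f / (2 * a)) + T := by omega
    _ = T * (f / (2 * a) + 1) := by ring
    _ ≤ T * (h / 2 + 1) := Nat.mul_le_mul_left _ h1

/-- The main theorem.  Let `a, b, B` be the numbers of `exists_layout Δ w`.  `ramsey_pairs` gives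
`T` (at least `2`, enlarge it if necessary) for `2 * a` and `r` colours: every colouring of the
pairs of `Fin T` has an increasing map `Fin (2 * a) → Fin T` with one colour.  `host r T` gives
`δ, C0`.  Let `E = (22 + b) * n`, `h` from the layout, `m = h / 2 + 1`,
`K = ⌊(1 / δ) ^ T * (2 * T) * E / 2 ^ (h / 2)⌋ + 1`; then
`C0 * K * 2 ^ m ≤ 2 * C0 * ((1 / δ) ^ T * (2 * T) * (22 + b) * n + 2 ^ (h / 2)) ≤ C1 * n`, as
`2 ^ (h / 2) ≤ b ^ h ≤ b * n`.  Ordering: `exists_sort` with the key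
`(fine v % (2 a), (fine v / (2 a), tim v))` in the lexicographic product (injective by
`Layout.inj`).  Let `N ≥ T * C1 * n`, and classes `X i = [i * (N / T), (i + 1) * (N / T))`, colour
`χ x y = c (min x y) (max x y)` for `x, y < N` (anything symmetric otherwise).  `host` gives
`W, φ, S`; Ramsey for `φ` gives `q : ℕ → ℕ` and the colour `β` with `φ (q i) (q j) = β` for
`i < j < 2 a` (and for `i ≠ j`, `φ` symmetric).  `embed` (with `τ = tau T a q`, `cost_lt`) gives
`pos`, values `< N`.  `pos u < pos v` if the key of `u` is smaller: different classes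
`q (fine u % (2 a)) < q (fine v % (2 a))`, or the same class and `fine u / (2 a) < fine v / (2 a)`
(order of the windows), or the same fine level and `tim u < tim v`.  Colour of an edge:
`fine u ≠ fine v` (`Layout.inj` and the edge condition, `slot < a`), say `fine u < fine v`, then
`fine v < fine u + 2 a`, and `x`, `y = x (τ (fine v)) ∈ S` give
`χ (pos u) (pos v) = φ (q (fine u % (2 a))) (q (fine v % (2 a))) = β`. -/
theorem linear_of_treewidth (Δ w r : ℕ) (hr : 1 ≤ r) : ∃ C : ℕ,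
    ∀ (n : ℕ) (G : SimpleGraph (Fin n)), (∀ v, (G.neighborSet v).ncard ≤ Δ) →
      HasTreeDecomposition G w →
        ∃ σ : Fin n ≃ Fin n, ∀ N : ℕ, C * n ≤ N → ∀ c : Fin N → Fin N → Fin r,
          ∃ (g : Fin n ↪o Fin N) (b : Fin r),
            ∀ v w : Fin n, G.Adj v w → σ v < σ w → c (g (σ v)) (g (σ w)) = b := by
  classical
  obtain ⟨a, b, B, ha, hb, hB, hlay⟩ := exists_layout Δ w
  obtain ⟨T, hR⟩ := Pool.Agent.OrdPathwidth.ramsey_pairs (2 * a) r hr
  have hT : 2 ≤ T := by
    obtain ⟨S, -, -⟩ := hR fun _ _ => ⟨0, hr⟩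
    have h1 := Fintype.card_le_of_embedding S.toEmbedding
    rw [Fintype.card_fin, Fintype.card_fin] at h1
    omega
  obtain ⟨δ, C0, hδ, hδ1, hC0, hhost⟩ := host r T hT
  obtain ⟨c1, hc1⟩ := exists_nat_ge ((1 / δ) ^ T * (2 * T) * (22 + b))
  refine ⟨T * (2 * C0 * (c1 + b)), fun n G hdeg htd => ?_⟩
  rcases Nat.eq_zero_or_pos n with rfl | hn
  · exact ⟨Equiv.refl _, fun N _ c => ⟨⟨⟨fun x => x.elim0, fun x => x.elim0⟩, fun {x} => x.elim0⟩,
      ⟨0, hr⟩, fun v => v.elim0⟩⟩
  obtain ⟨h, lev, nod, slot, hL, hbh, hsum⟩ := hlay n G hn (fun v N hN => by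
    refine le_trans ?_ (hdeg v)
    rw [← Set.ncard_coe_finset]
    exact Set.ncard_le_ncard (fun u hu => hN u hu) (Set.toFinite _)) htd
  -- levels
  have hfine : ∀ v, fine a lev slot v < a * (h + 1) := by
    intro v
    have h1 := hL.lev_le v
    have h2 := hL.slot_lt v
    show a * lev v + slot v < a * (h + 1)
    have h3 : a * (lev v + 1) ≤ a * (h + 1) := Nat.mul_le_mul_left _ (by omega)
    have h4 : a * (lev v + 1) = a * lev v + a := by ring
    omega
  have hfi : ∀ u v, fine a lev slot u = fine a lev slot v → lev u = lev v ∧ slot u = slot v :=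
    fun u v huv => fine_inj (hL.slot_lt u) (hL.slot_lt v) huv
  -- the ordering
  let key : Fin n → ℕ ×ₗ (ℕ ×ₗ ℕ) := fun v =>
    toLex (fine a lev slot v % (2 * a), toLex (fine a lev slot v / (2 * a), tim B h lev nod v))
  have hkey : Function.Injective key := by
    intro u v huv
    have h1 : fine a lev slot u % (2 * a) = fine a lev slot v % (2 * a) :=
      congrArg (fun p => (ofLex p).1) huv
    have h2 : fine a lev slot u / (2 * a) = fine a lev slot v / (2 * a) :=
      congrArg (fun p => (ofLex (ofLex p).2).1) huv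
    have h3 : tim B h lev nod u = tim B h lev nod v :=
      congrArg (fun p => (ofLex (ofLex p).2).2) huv
    have h4 : fine a lev slot u = fine a lev slot v := by
      rw [← Nat.div_add_mod (fine a lev slot u) (2 * a), h1, h2, Nat.div_add_mod]
    obtain ⟨h5, h6⟩ := hfi u v h4
    refine hL.inj u v h5 ?_ h6
    unfold tim at h3
    rw [h5] at h3
    exact Nat.eq_of_mul_eq_mul_right (Nat.pow_pos (by omega)) h3
  obtain ⟨σ, hσ⟩ := Pool.Agent.OrdPathwidth.exists_sort key hkey
  have hkeylt : ∀ u v, σ u < σ v → fine a lev slot u % (2 * a) < fine a lev slot v % (2 * a) ∨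
      (fine a lev slot u % (2 * a) = fine a lev slot v % (2 * a) ∧
        (fine a lev slot u / (2 * a) < fine a lev slot v / (2 * a) ∨
          (fine a lev slot u / (2 * a) = fine a lev slot v / (2 * a) ∧
            tim B h lev nod u < tim B h lev nod v))) := by
    intro u v huv
    have h1 := (hσ u v).1 huv
    rcases Prod.Lex.toLex_lt_toLex.1 h1 with h2 | ⟨h2, h3⟩
    · exact Or.inl h2
    · rcases Prod.Lex.toLex_lt_toLex.1 h3 with h4 | ⟨h4, h5⟩
      · exact Or.inr ⟨h2, Or.inl h4⟩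
      · exact Or.inr ⟨h2, Or.inr ⟨h4, h5⟩⟩
  refine ⟨σ, fun N hN c => ?_⟩
  -- constants
  set K : ℕ := c1 * n / 2 ^ (h / 2) + 1 with hKdef
  have h2pos : 0 < 2 ^ (h / 2) := Nat.pow_pos (by norm_num)
  have hKpos : 1 ≤ K := by
    rw [hKdef]
    exact Nat.le_add_left _ _
  have hK1 : c1 * n < K * 2 ^ (h / 2) := by
    have h1 := Nat.div_add_mod (c1 * n) (2 ^ (h / 2))
    have h2 := Nat.mod_lt (c1 * n) h2pos
    have h3 : K * 2 ^ (h / 2) = 2 ^ (h / 2) * (c1 * n / 2 ^ (h / 2)) + 2 ^ (h / 2) := by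
      rw [hKdef]
      ring
    omega
  have hK2 : K * 2 ^ (h / 2) ≤ c1 * n + b * n := by
    have h1 : c1 * n / 2 ^ (h / 2) * 2 ^ (h / 2) ≤ c1 * n := Nat.div_mul_le_self _ _
    have h2 : 2 ^ (h / 2) ≤ b * n := by
      calc 2 ^ (h / 2) ≤ 2 ^ h := Nat.pow_le_pow_right (by norm_num) (Nat.div_le_self _ _)
        _ ≤ b ^ h := Nat.pow_le_pow_left hb _
        _ ≤ b * n := hbh
    have h3 : K * 2 ^ (h / 2) = c1 * n / 2 ^ (h / 2) * 2 ^ (h / 2) + 2 ^ (h / 2) := by
      rw [hKdef]
      ring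
    omega
  set M : ℕ := N / T with hMdef
  have hTM : T * M ≤ N := Nat.mul_div_le _ _
  have hCM : C0 * K * 2 ^ (h / 2 + 1) ≤ M := by
    rw [hMdef, Nat.le_div_iff_mul_le (by omega)]
    refine le_trans ?_ hN
    calc C0 * K * 2 ^ (h / 2 + 1) * T = T * (2 * C0) * (K * 2 ^ (h / 2)) := by
          rw [pow_succ]
          ring
      _ ≤ T * (2 * C0) * (c1 * n + b * n) := Nat.mul_le_mul_left _ hK2
      _ = T * (2 * C0 * (c1 + b)) * n := by ring
  -- the host
  let χ : ℕ → ℕ → Fin r := fun x y => if hxy : x < N ∧ y < N then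
    c ⟨min x y, lt_of_le_of_lt (min_le_left _ _) hxy.1⟩ ⟨max x y, max_lt hxy.1 hxy.2⟩ else ⟨0, hr⟩
  have hχs : ∀ x y, χ x y = χ y x := by
    intro x y
    show dite _ _ _ = dite _ _ _
    by_cases hxy : x < N ∧ y < N
    · rw [dif_pos hxy, dif_pos hxy.symm]
      congr 2 <;> simp [min_comm, max_comm]
    · rw [dif_neg hxy, dif_neg (fun h => hxy h.symm)]
  have hχ : ∀ (x y : ℕ) (hx : x < N) (hy : y < N), x < y → χ x y = c ⟨x, hx⟩ ⟨y, hy⟩ := by
    intro x y hx hy hxy
    show dite _ _ _ = _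
    rw [dif_pos ⟨hx, hy⟩]
    congr 2
    · exact min_eq_left hxy.le
    · exact max_eq_right hxy.le
  let X : ℕ → Finset ℕ := fun i => Finset.Ico (i * M) ((i + 1) * M)
  have hX : ∀ i, (X i).card = M := by
    intro i
    show (Finset.Ico (i * M) ((i + 1) * M)).card = M
    rw [Nat.card_Ico, add_mul, one_mul, Nat.add_sub_cancel_left]
  obtain ⟨V, φ, S, hφ, hVX, hord, hVc, hMem, hSV, hSc, hcol⟩ := hhost χ X K (h / 2 + 1) hχs
    hKpos (fun i _ => by rw [hX]; exact hCM)
  obtain ⟨Q, β, hQ⟩ := hR fun i j => φ i j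
  let q : ℕ → ℕ := fun i => if hi : i < 2 * a then (Q ⟨i, hi⟩ : Fin T).1 else 0
  have hqd : ∀ i (hi : i < 2 * a), q i = (Q ⟨i, hi⟩ : Fin T).1 := fun i hi => dif_pos hi
  have hq : ∀ i < 2 * a, q i < T := by
    intro i hi
    rw [hqd i hi]
    exact (Q ⟨i, hi⟩).2
  have hmono : ∀ i j, i < j → j < 2 * a → q i < q j := by
    intro i j hij hj
    rw [hqd i (hij.trans hj), hqd j hj]
    exact Fin.lt_def.1 (Q.strictMono (Fin.lt_def.2 hij))
  have hβ : ∀ i j, i < 2 * a → j < 2 * a → i ≠ j → φ (q i) (q j) = β := by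
    intro i j hi hj hij
    rcases lt_or_gt_of_ne hij with h1 | h1
    · rw [hqd i hi, hqd j hj]
      exact hQ _ _ (Fin.lt_def.2 h1)
    · rw [hφ, hqd i hi, hqd j hj]
      exact hQ _ _ (Fin.lt_def.2 h1)
  have hτ := tau_strictMono ha hq hmono
  have hVpos : ∀ t < T * (h / 2 + 1), 0 < ((V t).card : ℝ) := by
    intro t ht
    have h1 := hVc t ht
    have h2 : 0 < K * 2 ^ (t / T) := Nat.mul_pos hKpos (Nat.pow_pos (by norm_num))
    exact_mod_cast lt_of_lt_of_le h2 h1
  have hcost := cost_lt (T := T) (a := a) (h := h) (K := K) (δ := δ) (E := (22 + b) * n) hT ha hq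
    hδ hδ1 hKpos hVc (fun i => ((occ univ B lev nod i).card : ℝ)) (fun i => by positivity)
    hsum (by
      have h1 : (1 / δ) ^ T * (2 * T) * ((22 + b) * n) ≤ (c1 : ℝ) * n := by
        rw [← mul_assoc]
        exact mul_le_mul_of_nonneg_right hc1 (by positivity)
      refine lt_of_le_of_lt h1 ?_
      exact_mod_cast hK1)
  obtain ⟨pos, hpV, hpt, hpe⟩ := embed hL hB hMem (L := 1 / δ)
    (D := fun t => δ * ((V t).card : ℝ)) ((one_le_div hδ).2 hδ1) hSV
    (fun i hi => mul_pos hδ (hVpos i hi)) hSc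
    (fun i _ => by
      rw [← mul_assoc, one_div, inv_mul_cancel₀ hδ.ne', one_mul]) (tau T a q) hτ
    (fun f hf => tau_lt ha hq hf) hcost
  -- positions
  have hmod : ∀ v, fine a lev slot v % (2 * a) < 2 * a := fun v => Nat.mod_lt _ (by omega)
  have hpX : ∀ v, pos v ∈ X (q (fine a lev slot v % (2 * a))) := by
    intro v
    have h1 := hVX _ (tau_lt ha hq (hfine v)) (hpV v)
    rwa [tau_mod ha hq] at h1
  have hpN : ∀ v, pos v < N := by
    intro v
    have h1 := (Finset.mem_Ico.1 (hpX v)).2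
    refine lt_of_lt_of_le h1 (le_trans ?_ hTM)
    exact Nat.mul_le_mul_right _ (hq _ (hmod v))
  have hpos : ∀ u v, σ u < σ v → pos u < pos v := by
    intro u v huv
    rcases hkeylt u v huv with h1 | ⟨h1, h2 | ⟨h2, h3⟩⟩
    · have h2 := hmono _ _ h1 (hmod v)
      have h3 := (Finset.mem_Ico.1 (hpX u)).2
      have h4 := (Finset.mem_Ico.1 (hpX v)).1
      exact lt_of_lt_of_le h3 (le_trans (Nat.mul_le_mul_right _ h2) h4)
    · refine hord _ _ ?_ (tau_lt ha hq (hfine v)) ?_ _ (hpV u) _ (hpV v)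
      · refine hτ ?_
        rw [← Nat.div_add_mod (fine a lev slot u) (2 * a),
          ← Nat.div_add_mod (fine a lev slot v) (2 * a), h1]
        have h3 := Nat.mul_lt_mul_of_pos_left h2 (show 0 < 2 * a by omega)
        omega
      · rw [tau_mod ha hq, tau_mod ha hq, h1]
    · refine hpt u v ?_ h3
      rw [← Nat.div_add_mod (fine a lev slot u) (2 * a), h1, h2, Nat.div_add_mod]
  -- colours
  have hcolor : ∀ u v, G.Adj u v → fine a lev slot u < fine a lev slot v →
      χ (pos u) (pos v) = β := by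
    intro u v huv hlt
    obtain ⟨x, hx, hxu, hxv⟩ := hpe u v huv hlt
    have hnear : fine a lev slot v < fine a lev slot u + 2 * a := by
      have h1 : lev v ≤ lev u + 1 := by
        rcases hL.edge u v huv with h | h | h <;> omega
      have h2 := hL.slot_lt v
      show a * lev v + slot v < a * lev u + slot u + 2 * a
      have h3 : a * lev v ≤ a * (lev u + 1) := Nat.mul_le_mul_left _ h1
      have h4 : a * (lev u + 1) = a * lev u + a := by ring
      omega
    have h1 := hcol (tau T a q (fine a lev slot v)) (tau_lt ha hq (hfine v)) x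
      (x (tau T a q (fine a lev slot v))) (hx _ (tau_lt ha hq (hfine v)))
      (tau T a q (fine a lev slot u)) (hτ hlt) (tau_near ha hq hmono hlt hnear)
    rw [hxu, hxv, tau_mod ha hq, tau_mod ha hq] at h1
    rw [h1]
    exact hβ _ _ (hmod u) (hmod v) (mod_ne hlt hnear)
  have hne : ∀ u v, G.Adj u v → fine a lev slot u ≠ fine a lev slot v := by
    intro u v huv hf
    obtain ⟨h1, h2⟩ := hfi u v hf
    have h3 : nod u = nod v := by
      rcases hL.edge u v huv with h | h | h
      · exact h.2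
      · omega
      · omega
    exact huv.ne (hL.inj u v h1 h3 h2)
  let g' : Fin n → Fin N := fun p => ⟨pos (σ.symm p), hpN _⟩
  have hg' : StrictMono g' := by
    intro p p' hp
    exact Fin.lt_def.2 (hpos _ _ (by simpa using hp))
  refine ⟨OrderEmbedding.ofStrictMono g' hg', β, fun u v hadj huv => ?_⟩
  have hgv : ∀ v, OrderEmbedding.ofStrictMono g' hg' (σ v) = ⟨pos v, hpN v⟩ := by
    intro v
    show (⟨pos (σ.symm (σ v)), _⟩ : Fin N) = _
    simp only [Equiv.symm_apply_apply]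
  rw [hgv, hgv, ← hχ _ _ (hpN u) (hpN v) (hpos u v huv)]
  rcases lt_or_gt_of_ne (hne u v hadj) with h1 | h1
  · exact hcolor u v hadj h1
  · rw [hχs]
    exact hcolor v u hadj.symm h1

end Pool.Agent.OrdTW
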